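import Pool.Agent.H89.Per.Fin2
import Pool.Agent.H74.Tri.Ext

set_option autoImplicit false

/-! Transport and composition of decision trees; the annulus attempt from the trees of rectangles
(helper89; module TRANSP of MP_2e6055_pr). -/

namespace Pool.Agent.H89.Per

open Classical
open Pool.Agent.H7.UC (Fc adjF)
open Pool.Agent.H74.Tri

/-! ### Trees which ask sites of a set only -/

section
variable {V W : Type}

/-- `t` asks sites of `S` only -/
def Within (S : Finset V) : DT V → Prop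
  | DT.leaf => True
  | DT.ask x k => x ∈ S ∧ ∀ b, Within S (k b)

theorem Once.within {S : Finset V} {t : DT V} (h : Once S t) : ∀ {S' : Finset V}, S ⊆ S' →
    Within S' t := by
  induction h with
  | leaf S => intro S' _; trivial
  | ask S x k hx _ ih =>
    intro S' hS
    exact ⟨hS hx, fun b => ih b ((Finset.erase_subset x S).trans hS)⟩

theorem sim_mem (f : (V → Bool) → Prop) (η : V → Bool) {S : Finset V} (t : DT V) :
    ∀ (ρ σ : V → Option Bool) (y : V), Within S t → sim f η t ρ σ = some y → y ∈ S := by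
  induction t with
  | leaf => intro ρ σ y _ h; simp [sim] at h
  | ask x k ih =>
    intro ρ σ y hw h
    rcases option_cases (ρ x) with h1 | ⟨b, h1⟩
    · by_cases hr : Relevant f ρ x
      · rcases option_cases (σ x) with h2 | ⟨b, h2⟩
        · rw [sim_rel_none f η h1 hr h2] at h
          rw [← Option.some.inj h]
          exact hw.1
        · rw [sim_rel_some f η h1 hr h2] at h
          exact ih _ _ _ _ (hw.2 _) h
      · rw [sim_irr f η h1 hr] at h
        exact ih _ _ _ _ (hw.2 _) h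
    · rw [sim_some f η h1] at h
      exact ih _ _ _ _ (hw.2 _) h

theorem ofNext_onceS [Fintype V] [Nonempty V] {f : (V → Bool) → Prop} {t : DT V} (ht : Decides t f)
    {S : Finset V} (hS : Within S t) (η : V → Bool) : ∀ (n : ℕ) (σ : V → Option Bool),
    Once (S.filter (fun x => σ x = none)) (ofNext f (nextOf f t η) n σ) := by
  intro n
  induction n with
  | zero => intro σ; exact Once.leaf _
  | succ n ih =>
    intro σ
    unfold ofNext
    by_cases hd : Det f σ
    · rw [if_pos hd]; exact Once.leaf _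
    · rw [if_neg hd]
      have h1 := (nextOf_spec ht η (agrees_over σ (fun _ => true)) hd).1
      have h2 : nextOf f t η σ ∈ S := by
        have h3 : nextOf f t η σ = (sim f η t (fun _ => none) σ).getD (Classical.arbitrary V) := rfl
        rcases hs : sim f η t (fun _ => none) σ with _ | y
        · exact absurd (det_of_sim_none ht η hs) hd
        · rw [h3, hs]
          exact sim_mem f η t _ _ y hS hs
      refine Once.ask _ _ _ (by simp [h1, h2]) (fun b => (ih _).mono ?_)
      intro x hx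
      simp only [Finset.mem_filter, Finset.mem_erase] at hx ⊢
      by_cases hxe : x = nextOf f t η σ
      · rw [hxe, Function.update_self] at hx; simp at hx
      · rw [Function.update_of_ne hxe] at hx
        exact ⟨hxe, hx⟩

/-- From paid queries to queries, for trees which ask sites of `S` only. -/
theorem exists_onceS [Fintype V] [Nonempty V] {f : (V → Bool) → Prop} {t : DT V}
    (ht : Decides t f) {S : Finset V} (hS : Within S t) : ∃ t' : DT V, Decides t' f ∧ Once S t' ∧
      avg (fun ω => (qcount t' ω : ℝ)) ≤ avg (fun ω => (paid f t (fun _ => none) ω : ℝ)) := by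
  obtain ⟨η, hη⟩ := exists_eta f t
  have hcard : ∀ ω, need f η t (fun _ => none) (fun _ => none) ω ≤ Fintype.card V := by
    intro ω
    refine le_trans (need_le_card f η t _ _ ω) ?_
    refine le_trans (Finset.card_filter_le _ _) (le_of_eq ?_)
    simp
  refine ⟨ofNext f (nextOf f t η) (Fintype.card V) (fun _ => none), ?_, ?_, ?_⟩
  · intro ω
    exact (ofNext_spec ht η _ _ ω (agrees_none ω) (hcard ω)).2 _ (fun _ _ => rfl) (agrees_none ω)
      (fun x b h => by simp at h)
  · exact (ofNext_onceS ht hS η _ _).mono (Finset.filter_subset _ _)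
  · unfold avg
    refine div_le_div_of_nonneg_right ?_ (by positivity)
    have h1 : ∑ ω : V → Bool, (qcount (ofNext f (nextOf f t η) (Fintype.card V) (fun _ => none)) ω : ℝ) ≤
        ∑ ω : V → Bool, (need f η t (fun _ => none) (fun _ => none) ω : ℝ) :=
      Finset.sum_le_sum (fun ω _ => by
        exact_mod_cast (ofNext_spec ht η _ _ ω (agrees_none ω) (hcard ω)).1)
    refine le_trans h1 ?_
    simp only
    rw [← Nat.cast_sum, ← Nat.cast_sum, Nat.cast_le]
    exact hη

/-! ### Transport along an injection -/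

/-- rename the sites of a tree -/
def mapT (r : V → W) : DT V → DT W
  | DT.leaf => DT.leaf
  | DT.ask x k => DT.ask (r x) (fun b => mapT r (k b))

theorem qcount_map (r : V → W) (t : DT V) : ∀ ω : W → Bool,
    qcount (mapT r t) ω = qcount t (fun y => ω (r y)) := by
  induction t with
  | leaf => intro ω; rfl
  | ask x k ih => intro ω; simp only [mapT, qcount, ih]

theorem final_map {r : V → W} (hr : Function.Injective r) (t : DT V) :
    ∀ (ρ : W → Option Bool) (ω : W → Bool) (y : V),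
      final (mapT r t) ρ ω (r y) = final t (fun y => ρ (r y)) (fun y => ω (r y)) y := by
  induction t with
  | leaf => intro ρ ω y; rfl
  | ask x k ih =>
    intro ρ ω y
    have e : mapT r (DT.ask x k) = DT.ask (r x) (fun b => mapT r (k b)) := rfl
    rw [e]
    rcases option_cases (ρ (r x)) with h | ⟨b, h⟩
    · have h' := final_none (ρ := fun y => ρ (r y)) (x := x) (k := k) (ω := fun y => ω (r y)) h
      rw [final_none h, h', ih]
      congr 1
      funext z
      by_cases hz : z = x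
      · rw [hz]; simp
      · rw [Function.update_of_ne hz, Function.update_of_ne (fun e => hz (hr e))]
    · have h' := final_some (ρ := fun y => ρ (r y)) (x := x) (k := k) (ω := fun y => ω (r y)) h
      rw [final_some h, h', ih]

theorem decides_map {r : V → W} (hr : Function.Injective r) {t : DT V} {g : (V → Bool) → Prop}
    (ht : Decides t g) : Decides (mapT r t) (fun ω => g (fun y => ω (r y))) := by
  intro ω ω1 ω2 h1 h2
  refine ht (fun y => ω (r y)) _ _ ?_ ?_
  · intro y b h
    exact h1 (r y) b (by rw [final_map hr]; exact h)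
  · intro y b h
    exact h2 (r y) b (by rw [final_map hr]; exact h)

theorem within_map (r : V → W) {S : Finset W} (t : DT V) (h : ∀ y, r y ∈ S) :
    Within S (mapT r t) := by
  induction t with
  | leaf => trivial
  | ask x k ih => exact ⟨h x, fun b => ih b⟩

/-! ### Composition -/

/-- run `t`, then `u` -/
def seqT : DT V → DT V → DT V
  | DT.leaf, u => u
  | DT.ask x k, u => DT.ask x (fun b => seqT (k b) u)

theorem qcount_seq (t u : DT V) : ∀ ω, qcount (seqT t u) ω = qcount t ω + qcount u ω := by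
  induction t with
  | leaf => intro ω; simp [seqT, qcount]
  | ask x k ih => intro ω; simp only [seqT, qcount, ih]; ring

theorem final_seq (t u : DT V) : ∀ (ρ : V → Option Bool) (ω : V → Bool),
    final (seqT t u) ρ ω = final u (final t ρ ω) ω := by
  induction t with
  | leaf => intro ρ ω; rfl
  | ask x k ih =>
    intro ρ ω
    have e : seqT (DT.ask x k) u = DT.ask x (fun b => seqT (k b) u) := rfl
    rw [e]
    rcases option_cases (ρ x) with h | ⟨b, h⟩
    · rw [final_none h, final_none h, ih]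
    · rw [final_some h, final_some h, ih]

theorem final_ext' (t : DT V) : ∀ (ρ : V → Option Bool) (ω : V → Bool), Ext ρ (final t ρ ω) := by
  induction t with
  | leaf => intro ρ ω; exact Ext.refl ρ
  | ask x k ih =>
    intro ρ ω
    rcases option_cases (ρ x) with h | ⟨b, h⟩
    · rw [final_none h]
      exact (ext_update _ h).trans (ih _ _ _)
    · rw [final_some h]
      exact ih _ _ _

theorem final_mono (t : DT V) : ∀ (ρ ρ' : V → Option Bool) (ω : V → Bool), Agrees ρ ω →
    Agrees ρ' ω → Ext ρ ρ' → Ext (final t ρ ω) (final t ρ' ω) := by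
  induction t with
  | leaf => intro ρ ρ' ω _ _ h; exact h
  | ask x k ih =>
    intro ρ ρ' ω h1 h2 h3
    rcases option_cases (ρ x) with h | ⟨b, h⟩
    · rw [final_none h]
      rcases option_cases (ρ' x) with h' | ⟨b', h'⟩
      · rw [final_none h']
        refine ih _ _ _ _ (agrees_update h1 x) (agrees_update h2 x) ?_
        intro s c hs
        by_cases hsx : s = x
        · rw [hsx, Function.update_self] at hs ⊢; exact hs
        · rw [Function.update_of_ne hsx] at hs ⊢; exact h3 s c hs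
      · have hb : ω x = b' := h2 x b' h'
        rw [final_some h', ← hb]
        refine ih _ _ _ _ (agrees_update h1 x) h2 ?_
        intro s c hs
        by_cases hsx : s = x
        · rw [hsx, Function.update_self] at hs
          rw [hsx, h', ← hb]; exact hs
        · rw [Function.update_of_ne hsx] at hs; exact h3 s c hs
    · rw [final_some h, final_some (h3 x b h)]
      exact ih _ _ _ _ h1 h2 h3

theorem decides_seq {t u : DT V} {g h : (V → Bool) → Prop} (ht : Decides t g) (hu : Decides u h) :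
    Decides (seqT t u) (fun ω => g ω ∧ h ω) := by
  intro ω
  rw [final_seq]
  have h1 : Det g (final u (final t (fun _ => none) ω) ω) :=
    det_mono (final_ext' u _ ω) (ht ω)
  have h2 : Det h (final u (final t (fun _ => none) ω) ω) :=
    det_mono (final_mono u _ _ ω (agrees_none ω) (final_agrees t _ ω (agrees_none ω))
      (final_ext' t _ ω)) (hu ω)
  intro ω1 ω2 e1 e2
  show (g ω2 ∧ h ω2) ↔ (g ω1 ∧ h ω1)
  rw [h1 ω1 ω2 e1 e2, h2 ω1 ω2 e1 e2]

theorem within_seq {S : Finset V} {t u : DT V} (ht : Within S t) (hu : Within S u) :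
    Within S (seqT t u) := by
  induction t with
  | leaf => exact hu
  | ask x k ih => exact ⟨ht.1, fun b => ih b (ht.2 b)⟩

theorem decides_congr {t : DT V} {g h : (V → Bool) → Prop} (ht : Decides t g)
    (e : ∀ ω, h ω ↔ g ω) : Decides t h := by
  intro ω ω1 ω2 h1 h2
  rw [e, e]
  exact ht ω ω1 ω2 h1 h2

end

/-! ### Rectangles -/

/-- crossing of the box from the left to the right -/
def crF (m n : ℕ) (ω : Fin m × Fin n → Bool) : Prop := CR m n (ext m n ω)

/-- block of faces -/
def blk (x y : ℤ) (a b : ℕ) : Set Fc := {z | (x ≤ z.1 ∧ z.1 < x + a) ∧ (y ≤ z.2 ∧ z.2 < y + b)}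

/-- crossing of a block from the left to the right -/
def HC (x y : ℤ) (a b : ℕ) (Ω : Fc → Bool) : Prop := ∃ u v, u ∈ blk x y a b ∧ v ∈ blk x y a b ∧
  u.1 = x ∧ v.1 = x + a - 1 ∧ Ω u = true ∧ Jn {z | z ∈ blk x y a b ∧ Ω z = true} u v

/-- crossing of a block from the bottom to the top -/
def VC (x y : ℤ) (a b : ℕ) (Ω : Fc → Bool) : Prop := ∃ u v, u ∈ blk x y a b ∧ v ∈ blk x y a b ∧
  u.2 = y ∧ v.2 = y + b - 1 ∧ Ω u = true ∧ Jn {z | z ∈ blk x y a b ∧ Ω z = true} u v

/-- the four long crossings of the annulus `w ≤ |z - p| ≤ 3 w` (sup norm) -/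
def ANN (p : Fc) (w : ℕ) (Ω : Fc → Bool) : Prop :=
  HC (p.1 - 3 * w) (p.2 + w) (6 * w + 1) (2 * w + 1) Ω ∧
  HC (p.1 - 3 * w) (p.2 - 3 * w) (6 * w + 1) (2 * w + 1) Ω ∧
  VC (p.1 - 3 * w) (p.2 - 3 * w) (2 * w + 1) (6 * w + 1) Ω ∧
  VC (p.1 + w) (p.2 - 3 * w) (2 * w + 1) (6 * w + 1) Ω

/-- the annulus `w ≤ |z - p| ≤ 3 w` -/
def annS (p : Fc) (w : ℕ) : Set Fc :=
  {z | ((p.1 - 3 * w ≤ z.1 ∧ z.1 ≤ p.1 + 3 * w) ∧ (p.2 - 3 * w ≤ z.2 ∧ z.2 ≤ p.2 + 3 * w)) ∧
    ((z.1 ≤ p.1 - w ∨ p.1 + w ≤ z.1) ∨ (z.2 ≤ p.2 - w ∨ p.2 + w ≤ z.2))}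

/-- the sites of the annulus -/
noncomputable def annF (m n : ℕ) (p : Fc) (w : ℕ) : Finset (Fin m × Fin n) :=
  Finset.univ.filter (fun s => em s ∈ annS p w)

theorem mem_annF {m n : ℕ} {p : Fc} {w : ℕ} {s : Fin m × Fin n} :
    s ∈ annF m n p w ↔ ((p.1 - 3 * w ≤ s.1.val ∧ s.1.val ≤ p.1 + 3 * w) ∧
      (p.2 - 3 * w ≤ s.2.val ∧ s.2.val ≤ p.2 + 3 * w)) ∧
    (((s.1.val : ℤ) ≤ p.1 - w ∨ p.1 + w ≤ s.1.val) ∨ ((s.2.val : ℤ) ≤ p.2 - w ∨ p.2 + w ≤ s.2.val)) := by
  unfold annF
  rw [Finset.mem_filter]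
  constructor
  · intro h; exact h.2
  · intro h; exact ⟨Finset.mem_univ _, h⟩

/-- a path is transported by a map which preserves adjacency -/
theorem Jn_map {S S' : Set Fc} (φ : Fc → Fc) (hφ : ∀ f g, adjF f g → adjF (φ f) (φ g))
    (hS : ∀ f ∈ S, φ f ∈ S') {u v : Fc} (h : Jn S u v) : Jn S' (φ u) (φ v) := by
  induction h with
  | refl => exact Jn.refl _
  | tail _ h2 ih => exact ih.step (hS _ h2.1) (hφ _ _ h2.2)

theorem adj_tr (x y : ℤ) (f g : Fc) (h : adjF f g) : adjF (f.1 + x, f.2 + y) (g.1 + x, g.2 + y) := by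
  rw [adjF_iff] at h ⊢
  simp only
  omega

theorem adj_sw (x y : ℤ) (f g : Fc) (h : adjF f g) : adjF (f.2 + x, f.1 + y) (g.2 + x, g.1 + y) := by
  rw [adjF_iff] at h ⊢
  simp only
  omega

/-- A crossing in coordinates: `φ` from the box `a x b` onto the block. -/
theorem cr_iff {m n a b : ℕ} (r : Fin a × Fin b → Fin m × Fin n) (φ ψ : Fc → Fc)
    (hφ : ∀ f g, adjF f g → adjF (φ f) (φ g)) (hψ : ∀ f g, adjF f g → adjF (ψ f) (ψ g))
    (hr : ∀ s, em (r s) = φ (em s)) (hφψ : ∀ z, φ (ψ z) = z) (hψφ : ∀ z, ψ (φ z) = z)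
    (ω : Fin m × Fin n → Bool) :
    crF a b (fun s => ω (r s)) ↔ ∃ u v, ψ u ∈ box a b ∧ ψ v ∈ box a b ∧ (ψ u).1 = 0 ∧
      (ψ v).1 = (a : ℤ) - 1 ∧ ext m n ω u = true ∧
      Jn {z | ψ z ∈ box a b ∧ ext m n ω z = true} u v := by
  have key : ∀ z, z ∈ box a b → ext m n ω (φ z) = ext a b (fun s => ω (r s)) z := by
    intro z hz
    obtain ⟨s, rfl⟩ := exists_em hz
    rw [ext_em, ← hr, ext_em]
  constructor
  · rintro ⟨u, v, h1, h2, h3, h4, h5, h6⟩
    refine ⟨φ u, φ v, by rw [hψφ]; exact h1, by rw [hψφ]; exact h2, by rw [hψφ]; exact h3,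
      by rw [hψφ]; exact h4, by rw [key u h1]; exact h5, ?_⟩
    refine Jn_map φ hφ ?_ h6
    rintro f ⟨hf1, hf2⟩
    exact ⟨by rw [hψφ]; exact hf1, by rw [key f hf1]; exact hf2⟩
  · rintro ⟨u, v, h1, h2, h3, h4, h5, h6⟩
    refine ⟨ψ u, ψ v, h1, h2, h3, h4, by rw [← key _ h1, hφψ]; exact h5, ?_⟩
    refine Jn_map ψ hψ ?_ h6
    rintro f ⟨hf1, hf2⟩
    exact ⟨hf1, by rw [← key _ hf1, hφψ]; exact hf2⟩

section
variable {m n a b : ℕ}

/-- the block in the box -/
def subR (x y : ℕ) (hx : x + a ≤ m) (hy : y + b ≤ n) (s : Fin a × Fin b) : Fin m × Fin n :=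
  (⟨x + s.1.val, by have := s.1.isLt; omega⟩, ⟨y + s.2.val, by have := s.2.isLt; omega⟩)

/-- the transposed block in the box -/
def swpR (x y : ℕ) (hx : x + b ≤ m) (hy : y + a ≤ n) (s : Fin a × Fin b) : Fin m × Fin n :=
  (⟨x + s.2.val, by have := s.2.isLt; omega⟩, ⟨y + s.1.val, by have := s.1.isLt; omega⟩)

theorem subR_inj (x y : ℕ) (hx : x + a ≤ m) (hy : y + b ≤ n) :
    Function.Injective (subR (a := a) (b := b) x y hx hy) := by
  intro s t h
  unfold subR at h
  have h1 := congrArg (fun q : Fin m × Fin n => q.1.val) h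
  have h2 := congrArg (fun q : Fin m × Fin n => q.2.val) h
  simp only at h1 h2
  exact Prod.ext (Fin.ext (by omega)) (Fin.ext (by omega))

theorem swpR_inj (x y : ℕ) (hx : x + b ≤ m) (hy : y + a ≤ n) :
    Function.Injective (swpR (a := a) (b := b) x y hx hy) := by
  intro s t h
  unfold swpR at h
  have h1 := congrArg (fun q : Fin m × Fin n => q.1.val) h
  have h2 := congrArg (fun q : Fin m × Fin n => q.2.val) h
  simp only at h1 h2
  exact Prod.ext (Fin.ext (by omega)) (Fin.ext (by omega))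

theorem HC_iff (x y : ℕ) (hx : x + a ≤ m) (hy : y + b ≤ n) (ω : Fin m × Fin n → Bool) :
    HC x y a b (ext m n ω) ↔ crF a b (fun s => ω (subR x y hx hy s)) := by
  rw [cr_iff (subR x y hx hy) (fun z => (z.1 + x, z.2 + y)) (fun z => (z.1 + -(x : ℤ), z.2 + -(y : ℤ)))
    (fun f g => adj_tr _ _ f g) (fun f g => adj_tr _ _ f g)
    (fun s => by unfold Pool.Agent.H74.Tri.em subR; simp only; refine Prod.ext ?_ ?_ <;> simp only <;> push_cast <;> ring)
    (fun z => by simp) (fun z => by simp)]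
  have hb : ∀ z : Fc, z ∈ blk x y a b ↔ (z.1 + -(x : ℤ), z.2 + -(y : ℤ)) ∈ box a b := by
    intro z
    rw [mem_box']
    unfold blk
    simp only [Set.mem_ofPred_eq]
    omega
  unfold HC
  simp only [hb]
  constructor
  · rintro ⟨u, v, h1, h2, h3, h4, h5, h6⟩
    exact ⟨u, v, h1, h2, by omega, by omega, h5, h6⟩
  · rintro ⟨u, v, h1, h2, h3, h4, h5, h6⟩
    exact ⟨u, v, h1, h2, by omega, by omega, h5, h6⟩

theorem VC_iff (x y : ℕ) (hx : x + b ≤ m) (hy : y + a ≤ n) (ω : Fin m × Fin n → Bool) :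
    VC x y b a (ext m n ω) ↔ crF a b (fun s => ω (swpR x y hx hy s)) := by
  rw [cr_iff (swpR x y hx hy) (fun z => (z.2 + x, z.1 + y)) (fun z => (z.2 + -(y : ℤ), z.1 + -(x : ℤ)))
    (fun f g => adj_sw _ _ f g) (fun f g => adj_sw _ _ f g)
    (fun s => by unfold Pool.Agent.H74.Tri.em swpR; simp only; refine Prod.ext ?_ ?_ <;> simp only <;> push_cast <;> ring)
    (fun z => by simp) (fun z => by simp)]
  have hb : ∀ z : Fc, z ∈ blk x y b a ↔ (z.2 + -(y : ℤ), z.1 + -(x : ℤ)) ∈ box a b := by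
    intro z
    rw [mem_box']
    unfold blk
    simp only [Set.mem_ofPred_eq]
    omega
  unfold VC
  simp only [hb]
  constructor
  · rintro ⟨u, v, h1, h2, h3, h4, h5, h6⟩
    exact ⟨u, v, h1, h2, by omega, by omega, h5, h6⟩
  · rintro ⟨u, v, h1, h2, h3, h4, h5, h6⟩
    exact ⟨u, v, h1, h2, by omega, by omega, h5, h6⟩

end

/-- there is a decision tree for the crossing of the `a x b` box with at most `B` queries on average -/
def Has (a b : ℕ) (B : ℝ) : Prop := ∃ t : DT (Fin a × Fin b), Decides t (crF a b) ∧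
  Once Finset.univ t ∧ avg (fun ω => (qcount t ω : ℝ)) ≤ B

theorem Has.mono {a b : ℕ} {B B' : ℝ} (h : Has a b B) (hB : B ≤ B') : Has a b B' := by
  obtain ⟨t, h1, h2, h3⟩ := h
  exact ⟨t, h1, h2, h3.trans hB⟩

/-- The tree of an annulus. -/
theorem ann_dt {m n : ℕ} (p : Fc) (w : ℕ) (h1 : 3 * (w : ℤ) ≤ p.1) (h2 : p.1 + 3 * w < m)
    (h3 : 3 * (w : ℤ) ≤ p.2) (h4 : p.2 + 3 * w < n) {B : ℝ} (hB : Has (6 * w + 1) (2 * w + 1) B) :
    ∃ τ : DT (Fin m × Fin n), Decides τ (fun ω => ANN p w (ext m n ω)) ∧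
      Once (annF m n p w) τ ∧ avg (fun ω => (qcount τ ω : ℝ)) ≤ 4 * B := by
  obtain ⟨t, ht, _, hq⟩ := hB
  obtain ⟨x, hx⟩ : ∃ x : ℕ, (x : ℤ) = p.1 - 3 * w := ⟨(p.1 - 3 * w).toNat, by omega⟩
  obtain ⟨y, hy⟩ : ∃ y : ℕ, (y : ℤ) = p.2 - 3 * w := ⟨(p.2 - 3 * w).toNat, by omega⟩
  have hne : Nonempty (Fin m × Fin n) := ⟨(⟨0, by omega⟩, ⟨0, by omega⟩)⟩
  have a1 : x + (6 * w + 1) ≤ m := by omega
  have a2 : y + (6 * w + 1) ≤ n := by omega
  have b1 : (y + 4 * w) + (2 * w + 1) ≤ n := by omega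
  have b2 : y + (2 * w + 1) ≤ n := by omega
  have b3 : x + (2 * w + 1) ≤ m := by omega
  have b4 : (x + 4 * w) + (2 * w + 1) ≤ m := by omega
  have r1 := subR_inj (a := 6 * w + 1) (b := 2 * w + 1) x (y + 4 * w) a1 b1
  have r2 := subR_inj (a := 6 * w + 1) (b := 2 * w + 1) x y a1 b2
  have r3 := swpR_inj (a := 6 * w + 1) (b := 2 * w + 1) x y b3 a2
  have r4 := swpR_inj (a := 6 * w + 1) (b := 2 * w + 1) (x + 4 * w) y b4 a2
  have d1 := decides_map r1 ht
  have d2 := decides_map r2 ht
  have d3 := decides_map r3 ht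
  have d4 := decides_map r4 ht
  have hd := decides_seq d1 (decides_seq d2 (decides_seq d3 d4))
  have hiff : ∀ ω : Fin m × Fin n → Bool, ANN p w (ext m n ω) ↔
      (crF (6 * w + 1) (2 * w + 1) (fun s => ω (subR x (y + 4 * w) a1 b1 s)) ∧
      crF (6 * w + 1) (2 * w + 1) (fun s => ω (subR x y a1 b2 s)) ∧
      crF (6 * w + 1) (2 * w + 1) (fun s => ω (swpR x y b3 a2 s)) ∧
      crF (6 * w + 1) (2 * w + 1) (fun s => ω (swpR (x + 4 * w) y b4 a2 s))) := by
    intro ω
    rw [← HC_iff, ← HC_iff, ← VC_iff, ← VC_iff]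
    unfold ANN
    have e1 : p.2 + w = ((y + 4 * w : ℕ) : ℤ) := by push_cast; omega
    have e2 : p.1 + w = ((x + 4 * w : ℕ) : ℤ) := by push_cast; omega
    rw [← hx, ← hy, e1, e2]
  have hd' := decides_congr hd hiff
  have hw : ∀ r : Fin (6 * w + 1) × Fin (2 * w + 1) → Fin m × Fin n,
      (∀ s, r s ∈ annF m n p w) → Within (annF m n p w) (mapT r t) :=
    fun r hr => within_map r t hr
  have hwi := within_seq (hw (subR x (y + 4 * w) a1 b1) (by
      intro s
      have e1 := s.1.isLt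
      have e2 := s.2.isLt
      rw [mem_annF]
      simp only [subR]
      push_cast
      omega))
    (within_seq (hw (subR x y a1 b2) (by
      intro s
      have e1 := s.1.isLt
      have e2 := s.2.isLt
      rw [mem_annF]
      simp only [subR]
      push_cast
      omega))
    (within_seq (hw (swpR x y b3 a2) (by
      intro s
      have e1 := s.1.isLt
      have e2 := s.2.isLt
      rw [mem_annF]
      simp only [swpR]
      push_cast
      omega))
      (hw (swpR (x + 4 * w) y b4 a2) (by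
      intro s
      have e1 := s.1.isLt
      have e2 := s.2.isLt
      rw [mem_annF]
      simp only [swpR]
      push_cast
      omega))))
  obtain ⟨τ, hτ1, hτ2, hτ3⟩ := exists_onceS hd' hwi
  refine ⟨τ, hτ1, hτ2, hτ3.trans ?_⟩
  refine le_trans (avg_le (fun ω => Nat.cast_le.2
    (paid_le_qcount _ _ (fun _ => none) ω (agrees_none ω)))) ?_
  simp only [qcount_seq, qcount_map]
  push_cast
  rw [avg_add, avg_add, avg_add]
  rw [avg_pull _ r1 (fun ω => (qcount t ω : ℝ)), avg_pull _ r2 (fun ω => (qcount t ω : ℝ)),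
    avg_pull _ r3 (fun ω => (qcount t ω : ℝ)), avg_pull _ r4 (fun ω => (qcount t ω : ℝ))]
  linarith

end Pool.Agent.H89.Per
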