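import Pool.Agent.H89.Per.Once

set_option autoImplicit false

/-! Explorations whose attempts are closed decision trees, read in the configuration off the explored
sites and in fresh private bits on them (helper89; module ALG2 of MP_2e6055_pr, after the
simplification S1 of helper74). -/

namespace Pool.Agent.H89.Per

open Classical

variable {V : Type}

attribute [-instance] instDecidableEqSum

/-! ### Sites read by a tree -/

/-- the run of the tree on `ω` asks `y` -/
def reads : DT V → (V → Bool) → V → Prop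
  | DT.leaf, _, _ => False
  | DT.ask x k, ω, y => y = x ∨ reads (k (ω x)) ω y

theorem reads_mem {S : Finset V} {t : DT V} (h : Once S t) : ∀ {ω : V → Bool} {y : V},
    reads t ω y → y ∈ S := by
  induction h with
  | leaf S => intro ω y h; exact absurd h id
  | ask S x k hx _ ih =>
    intro ω y h
    rcases h with rfl | h
    · exact hx
    · exact Finset.mem_of_mem_erase (ih _ h)

theorem final_agrees (t : DT V) : ∀ (ρ : V → Option Bool) (ω : V → Bool), Agrees ρ ω →
    Agrees (final t ρ ω) ω := by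
  induction t with
  | leaf => intro ρ ω h; exact h
  | ask x k ih =>
    intro ρ ω h
    rcases option_cases (ρ x) with h1 | ⟨b, h1⟩
    · rw [final_none h1]; exact ih _ _ _ (agrees_update h x)
    · rw [final_some h1]; exact ih _ _ _ h

theorem final_congr (t : DT V) : ∀ (ρ : V → Option Bool) (ω ω' : V → Bool), Agrees ρ ω →
    (∀ y, reads t ω y → ω' y = ω y) → final t ρ ω' = final t ρ ω := by
  induction t with
  | leaf => intro ρ ω ω' _ _; rfl
  | ask x k ih =>
    intro ρ ω ω' hρ h
    have hx : ω' x = ω x := h x (Or.inl rfl)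
    rcases option_cases (ρ x) with h1 | ⟨b, h1⟩
    · rw [final_none h1, final_none h1, hx]
      exact ih _ _ _ _ (agrees_update hρ x) (fun y hy => h y (Or.inr hy))
    · rw [final_some h1, final_some h1]
      have hb : ω x = b := hρ x b h1
      rw [← hb]
      exact ih _ _ _ _ hρ (fun y hy => h y (Or.inr hy))

theorem reads_det {t : DT V} {g : (V → Bool) → Prop} (ht : Decides t g) {ω ω' : V → Bool}
    (h : ∀ y, reads t ω y → ω' y = ω y) : g ω' ↔ g ω := by
  have h1 := final_congr t (fun _ => none) ω ω' (agrees_none ω) h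
  have h2 := final_agrees t (fun _ => none) ω (agrees_none ω)
  have h3 := final_agrees t (fun _ => none) ω' (agrees_none ω')
  rw [h1] at h3
  exact ht ω ω ω' h2 h3

/-! ### Explorations -/

/-- An exploration. Histories are lists of states, the latest first. -/
structure Expl (V : Type) : Type 1 where
  /-- states -/
  S : Type
  init : S
  act : S → Act V S

variable (E : Expl V)

/-- the next history -/
def Expl.stepH (ω : V → Bool) : List E.S → Option (List E.S)
  | [] => none
  | s :: h => ((E.act s).nxt ω).map (fun s' => s' :: s :: h)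

/-- the query at a history -/
def Expl.qH : List E.S → Option V
  | [] => none
  | s :: _ => (E.act s).qry

/-- the history at time `t` (none after the stop) -/
def Expl.hist (ω : V → Bool) : ℕ → Option (List E.S)
  | 0 => some [E.init]
  | t + 1 => (Expl.hist ω t).bind (E.stepH ω)

/-- the site asked at time `t` -/
def Expl.ask (ω : V → Bool) (t : ℕ) : Option V := (E.hist ω t).bind E.qH

/-- the sites explored before the last state of the history -/
noncomputable def Expl.expl : List E.S → Finset V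
  | [] => ∅
  | _ :: h => (h.filterMap (fun s => (E.act s).qry)).toFinset

/-- `η` on the sites of `D`, `ω` off them -/
noncomputable def mix (D : Finset V) (ω η : V → Bool) : V → Bool := fun x => if x ∈ D then η x else ω x

theorem hist_bound {ω : V → Bool} : ∀ (t : ℕ) (h : List E.S), E.hist ω t = some h →
    ∃ s h', h = s :: h' ∧ ∀ y, y ∈ h'.filterMap (fun s => (E.act s).qry) ↔
      ∃ t' < t, E.ask ω t' = some y := by
  intro t
  induction t with
  | zero =>
    intro h hh
    have e : [E.init] = h := Option.some.inj hh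
    refine ⟨E.init, [], e.symm, fun y => ?_⟩
    simp
  | succ t ih =>
    intro h hh
    have e1 : E.hist ω (t + 1) = (E.hist ω t).bind (E.stepH ω) := rfl
    rw [e1] at hh
    obtain ⟨h0, h1, h2⟩ := Option.bind_eq_some_iff.1 hh
    obtain ⟨s, h', rfl, h3⟩ := ih h0 h1
    have h4 : ((E.act s).nxt ω).map (fun s' => s' :: s :: h') = some h := h2
    obtain ⟨s', h5, h6⟩ := Option.map_eq_some_iff.1 h4
    refine ⟨s', s :: h', h6.symm, fun y => ?_⟩
    have h7 : E.ask ω t = (E.act s).qry := by
      unfold Expl.ask; rw [h1]; rfl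
    have h8 : y ∈ (s :: h').filterMap (fun s => (E.act s).qry) ↔
        (E.act s).qry = some y ∨ y ∈ h'.filterMap (fun s => (E.act s).qry) := by
      simp only [List.mem_filterMap, List.mem_cons, exists_eq_or_imp]
    rw [h8, h3, ← h7]
    constructor
    · rintro (h9 | ⟨t', ht', h9⟩)
      · exact ⟨t, by omega, h9⟩
      · exact ⟨t', by omega, h9⟩
    · rintro ⟨t', ht', h9⟩
      rcases Nat.lt_succ_iff_lt_or_eq.1 ht' with h10 | h10
      · exact Or.inr ⟨t', h10, h9⟩
      · rw [h10] at h9; exact Or.inl h9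

theorem mem_expl {ω : V → Bool} {t : ℕ} {h : List E.S} (hh : E.hist ω t = some h) {y : V} :
    y ∈ E.expl h ↔ ∃ t' < t, E.ask ω t' = some y := by
  obtain ⟨s, h', rfl, h1⟩ := hist_bound E t h hh
  unfold Expl.expl
  rw [List.mem_toFinset, h1]

/-! ### The system -/

variable {Lab : Type}

/-- data of the attempts -/
structure Att (V Lab : Type) (E : Expl V) : Type where
  /-- the attempts which start at this history -/
  tr : List E.S → List Lab
  /-- the sites of the attempt -/
  A : Lab → Finset V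
  /-- the square of the attempt -/
  Q : Lab → Finset V
  /-- the sites which are blocked if the attempt succeeds -/
  Bl : Lab → Finset V
  /-- success -/
  g : Lab → (V → Bool) → Prop
  /-- the tree of the attempt -/
  τ : Lab → DT V

/-- where the attempt `κ` reads the site `y` -/
noncomputable def rr (κ : Lab) (D : Finset V) (y : V) : V ⊕ (Lab × V) :=
  if y ∈ D then Sum.inr (κ, y) else Sum.inl y

theorem rr_inj (κ : Lab) (D : Finset V) {y z : V} (h : rr κ D y = rr κ D z) : y = z := by
  unfold rr at h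
  split_ifs at h
  · exact (Prod.mk.inj (Sum.inr.inj h)).2
  · exact Sum.inl.inj h

theorem rr_mix (κ : Lab) (D : Finset V) (ω : V ⊕ (Lab × V) → Bool) :
    (fun y => ω (rr κ D y)) = mix D (fun x => ω (Sum.inl x)) (fun x => ω (Sum.inr (κ, x))) := by
  funext y
  unfold rr mix
  split_ifs <;> rfl

variable {E} (T : Att V Lab E)

/-- the states of the main context -/
def unl {S S' : Type} (h : List (S ⊕ S')) : List S := h.filterMap Sum.getLeft?

theorem unl_map {S S' : Type} (h : List S) : unl (h.map (Sum.inl : S → S ⊕ S')) = h := by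
  unfold unl
  rw [List.filterMap_map]
  have : (Sum.getLeft? ∘ (Sum.inl : S → S ⊕ S')) = some := by funext s; rfl
  rw [this, List.filterMap_some]

/-- the actions of the main context -/
def mact {S : Type} : Act V S → Act (V ⊕ (Lab × V)) (S ⊕ DT V)
  | Act.stop => Act.stop
  | Act.go s => Act.go (Sum.inl s)
  | Act.ask x k => Act.ask (Sum.inl x) (fun b => Sum.inl (k b))

/-- the actions of an attempt -/
noncomputable def tact {S : Type} (κ : Lab) (D : Finset V) : DT V → Act (V ⊕ (Lab × V)) (S ⊕ DT V)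
  | DT.leaf => Act.stop
  | DT.ask x k => Act.ask (rr κ D x) (fun b => Sum.inr (k b))

/-- the actions of the system -/
noncomputable def sact (E : Expl V) :
    Option (Lab × Finset V) → E.S ⊕ DT V → Act (V ⊕ (Lab × V)) (E.S ⊕ DT V)
  | none, Sum.inl s => mact (E.act s)
  | none, Sum.inr _ => Act.stop
  | some _, Sum.inl _ => Act.stop
  | some c, Sum.inr u => tact c.1 c.2 u

/-- blocked variables -/
def Att.blk (κ : Lab) : V ⊕ (Lab × V) → Prop
  | Sum.inl y => y ∈ T.Bl κ
  | Sum.inr _ => True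

/-- success of a context -/
def Att.suc : Option (Lab × Finset V) → (V ⊕ (Lab × V) → Bool) → Prop
  | none, _ => False
  | some c, ω => T.g c.1 (fun y => ω (rr c.1 c.2 y))

/-- attempts of a context -/
noncomputable def Att.trg : Option (Lab × Finset V) → List (E.S ⊕ DT V) →
    List (Option (Lab × Finset V))
  | none, h => (T.tr (unl h)).map (fun κ => some (κ, E.expl (unl h)))
  | some _, _ => []

/-- kills -/
def Att.kil : Option (Lab × Finset V) → (V ⊕ (Lab × V) → Bool) → V ⊕ (Lab × V) → Prop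
  | none, _, _ => False
  | some c, ω, x => T.suc (some c) ω ∧ T.blk c.1 x

/-- first state -/
def Att.ini : Option (Lab × Finset V) → E.S ⊕ DT V
  | none => Sum.inl E.init
  | some c => Sum.inr (T.τ c.1)

/-- level -/
def lvl : Option (Lab × Finset V) → ℕ
  | none => 1
  | some _ => 0

/-- The exploration system. -/
noncomputable abbrev Att.sys : Sys (V ⊕ (Lab × V)) where
  C := Option (Lab × Finset V)
  S := E.S ⊕ DT V
  init := T.ini
  act := sact E
  trig := T.trg
  lev := lvl
  trig_lev := by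
    intro c h c' hc'
    rcases c with _ | c
    · obtain ⟨κ, _, rfl⟩ := List.mem_map.1 hc'
      exact Nat.zero_lt_one
    · exact absurd hc' (List.not_mem_nil)
  kill := fun _ _ c' ω x => T.kil c' ω x

/-! #### The main context -/

theorem main_hist (ω : V ⊕ (Lab × V) → Bool) : ∀ t : ℕ,
    T.sys.hist ω none t = (E.hist (fun x => ω (Sum.inl x)) t).map (List.map Sum.inl) := by
  intro t
  induction t with
  | zero => rfl
  | succ t ih =>
    have e1 : T.sys.hist ω none (t + 1) = (T.sys.hist ω none t).bind (T.sys.stepH ω none) := rfl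
    have e2 : E.hist (fun x => ω (Sum.inl x)) (t + 1) =
      (E.hist (fun x => ω (Sum.inl x)) t).bind (E.stepH (fun x => ω (Sum.inl x))) := rfl
    rw [e1, e2, ih]
    rcases E.hist (fun x => ω (Sum.inl x)) t with _ | h
    · rfl
    · rcases h with _ | ⟨s, h⟩
      · rfl
      · show T.sys.stepH ω none (List.map Sum.inl (s :: h)) =
          (E.stepH (fun x => ω (Sum.inl x)) (s :: h)).map (List.map Sum.inl)
        have e3 : T.sys.stepH ω none (List.map Sum.inl (s :: h)) =
          ((mact (E.act s) : Act (V ⊕ (Lab × V)) (E.S ⊕ DT V)).nxt ω).map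
            (fun s' => s' :: List.map Sum.inl (s :: h)) := rfl
        have e4 : E.stepH (fun x => ω (Sum.inl x)) (s :: h) =
          ((E.act s).nxt (fun x => ω (Sum.inl x))).map (fun s' => s' :: s :: h) := rfl
        rw [e3, e4]
        rcases E.act s with _ | s' | ⟨x, k⟩ <;> rfl

theorem main_asks (ω : V ⊕ (Lab × V) → Bool) (t : ℕ) :
    T.sys.asks ω none t = (E.ask (fun x => ω (Sum.inl x)) t).map Sum.inl := by
  unfold Sys.asks Expl.ask
  rw [main_hist]
  rcases E.hist (fun x => ω (Sum.inl x)) t with _ | h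
  · rfl
  · rcases h with _ | ⟨s, h⟩
    · rfl
    · show (mact (E.act s) : Act (V ⊕ (Lab × V)) (E.S ⊕ DT V)).qry = ((E.act s).qry).map Sum.inl
      rcases E.act s with _ | s' | ⟨x, k⟩ <;> rfl

/-- the attempts of the exploration at time `t` -/
def Att.trAt (ω : V → Bool) (t : ℕ) : List Lab :=
  match E.hist ω t with
  | none => []
  | some h => T.tr h

theorem mem_trAt {ω : V → Bool} {t : ℕ} {κ : Lab} :
    κ ∈ T.trAt ω t ↔ ∃ h, E.hist ω t = some h ∧ κ ∈ T.tr h := by
  unfold Att.trAt
  rcases E.hist ω t with _ | h <;> simp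

/-- the explored sites at time `t` -/
noncomputable def Expl.explAt (E : Expl V) (ω : V → Bool) (t : ℕ) : Finset V :=
  match E.hist ω t with
  | none => ∅
  | some h => E.expl h

theorem main_trig (ω : V ⊕ (Lab × V) → Bool) (t : ℕ) : T.sys.trigAt ω none t =
    (T.trAt (fun x => ω (Sum.inl x)) t).map
      (fun κ => some (κ, E.explAt (fun x => ω (Sum.inl x)) t)) := by
  unfold Sys.trigAt Att.trAt Expl.explAt
  rw [main_hist]
  rcases E.hist (fun x => ω (Sum.inl x)) t with _ | h
  · rfl
  · have e : unl (List.map (Sum.inl : E.S → E.S ⊕ DT V) h) = h := unl_map h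
    exact congrArg (fun l => (T.tr l).map
      (fun κ => (some (κ, E.expl l) : Option (Lab × Finset V)))) e

theorem trigAt_some (ω : V ⊕ (Lab × V) → Bool) (c : Lab × Finset V) (t : ℕ) :
    T.sys.trigAt ω (some c) t = [] := by
  unfold Sys.trigAt
  rcases T.sys.hist ω (some c) t with _ | h <;> rfl

theorem killed_some (ω : V ⊕ (Lab × V) → Bool) (c : Lab × Finset V) (t : ℕ) (x : V ⊕ (Lab × V)) :
    ¬ T.sys.killed ω (some c) t x := by
  rintro ⟨t', _, h, _, c', hc', _⟩
  exact absurd hc' (List.not_mem_nil)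

/-! #### The attempts -/

/-- invariant of the path of an attempt -/
theorem att_inv (ω : V ⊕ (Lab × V) → Bool) (c : Lab × Finset V) (hon : Once (T.A c.1) (T.τ c.1)) :
    ∀ (t : ℕ) (h : List (E.S ⊕ DT V)), T.sys.hist ω (some c) t = some h →
    ∃ u h', h = Sum.inr u :: h' ∧
      Once ((T.A c.1).filter (fun y => ∀ t' < t, T.sys.asks ω (some c) t' ≠ some (rr c.1 c.2 y))) u ∧
      t + qcount u (fun y => ω (rr c.1 c.2 y)) = qcount (T.τ c.1) (fun y => ω (rr c.1 c.2 y)) := by
  intro t
  induction t with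
  | zero =>
    intro h hh
    have e : [Sum.inr (T.τ c.1)] = h := Option.some.inj hh
    refine ⟨T.τ c.1, [], e.symm, hon.mono (fun y hy => ?_), by omega⟩
    rw [Finset.mem_filter]
    exact ⟨hy, fun t' ht' => absurd ht' (Nat.not_lt_zero _)⟩
  | succ t ih =>
    intro h hh
    have e1 : T.sys.hist ω (some c) (t + 1) = (T.sys.hist ω (some c) t).bind (T.sys.stepH ω (some c)) := rfl
    rw [e1] at hh
    obtain ⟨h0, h1, h2⟩ := Option.bind_eq_some_iff.1 hh
    obtain ⟨u, h', rfl, h3, h4⟩ := ih h0 h1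
    have h5 : ((tact c.1 c.2 u : Act (V ⊕ (Lab × V)) (E.S ⊕ DT V)).nxt ω).map
      (fun s' => s' :: Sum.inr u :: h') = some h := h2
    have h7 : T.sys.asks ω (some c) t = (tact c.1 c.2 u : Act (V ⊕ (Lab × V)) (E.S ⊕ DT V)).qry := by
      unfold Sys.asks; rw [h1]; rfl
    rcases u with _ | ⟨x, k⟩
    · simp [tact, Act.nxt] at h5
    · have h6 : Sum.inr (k (ω (rr c.1 c.2 x))) :: Sum.inr (DT.ask x k) :: h' = h := by
        simpa [tact, Act.nxt] using h5
      refine ⟨k (ω (rr c.1 c.2 x)), _, h6.symm, ?_, ?_⟩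
      · rcases h3 with _ | ⟨_, _, _, hx, hk⟩
        refine (hk (ω (rr c.1 c.2 x))).mono ?_
        intro y hy
        rw [Finset.mem_erase, Finset.mem_filter] at hy
        rw [Finset.mem_filter]
        refine ⟨hy.2.1, fun t' ht' => ?_⟩
        rcases Nat.lt_succ_iff_lt_or_eq.1 ht' with h8 | h8
        · exact hy.2.2 t' h8
        · rw [h8, h7]
          intro h9
          exact hy.1 (rr_inj c.1 c.2 (Option.some.inj h9).symm)
      · simp only [qcount] at h4
        omega

/-- what an attempt asks -/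
theorem att_ask (ω : V ⊕ (Lab × V) → Bool) (c : Lab × Finset V) (hon : Once (T.A c.1) (T.τ c.1))
    (t : ℕ) (x : V ⊕ (Lab × V)) (hx : T.sys.asks ω (some c) t = some x) :
    ∃ y ∈ T.A c.1, x = rr c.1 c.2 y ∧ (∀ t' < t, T.sys.asks ω (some c) t' ≠ some x) ∧
      t < qcount (T.τ c.1) (fun y => ω (rr c.1 c.2 y)) := by
  have hx' : (T.sys.hist ω (some c) t).bind (T.sys.qH (some c)) = some x := hx
  obtain ⟨h, h1, h2⟩ := Option.bind_eq_some_iff.1 hx'
  obtain ⟨u, h', rfl, h3, h4⟩ := att_inv T ω c hon t h h1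
  have h5 : (tact c.1 c.2 u : Act (V ⊕ (Lab × V)) (E.S ⊕ DT V)).qry = some x := h2
  rcases u with _ | ⟨y, k⟩
  · simp [tact, Act.qry] at h5
  · have h6 : rr c.1 c.2 y = x := Option.some.inj h5
    rcases h3 with _ | ⟨_, _, _, hy, _⟩
    rw [Finset.mem_filter] at hy
    refine ⟨y, hy.1, h6.symm, fun t' ht' => by rw [← h6]; exact hy.2 t' ht', ?_⟩
    simp only [qcount] at h4
    omega

theorem att_reads (ω : V ⊕ (Lab × V) → Bool) (c : Lab × Finset V) (y : V) (u : DT V) :
    ∀ (t : ℕ) (h' : List (E.S ⊕ DT V)), T.sys.hist ω (some c) t = some (Sum.inr u :: h') →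
    reads u (fun y => ω (rr c.1 c.2 y)) y → ∃ t' < t + qcount u (fun y => ω (rr c.1 c.2 y)),
      T.sys.asks ω (some c) t' = some (rr c.1 c.2 y) := by
  induction u with
  | leaf => intro t h' _ hr; exact absurd hr id
  | ask x k ih =>
    intro t h' hh hr
    have h7 : T.sys.asks ω (some c) t = some (rr c.1 c.2 x) := by
      unfold Sys.asks; rw [hh]; rfl
    have h8 : T.sys.hist ω (some c) (t + 1) =
        some (Sum.inr (k (ω (rr c.1 c.2 x))) :: Sum.inr (DT.ask x k) :: h') := by
      have e1 : T.sys.hist ω (some c) (t + 1) =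
        (T.sys.hist ω (some c) t).bind (T.sys.stepH ω (some c)) := rfl
      rw [e1, hh]; rfl
    rcases hr with hr | hr
    · refine ⟨t, ?_, by rw [h7, hr]⟩
      simp only [qcount]
      omega
    · obtain ⟨t', ht', h9⟩ := ih _ (t + 1) _ h8 hr
      refine ⟨t', ?_, h9⟩
      simp only [qcount]
      omega

/-! ### Hypotheses and statement -/

/-- `v` is own-killed before time `t`: an attempt tried before with `v` in its square succeeded -/
def Att.own (ω : V ⊕ (Lab × V) → Bool) (t : ℕ) (v : V) : Prop :=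
  ∃ t' < t, ∃ h, E.hist (fun x => ω (Sum.inl x)) t' = some h ∧ ∃ κ ∈ T.tr h, v ∈ T.Q κ ∧
    T.g κ (mix (E.expl h) (fun x => ω (Sum.inl x)) (fun x => ω (Sum.inr (κ, x))))

/-- the hypotheses of ALG2 -/
structure Att.Hyp (f : (V → Bool) → Prop) (N : ℕ) : Prop where
  dec : ∀ κ, Decides (T.τ κ) (T.g κ)
  once : ∀ κ, Once (T.A κ) (T.τ κ)
  geo : ∀ ω η t h κ, E.hist ω t = some h → κ ∈ T.tr h → T.g κ (mix (E.expl h) ω η) →
    ∀ x ∈ T.Bl κ, x ∉ E.expl h → (f (Function.update ω x true) ↔ f (Function.update ω x false))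
  det : ∀ ω ω' : V → Bool, (∀ t < N, ∀ y, E.ask ω t = some y → ω' y = ω y) → (f ω' ↔ f ω)
  inj : ∀ ω t t' x, E.ask ω t = some x → E.ask ω t' = some x → t = t'
  disj : ∀ ω t' t h' h κ1 κ2 v, t' < t → E.hist ω t' = some h' → E.hist ω t = some h →
    κ1 ∈ T.tr h' → κ2 ∈ T.tr h → v ∈ T.Q κ1 → v ∈ T.Q κ2 → ∀ x ∈ T.A κ1, x ∉ T.A κ2
  enc : ∀ ω η t' t h' h κ1 κ2 v, t' < t → E.hist ω t' = some h' → E.hist ω t = some h →
    κ1 ∈ T.tr h' → κ2 ∈ T.tr h → v ∈ T.Q κ1 → v ∈ T.Q κ2 → T.g κ1 (mix (E.expl h') ω η) →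
    ∀ x ∈ T.A κ2, x ∉ E.expl h → x ∈ T.Bl κ1
  own : ∀ κ, T.Q κ ⊆ T.Bl κ
  ne : ∀ κ, (T.Q κ).Nonempty

section
variable {T}

theorem explAt_eq {ω : V → Bool} {t : ℕ} {h : List E.S} (hh : E.hist ω t = some h) :
    E.explAt ω t = E.expl h := by
  unfold Expl.explAt; rw [hh]

theorem mem_main_trig {ω : V ⊕ (Lab × V) → Bool} {t : ℕ} {c : Option (Lab × Finset V)} :
    c ∈ T.sys.trigAt ω none t ↔ ∃ h κ, E.hist (fun x => ω (Sum.inl x)) t = some h ∧ κ ∈ T.tr h ∧
      c = some (κ, E.expl h) := by
  rw [main_trig, List.mem_map]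
  constructor
  · rintro ⟨κ, h1, h2⟩
    obtain ⟨h, h3, h4⟩ := (mem_trAt T).1 h1
    exact ⟨h, κ, h3, h4, by rw [← h2, explAt_eq h3]⟩
  · rintro ⟨h, κ, h1, h2, h3⟩
    exact ⟨κ, (mem_trAt T).2 ⟨h, h1, h2⟩, by rw [h3, explAt_eq h1]⟩

theorem sys_good {f : (V → Bool) → Prop} {N : ℕ} (H : T.Hyp f N) [Fintype V]
    (hN : Fintype.card V ≤ N) : T.sys.Good (lift f) N (fun _ _ => True) := by
  refine ⟨fun _ _ _ _ _ _ _ _ _ => trivial, ?_⟩
  intro ω c t h c' x ρ _ _ hh hc' hk hρ h1 h2
  rcases c with _ | c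
  swap
  · exact absurd hc' (List.not_mem_nil)
  have hm : c' ∈ T.sys.trigAt ω none t := (mem_trigAt T.sys).2 ⟨h, hh, hc'⟩
  obtain ⟨h0, κ, h3, h4, rfl⟩ := mem_main_trig.1 hm
  rcases x with y | a
  swap
  · exact not_relevant_inr f ρ a
  rintro ⟨h5, ω2, h6, h7⟩
  refine h7 ?_
  have hE : ∀ t' < t, ∀ z, E.ask (fun x => ω (Sum.inl x)) t' = some z → ρ (Sum.inl z) ≠ none := by
    intro t' ht' z hz
    refine h1 t' ht' (Sum.inl z) ?_
    rw [main_asks, hz]; rfl
  have hagr : ∀ z, ρ z ≠ none → ω2 z = ω z := by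
    intro z hz
    rcases option_cases (ρ z) with h8 | ⟨b, h8⟩
    · exact absurd h8 hz
    · rw [h6 z b h8, hρ z b h8]
  -- the history
  have hh2 : E.hist (fun x => ω2 (Sum.inl x)) t = some h0 := by
    have h8 : T.sys.hist ω2 none t = T.sys.hist ω none t :=
      hist_congr T.sys t (fun t' ht' x hx => hagr x (h1 t' ht' x hx))
    rw [main_hist, main_hist, h3] at h8
    obtain ⟨h9, h10, h11⟩ := Option.map_eq_some_iff.1 h8
    rw [h10]
    congr 1
    exact List.map_injective_iff.2 Sum.inl_injective h11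
  have hg : T.g κ (fun y => ω2 (rr κ (E.expl h0) y)) := by
    have hgω : T.g κ (fun y => ω (rr κ (E.expl h0) y)) := hk.1
    refine (reads_det (H.dec κ) (fun z hz => ?_)).2 hgω
    refine hagr _ ?_
    obtain ⟨t', ht', h9⟩ := att_reads T ω (κ, E.expl h0) z (T.τ κ) 0 [] rfl hz
    refine h2 t' ?_ _ h9
    have h10 := (H.once κ).card (fun y => ω (rr κ (E.expl h0) y))
    have h11 : (T.A κ).card ≤ Fintype.card V := Finset.card_le_univ _
    simp only at ht'
    omega
  rw [rr_mix] at hg
  have hy : y ∈ T.Bl κ := hk.2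
  have hy' : y ∉ E.expl h0 := by
    intro hy'
    obtain ⟨t', ht', h9⟩ := (mem_expl E h3).1 hy'
    exact hE t' ht' y h9 h5
  have h8 := H.geo _ _ t h0 κ hh2 h4 hg y hy hy'
  have h9 : ∀ b, (fun z : V => Function.update ω2 (Sum.inl y) b (Sum.inl z)) =
      Function.update (fun z => ω2 (Sum.inl z)) y b := by
    intro b
    funext z
    by_cases he : z = y
    · rw [he]; simp
    · rw [Function.update_of_ne (fun e => he (Sum.inl.inj e)), Function.update_of_ne he]
  unfold lift
  rw [h9, h9]
  exact h8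

/-- the class of contexts -/
def Att.Wc (T : Att V Lab E) (c : Option (Lab × Finset V)) : Prop :=
  c = none ∨ ∃ ω t h κ, E.hist ω t = some h ∧ κ ∈ T.tr h ∧ c = some (κ, E.expl h)

/-- the variables of a context -/
noncomputable def Att.Uc (T : Att V Lab E) [Fintype V] [Fintype Lab] :
    Option (Lab × Finset V) → Finset (V ⊕ (Lab × V))
  | none => Finset.univ
  | some c => (T.A c.1).image (rr c.1 c.2)

/-- the square of a context -/
noncomputable def Att.Qc (T : Att V Lab E) : Option (Lab × Finset V) → Finset (V ⊕ (Lab × V))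
  | none => ∅
  | some c => (T.Q c.1).image Sum.inl

theorem mem_Qc {κ : Lab} {D : Finset V} {v : V ⊕ (Lab × V)} (h : v ∈ T.Qc (some (κ, D))) :
    ∃ w ∈ T.Q κ, v = Sum.inl w := by
  obtain ⟨w, hw, e⟩ := Finset.mem_image.1 h
  exact ⟨w, hw, e.symm⟩

theorem suc_loc {f : (V → Bool) → Prop} {N : ℕ} (H : T.Hyp f N) [Fintype V] [Fintype Lab]
    {c : Option (Lab × Finset V)} {ω ω' : V ⊕ (Lab × V) → Bool} (h : ∀ y ∈ T.Uc c, ω' y = ω y)
    (hs : T.suc c ω) : T.suc c ω' := by
  rcases c with _ | c
  · exact hs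
  · refine (reads_det (H.dec c.1) (fun z hz => ?_)).2 hs
    exact h _ (Finset.mem_image_of_mem _ (reads_mem (H.once c.1) hz))

theorem sys_exp {f : (V → Bool) → Prop} {N : ℕ} (H : T.Hyp f N) [Fintype V] [Fintype Lab] :
    T.sys.Exp T.Wc T.Uc T.Qc T.suc where
  step := by
    intro ω c t c' _ hc'
    rcases c with _ | c
    · obtain ⟨h, κ, h1, h2, h3⟩ := mem_main_trig.1 hc'
      exact Or.inr ⟨_, t, h, κ, h1, h2, h3⟩
    · rw [trigAt_some] at hc'; exact absurd hc' (List.not_mem_nil)
  askU := by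
    intro ω c t x _ hx
    rcases c with _ | c
    · exact Finset.mem_univ _
    · obtain ⟨y, hy, rfl, _⟩ := att_ask T ω c (H.once c.1) t x hx
      exact Finset.mem_image_of_mem _ hy
  inj := by
    intro ω c t t' x _ h1 h2
    rcases c with _ | c
    · rw [main_asks] at h1 h2
      obtain ⟨y, h3, h4⟩ := Option.map_eq_some_iff.1 h1
      obtain ⟨y', h5, h6⟩ := Option.map_eq_some_iff.1 h2
      have : y = y' := Sum.inl.inj (h4.trans h6.symm)
      subst this
      exact H.inj _ t t' y h3 h5
    · obtain ⟨_, _, _, h3, _⟩ := att_ask T ω c (H.once c.1) t x h1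
      obtain ⟨_, _, _, h4, _⟩ := att_ask T ω c (H.once c.1) t' x h2
      rcases lt_trichotomy t t' with h5 | h5 | h5
      · exact absurd h1 (h4 t h5)
      · exact h5
      · exact absurd h2 (h3 t' h5)
  sub := by
    intro ω c t c' _ hc'
    rcases c with _ | c
    · exact Finset.subset_univ _
    · rw [trigAt_some] at hc'; exact absurd hc' (List.not_mem_nil)
  fresh := by
    intro ω c t c' t' x _ hc' ht' hx hU
    rcases c with _ | c
    · obtain ⟨h, κ, h1, h2, rfl⟩ := mem_main_trig.1 hc'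
      rw [main_asks] at hx
      obtain ⟨y, h3, rfl⟩ := Option.map_eq_some_iff.1 hx
      obtain ⟨z, _, h4⟩ := Finset.mem_image.1 hU
      have hy : y ∈ E.expl h := (mem_expl E h1).2 ⟨t', ht', h3⟩
      simp only [rr] at h4
      split_ifs at h4 with h5
      exact h5 (by rw [Sum.inl.inj h4]; exact hy)
    · rw [trigAt_some] at hc'; exact absurd hc' (List.not_mem_nil)
  killloc := by
    intro ω ω' c t h c' x _ _ _ h1 hk
    rcases c' with _ | c'
    · exact hk
    · exact ⟨suc_loc H h1 hk.1, hk.2⟩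
  succloc := by
    intro ω ω' c _ h1 hs
    exact suc_loc H h1 hs
  own := by
    intro ω c t h c' v _ hh hc' hv hs
    rcases c' with _ | c'
    · exact hs
    · refine ⟨hs, ?_⟩
      obtain ⟨w, hw, rfl⟩ := mem_Qc hv
      exact H.own _ hw
  disj := by
    intro ω c t t' c1 c2 v _ ht' h1 h2 hv1 hv2 x hx1 hx2
    rcases c with _ | c
    · obtain ⟨g1, κ1, a1, a2, rfl⟩ := mem_main_trig.1 h1
      obtain ⟨g2, κ2, b1, b2, rfl⟩ := mem_main_trig.1 h2
      obtain ⟨w, hw, rfl⟩ := mem_Qc hv1
      obtain ⟨w', hw', e⟩ := mem_Qc hv2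
      have e' : w = w' := Sum.inl.inj e
      subst e'
      obtain ⟨y, hy, e1⟩ := Finset.mem_image.1 hx1
      obtain ⟨z, hz, e2⟩ := Finset.mem_image.1 hx2
      have hyz : y = z := by
        have e3 := e1.trans e2.symm
        simp only [rr] at e3
        split_ifs at e3 with c1 c2
        · exact (Prod.mk.inj (Sum.inr.inj e3)).2
        · exact Sum.inl.inj e3
      subst hyz
      exact H.disj _ t' t g1 g2 κ1 κ2 w ht' a1 b1 a2 b2 hw hw' y hy hz
    · rw [trigAt_some] at h1; exact absurd h1 (List.not_mem_nil)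
  enc := by
    intro ω c t t' h c1 c2 v _ ht' hh h1 h2 hv1 hv2 hs x hx
    rcases c with _ | c
    · have h1' : c1 ∈ T.sys.trigAt ω none t' := (mem_trigAt T.sys).2 ⟨h, hh, h1⟩
      obtain ⟨g1, κ1, a1, a2, rfl⟩ := mem_main_trig.1 h1'
      obtain ⟨g2, κ2, b1, b2, rfl⟩ := mem_main_trig.1 h2
      obtain ⟨w, hw, rfl⟩ := mem_Qc hv1
      obtain ⟨w', hw', e⟩ := mem_Qc hv2
      have e' : w = w' := Sum.inl.inj e
      subst e'
      refine ⟨hs, ?_⟩
      obtain ⟨z, hz, rfl⟩ := Finset.mem_image.1 hx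
      have hs' : T.g κ1 (fun y => ω (rr κ1 (E.expl g1) y)) := hs
      rw [rr_mix] at hs'
      simp only [rr]
      split_ifs with h5
      · trivial
      · exact H.enc _ _ t' t g1 g2 κ1 κ2 w ht' a1 b1 a2 b2 hw hw' hs' z hz h5
    · exact absurd h1 (List.not_mem_nil)
  Qne := by
    intro ω c t c' _ hc'
    rcases c with _ | c
    · obtain ⟨h, κ, h1, h2, rfl⟩ := mem_main_trig.1 hc'
      exact (H.ne κ).image _
    · rw [trigAt_some] at hc'; exact absurd hc' (List.not_mem_nil)
  Qsub := by
    intro ω c t c' _ hc'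
    rcases c with _ | c
    · exact Finset.subset_univ _
    · rw [trigAt_some] at hc'; exact absurd hc' (List.not_mem_nil)

end

/-! ### Averages along an injection -/

theorem avg_pull {W : Type} [Fintype V] [Fintype W] (r : V → W) (hr : Function.Injective r)
    (F : (V → Bool) → ℝ) : avg (fun ω : W → Bool => F (fun y => ω (r y))) = avg F := by
  unfold avg
  have h1 : ∑ ω : W → Bool, F (fun y => ω (r y)) =
      ∑ ω : V → Bool, ∑ _ω' : {w : W // w ∉ Set.range r} → Bool, F ω := by
    rw [← Finset.sum_product']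
    refine Finset.sum_nbij' (fun ω : W → Bool => ((fun y => ω (r y)),
        (fun w : {w : W // w ∉ Set.range r} => ω w.1)))
      (fun p : (V → Bool) × ({w : W // w ∉ Set.range r} → Bool) =>
        fun w => if h : w ∈ Set.range r then p.1 h.choose else p.2 ⟨w, h⟩) ?_ ?_ ?_ ?_ ?_
    · intro p _; simp
    · intro p _; simp
    · intro ω _
      funext w
      simp only
      split_ifs with h
      · rw [h.choose_spec]
      · rfl
    · intro p _
      refine Prod.ext ?_ ?_
      · funext y
        have h : r y ∈ Set.range r := ⟨y, rfl⟩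
        simp only [dif_pos h]
        have h2 : h.choose = y := hr h.choose_spec
        rw [h2]
      · funext w
        simp only [dif_neg w.2]
    · intro p _; rfl
  have hcard : Fintype.card W = Fintype.card V + Fintype.card {w : W // w ∉ Set.range r} := by
    have h2 : Fintype.card {w : W // w ∈ Set.range r} = Fintype.card V :=
      (Fintype.card_congr (Equiv.ofInjective r hr)).symm
    have h3 := Fintype.card_subtype_compl (fun w : W => w ∈ Set.range r)
    have h4 : Fintype.card {w : W // w ∈ Set.range r} ≤ Fintype.card W := Fintype.card_subtype_le _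
    omega
  rw [h1, hcard]
  simp only [Finset.sum_const, nsmul_eq_mul]
  have hc : (Finset.univ : Finset ({w : W // w ∉ Set.range r} → Bool)).card =
      2 ^ Fintype.card {w : W // w ∉ Set.range r} := by simp
  rw [hc, ← Finset.mul_sum, pow_add]
  push_cast
  rw [mul_comm ((2 : ℝ) ^ Fintype.card V), mul_div_mul_left _ _ (by positivity)]

/-! ### The result -/

/-- the part of the cost charged to `v` -/
noncomputable def Att.J [Fintype V] [Fintype Lab] (N : ℕ) (chg : Lab → ℝ) (v : V) : ℝ :=
  avg (fun ω : V ⊕ (Lab × V) → Bool =>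
    (if ∃ t < N, E.ask (fun x => ω (Sum.inl x)) t = some v ∧ ¬ T.own ω (t + 1) v then 1 else 0) +
    ∑ t ∈ Finset.range N, ((T.trAt (fun x => ω (Sum.inl x)) t).map
      (fun κ => if v ∈ T.Q κ ∧ ¬ T.own ω t v then chg κ else 0)).sum)

theorem own_iff [Fintype V] (ω : V ⊕ (Lab × V) → Bool) (t : ℕ) (v : V) :
    T.sys.ownk T.Qc T.suc ω none t (Sum.inl v) ↔ T.own ω t v := by
  constructor
  · rintro ⟨t', ht', c1, h1, h2, h3⟩
    obtain ⟨h, κ, h4, h5, rfl⟩ := mem_main_trig.1 h1
    obtain ⟨w, hw, e⟩ := mem_Qc h2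
    have e' : v = w := Sum.inl.inj e
    subst e'
    refine ⟨t', ht', h, h4, κ, h5, hw, ?_⟩
    rw [← rr_mix]
    exact h3
  · rintro ⟨t', ht', h, h4, κ, h5, hw, h6⟩
    refine ⟨t', ht', some (κ, E.expl h), mem_main_trig.2 ⟨h, κ, h4, h5, rfl⟩,
      Finset.mem_image_of_mem _ hw, ?_⟩
    rw [← rr_mix] at h6
    exact h6

/-- **Module ALG2.** -/
theorem alg2 [Fintype V] [Nonempty V] [Fintype Lab] {f : (V → Bool) → Prop} {N : ℕ}
    (H : T.Hyp f N) (hN : Fintype.card V ≤ N) (chg : Lab → ℝ)
    (hchg : ∀ κ, avg (fun ω => (qcount (T.τ κ) ω : ℝ)) ≤ (T.Q κ).card * chg κ) :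
    ∃ t : DT V, Decides t f ∧ Once Finset.univ t ∧
      avg (fun ω => (qcount t ω : ℝ)) ≤ ∑ v : V, T.J N chg v := by
  obtain ⟨t0, ht0, hp0⟩ := alg T.sys (sys_good H hN) none (fun _ => trivial) (by
    intro ω ρ hρ h1 ω1 ω2 h2 h3
    have key : ∀ ω' : V ⊕ (Lab × V) → Bool, Agrees ρ ω' → (lift f ω' ↔ lift f ω) := by
      intro ω' h'
      refine H.det _ _ (fun t ht y hy => ?_)
      have h4 : ρ (Sum.inl y) ≠ none := h1 t ht (Sum.inl y) (by rw [main_asks, hy]; rfl)
      rcases option_cases (ρ (Sum.inl y)) with h5 | ⟨b, h5⟩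
      · exact absurd h5 h4
      · rw [h' _ b h5, hρ _ b h5]
    rw [key ω1 h2, key ω2 h3])
  obtain ⟨t1, ht1, hp1⟩ := exists_fix ht0
  obtain ⟨t2, ht2, ho2, hp2⟩ := exists_once ht1
  refine ⟨t2, ht2, ho2, le_trans hp2 (le_trans hp1 ?_)⟩
  have h1 : avg (fun ω : V ⊕ (Lab × V) → Bool => (paid (lift f) t0 (fun _ => none) ω : ℝ)) ≤
      avgc T.sys N none := avg_le (fun ω => by exact_mod_cast hp0 ω)
  refine le_trans h1 ?_
  -- the average cost of an attempt
  have hatt : ∀ c : Lab × Finset V, avgc T.sys N (some c) ≤ (T.Q c.1).card * chg c.1 := by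
    intro c
    refine le_trans ?_ (hchg c.1)
    rw [← avg_pull (rr c.1 c.2) (fun y z h => rr_inj c.1 c.2 h)
      (fun ω => (qcount (T.τ c.1) ω : ℝ))]
    refine avg_le (fun ω => ?_)
    rw [Nat.cast_le]
    have hl : T.sys.lev (some c) + 1 = 0 + 1 := rfl
    rw [hl, cost_succ]
    refine le_trans (Finset.sum_le_sum
      (g := fun t => if ∃ x, T.sys.asks ω (some c) t = some x then 1 else 0) (fun t _ => ?_)) ?_
    · rw [trigAt_some, List.map_nil, List.sum_nil, add_zero]
      by_cases h : ∃ x, T.sys.asks ω (some c) t = some x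
      · rw [if_pos h]
        split_ifs
        · exact le_refl _
        · exact Nat.zero_le _
      · rw [if_neg h, if_neg]
        rintro ⟨x, h', _⟩
        exact h ⟨x, h'⟩
    rw [Finset.sum_boole, Nat.cast_id]
    have h3 : (Finset.range N).filter (fun t => ∃ x, T.sys.asks ω (some c) t = some x) ⊆
        Finset.range (qcount (T.τ c.1) (fun y => ω (rr c.1 c.2 y))) := by
      intro t ht
      rw [Finset.mem_filter] at ht
      obtain ⟨_, x, hx⟩ := ht
      obtain ⟨_, _, _, _, h4⟩ := att_ask T ω c (H.once c.1) t x hx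
      exact Finset.mem_range.2 h4
    refine le_trans (Finset.card_le_card h3) (le_of_eq (Finset.card_range _))
  let chg' : Option (Lab × Finset V) → ℝ := fun c => match c with
    | none => 0
    | some c => chg c.1
  have h2 : avgc T.sys N none ≤ ∑ v : V ⊕ (Lab × V), Jv T.sys N T.Qc T.suc chg' none v := by
    refine avg_step (sys_exp H) N chg' (Or.inl rfl) ?_
    intro ω t c' hc'
    obtain ⟨h, κ, h1, h2, rfl⟩ := mem_main_trig.1 hc'
    have h3 : ((T.Qc (some (κ, E.expl h))).card : ℝ) = (T.Q κ).card := by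
      have : (T.Qc (some (κ, E.expl h))) = (T.Q κ).image Sum.inl := rfl
      rw [this, Finset.card_image_of_injective _ Sum.inl_injective]
    rw [h3]
    exact hatt (κ, E.expl h)
  refine le_trans h2 (le_of_eq ?_)
  rw [Fintype.sum_sum_type]
  have h4 : ∑ a : Lab × V, Jv T.sys N T.Qc T.suc chg' none (Sum.inr a) = 0 := by
    refine Finset.sum_eq_zero (fun a _ => ?_)
    unfold Jv
    have h5 : ∀ ω : V ⊕ (Lab × V) → Bool,
        ((if ∃ t < N, T.sys.asks ω none t = some (Sum.inr a) ∧
          ¬ T.sys.ownk T.Qc T.suc ω none (t + 1) (Sum.inr a) then (1 : ℝ) else 0) +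
        ∑ t ∈ Finset.range N, ((T.sys.trigAt ω none t).map
          (fun c' => if Sum.inr a ∈ T.Qc c' ∧ ¬ T.sys.ownk T.Qc T.suc ω none t (Sum.inr a)
            then chg' c' else 0)).sum) = 0 := by
      intro ω
      have h6 : ¬ ∃ t < N, T.sys.asks ω none t = some (Sum.inr a) ∧
          ¬ T.sys.ownk T.Qc T.suc ω none (t + 1) (Sum.inr a) := by
        rintro ⟨t, _, h, _⟩
        rw [main_asks] at h
        obtain ⟨y, _, h7⟩ := Option.map_eq_some_iff.1 h
        simp at h7
      rw [if_neg h6, zero_add]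
      refine Finset.sum_eq_zero (fun t _ => List.sum_eq_zero (fun b hb => ?_))
      obtain ⟨c', hc', rfl⟩ := List.mem_map.1 hb
      obtain ⟨h, κ, _, _, rfl⟩ := mem_main_trig.1 hc'
      rw [if_neg]
      rintro ⟨h7, _⟩
      obtain ⟨w, _, h8⟩ := mem_Qc h7
      simp at h8
    simp only [h5]
    unfold avg
    simp
  rw [h4, add_zero]
  refine Finset.sum_congr rfl (fun v _ => ?_)
  unfold Jv Att.J
  congr 1
  funext ω
  congr 1
  · simp only [own_iff, main_asks]
    refine if_congr ?_ rfl rfl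
    constructor
    · rintro ⟨t, ht, h5, h6⟩
      obtain ⟨y, h7, h8⟩ := Option.map_eq_some_iff.1 h5
      rw [Sum.inl.inj h8] at h7
      exact ⟨t, ht, h7, h6⟩
    · rintro ⟨t, ht, h5, h6⟩
      exact ⟨t, ht, by rw [h5]; rfl, h6⟩
  · refine Finset.sum_congr rfl (fun t _ => ?_)
    rw [main_trig, List.map_map]
    refine congrArg List.sum (List.map_congr_left (fun κ _ => ?_))
    simp only [Function.comp, own_iff]
    refine if_congr ?_ rfl rfl
    have : (Sum.inl v : V ⊕ (Lab × V)) ∈ T.Qc (some (κ, E.explAt (fun x => ω (Sum.inl x)) t)) ↔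
        v ∈ T.Q κ := by
      constructor
      · intro h
        obtain ⟨w, hw, e⟩ := mem_Qc h
        rw [Sum.inl.inj e]
        exact hw
      · intro h
        exact Finset.mem_image_of_mem _ h
    rw [this]

end Pool.Agent.H89.Per
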