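import Pool.Agent.H89.Per.JJM
import Pool.Agent.H74.Tri.Glue
import Pool.Agent.H12.Inst.EVC2
import Pool.Agent.H84.SM.CH
import Pool.Agent.H21.SM.Chain

set_option autoImplicit false

/-! MP_2e6055 (helper89), TOP0: the probability that the exploration of the box comes near a site. -/

namespace Pool.Agent.H89.Per

open Pool.Agent.H7.UC Pool.Agent.H74.Tri Pool.Agent.H75.Lv Pool.Agent.H93.SM
open Pool.Agent.H75.Per (CX CX_mono I I_nonneg I_true I_false)
open Classical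

attribute [-instance] instDecidableEqSum

/-! ### Distances -/

/-- a face off `U` bounds the distance -/
theorem dst_le_of {U : Finset Fc} {z g : Fc} (hg : g ∉ U) {s : ℤ} (h1 : |g.1 - z.1| ≤ s)
    (h2 : |g.2 - z.2| ≤ s) : dst U z ≤ 2 * s := by
  have h3 : ctr g ∉ reg U := by
    intro h
    exact hg (Pool.Agent.H11.UC.mem_reg.1 h g (Pool.Agent.H11.UC.ocell_subset g
      (Pool.Agent.H11.UC.ctr_mem g)))
  have h4 : dst U z ≤ dist (ctr z) (ctr g) := Metric.infDist_le_dist_of_mem h3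
  refine h4.trans ?_
  rw [dist_comm, dist_eq_norm]
  set u : ℝ := (g.1 : ℝ) - z.1 with hu
  set v : ℝ := (g.2 : ℝ) - z.2 with hv
  have h5 : ‖ctr g - ctr z‖ ^ 2 = u ^ 2 + u * v + v ^ 2 := by
    rw [← normSq_lat]
    congr 2
    unfold ctr
    rw [hu, hv]
    push_cast
    ring
  have h6 : |u| ≤ s := by rw [hu]; exact_mod_cast h1
  have h7 : |v| ≤ s := by rw [hv]; exact_mod_cast h2
  have hs : (0 : ℝ) ≤ s := (abs_nonneg u).trans h6
  refine le_of_sq_le_sq ?_ (by linarith)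
  rw [h5]
  have h8 : u ^ 2 ≤ (s : ℝ) ^ 2 := by rw [← sq_abs u]; exact pow_le_pow_left₀ (abs_nonneg _) h6 2
  have h9 : v ^ 2 ≤ (s : ℝ) ^ 2 := by rw [← sq_abs v]; exact pow_le_pow_left₀ (abs_nonneg _) h7 2
  nlinarith [sq_nonneg (u - v)]

/-! ### The exploration of the box -/

variable {c : Cf}

theorem cf_b1 (ω : Finset c.al) : cf (Sum.inl : c.V → c.al) ω = b1 ω := by
  funext x
  unfold cf b1
  exact decide_eq_decide.2 Iff.rfl

theorem comp_zero (hc : c.Ok) (ω : c.V → Bool) {z : Fc} (hz : z ∈ box c.m c.n) :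
    z ∈ un ω 0 ∧ comp (un ω 0) z = box c.m c.n := by
  have h0 := Pool.Agent.H11.Tri.init c.m c.n (ext c.m c.n ω) hc.m hc.n (ext_bc ω)
  have e : un ω 0 = box c.m c.n := by
    ext f
    rw [mem_un]
    constructor
    · exact fun h => h.1
    · intro h
      obtain ⟨x, rfl⟩ := exists_em h
      exact ⟨h, em_not_zero _ x⟩
  rw [e]
  refine ⟨hz, ?_⟩
  ext f
  exact ⟨fun h => comp_sub _ _ h, fun h => mem_comp.2 ⟨h, h0.1.dom.conn z hz f h⟩⟩

/-- a revealed face of the box was asked -/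
theorem asked_of_rev (hc : c.Ok) {ω : Finset c.al} {t : ℕ} {f : Fc} (hf : f ∈ box c.m c.n)
    (h : f ∈ Rev (Om ω) p0 t) : ∃ t' < t, asks ω t' f := by
  obtain ⟨x, rfl⟩ := exists_em hf
  obtain ⟨t', h1, h2, h3⟩ := exists_first h (em_not_zero _ x)
  refine ⟨t', h1, ?_, h2, hf, h3⟩
  exact ins_of_new hc.m hc.n (by
    show ph (orb (Om ω) p0 t') ∈ _
    rw [h2]; exact hf) (by
    show ph (orb (Om ω) p0 t') ∉ _
    rw [h2]; exact h3)

/-- the state at the first visit of the box around `z` -/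
theorem first_visit (hc : c.Ok) {ω : Finset c.al} {z : Fc} {ρ : ℤ} (hρ : 0 ≤ ρ)
    (hB : Bx z ρ ⊆ box c.m c.n) (h : hit (Bx z ρ) ω) :
    ∃ s, z ∈ un (b1 ω) s ∧ dst (comp (un (b1 ω) s) z) z ≤ 2 * ((ρ : ℝ) + 1) ∧
      (∀ t, asks ω t z → s ≤ t) ∧
      ∀ N, ExitAt (box c.m c.n) (Om ω) p0 N → s < N := by
  obtain ⟨f, hf, hfa⟩ := fi_asks h
  set s := fi (Bx z ρ) ω with hs
  have hz : z ∈ Bx z ρ := mem_Bx.2 (by simp [hρ])
  have hfree : ∀ g ∈ Bx z ρ, g ∉ Rev (Om ω) p0 s := by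
    intro g hg hr
    obtain ⟨t', h1, h2⟩ := asked_of_rev hc (hB hg) hr
    have := fi_le (S := Bx z ρ) ⟨g, hg, h2⟩
    omega
  have hun : ∀ g ∈ Bx z ρ, g ∈ un (b1 ω) s := fun g hg => mem_un.2 ⟨hB hg, hfree g hg⟩
  refine ⟨s, hun z hz, ?_, fun t ht => fi_le ⟨z, hz, ht⟩, ?_⟩
  · have hg0 : pl (orb (Om ω) p0 s) ∉ comp (un (b1 ω) s) z := by
      intro h1
      exact (mem_un.1 (comp_sub _ _ h1)).2 ⟨s, le_rfl, Or.inl rfl⟩
    have hadj := adj_hl (orb (Om ω) p0 s)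
    rw [hfa.2.1, adjF_iff] at hadj
    rw [mem_Bx, abs_le, abs_le] at hf
    have h2 := dst_le_of (s := ρ + 1) hg0 (z := z) (by rw [abs_le]; omega) (by rw [abs_le]; omega)
    push_cast at h2
    exact h2
  · intro N hN
    refine le_exit_of_new hc.m hc.n hN ?_ ?_
    · show ph (orb (Om ω) p0 s) ∈ _
      rw [hfa.2.1]; exact hB hf
    · show ph (orb (Om ω) p0 s) ∉ _
      rw [hfa.2.1]; exact hfree f hf

/-- the end of the chain of `z` -/
def EndAt (z : Fc) (stop : Finset Fc → Prop) (ω : c.V → Bool) (t N : ℕ) : Prop :=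
  t ≤ N ∧ ExitAt (box c.m c.n) (ext c.m c.n ω) p0 N ∧ z ∈ un ω t ∧
  (stop (comp (un ω t) z) ∨ ph (orb (ext c.m c.n ω) p0 t) = z ∨ t = N) ∧
  ∀ s, s < t → ¬ stop (comp (un ω s) z) ∧ ph (orb (ext c.m c.n ω) p0 s) ≠ z

theorem EndAt.unique {z : Fc} {stop : Finset Fc → Prop} {ω : c.V → Bool} {t N t' N' : ℕ}
    (h : EndAt z stop ω t N) (h' : EndAt z stop ω t' N') : t = t' := by
  have key : ∀ {t N t' N' : ℕ}, EndAt z stop ω t N → EndAt z stop ω t' N' → ¬ t < t' := by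
    intro t N t' N' h h' hlt
    obtain ⟨h1, h2⟩ := h'.2.2.2.2 t hlt
    have h3 := exit_unique h.2.1 h'.2.1
    rcases h.2.2.2.1 with h4 | h4 | h4
    · exact h1 h4
    · exact h2 h4
    · have := h'.1
      omega
  rcases lt_trichotomy t t' with h1 | h1 | h1
  · exact absurd h1 (key h h')
  · exact h1
  · exact absurd h1 (key h' h)

/-- **The probability to visit the box around `z`, by the chain of `z`.** -/
theorem visit_ev (hc : c.Ok) {z : Fc} {ρ : ℤ} (hρ : 0 ≤ ρ) (hB : Bx z ρ ⊆ box c.m c.n) {r : ℝ}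
    (hr : 2 * ((ρ : ℝ) + 1) < r) :
    CX (Finset.univ : Finset c.al) ∅ ∅ (fun ω => I (hit (Bx z ρ) ω)) ≤
      EV z (fun U' _ _ => dst U' z < r) (fun U' _ _ => if dst U' z < r then (1 : ℝ) else 0)
        (box c.m c.n).card (box c.m c.n) (ext c.m c.n (cf (Sum.inl : c.V → c.al) ∅)) [] := by
  have hz : z ∈ Bx z ρ := mem_Bx.2 (by simp [hρ])
  set stop : Finset Fc → Prop := fun U' => dst U' z < r with hstop
  set F : Finset c.al → ℝ := fun ω => if ∃ t N, EndAt z stop (b1 ω) t N ∧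
    stop (comp (un (b1 ω) t) z) then 1 else 0 with hF
  obtain ⟨h1, h2⟩ := comp_zero hc (cf (Sum.inl : c.V → c.al) ∅) (hB hz)
  obtain ⟨N0, hN0⟩ := exists_exit hc.m hc.n (cf (Sum.inl : c.V → c.al) ∅)
  have hg := glue (E := (Finset.univ : Finset c.al)) (S := ∅) (ω₀ := ∅) (t0 := 0) hc.m hc.n
    Sum.inl_injective (Finset.empty_subset _) hN0 (Nat.zero_le _) h1
    (fun x _ => ⟨Finset.mem_univ _, Finset.notMem_empty _⟩)
    (fun x hx => absurd hx (em_not_zero _ x))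
    (stop := fun U' _ => dst U' z < r)
    (G := fun U' _ => if dst U' z < r then (1 : ℝ) else 0)
    (fun _ _ _ _ => rfl) (fun _ _ _ _ => rfl) (F := F) (by
      intro ω _ _ t N _ h3 h4 h5 h6 h7
      rw [cf_b1] at h4 h5 h6 h7 ⊢
      have hE : EndAt z stop (b1 ω) t N :=
        ⟨h3, h4, h5, h6, fun s hs => h7 s (Nat.zero_le _) hs⟩
      simp only [hF]
      by_cases h8 : dst (comp (un (b1 ω) t) z) z < r
      · rw [if_pos h8, if_pos ⟨t, N, hE, h8⟩]
      · rw [if_neg h8, if_neg]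
        rintro ⟨t', N', h9, h10⟩
        rw [hE.unique h9] at h8
        exact h8 h10)
  rw [h2] at hg
  have hEv : CX (Finset.univ : Finset c.al) ∅ ∅ F = EV z (fun U' _ _ => dst U' z < r)
      (fun U' _ _ => if dst U' z < r then (1 : ℝ) else 0)
      (box c.m c.n).card (box c.m c.n) (ext c.m c.n (cf (Sum.inl : c.V → c.al) ∅)) [] := hg
  rw [← hEv]
  refine CX_mono (fun ω _ _ => ?_)
  by_cases hh : hit (Bx z ρ) ω
  swap
  · rw [I_false hh]
    simp only [hF]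
    split_ifs <;> norm_num
  rw [I_true hh]
  obtain ⟨s, g1, g2, g3, g4⟩ := first_visit hc hρ hB hh
  obtain ⟨N, hN⟩ := exists_exit hc.m hc.n (b1 ω)
  have hsN := g4 N hN
  have hex : ∃ t, stop (comp (un (b1 ω) t) z) ∨ ph (orb (ext c.m c.n (b1 ω)) p0 t) = z ∨ t = N :=
    ⟨s, Or.inl (lt_of_le_of_lt g2 hr)⟩
  have hts : Nat.find hex ≤ s := Nat.find_min' hex (Or.inl (lt_of_le_of_lt g2 hr))
  set t := Nat.find hex with ht
  have hzt : z ∈ un (b1 ω) t := un_anti hts g1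
  have hspec := Nat.find_spec hex
  have hmin : ∀ s' < t, ¬ stop (comp (un (b1 ω) s') z) ∧
      ph (orb (ext c.m c.n (b1 ω)) p0 s') ≠ z := by
    intro s' hs'
    have h5 := Nat.find_min hex hs'
    push Not at h5
    exact ⟨h5.1, h5.2.1⟩
  have hE : EndAt z stop (b1 ω) t N := ⟨by omega, hN, hzt, hspec, hmin⟩
  have hst : stop (comp (un (b1 ω) t) z) := by
    rcases hspec with h5 | h5 | h5
    · exact h5
    · have hzb := hB hz
      have hask : asks ω t z := by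
        have hn := (mem_un.1 hzt).2
        refine ⟨ins_of_new hc.m hc.n ?_ ?_, h5, hzb, hn⟩
        · rw [h5]; exact hzb
        · rw [h5]; exact hn
      have h6 := g3 t hask
      have h7 : t = s := by omega
      rw [h7]
      exact lt_of_le_of_lt g2 hr
    · omega
  simp only [hF]
  rw [if_pos ⟨t, N, hE, hst⟩]

end Pool.Agent.H89.Per
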