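import Pool.Agent.H89.Per.Askm

set_option autoImplicit false

/-! MP_2e6055 (helper89): arithmetic of the squares, boxes and labels of helper75's model. -/

namespace Pool.Agent.H89.Per

open Pool.Agent.H7.UC Pool.Agent.H74.Tri Pool.Agent.H75.Lv
open Classical

variable {c : Cf}

theorem gc_idem {q : ℤ} (hq : 0 < q) (x : ℤ) : gc q (gc q x) = gc q x := by
  unfold gc
  have h : (2 * q * (x / (2 * q)) + q) / (2 * q) = x / (2 * q) := by
    rw [add_comm, Int.add_mul_ediv_left _ _ (by omega)]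
    rw [Int.ediv_eq_zero_of_lt (by omega) (by omega), zero_add]
  rw [h]

theorem gc_near {q : ℤ} (hq : 0 < q) (x : ℤ) : |x - gc q x| ≤ q := by
  unfold gc
  have h1 := Int.emod_add_mul_ediv x (2 * q)
  have h2 := Int.emod_nonneg x (show (2 * q) ≠ 0 by omega)
  have h3 := Int.emod_lt_of_pos x (show 0 < 2 * q by omega)
  rw [abs_le]
  constructor <;> linarith

/-- the numerical facts about one scale -/
theorem scale_num (hc : c.Ok) (j : ℕ) : ∃ A B : ℤ, c.g.h * c.un j = A ∧ c.g.N * c.g.h * c.un j = B ∧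
    (c.un j : ℤ) ≤ A ∧ 100 ≤ (c.un j : ℤ) ∧ 64 * (c.un j : ℤ) ≤ A ∧ 64 * A ≤ B ∧
    c.hs j = A / 8 ∧ c.rho j = 2 * B := by
  have h1 : 100 ≤ (c.un j : ℤ) := by
    have hl : 1 ≤ c.l := by
      have h2 := hc.l
      have h3 := hc.g.h64
      have h4 := hc.g.N8
      have h5 := hc.L
      by_contra h
      have h6 : (c.l : ℤ) = 0 := by omega
      rw [h6] at h2
      have h7 : 0 < 64 * c.L * c.g.N * c.g.h := by positivity
      omega
    have h2 : c.a ≤ c.un j := by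
      unfold Cf.un
      exact Nat.le_mul_of_pos_right _ (pow_pos (by omega) _)
    have := hc.a
    exact_mod_cast this.trans h2
  have h3 := hc.g.h64
  have h4 := hc.g.N8
  refine ⟨_, _, rfl, rfl, ?_, h1, ?_, ?_, rfl, ?_⟩
  · nlinarith
  · nlinarith
  · have : 0 ≤ c.g.h * (c.un j : ℤ) := by positivity
    nlinarith
  · unfold Cf.rho; ring

theorem un_lt (hc : c.Ok) {j k : ℕ} (h : j < k) : 1000 * (c.un j : ℤ) ≤ (c.un k : ℤ) := by
  have hl : (1000 : ℤ) ≤ c.l := by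
    have h2 := hc.l
    have h3 := hc.g.h64
    have h4 := hc.g.N8
    have h5 := hc.L
    have h6 : 4 * 64 ≤ c.L * c.g.N := by nlinarith
    have h7 : 4 * 64 * 64 ≤ c.L * c.g.N * c.g.h := by nlinarith
    nlinarith
  have hl' : 1000 ≤ c.l := by exact_mod_cast hl
  have h1 : c.l ^ (j + 1) ≤ c.l ^ k := Nat.pow_le_pow_right (by omega) h
  have h2 : 1000 * c.un j ≤ c.un k := by
    unfold Cf.un
    calc 1000 * (c.a * c.l ^ j) ≤ c.l * (c.a * c.l ^ j) := Nat.mul_le_mul_right _ hl'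
      _ = c.a * c.l ^ (j + 1) := by rw [pow_succ]; ring
      _ ≤ c.a * c.l ^ k := Nat.mul_le_mul_left _ h1
  exact_mod_cast h2

theorem un_le (hc : c.Ok) {j k : ℕ} (h : j ≤ k) : (c.un j : ℤ) ≤ (c.un k : ℤ) := by
  rcases Nat.lt_or_ge j k with h1 | h1
  · have h2 := un_lt hc h1
    have h3 : (0 : ℤ) ≤ c.un j := by positivity
    omega
  · have : j = k := by omega
    rw [this]

theorem hs_pos (hc : c.Ok) (j : ℕ) : 0 < c.hs j := by
  obtain ⟨A, B, _, _, h1, h2, h3, _, h4, _⟩ := scale_num hc j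
  rw [h4]
  omega

theorem sq_idem (hc : c.Ok) (j : ℕ) (v : Fc) : c.sq j (c.sq j v) = c.sq j v := by
  unfold Cf.sq
  simp only [gc_idem (hs_pos hc j)]

theorem sq_near (hc : c.Ok) (j : ℕ) (v : Fc) : |v.1 - (c.sq j v).1| ≤ c.hs j ∧
    |v.2 - (c.sq j v).2| ≤ c.hs j :=
  ⟨gc_near (hs_pos hc j) _, gc_near (hs_pos hc j) _⟩

theorem use_of_sq {j : ℕ} {v w : Fc} (h : c.sq j v = c.sq j w) (hu : c.use j v) : c.use j w := by
  unfold Cf.use at hu ⊢
  rw [← h]
  exact hu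

theorem use_mono (hc : c.Ok) {j k : ℕ} {v : Fc} (h : c.use k v) (h1 : 1 ≤ j) (h2 : j ≤ k) :
    c.use j v := by
  rcases Nat.lt_or_ge j k with h3 | h3
  swap
  · have : j = k := by omega
    rw [this]; exact h
  refine ⟨h1, h2.trans h.2.1, fun f hf => h.2.2 ?_⟩
  obtain ⟨A, B, eA, eB, a1, a2, a3, a4, a5, a6⟩ := scale_num hc j
  obtain ⟨A', B', eA', eB', b1, b2, b3, b4, b5, b6⟩ := scale_num hc k
  have hu := un_lt hc h3
  have hB : 1000 * B ≤ B' := by
    rw [← eB, ← eB']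
    have h3 := hc.g.h64
    have h4 := hc.g.N8
    have h5 : 0 ≤ c.g.N * c.g.h := by positivity
    nlinarith
  have n1 := sq_near hc j v
  have n2 := sq_near hc k v
  rw [mem_Bx] at hf ⊢
  rw [a6] at hf
  rw [b6]
  rw [a5] at n1
  rw [b5] at n2
  simp only [abs_le] at hf n1 n2 ⊢
  omega

theorem label_use (κ : c.Lab) : c.use (c.sc κ) (c.ct κ) := κ.2.2

theorem label_sq (κ : c.Lab) : c.sq (c.sc κ) (c.ct κ) = c.ct κ := κ.2.1

theorem use_of_label {κ : c.Lab} {v : Fc} (h : c.sq (c.sc κ) v = c.ct κ) : c.use (c.sc κ) v :=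
  use_of_sq (by rw [label_sq, h]) (label_use κ)

theorem label_eq {κ κ' : c.Lab} (h1 : c.sc κ = c.sc κ') (h2 : c.ct κ = c.ct κ') : κ = κ' := by
  unfold Cf.sc at h1
  unfold Cf.ct at h2
  exact Subtype.ext (Prod.ext (Fin.ext h1) (em_inj h2))

theorem exists_label (hc : c.Ok) {j : ℕ} {v : Fc} (h : c.use j v) :
    ∃ κ : c.Lab, c.sc κ = j ∧ c.ct κ = c.sq j v := by
  obtain ⟨A, B, _, _, a1, a2, a3, a4, _, a6⟩ := scale_num hc j
  have hb : c.sq j v ∈ box c.m c.n := by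
    refine h.2.2 (mem_Bx.2 ?_)
    rw [a6]
    simp only [sub_self, abs_zero]
    constructor <;> omega
  obtain ⟨x, hx⟩ := exists_em hb
  refine ⟨⟨(⟨j, by have := h.2.1; omega⟩, x), ?_, ?_⟩, rfl, hx⟩
  · show c.sq j (em x) = em x
    rw [hx, sq_idem hc]
  · show c.use j (em x)
    rw [hx]
    exact use_of_sq (sq_idem hc j v).symm h

theorem En_box (hc : c.Ok) {j : ℕ} {v f : Fc} (h : c.use j v) (hf : f ∈ c.En j (c.sq j v)) :
    f ∈ box c.m c.n := by
  obtain ⟨A, B, eA, _, a1, a2, a3, a4, _, a6⟩ := scale_num hc j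
  refine h.2.2 (mem_Bx.2 ?_)
  unfold Cf.En at hf
  rw [mem_Bx, eA] at hf
  rw [a6]
  exact ⟨hf.1.trans (by omega), hf.2.trans (by omega)⟩

theorem self_En (hc : c.Ok) (j : ℕ) (v : Fc) : v ∈ c.En j (c.sq j v) := by
  obtain ⟨A, B, eA, _, a1, a2, a3, a4, a5, a6⟩ := scale_num hc j
  unfold Cf.En
  rw [mem_Bx, eA]
  have n := sq_near hc j v
  rw [a5] at n
  exact ⟨n.1.trans (by omega), n.2.trans (by omega)⟩

/-- the end boxes of different scales are nested, with room for neighbours -/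
theorem En_big (hc : c.Ok) {j k : ℕ} (hjk : j < k) {v f g : Fc} (hf : f ∈ c.En j (c.sq j v))
    (hfg : adjF f g ∨ f = g) : g ∈ c.En k (c.sq k v) := by
  obtain ⟨A, B, eA, eB, a1, a2, a3, a4, a5, a6⟩ := scale_num hc j
  obtain ⟨A', B', eA', eB', b1, b2, b3, b4, b5, b6⟩ := scale_num hc k
  have hu := un_lt hc hjk
  have hA : 1000 * A ≤ A' := by
    rw [← eA, ← eA']
    have h3 := hc.g.h64
    nlinarith
  have n1 := sq_near hc j v
  have n2 := sq_near hc k v
  have hd : |g.1 - f.1| ≤ 1 ∧ |g.2 - f.2| ≤ 1 := by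
    rcases hfg with h | h
    · rw [adjF_iff] at h
      simp only [abs_le]
      omega
    · rw [h]; simp
  unfold Cf.En at hf ⊢
  rw [mem_Bx, eA] at hf
  rw [mem_Bx, eA']
  rw [a5] at n1
  rw [b5] at n2
  simp only [abs_le] at hf n1 n2 hd ⊢
  omega

end Pool.Agent.H89.Per
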