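import Pool.Agent.H89.Per.Rect

set_option autoImplicit false

/-! Trees for several annuli (helper89; module TRANSP of MP_2e6055_pr). -/

namespace Pool.Agent.H89.Per

open Classical
open Pool.Agent.H7.UC (Fc adjF)
open Pool.Agent.H74.Tri

theorem Within.mono {V : Type} {S S' : Finset V} (hS : S ⊆ S') (t : DT V) (h : Within S t) :
    Within S' t := by
  induction t with
  | leaf => trivial
  | ask x k ih => exact ⟨hS h.1, fun b => ih b (h.2 b)⟩

theorem Once.within' {V : Type} {S : Finset V} {t : DT V} (h : Once S t) : Within S t :=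
  h.within (Finset.Subset.refl S)

/-- Trees for the annuli of a list. -/
theorem anns_aux {m n : ℕ} (w : ℕ) {B : ℝ} (hB : Has (6 * w + 1) (2 * w + 1) B) (L : List Fc)
    (A : Finset (Fin m × Fin n)) (hA : ∀ p ∈ L, annF m n p w ⊆ A)
    (hb : ∀ p ∈ L, 3 * (w : ℤ) ≤ p.1 ∧ p.1 + 3 * w < m ∧ 3 * (w : ℤ) ≤ p.2 ∧ p.2 + 3 * w < n) :
    ∃ τ : DT (Fin m × Fin n), Decides τ (fun ω => ∀ p ∈ L, ANN p w (ext m n ω)) ∧
      Within A τ ∧ avg (fun ω => (qcount τ ω : ℝ)) ≤ L.length * (4 * B) := by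
  induction L with
  | nil =>
    refine ⟨DT.leaf, ?_, trivial, ?_⟩
    · intro ω ω1 ω2 _ _
      simp
    · simp [qcount, avg]
  | cons p L ih =>
    obtain ⟨τ1, h1, h2, h3⟩ := ih (fun q hq => hA q (List.mem_cons_of_mem _ hq))
      (fun q hq => hb q (List.mem_cons_of_mem _ hq))
    obtain ⟨c1, c2, c3, c4⟩ := hb p List.mem_cons_self
    obtain ⟨τ0, g1, g2, g3⟩ := ann_dt (m := m) (n := n) p w c1 c2 c3 c4 hB
    refine ⟨seqT τ0 τ1, ?_, ?_, ?_⟩
    · refine decides_congr (decides_seq g1 h1) (fun ω => ?_)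
      simp only [List.mem_cons, forall_eq_or_imp]
    · exact within_seq (Within.mono (hA p List.mem_cons_self) _ g2.within') h2
    · simp only [qcount_seq]
      push_cast
      rw [avg_add]
      simp only [List.length_cons]
      push_cast
      linarith

/-- Trees for the annuli of a list, each site at most once. -/
theorem anns_dt {m n : ℕ} (hm : 1 ≤ m) (hn : 1 ≤ n) (w : ℕ) {B : ℝ}
    (hB : Has (6 * w + 1) (2 * w + 1) B) (L : List Fc) (A : Finset (Fin m × Fin n))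
    (hA : ∀ p ∈ L, annF m n p w ⊆ A)
    (hb : ∀ p ∈ L, 3 * (w : ℤ) ≤ p.1 ∧ p.1 + 3 * w < m ∧ 3 * (w : ℤ) ≤ p.2 ∧ p.2 + 3 * w < n) :
    ∃ τ : DT (Fin m × Fin n), Decides τ (fun ω => ∀ p ∈ L, ANN p w (ext m n ω)) ∧
      Once A τ ∧ avg (fun ω => (qcount τ ω : ℝ)) ≤ L.length * (4 * B) := by
  have hne : Nonempty (Fin m × Fin n) := ⟨(⟨0, by omega⟩, ⟨0, by omega⟩)⟩
  obtain ⟨t, h1, h2, h3⟩ := anns_aux w hB L A hA hb
  obtain ⟨τ, g1, g2, g3⟩ := exists_onceS h1 h2
  refine ⟨τ, g1, g2, g3.trans (le_trans (avg_le (fun ω => Nat.cast_le.2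
    (paid_le_qcount _ _ (fun _ => none) ω (agrees_none ω)))) h3)⟩

end Pool.Agent.H89.Per
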