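import Pool.Agent.H89.Per.Bridge
import Pool.Agent.H75.Per.Rec

set_option autoImplicit false

/-! The integrand of `T.J` against the recursion of REC, pointwise (helper89, module JJ). -/

namespace Pool.Agent.H89.Per

open Classical Finset
open Pool.Agent.H75.Per (CX I I_nonneg I_true I_false)

/-- the recursion `Sys.J` of helper75 as a function of the truth values -/
noncomputable def JR (ch : ℕ → ℝ) (made succ alive : ℕ → Prop) : ℕ → ℕ → ℝ
  | 0, k => I (alive k)
  | n + 1, k => ch k * I (made k) + (1 - I (made k ∧ succ k)) * JR ch made succ alive n (k + 1)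

theorem sysJ_eq {α : Type} {F : Finset α} (Y : Pool.Agent.H75.Per.Sys F) (ch : ℕ → ℝ)
    (ω : Finset α) : ∀ n k, Y.J ch n k ω =
      JR ch (fun k => Y.made k ω) (fun k => Y.succ k ω) (fun k => Y.alive k ω) n k := by
  intro n
  induction n with
  | zero => intro k; rfl
  | succ n ih =>
    intro k
    unfold Pool.Agent.H75.Per.Sys.J JR
    rw [ih]

section
variable {ch : ℕ → ℝ} {made succ alive : ℕ → Prop}

theorem jr_eq : ∀ n k, JR ch made succ alive n k =
    (∑ j ∈ range n, ch (k + j) * I (made (k + j) ∧ ∀ i < j, ¬ (made (k + i) ∧ succ (k + i)))) +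
    I (alive (k + n) ∧ ∀ i < n, ¬ (made (k + i) ∧ succ (k + i))) := by
  intro n
  induction n with
  | zero =>
    intro k
    simp [JR]
  | succ n ih =>
    intro k
    have e : JR ch made succ alive (n + 1) k =
      ch k * I (made k) + (1 - I (made k ∧ succ k)) * JR ch made succ alive n (k + 1) := rfl
    rw [e, ih, sum_range_succ']
    have hs : ∀ i, k + (i + 1) = k + 1 + i := fun i => by omega
    by_cases h : made k ∧ succ k
    · rw [I_true h, sub_self, zero_mul, add_zero]
      have h1 : ∀ j ∈ range n, ch (k + (j + 1)) *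
          I (made (k + (j + 1)) ∧ ∀ i < j + 1, ¬ (made (k + i) ∧ succ (k + i))) = 0 := by
        intro j _
        rw [I_false (fun hc => hc.2 0 (by omega) h), mul_zero]
      have h3 : ¬ (alive (k + (n + 1)) ∧ ∀ i < n + 1, ¬ (made (k + i) ∧ succ (k + i))) :=
        fun hc => hc.2 0 (by omega) h
      rw [sum_eq_zero h1, I_false h3]
      simp
    · rw [I_false h, sub_zero, one_mul]
      have h2 : ∀ n, (∀ i < n + 1, ¬ (made (k + i) ∧ succ (k + i))) ↔
          ∀ i < n, ¬ (made (k + 1 + i) ∧ succ (k + 1 + i)) := by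
        intro n
        constructor
        · intro hh i hi
          have := hh (i + 1) (by omega)
          rw [hs] at this
          exact this
        · intro hh i hi
          rcases i with _ | i
          · exact h
          · rw [hs]; exact hh i (by omega)
      have h3 : ∀ j ∈ range n, ch (k + (j + 1)) *
          I (made (k + (j + 1)) ∧ ∀ i < j + 1, ¬ (made (k + i) ∧ succ (k + i))) =
          ch (k + 1 + j) * I (made (k + 1 + j) ∧ ∀ i < j, ¬ (made (k + 1 + i) ∧ succ (k + 1 + i))) := by
        intro j _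
        rw [hs j, h2 j]
      have h4 : (alive (k + (n + 1)) ∧ ∀ i < n + 1, ¬ (made (k + i) ∧ succ (k + i))) ↔
          (alive (k + 1 + n) ∧ ∀ i < n, ¬ (made (k + 1 + i) ∧ succ (k + 1 + i))) := by
        rw [hs n, h2 n]
      have h5 : (made (k + 0) ∧ ∀ i < 0, ¬ (made (k + i) ∧ succ (k + i))) ↔ made k := by
        constructor
        · intro hc; exact hc.1
        · intro hc; exact ⟨hc, fun i hi => absurd hi (Nat.not_lt_zero _)⟩
      rw [sum_congr rfl h3, h4, h5, add_zero]
      ring

end

variable {V Lab : Type} {E : Expl V} {T : Att V Lab E}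

/-- **JJ, pointwise.** -/
theorem jj_pt {N : ℕ} {chg : Lab → ℝ} {v : V} {ω : V ⊕ (Lab × V) → Bool} {m : ℕ}
    {made succ alive : ℕ → Prop} {κ : ℕ → Lab} {tm : ℕ → ℕ} {ch : ℕ → ℝ}
    (hch : ∀ k < m, made k → chg (κ k) ≤ ch k) (hch0 : ∀ k, 0 ≤ ch k)
    (hnd : ∀ t, (T.trAt (fun x => ω (Sum.inl x)) t).Nodup)
    (h1 : ∀ t < N, ∀ κ' ∈ T.trAt (fun x => ω (Sum.inl x)) t, v ∈ T.Q κ' →
      ∃ k < m, made k ∧ tm k = t ∧ κ' = κ k)
    (h2 : ∀ j k, j < k → k < m → made j → made k → tm j < tm k)
    (h3 : ∀ k < m, made k → succ k → T.own ω (tm k + 1) v)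
    (h4 : ∀ t < N, E.ask (fun x => ω (Sum.inl x)) t = some v →
      alive m ∧ ∀ k < m, made k → succ k → tm k ≤ t) :
    (if ∃ t < N, E.ask (fun x => ω (Sum.inl x)) t = some v ∧ ¬ T.own ω (t + 1) v then (1 : ℝ) else 0) +
    ∑ t ∈ Finset.range N, ((T.trAt (fun x => ω (Sum.inl x)) t).map
      (fun κ => if v ∈ T.Q κ ∧ ¬ T.own ω t v then chg κ else 0)).sum ≤
    JR ch made succ alive m 0 := by
  have hown : ∀ s t, s ≤ t → T.own ω s v → T.own ω t v := by
    rintro s t hst ⟨t', ht', r⟩
    exact ⟨t', by omega, r⟩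
  rw [jr_eq, add_comm]
  simp only [zero_add]
  refine add_le_add ?_ ?_
  · -- the charges
    have hJ : ∀ t ∈ range N, ((T.trAt (fun x => ω (Sum.inl x)) t).map
        (fun κ => if v ∈ T.Q κ ∧ ¬ T.own ω t v then chg κ else 0)).sum ≤
        ∑ j ∈ (range m).filter (fun j => tm j = t),
          ch j * I (made j ∧ ∀ i < j, ¬ (made i ∧ succ i)) := by
      intro t ht
      rw [mem_range] at ht
      have e1 : ((T.trAt (fun x => ω (Sum.inl x)) t).map
          (fun κ => if v ∈ T.Q κ ∧ ¬ T.own ω t v then chg κ else 0)).sum =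
          ∑ κ' ∈ (T.trAt (fun x => ω (Sum.inl x)) t).toFinset,
            (if v ∈ T.Q κ' ∧ ¬ T.own ω t v then chg κ' else 0) :=
        (List.sum_toFinset _ (hnd t)).symm
      rw [e1, ← sum_filter]
      by_cases ho : T.own ω t v
      · rw [sum_eq_zero (fun κ' hκ' => absurd ho (mem_filter.1 hκ').2.2)]
        refine sum_nonneg (fun j _ => mul_nonneg (hch0 j) (I_nonneg _))
      · -- choose the scale
        have hsel : ∀ κ' ∈ (T.trAt (fun x => ω (Sum.inl x)) t).toFinset.filter
            (fun κ' => v ∈ T.Q κ' ∧ ¬ T.own ω t v), ∃ k < m, made k ∧ tm k = t ∧ κ' = κ k := by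
          intro κ' hκ'
          rw [mem_filter, List.mem_toFinset] at hκ'
          exact h1 t ht κ' hκ'.1 hκ'.2.1
        have hno : ∀ k < m, made k → tm k = t → ∀ i < k, ¬ (made i ∧ succ i) := by
          rintro k hk hmk htk i hi ⟨hmi, hsi⟩
          have := h2 i k hi hk hmi hmk
          exact ho (hown (tm i + 1) t (by omega) (h3 i (by omega) hmi hsi))
        calc ∑ κ' ∈ (T.trAt (fun x => ω (Sum.inl x)) t).toFinset.filter
              (fun κ' => v ∈ T.Q κ' ∧ ¬ T.own ω t v), chg κ'
            ≤ ∑ κ' ∈ (T.trAt (fun x => ω (Sum.inl x)) t).toFinset.filter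
              (fun κ' => v ∈ T.Q κ' ∧ ¬ T.own ω t v),
              ∑ j ∈ (range m).filter (fun j => tm j = t ∧ made j ∧ κ' = κ j), ch j := by
              refine sum_le_sum (fun κ' hκ' => ?_)
              obtain ⟨k, hk, hmk, htk, e⟩ := hsel κ' hκ'
              refine le_trans ?_ (single_le_sum (f := fun j => ch j) (fun j _ => hch0 j)
                (mem_filter.2 ⟨mem_range.2 hk, htk, hmk, e⟩))
              rw [e]
              exact hch k hk hmk
          _ = ∑ κ' ∈ (T.trAt (fun x => ω (Sum.inl x)) t).toFinset.filter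
              (fun κ' => v ∈ T.Q κ' ∧ ¬ T.own ω t v),
              ∑ j ∈ (range m).filter (fun j => tm j = t), (if made j ∧ κ' = κ j then ch j else 0) := by
              refine sum_congr rfl (fun κ' _ => ?_)
              rw [← sum_filter, filter_filter]
          _ = ∑ j ∈ (range m).filter (fun j => tm j = t),
              ∑ κ' ∈ (T.trAt (fun x => ω (Sum.inl x)) t).toFinset.filter
              (fun κ' => v ∈ T.Q κ' ∧ ¬ T.own ω t v), (if made j ∧ κ' = κ j then ch j else 0) :=
              sum_comm
          _ ≤ ∑ j ∈ (range m).filter (fun j => tm j = t),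
              ch j * I (made j ∧ ∀ i < j, ¬ (made i ∧ succ i)) := by
              refine sum_le_sum (fun j hj => ?_)
              rw [mem_filter, mem_range] at hj
              by_cases hmj : made j
              · rw [I_true ⟨hmj, hno j hj.1 hmj hj.2⟩, mul_one]
                simp only [hmj, true_and]
                rw [sum_ite_eq']
                split_ifs
                · exact le_refl _
                · exact hch0 j
              · simp only [hmj, false_and, if_false, sum_const_zero]
                exact mul_nonneg (hch0 j) (I_nonneg _)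
    refine (sum_le_sum hJ).trans ?_
    rw [← sum_biUnion]
    · refine sum_le_sum_of_subset_of_nonneg ?_ (fun j _ _ => mul_nonneg (hch0 j) (I_nonneg _))
      intro j hj
      rw [mem_biUnion] at hj
      obtain ⟨t, _, hj⟩ := hj
      exact (mem_filter.1 hj).1
    · intro s _ t _ hst
      rw [Function.onFun, disjoint_left]
      intro j hj hj'
      exact hst ((mem_filter.1 hj).2.symm.trans (mem_filter.1 hj').2)
  · -- the site is asked
    by_cases h : ∃ t < N, E.ask (fun x => ω (Sum.inl x)) t = some v ∧ ¬ T.own ω (t + 1) v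
    · rw [if_pos h]
      obtain ⟨t, ht, hask, ho⟩ := h
      obtain ⟨ha, hb⟩ := h4 t ht hask
      rw [I_true]
      refine ⟨ha, ?_⟩
      rintro i hi ⟨hmi, hsi⟩
      have := hb i hi hmi hsi
      exact ho (hown (tm i + 1) (t + 1) (by omega) (h3 i hi hmi hsi))
    · rw [if_neg h]
      exact I_nonneg _

end Pool.Agent.H89.Per
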