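import Pool.Agent.H89.Per.LabA
import Pool.Agent.H89.Per.JJ

set_option autoImplicit false

/-! MP_2e6055 (helper89): JJ of helper75: the part of the cost of ALG2 charged to a site, against the
recursion of the costs. -/

namespace Pool.Agent.H89.Per

open Pool.Agent.H7.UC Pool.Agent.H74.Tri Pool.Agent.H75.Lv
open Pool.Agent.H75.Per (CX CX_mono I I_nonneg)
open Classical

attribute [-instance] instDecidableEqSum

variable {c : Cf}

theorem chi_b1 (ω : Finset c.al) : (fun x => chi ω (Sum.inl x)) = b1 ω := by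
  funext x
  unfold chi b1
  exact decide_eq_decide.2 Iff.rfl

theorem chi_inr (ω : Finset c.al) (κ : c.Lab) : (fun x => chi ω (Sum.inr (κ, x))) =
    fun x => decide ((Sum.inr (κ, x) : c.al) ∈ ω) := by
  funext x
  unfold chi
  exact decide_eq_decide.2 Iff.rfl

/-- asking in the main exploration -/
theorem ask_asks (hc : c.Ok) (ω : Finset c.al) (t : ℕ) (x : c.V) :
    (mainE c.m c.n).ask (b1 ω) t = some x ↔ asks ω t (em x) :=
  askm c.m c.n hc.m hc.n (b1 ω) t x

theorem ask_hist {m n : ℕ} {ω : Fin m × Fin n → Bool} {t : ℕ} {x : Fin m × Fin n}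
    (h : (mainE m n).ask ω t = some x) : (mainE m n).hist ω t = some (stL ω t) :=
  hist_some (ask_iff.1 h).1

theorem asks_rev {ω : Finset c.al} {t : ℕ} {f : Fc} (h : asks ω t f) :
    f ∈ Rev (Om ω) p0 (t + 1) := Rev_succ_iff.2 (Or.inr h.2.1.symm)

/-- the first visit -/
theorem fi_eq {S : Finset Fc} {ω : Finset c.al} {t : ℕ} (h : ∃ f ∈ S, asks ω t f)
    (h' : ∀ f ∈ S, f ∉ Rev (Om ω) p0 t) : fi S ω = t := by
  obtain ⟨f, hf, ha⟩ := h
  refine le_antisymm (Nat.sInf_le (Or.inl ⟨f, hf, ha⟩)) ?_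
  refine le_csInf ⟨t, Or.inl ⟨f, hf, ha⟩⟩ ?_
  rintro s (⟨g, hg, hs⟩ | hs)
  · by_contra hlt
    exact h' g hg (Rev.mono (by omega) (asks_rev hs))
  · by_contra hlt
    exact hs (fun i h1 h2 => ha.1 i h1 (by omega))

theorem fi_le {S : Finset Fc} {ω : Finset c.al} {t : ℕ} (h : ∃ f ∈ S, asks ω t f) :
    fi S ω ≤ t := Nat.sInf_le (Or.inl h)

/-- at a visited first index a face of the set is asked -/
theorem fi_asks {S : Finset Fc} {ω : Finset c.al} (h : hit S ω) :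
    ∃ f ∈ S, asks ω (fi S ω) f := by
  obtain ⟨t, f, hf, ha⟩ := h
  have hne : ({t | (∃ f ∈ S, asks ω t f) ∨ ¬ Ins (box c.m c.n) (Om ω) p0 t} : Set ℕ).Nonempty :=
    ⟨t, Or.inl ⟨f, hf, ha⟩⟩
  rcases Nat.sInf_mem hne with h1 | h1
  · exact h1
  · have h2 : fi S ω ≤ t := fi_le ⟨f, hf, ha⟩
    exact absurd (fun i h3 h4 => ha.1 i h3 (h4.trans h2)) h1

/-- launches -/
theorem launch_asks (hc : c.Ok) {ω : Finset c.al} {t j : ℕ} {v : Fc} (hu : c.use j v)
    (h : c.Launch (b1 ω) t j (c.sq j v)) :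
    ∃ f ∈ c.En j (c.sq j v), asks ω t f := by
  obtain ⟨h1, h2, _⟩ := h
  exact ⟨_, h1, ins_of_new hc.m hc.n (En_box hc hu h1) (h2 _ h1), rfl, En_box hc hu h1, h2 _ h1⟩

theorem launch_fi (hc : c.Ok) {ω : Finset c.al} {t j : ℕ} {v : Fc} (hu : c.use j v)
    (h : c.Launch (b1 ω) t j (c.sq j v)) : fi (c.En j (c.sq j v)) ω = t :=
  fi_eq (launch_asks hc hu h) h.2.1

theorem JF_eq (al ma su : ℕ → Prop) (ch : ℕ → ℝ) : ∀ n k, JF al ma su ch n k = JR ch ma su al n k := by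
  intro n
  induction n with
  | zero => intro k; rfl
  | succ n ih =>
    intro k
    unfold JF JR
    rw [ih]

theorem jj_none {T : Att c.V c.Lab (mainE c.m c.n)} (hT : c.Spec T) (N : ℕ)
    (chg : ℕ → ℝ) (v : c.V) (hv : ∀ j, ¬ c.use j (em v)) :
    T.J N (fun κ => chg (c.sc κ)) v ≤ 1 := by
  have h1 : T.J N (fun κ => chg (c.sc κ)) v ≤
      avg (fun _ : c.V ⊕ (c.Lab × c.V) → Bool => (1 : ℝ)) := by
    unfold Att.J
    refine avg_le (fun ω => ?_)
    refine (add_le_add (b := 1) (d := 0) ?_ (le_of_eq (Finset.sum_eq_zero (fun t _ =>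
      List.sum_eq_zero (fun b hb => ?_))))).trans (by norm_num)
    · split_ifs
      · exact le_refl _
      · exact zero_le_one
    · obtain ⟨κ, _, rfl⟩ := List.mem_map.1 hb
      rw [if_neg]
      rintro ⟨h1, _⟩
      exact hv _ (use_of_label ((hT.Q κ v).1 h1))
  refine h1.trans (le_of_eq ?_)
  unfold avg
  simp

theorem jj : JJ := by
  intro c T hc hT N chg hchg v
  refine ⟨jj_none hT N chg v, ?_⟩
  intro j0 hj0 hmax
  have huse : ∀ k, 1 ≤ j0 - k → c.use (j0 - k) (em v) := fun k hk => use_mono hc hj0 hk (by omega)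
  obtain ⟨κ0, _, _⟩ := exists_label hc hj0
  -- the labels
  have hlab : ∀ k, ∃ κ : c.Lab, 1 ≤ j0 - k → c.sc κ = j0 - k ∧ c.ct κ = c.sq (j0 - k) (em v) := by
    intro k
    by_cases hk : 1 ≤ j0 - k
    · obtain ⟨κ, h⟩ := exists_label hc (huse k hk)
      exact ⟨κ, fun _ => h⟩
    · exact ⟨κ0, fun h => absurd h hk⟩
  choose κ hκ using hlab
  unfold Att.J
  rw [avg_eq_CX]
  refine CX_mono (fun ω _ _ => ?_)
  rw [JF_eq]
  have e1 := chi_b1 ω
  refine jj_pt (κ := κ) (tm := fun k => fi (c.En (j0 - k) (c.sq (j0 - k) (em v))) ω)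
    (ω := chi ω) ?_ ?_ ?_ ?_ ?_ ?_ ?_
  · intro k _ hk
    rw [(hκ k hk.1).1]
  · intro k; exact hchg _
  · intro t
    unfold Att.trAt
    rcases (mainE c.m c.n).hist (fun x => chi ω (Sum.inl x)) t with _ | h
    · exact List.nodup_nil
    · exact hT.nd h
  · intro t _ κ' hκ' hv
    rw [e1] at hκ'
    obtain ⟨h, hh, hκ'⟩ := (mem_trAt T).1 hκ'
    have hsq := (hT.Q κ' v).1 hv
    have hL := (hT.tr (b1 ω) t h κ' hh).1 hκ'
    have hu := use_of_label hsq
    have hle := hmax _ hu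
    have h1 := hu.1
    rw [← hsq] at hL
    have hk : j0 - (j0 - c.sc κ') = c.sc κ' := by omega
    refine ⟨j0 - c.sc κ', by omega, ⟨?_, ?_, ?_⟩, ?_, ?_⟩
    · rw [hk]; exact h1
    · rw [hk]
      exact ⟨t, launch_asks hc hu hL⟩
    · rw [hk, launch_fi hc hu hL]
      exact hL
    · simp only [hk]
      exact launch_fi hc hu hL
    · have h2 := hκ (j0 - c.sc κ') (by omega)
      rw [hk] at h2
      exact label_eq h2.1.symm (hsq.symm.trans h2.2.symm)
  · intro a b hab hb ha' hb'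
    have hua := huse a ha'.1
    have hub := huse b hb'.1
    obtain ⟨f, hf, hfa⟩ := launch_asks hc hub hb'.2.2
    have hlt : j0 - b < j0 - a := by have := hb'.1; omega
    have hle : fi (c.En (j0 - a) (c.sq (j0 - a) (em v))) ω ≤
        fi (c.En (j0 - b) (c.sq (j0 - b) (em v))) ω :=
      fi_le ⟨f, En_big hc hlt hf (Or.inr rfl), hfa⟩
    refine lt_of_le_of_ne hle (fun he => ?_)
    have h1 := ha'.2.2.2.1
    have h2 := hb'.2.2.1
    rw [he] at h1
    refine h1 _ (En_big hc hlt h2 (Or.inl (adj_hl _))) ?_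
    exact ⟨_, le_rfl, Or.inl rfl⟩
  · intro k _ hk hs
    obtain ⟨κ', h1, h2, h3⟩ := hs
    have hu := huse k hk.1
    obtain ⟨f, hf, hfa⟩ := launch_asks hc hu hk.2.2
    obtain ⟨x, hx⟩ := exists_em (En_box hc hu hf)
    subst hx
    have hask := (ask_asks hc ω _ x).2 hfa
    have hh := ask_hist hask
    refine ⟨_, Nat.lt_succ_self _, _, by rw [e1]; exact hh, κ', ?_, ?_, ?_⟩
    · rw [hT.tr _ _ _ _ hh, h1, h2]
      exact hk.2.2
    · rw [hT.Q, h1, h2]
    · rw [hT.g, h1, h2, e1, chi_inr]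
      have h4 : (mainE c.m c.n).expl
          (stL (b1 ω) (fi (c.En (j0 - k) (c.sq (j0 - k) (em v))) ω)) =
          XX ω (fi (c.En (j0 - k) (c.sq (j0 - k) (em v))) ω) := by
        ext y
        rw [mem_expl' hh, mem_XX]
        rfl
      rw [h4]
      exact h3
  · intro t _ hask
    rw [e1] at hask
    have ha := (ask_asks hc ω t v).1 hask
    refine ⟨⟨t, em v, ?_, ha⟩, fun k _ hk _ => fi_le ⟨em v, self_En hc _ _, ha⟩⟩
    obtain ⟨A, B, _, _, _, a2, a3, a4, _, a6⟩ := scale_num hc (j0 - j0)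
    rw [mem_Bx, a6]
    simp only [sub_self, abs_zero]
    constructor <;> omega

end Pool.Agent.H89.Per
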