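import Pool.Agent.H89.Per.SizeA
import Pool.Agent.H89.Per.JJM
import Pool.Agent.H74.Tri.LDI

set_option autoImplicit false

/-! MP_2e6055 (helper89): the step of the induction over the sizes, from the bound of the cost of one
site (helper75, `JB`). -/

namespace Pool.Agent.H89.Per

open Pool.Agent.H7.UC Pool.Agent.H74.Tri Pool.Agent.H75.Lv
open Classical

attribute [-instance] instDecidableEqSum

/-- **JB** (helper75): the part of the cost charged to one site; `χ`, `C1`, `N` do not depend on `h`;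
`M` is arbitrary large. -/
def JB : Prop := ∃ χ C1 : ℝ, 0 < χ ∧ 0 < C1 ∧ ∃ N h0 : ℤ, ∀ h : ℤ, h0 ≤ h → 8 ∣ h →
  ∃ (g : Gm) (s3 : ℝ) (a l : ℕ) (L : ℤ) (q K : ℝ), g.N = N ∧ g.h = h ∧ g.Ok ∧ 100 ≤ a ∧ 4 ≤ L ∧
    64 * L * N * h ≤ l ∧ 1 / 2 ≤ q ∧ q < 1 ∧ 0 < K ∧
    ∀ c : Cf, c.Ok → c.g = g → c.s3 = s3 → c.a = a → c.l = l → c.L = L →
    ∀ T : Att c.V c.Lab (mainE c.m c.n), c.Spec T → ∀ M : ℝ, K ≤ M → ∀ chg : ℕ → ℝ,
    (∀ j, 0 ≤ chg j) → (∀ j, chg j ≤ χ * M * (q / (l : ℝ) ^ ((1 / 4) : ℝ)) ^ j) →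
    ∀ (Nn : ℕ) (v : c.V) (j0 : ℕ), c.use j0 (em v) → (∀ j, c.use j (em v) → j ≤ j0) → j0 < c.J →
    T.J Nn (fun κ => chg (c.sc κ)) v ≤ C1 * M * (q / (l : ℝ) ^ ((1 / 4) : ℝ)) ^ j0 *
      ((c.rho j0 : ℝ) / (dd v : ℕ)) ^ ((1 / 4) : ℝ)

/-- **AT** (helper74): the attempts and their trees. -/
def AT : Prop := ∀ c : Cf, c.Ok → ∀ B : c.Lab → ℝ,
  (∀ κ, Has (6 * c.un (c.sc κ) + 1) (2 * c.un (c.sc κ) + 1) (B κ)) →
  ∃ T : Att c.V c.Lab (mainE c.m c.n), c.Spec T ∧
    (∃ N0 : ℕ, ∀ N ≥ N0, T.Hyp (crF c.m c.n) N) ∧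
    ∀ κ, avg (fun ω => (qcount (T.τ κ) ω : ℝ)) ≤ 32 * B κ

/-! ### Geometry of the squares -/

variable {c : Cf}

theorem mem_gc {q x c0 a : ℤ} (hq : 0 < q) (h0 : c0 = 2 * q * a + q) (h1 : c0 - q ≤ x)
    (h2 : x < c0 + q) : gc q x = c0 := by
  unfold gc
  have h : x / (2 * q) = a := by
    have h3 : x = (x - 2 * q * a) + 2 * q * a := by ring
    rw [h3, Int.add_mul_ediv_left _ _ (by omega),
      Int.ediv_eq_zero_of_lt (by omega) (by omega), zero_add]
  rw [h, h0]

/-- the number of sites of a square -/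
theorem card_Q (hc : c.Ok) {T : Att c.V c.Lab (mainE c.m c.n)} (hT : c.Spec T) (κ : c.Lab) :
    ((2 * c.hs (c.sc κ) : ℤ) : ℝ) ^ 2 ≤ (T.Q κ).card := by
  set j := c.sc κ with hj
  have hs := hs_pos hc j
  have hsq := label_sq κ
  have huse := label_use κ
  obtain ⟨A, B, eA, _, a1, a2, a3, a4, a5, a6⟩ := scale_num hc j
  set F : Finset Fc := Finset.Ico ((c.ct κ).1 - c.hs j) ((c.ct κ).1 + c.hs j) ×ˢ
    Finset.Ico ((c.ct κ).2 - c.hs j) ((c.ct κ).2 + c.hs j) with hF
  have hcard : (F.card : ℝ) = ((2 * c.hs j : ℤ) : ℝ) ^ 2 := by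
    rw [hF, Finset.card_product, Int.card_Ico, Int.card_Ico]
    have e : ∀ y : ℤ, ((y + c.hs j - (y - c.hs j)).toNat : ℝ) = ((2 * c.hs j : ℤ) : ℝ) := by
      intro y
      have h1 : y + c.hs j - (y - c.hs j) = 2 * c.hs j := by ring
      rw [h1]
      have h2 : ((2 * c.hs j).toNat : ℤ) = 2 * c.hs j := Int.toNat_of_nonneg (by omega)
      exact_mod_cast congrArg (fun z : ℤ => (z : ℝ)) h2
    rw [Nat.cast_mul, e, e, sq]
  rw [← hcard]
  have hsub : F ⊆ (T.Q κ).image em := by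
    intro f hf
    rw [hF, Finset.mem_product, Finset.mem_Ico, Finset.mem_Ico] at hf
    have hb : f ∈ box c.m c.n := by
      refine huse.2.2 ?_
      rw [hsq, mem_Bx, a6, abs_le, abs_le]
      rw [a5] at hf
      omega
    obtain ⟨x, rfl⟩ := exists_em hb
    refine Finset.mem_image_of_mem _ ((hT.Q κ x).2 ?_)
    have h1 : gc (c.hs j) (c.ct κ).1 = (c.ct κ).1 := congrArg Prod.fst hsq
    have h2 : gc (c.hs j) (c.ct κ).2 = (c.ct κ).2 := congrArg Prod.snd hsq
    refine Prod.ext ?_ ?_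
    · exact mem_gc hs h1.symm hf.1.1 hf.1.2
    · exact mem_gc hs h2.symm hf.2.1 hf.2.2
  exact_mod_cast (Finset.card_le_card hsub).trans Finset.card_image_le

/-- a site which does not use the scale is near the boundary -/
theorem dd_le (hc : c.Ok) {j : ℕ} {v : c.V} (h1 : 1 ≤ j) (h2 : j ≤ c.J) (h : ¬ c.use j (em v)) :
    (dd v : ℤ) ≤ 9 * c.rho j + c.hs j := by
  have h3 : ¬ Bx (c.sq j (em v)) (9 * c.rho j) ⊆ box c.m c.n := fun h' => h ⟨h1, h2, h'⟩
  rw [Finset.not_subset] at h3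
  obtain ⟨f, hf, hfb⟩ := h3
  rw [mem_Bx, abs_le, abs_le] at hf
  have n1 := sq_near hc j (em v)
  rw [abs_le, abs_le] at n1
  have hv1 := v.1.isLt
  have hv2 := v.2.isLt
  rw [mem_box'] at hfb
  have e1 : (em v).1 = (v.1.val : ℤ) := rfl
  have e2 : (em v).2 = (v.2.val : ℤ) := rfl
  unfold dd
  omega

/-- **The step of the induction over the sizes.** -/
theorem size_step (hJ : JB) : SizeStep := by
  obtain ⟨χ, C1, hχ, hC1, Nz, h0, H⟩ := hJ
  -- choice of `h`
  obtain ⟨h, hh0, h8, hbig⟩ : ∃ h : ℤ, h0 ≤ h ∧ 8 ∣ h ∧ 10000000 * C1 * (Nz : ℝ) ≤ χ * h := by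
    obtain ⟨k, hk⟩ := exists_nat_gt (max (h0 : ℝ) (10000000 * C1 * (Nz : ℝ) / χ))
    refine ⟨8 * k, ?_, ⟨k, rfl⟩, ?_⟩
    · have h1 : (h0 : ℝ) < k := lt_of_le_of_lt (le_max_left _ _) hk
      have h2 : h0 < k := by exact_mod_cast h1
      omega
    · have h1 : 10000000 * C1 * (Nz : ℝ) / χ < k := lt_of_le_of_lt (le_max_right _ _) hk
      rw [div_lt_iff₀ hχ] at h1
      push_cast
      have h3 : (0 : ℝ) ≤ χ * k := by positivity
      linarith
  obtain ⟨g, s3, a, l, L, q, K, gN, gh, gOk, ha, hL, hl, hq2, hq1, hK, H⟩ := H h hh0 h8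
  have hN64 : 64 ≤ Nz := by rw [← gN]; exact gOk.N8
  have hh64 : 64 ≤ h := by rw [← gh]; exact gOk.h64
  have hl16 : (16 : ℤ) ≤ l := by
    have h6 : 4 * 64 ≤ L * Nz := by nlinarith
    have h7 : 4 * 64 * 64 ≤ L * Nz * h := by nlinarith
    nlinarith
  have hlr : (16 : ℝ) ≤ l := by exact_mod_cast hl16
  have hl16' : 16 ≤ l := by exact_mod_cast hl16
  obtain ⟨ε, hε0, hε4, hqε⟩ := exists_eps hq2 hq1 hlr
  have har : (100 : ℝ) ≤ a := by exact_mod_cast ha
  have hNr : (64 : ℝ) ≤ Nz := by exact_mod_cast hN64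
  have hhr : (64 : ℝ) ≤ h := by exact_mod_cast hh64
  set D : ℝ := 20 * (Nz : ℝ) * h * a with hD
  have hD1 : 1 ≤ D := by
    rw [hD]
    have : (1 : ℝ) ≤ (Nz : ℝ) * h := by nlinarith
    have : (1 : ℝ) ≤ (Nz : ℝ) * h * a := by nlinarith
    nlinarith
  have hD0 : 0 < D := by linarith
  set s : ℝ := 1 / 4 + ε with hs
  have hDs : 0 < D ^ s := Real.rpow_pos_of_pos hD0 _
  have hDl : 0 < (D * l) ^ s := Real.rpow_pos_of_pos (by positivity) _
  set M : ℝ := max (16 * C1 * D ^ s * K) (8 * (D * l) ^ s) with hM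
  have hM0 : 0 < M := lt_of_lt_of_le (by positivity) (le_max_right _ _)
  set M' : ℝ := M / (16 * C1 * D ^ s) with hM'
  have hM'K : K ≤ M' := by
    rw [hM', le_div_iff₀ (by positivity)]
    calc K * (16 * C1 * D ^ s) = 16 * C1 * D ^ s * K := by ring
      _ ≤ M := le_max_left _ _
  have hM'0 : 0 < M' := lt_of_lt_of_le hK hM'K
  refine ⟨ε, M, hε0, ?_⟩
  intro N IH m n hm hn hmn
  -- the parameters
  set c : Cf := ⟨g, s3, a, l, L, N, m, n⟩ with hcdef
  have hc : c.Ok := ⟨gOk, ha, hL, by rw [← gN, ← gh] at hl; exact hl, hm, hn⟩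
  have hN1 : 1 ≤ N := by omega
  have hun : ∀ j, ((c.un j : ℕ) : ℝ) = (a : ℝ) * (l : ℝ) ^ j := by
    intro j
    show ((a * l ^ j : ℕ) : ℝ) = _
    push_cast
    ring
  -- sizes of the annuli
  have hsize : ∀ κ : c.Lab, 6 * c.un (c.sc κ) + 1 < N := by
    intro κ
    obtain ⟨A, B, eA, _, a1, a2, a3, a4, a5, a6⟩ := scale_num hc (c.sc κ)
    have huse := label_use κ
    have hb : ∀ t : ℤ, |t| ≤ 9 * c.rho (c.sc κ) → 0 ≤ (c.ct κ).1 + t ∧ (c.ct κ).1 + t < m := by
      intro t ht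
      have h1 : ((c.ct κ).1 + t, (c.ct κ).2) ∈ box c.m c.n := by
        refine huse.2.2 ?_
        rw [label_sq, mem_Bx]
        simp only [add_sub_cancel_left, sub_self, abs_zero]
        exact ⟨ht, by rw [a6]; omega⟩
      rw [mem_box'] at h1
      exact ⟨h1.1, h1.2.1⟩
    have h1 := hb (9 * c.rho (c.sc κ)) (by rw [abs_of_nonneg (by rw [a6]; omega)])
    have h2 := hb (-(9 * c.rho (c.sc κ))) (by rw [abs_neg, abs_of_nonneg (by rw [a6]; omega)])
    rw [a6] at h1 h2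
    omega
  -- the attempts
  have hB : ∀ κ : c.Lab, Has (6 * c.un (c.sc κ) + 1) (2 * c.un (c.sc κ) + 1)
      (M * (6 * (c.un (c.sc κ) : ℝ) + 1) ^ ((7 : ℝ) / 4 - ε)) := by
    intro κ
    have e : max (6 * c.un (c.sc κ) + 1) (2 * c.un (c.sc κ) + 1) = 6 * c.un (c.sc κ) + 1 := by
      omega
    have h1 := IH (6 * c.un (c.sc κ) + 1) (2 * c.un (c.sc κ) + 1) (by omega) (by omega)
      (by rw [e]; exact hsize κ)
    rw [e] at h1
    push_cast at h1
    exact h1
  obtain ⟨T, N0, hT, hHyp, hcost⟩ := exists_att hc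
    (B := fun κ => M * (6 * (c.un (c.sc κ) : ℝ) + 1) ^ ((7 : ℝ) / 4 - ε)) hB
  -- the charges
  set chg : ℕ → ℝ := fun j => χ * M' * (q / (l : ℝ) ^ ((1 / 4) : ℝ)) ^ j with hchg
  have hq0 : 0 < q := by linarith
  have hchg0 : ∀ j, 0 ≤ chg j := by
    intro j
    rw [hchg]
    positivity
  have hcharge : ∀ κ, avg (fun ω => (qcount (T.τ κ) ω : ℝ)) ≤ (T.Q κ).card * chg (c.sc κ) := by
    intro κ
    refine (hcost κ).trans ?_
    rw [show ∀ y : ℝ, 8 * (4 * y) = 32 * y from fun y => by ring]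
    have h1 := charge_num (C1 := C1) (M := M) (M' := M') (q := q) (ε := ε) (l := (l : ℝ))
      (a := (a : ℝ)) (u := (c.un (c.sc κ) : ℝ)) (h := (h : ℝ)) (Nr := (Nz : ℝ)) (χ := χ)
      (j := c.sc κ) hC1 hM0.le (by linarith) hqε hε0.le hε4 (by linarith) (hun _) (by linarith)
      (by linarith) hχ (by rw [hM', hD]) hbig
    refine h1.trans ?_
    refine mul_le_mul_of_nonneg_right ?_ (hchg0 (c.sc κ))
    refine le_trans (le_of_eq ?_) (card_Q hc hT κ)
    -- `2 hs = h u / 4`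
    obtain ⟨k, hk⟩ := h8
    have e1 : c.hs (c.sc κ) = k * c.un (c.sc κ) := by
      show c.g.h * (c.un (c.sc κ) : ℤ) / 8 = _
      have e2 : c.g.h = 8 * k := by rw [← hk]; exact gh
      rw [e2, mul_assoc, Int.mul_ediv_cancel_left _ (by norm_num)]
    rw [e1, hk]
    push_cast
    ring
  -- the tree
  have hVne : Nonempty c.V := ⟨(⟨0, hc.m⟩, ⟨0, hc.n⟩)⟩
  have hJN : c.J = N := rfl
  obtain ⟨t, ht, ho, hcst⟩ := alg2 (T := T) (f := crF c.m c.n)
    (N := max N0 (Fintype.card c.V)) (hHyp _ (le_max_left _ _)) (le_max_right _ _)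
    (fun κ => chg (c.sc κ)) hcharge
  refine ⟨t, ht, ho, hcst.trans ?_⟩
  -- the cost of one site
  have hsite : ∀ v : c.V, T.J (max N0 (Fintype.card c.V)) (fun κ => chg (c.sc κ)) v ≤
      M / 8 * ((dd v : ℕ) : ℝ) ^ (-s) := by
    intro v
    have hdv : (0 : ℝ) < (dd v : ℕ) := by
      have := dd_pos v
      exact_mod_cast (by omega : 0 < dd v)
    have hnear : ∀ j, 1 ≤ j → j ≤ N → ¬ c.use j (em v) → ((dd v : ℕ) : ℝ) ≤ D * (l : ℝ) ^ j := by
      intro j h1 h2 h3
      have h4 := dd_le hc h1 h2 h3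
      obtain ⟨A, B, eA, eB, a1, a2, a3, a4, a5, a6⟩ := scale_num hc j
      have h5 : (dd v : ℤ) ≤ 20 * B := by
        rw [a6, a5] at h4
        omega
      have h6 : ((dd v : ℕ) : ℝ) ≤ 20 * (B : ℝ) := by exact_mod_cast h5
      have h7 : (B : ℝ) = (Nz : ℝ) * h * ((a : ℝ) * (l : ℝ) ^ j) := by
        rw [← hun j, ← eB, ← gN, ← gh]
        push_cast
        rfl
      rw [h7] at h6
      rw [hD]
      calc ((dd v : ℕ) : ℝ) ≤ 20 * ((Nz : ℝ) * h * ((a : ℝ) * (l : ℝ) ^ j)) := h6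
        _ = 20 * (Nz : ℝ) * h * a * (l : ℝ) ^ j := by ring
    by_cases hno : ∀ j, ¬ c.use j (em v)
    · refine ((jj c T hc hT _ chg hchg0 v).1 hno).trans ?_
      have h1 := hnear 1 le_rfl hN1 (hno 1)
      rw [pow_one] at h1
      have h2 : (D * l) ^ (-s) ≤ ((dd v : ℕ) : ℝ) ^ (-s) :=
        Real.rpow_le_rpow_of_nonpos hdv h1 (by rw [hs]; linarith)
      have h3 : 8 * (D * l) ^ s ≤ M := le_max_right _ _
      have h4 : (D * (l : ℝ)) ^ s * (D * l) ^ (-s) = 1 := by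
        rw [← Real.rpow_add (by positivity), add_neg_cancel, Real.rpow_zero]
      calc (1 : ℝ) = (8 * (D * l) ^ s) / 8 * (D * l) ^ (-s) := by rw [← h4]; ring
        _ ≤ M / 8 * (D * l) ^ (-s) := by gcongr
        _ ≤ M / 8 * ((dd v : ℕ) : ℝ) ^ (-s) := by gcongr
    · push Not at hno
      obtain ⟨j1, hj1⟩ := hno
      -- the largest scale
      obtain ⟨j0, hj0, hmax⟩ : ∃ j0, c.use j0 (em v) ∧ ∀ j, c.use j (em v) → j ≤ j0 := by
        have hfin : ((Finset.range (N + 1)).filter (fun j => c.use j (em v))).Nonempty :=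
          ⟨j1, Finset.mem_filter.2 ⟨Finset.mem_range.2 (by have := hj1.2.1; omega), hj1⟩⟩
        refine ⟨_, (Finset.mem_filter.1 (Finset.max'_mem _ hfin)).2, fun j hj => ?_⟩
        refine Finset.le_max' _ _ (Finset.mem_filter.2 ⟨Finset.mem_range.2 ?_, hj⟩)
        have := hj.2.1
        omega
      -- the scale `N` is too large
      have hlt : j0 < N := by
        have h1 : j0 ≤ N := hj0.2.1
        rcases Nat.lt_or_ge j0 N with h2 | h2
        · exact h2
        · exfalso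
          have e : j0 = N := by omega
          rw [e] at hj0
          obtain ⟨A, B, eA, eB, a1, a2, a3, a4, a5, a6⟩ := scale_num hc N
          have h3 : ((c.sq N (em v)).1 + 9 * c.rho N, (c.sq N (em v)).2) ∈ box c.m c.n := by
            refine hj0.2.2 ?_
            rw [mem_Bx]
            simp only [add_sub_cancel_left, sub_self, abs_zero]
            rw [abs_of_nonneg (by rw [a6]; omega)]
            exact ⟨le_rfl, by rw [a6]; omega⟩
          have h4 : (c.sq N (em v)) ∈ box c.m c.n := by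
            refine hj0.2.2 ?_
            rw [mem_Bx]
            simp only [sub_self, abs_zero]
            constructor <;> · rw [a6]; omega
          rw [mem_box'] at h3 h4
          have h5 : 9 * c.rho N < m := by
            have h6 := h3.2.1
            have h7 := h4.1
            simp only at h6
            have h8 : (c.m : ℤ) = m := rfl
            omega
          have h6 : N < c.un N := by
            show N < a * l ^ N
            calc N < 2 ^ N := Nat.lt_two_pow_self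
              _ ≤ l ^ N := Nat.pow_le_pow_left (by omega) N
              _ ≤ a * l ^ N := Nat.le_mul_of_pos_left _ (by omega)
          have h7 : (N : ℤ) < c.un N := by exact_mod_cast h6
          rw [a6] at h5
          omega
      have h1 := H c hc rfl rfl rfl rfl rfl T hT M' hM'K chg hchg0 (fun j => le_refl _)
        (max N0 (Fintype.card c.V)) v j0 hj0 hmax hlt
      refine h1.trans ?_
      have h2 := hnear (j0 + 1) (by omega) (by omega) (fun h => by have := hmax _ h; omega)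
      have h3 : ((c.rho j0 : ℤ) : ℝ) = (2 * (Nz : ℝ) * h * a) * (l : ℝ) ^ j0 := by
        show (((2 * c.g.N * c.g.h * (c.un j0 : ℕ) : ℤ)) : ℝ) = _
        push_cast
        rw [hun, ← gN, ← gh]
        ring
      rw [h3]
      refine (site_num (R0 := 2 * (Nz : ℝ) * h * a) (D := D) hC1.le hM'0.le (by linarith) hqε hq2
        hε0.le (by positivity) ?_ hdv h2).trans (le_of_eq ?_)
      · rw [hD]
        have : (0 : ℝ) ≤ (Nz : ℝ) * h * a := by positivity
        nlinarith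
      · rw [hM', ← hs]
        field_simp
        ring
  calc ∑ v : c.V, T.J (max N0 (Fintype.card c.V)) (fun κ => chg (c.sc κ)) v
      ≤ ∑ v : c.V, M / 8 * ((dd v : ℕ) : ℝ) ^ (-s) := Finset.sum_le_sum (fun v _ => hsite v)
    _ = M / 8 * ∑ v : Fin m × Fin n, ((dd v : ℕ) : ℝ) ^ (-s) := by rw [Finset.mul_sum]
    _ ≤ M / 8 * (8 * ((max m n : ℕ) : ℝ) ^ (2 - s)) := by
        refine mul_le_mul_of_nonneg_left (sum_dd s (by rw [hs]; linarith) (by rw [hs]; linarith) m n)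
          (by positivity)
    _ = M * (N : ℝ) ^ ((7 : ℝ) / 4 - ε) := by
        rw [hmn]
        have e : (2 : ℝ) - s = 7 / 4 - ε := by rw [hs]; ring
        rw [e]
        ring

/-- The frozen statement S19243 from `JB`. -/
theorem frozen_of_JB (h : JB) :
    ∃ ε : ℝ, 0 < ε ∧ ∃ C : ℝ, ∀ n : ℕ, 1 ≤ n →
      ∀ f : (Fin n × Fin n → Bool) → Prop,
        (∀ ω : Fin n × Fin n → Bool, f ω ↔
          (∃ u v : Fin n × Fin n, u.1.val = 0 ∧ v.1.val = n - 1 ∧ ω u = true ∧
            (SimpleGraph.fromRel (fun x y : Fin n × Fin n =>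
              ω x = true ∧ ω y = true ∧
              ((x.1.val = y.1.val ∧ (x.2.val + 1 = y.2.val ∨ y.2.val + 1 = x.2.val)) ∨
               (x.2.val = y.2.val ∧ (x.1.val + 1 = y.1.val ∨ y.1.val + 1 = x.1.val)) ∨
               (x.1.val + 1 = y.1.val ∧ y.2.val + 1 = x.2.val) ∨
               (y.1.val + 1 = x.1.val ∧ x.2.val + 1 = y.2.val)))).Reachable u v)) →
        ∃ next : (Fin n × Fin n → Option Bool) → Fin n × Fin n,
          (∀ ω : Fin n × Fin n → Bool, ∀ ω' : Fin n × Fin n → Bool,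
            (∀ s : Fin n × Fin n, ∀ b : Bool,
              ((fun ρ : Fin n × Fin n → Option Bool =>
                  Function.update ρ (next ρ) (some (ω (next ρ))))^[n * n]
                  (fun _ => none)) s = some b → ω' s = b) →
            (f ω' ↔ f ω)) ∧
          (∑ ω : Fin n × Fin n → Bool,
              (((Finset.range (n * n)).filter (fun k =>
                ¬ ∀ ω' : Fin n × Fin n → Bool,
                  (∀ s : Fin n × Fin n, ∀ b : Bool,
                    ((fun ρ : Fin n × Fin n → Option Bool =>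
                        Function.update ρ (next ρ) (some (ω (next ρ))))^[k]
                        (fun _ => none)) s = some b → ω' s = b) →
                  (f ω' ↔ f ω))).card : ℝ)) / (2 : ℝ) ^ (n * n)
            ≤ C * (n : ℝ) ^ ((7 : ℝ) / 4 - ε) := frozen_of_step (size_step h)

end Pool.Agent.H89.Per
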