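import Pool.Agent.H89.Per.Rect

set_option autoImplicit false

/-! Numerics, the frozen crossing event, and the induction over the sizes (helper89; module FIN of
MP_2e6055_pr). -/

namespace Pool.Agent.H89.Per

open Classical
open Pool.Agent.H7.UC (Fc adjF)
open Pool.Agent.H74.Tri

/-! ### Numerics -/

theorem sum_pow (s : ℝ) (h0 : 0 ≤ s) (h1 : s ≤ 1 / 2) (a : ℕ) :
    ∑ i ∈ Finset.range a, ((i : ℝ) + 1) ^ (-s) ≤ 2 * (a : ℝ) ^ (1 - s) := by
  induction a with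
  | zero => simp; positivity
  | succ a ih =>
    rw [Finset.sum_range_succ]
    have hp : (0 : ℝ) < (a : ℝ) + 1 := by positivity
    have h2 : (a : ℝ) ^ (1 - s) ≤ ((a : ℝ) + 1) ^ (1 - s) * (1 - (1 - s) * ((a : ℝ) + 1)⁻¹) := by
      have hx : (a : ℝ) = ((a : ℝ) + 1) * (1 + -((a : ℝ) + 1)⁻¹) := by field_simp; ring
      have hx1 : (-1 : ℝ) ≤ -((a : ℝ) + 1)⁻¹ := by
        have : ((a : ℝ) + 1)⁻¹ ≤ 1 := inv_le_one_of_one_le₀ (by
          have : (0 : ℝ) ≤ a := Nat.cast_nonneg a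
          linarith)
        linarith
      have hx0 : 0 ≤ 1 + -((a : ℝ) + 1)⁻¹ := by linarith
      have hb := rpow_one_add_le_one_add_mul_self hx1 (p := 1 - s) (by linarith) (by linarith)
      calc (a : ℝ) ^ (1 - s) = (((a : ℝ) + 1) * (1 + -((a : ℝ) + 1)⁻¹)) ^ (1 - s) := by rw [← hx]
        _ = ((a : ℝ) + 1) ^ (1 - s) * (1 + -((a : ℝ) + 1)⁻¹) ^ (1 - s) :=
            Real.mul_rpow hp.le hx0
        _ ≤ ((a : ℝ) + 1) ^ (1 - s) * (1 + (1 - s) * -((a : ℝ) + 1)⁻¹) :=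
            mul_le_mul_of_nonneg_left hb (by positivity)
        _ = _ := by ring
    have h3 : ((a : ℝ) + 1) ^ (-s) = ((a : ℝ) + 1) ^ (1 - s) * ((a : ℝ) + 1)⁻¹ := by
      rw [← Real.rpow_neg_one ((a : ℝ) + 1), ← Real.rpow_add hp]
      congr 1
      ring
    have h4 : (0 : ℝ) ≤ ((a : ℝ) + 1) ^ (1 - s) * ((a : ℝ) + 1)⁻¹ := by positivity
    push_cast
    rw [h3]
    nlinarith

/-- distance to the outside of the box -/
def dd {a b : ℕ} (v : Fin a × Fin b) : ℕ :=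
  min (min (v.1.val + 1) (a - v.1.val)) (min (v.2.val + 1) (b - v.2.val))

theorem dd_pos {a b : ℕ} (v : Fin a × Fin b) : 1 ≤ dd v := by
  have h1 := v.1.isLt
  have h2 := v.2.isLt
  unfold dd
  omega

theorem dd_pow_le {a b : ℕ} (v : Fin a × Fin b) (s : ℝ) : ((dd v : ℕ) : ℝ) ^ (-s) ≤
    (((v.1.val : ℝ) + 1) ^ (-s) + (((a - v.1.val : ℕ) : ℝ)) ^ (-s)) +
    (((v.2.val : ℝ) + 1) ^ (-s) + (((b - v.2.val : ℕ) : ℝ)) ^ (-s)) := by
  have h1 : (0 : ℝ) ≤ ((v.1.val : ℝ) + 1) ^ (-s) := by positivity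
  have h2 : (0 : ℝ) ≤ (((a - v.1.val : ℕ) : ℝ)) ^ (-s) := by positivity
  have h3 : (0 : ℝ) ≤ ((v.2.val : ℝ) + 1) ^ (-s) := by positivity
  have h4 : (0 : ℝ) ≤ (((b - v.2.val : ℕ) : ℝ)) ^ (-s) := by positivity
  have h5 : dd v = v.1.val + 1 ∨ dd v = a - v.1.val ∨ dd v = v.2.val + 1 ∨ dd v = b - v.2.val := by
    unfold dd
    omega
  rcases h5 with h | h | h | h
  · rw [h]; push_cast; linarith
  · rw [h]; linarith
  · rw [h]; push_cast; linarith
  · rw [h]; linarith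

theorem sum_fin_up (s : ℝ) (a : ℕ) : ∑ i : Fin a, ((i.val : ℝ) + 1) ^ (-s) =
    ∑ i ∈ Finset.range a, ((i : ℝ) + 1) ^ (-s) :=
  Fin.sum_univ_eq_sum_range (fun i => ((i : ℝ) + 1) ^ (-s)) a

theorem sum_fin_down (s : ℝ) (a : ℕ) : ∑ i : Fin a, (((a - i.val : ℕ) : ℝ)) ^ (-s) =
    ∑ i ∈ Finset.range a, ((i : ℝ) + 1) ^ (-s) := by
  rw [Fin.sum_univ_eq_sum_range (fun i => (((a - i : ℕ) : ℝ)) ^ (-s)) a,
    ← Finset.sum_range_reflect (fun i => ((i : ℝ) + 1) ^ (-s)) a]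
  refine Finset.sum_congr rfl (fun i hi => ?_)
  rw [Finset.mem_range] at hi
  have : (a - i : ℕ) = (a - 1 - i) + 1 := by omega
  rw [this]
  push_cast
  rfl

/-- The sum over the box. -/
theorem sum_dd (s : ℝ) (h0 : 0 ≤ s) (h1 : s ≤ 1 / 2) (a b : ℕ) :
    ∑ v : Fin a × Fin b, ((dd v : ℕ) : ℝ) ^ (-s) ≤ 8 * ((max a b : ℕ) : ℝ) ^ (2 - s) := by
  have h2 : ∑ v : Fin a × Fin b, ((dd v : ℕ) : ℝ) ^ (-s) ≤
      ∑ v : Fin a × Fin b, ((((v.1.val : ℝ) + 1) ^ (-s) + (((a - v.1.val : ℕ) : ℝ)) ^ (-s)) +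
      (((v.2.val : ℝ) + 1) ^ (-s) + (((b - v.2.val : ℕ) : ℝ)) ^ (-s))) :=
    Finset.sum_le_sum (fun v _ => dd_pow_le v s)
  refine h2.trans ?_
  rw [Finset.sum_add_distrib, Finset.sum_add_distrib, Finset.sum_add_distrib]
  simp only [Fintype.sum_prod_type, Finset.sum_const, Finset.card_univ, Fintype.card_fin,
    nsmul_eq_mul, ← Finset.mul_sum]
  rw [sum_fin_up, sum_fin_down, sum_fin_up, sum_fin_down]
  set N : ℝ := ((max a b : ℕ) : ℝ) with hN
  have ha : (a : ℝ) ≤ N := by rw [hN]; exact_mod_cast le_max_left a b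
  have hb : (b : ℝ) ≤ N := by rw [hN]; exact_mod_cast le_max_right a b
  have ha0 : (0 : ℝ) ≤ a := Nat.cast_nonneg a
  have hb0 : (0 : ℝ) ≤ b := Nat.cast_nonneg b
  have hN0 : 0 ≤ N := ha0.trans ha
  have e : N ^ (2 - s) = N * N ^ (1 - s) := by
    rcases hN0.eq_or_lt with h | h
    · rw [← h, Real.zero_rpow (by linarith), zero_mul]
    · rw [show (2 - s) = 1 + (1 - s) by ring, Real.rpow_add h, Real.rpow_one]
  have pa : (a : ℝ) ^ (1 - s) ≤ N ^ (1 - s) := Real.rpow_le_rpow ha0 ha (by linarith)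
  have pb : (b : ℝ) ^ (1 - s) ≤ N ^ (1 - s) := Real.rpow_le_rpow hb0 hb (by linarith)
  have sa := sum_pow s h0 h1 a
  have sb := sum_pow s h0 h1 b
  have qa : (b : ℝ) * ∑ i ∈ Finset.range a, ((i : ℝ) + 1) ^ (-s) ≤ 2 * (N * N ^ (1 - s)) := by
    calc (b : ℝ) * ∑ i ∈ Finset.range a, ((i : ℝ) + 1) ^ (-s) ≤ N * (2 * N ^ (1 - s)) := by
          refine mul_le_mul hb (sa.trans (by linarith)) (Finset.sum_nonneg (fun i _ => ?_)) hN0
          positivity
      _ = _ := by ring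
  have qb : (a : ℝ) * ∑ i ∈ Finset.range b, ((i : ℝ) + 1) ^ (-s) ≤ 2 * (N * N ^ (1 - s)) := by
    calc (a : ℝ) * ∑ i ∈ Finset.range b, ((i : ℝ) + 1) ^ (-s) ≤ N * (2 * N ^ (1 - s)) := by
          refine mul_le_mul ha (sb.trans (by linarith)) (Finset.sum_nonneg (fun i _ => ?_)) hN0
          positivity
      _ = _ := by ring
  rw [e]
  linarith

/-- The charge of an attempt: `q` = size of the square, `x` = size of the annulus, `r` = scale. -/
theorem charge_ok {A C2 c' β δ ε r x q : ℝ} (hA : 0 ≤ A) (hC2 : 0 ≤ C2) (hc' : 0 ≤ c')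
    (hε0 : 0 ≤ ε) (hε : ε ≤ 1 / 4) (hr : 0 < r) (hδ : 0 < δ) (hδ1 : δ ≤ 1) (hx0 : 0 ≤ x)
    (hx : x ≤ δ * r) (hq : β * r ^ 2 ≤ q) (h : 32 * C2 * δ ≤ β * c') :
    4 * (8 * A * C2 * x ^ ((7 : ℝ) / 4 - ε)) ≤ q * (c' * A * r ^ (-(1 / 4 + ε))) := by
  have hδr : 0 ≤ δ * r := by positivity
  have e1 : x ^ ((7 : ℝ) / 4 - ε) ≤ (δ * r) ^ ((7 : ℝ) / 4 - ε) :=
    Real.rpow_le_rpow hx0 hx (by linarith)
  have e2 : (δ * r) ^ ((7 : ℝ) / 4 - ε) = δ ^ ((7 : ℝ) / 4 - ε) * r ^ ((7 : ℝ) / 4 - ε) :=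
    Real.mul_rpow hδ.le hr.le
  have e3 : δ ^ ((7 : ℝ) / 4 - ε) ≤ δ := by
    calc δ ^ ((7 : ℝ) / 4 - ε) ≤ δ ^ (1 : ℝ) :=
          Real.rpow_le_rpow_of_exponent_ge hδ hδ1 (by linarith)
      _ = δ := Real.rpow_one δ
  have e4 : r ^ ((7 : ℝ) / 4 - ε) = r ^ 2 * r ^ (-(1 / 4 + ε)) := by
    rw [← Real.rpow_natCast r 2, ← Real.rpow_add hr]
    congr 1
    push_cast
    ring
  have hR : 0 ≤ r ^ (-(1 / 4 + ε)) := by positivity
  have hR2 : 0 ≤ r ^ ((7 : ℝ) / 4 - ε) := by positivity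
  calc 4 * (8 * A * C2 * x ^ ((7 : ℝ) / 4 - ε))
      ≤ 4 * (8 * A * C2 * (δ * r ^ ((7 : ℝ) / 4 - ε))) := by
        have : x ^ ((7 : ℝ) / 4 - ε) ≤ δ * r ^ ((7 : ℝ) / 4 - ε) :=
          e1.trans (e2.le.trans (mul_le_mul_of_nonneg_right e3 hR2))
        gcongr
    _ = (32 * C2 * δ) * (A * r ^ ((7 : ℝ) / 4 - ε)) := by ring
    _ ≤ (β * c') * (A * r ^ ((7 : ℝ) / 4 - ε)) := mul_le_mul_of_nonneg_right h (by positivity)
    _ = (β * r ^ 2) * (c' * A * r ^ (-(1 / 4 + ε))) := by rw [e4]; ring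
    _ ≤ q * (c' * A * r ^ (-(1 / 4 + ε))) := mul_le_mul_of_nonneg_right hq (by positivity)

/-! ### The frozen event -/

theorem frozen_iff (n : ℕ) (hn : 1 ≤ n) (ω : Fin n × Fin n → Bool) : crF n n ω ↔
    (∃ u v : Fin n × Fin n, u.1.val = 0 ∧ v.1.val = n - 1 ∧ ω u = true ∧
            (SimpleGraph.fromRel (fun x y : Fin n × Fin n =>
              ω x = true ∧ ω y = true ∧
              ((x.1.val = y.1.val ∧ (x.2.val + 1 = y.2.val ∨ y.2.val + 1 = x.2.val)) ∨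
               (x.2.val = y.2.val ∧ (x.1.val + 1 = y.1.val ∨ y.1.val + 1 = x.1.val)) ∨
               (x.1.val + 1 = y.1.val ∧ y.2.val + 1 = x.2.val) ∨
               (y.1.val + 1 = x.1.val ∧ x.2.val + 1 = y.2.val)))).Reachable u v) := by
  have hadj : ∀ x y : Fin n × Fin n, adjF (Pool.Agent.H74.Tri.em x) (Pool.Agent.H74.Tri.em y) ↔
      ((x.1.val = y.1.val ∧ (x.2.val + 1 = y.2.val ∨ y.2.val + 1 = x.2.val)) ∨
               (x.2.val = y.2.val ∧ (x.1.val + 1 = y.1.val ∨ y.1.val + 1 = x.1.val)) ∨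
               (x.1.val + 1 = y.1.val ∧ y.2.val + 1 = x.2.val) ∨
               (y.1.val + 1 = x.1.val ∧ x.2.val + 1 = y.2.val)) := by
    intro x y
    rw [adjF_iff]
    unfold Pool.Agent.H74.Tri.em
    simp only
    omega
  constructor
  · rintro ⟨u, v, h1, h2, h3, h4, h5, h6⟩
    obtain ⟨u', rfl⟩ := exists_em h1
    obtain ⟨v', rfl⟩ := exists_em h2
    have hu1 : (u'.1.val : ℤ) = 0 := h3
    have hv1 : (v'.1.val : ℤ) = n - 1 := h4
    refine ⟨u', v', by omega, by omega, by rw [← ext_em ω u']; exact h5, ?_⟩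
    have key : ∀ g, Jn {a | a ∈ box n n ∧ ext n n ω a = true} (Pool.Agent.H74.Tri.em u') g →
        ∀ y : Fin n × Fin n, Pool.Agent.H74.Tri.em y = g → (SimpleGraph.fromRel (fun x y : Fin n × Fin n =>
              ω x = true ∧ ω y = true ∧
              ((x.1.val = y.1.val ∧ (x.2.val + 1 = y.2.val ∨ y.2.val + 1 = x.2.val)) ∨
               (x.2.val = y.2.val ∧ (x.1.val + 1 = y.1.val ∨ y.1.val + 1 = x.1.val)) ∨
               (x.1.val + 1 = y.1.val ∧ y.2.val + 1 = x.2.val) ∨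
               (y.1.val + 1 = x.1.val ∧ x.2.val + 1 = y.2.val)))).Reachable u' y := by
      intro g hg
      induction hg with
      | refl => intro y hy; rw [em_inj hy]
      | @tail c d hc hd ih =>
        intro y hy
        have hcm : c ∈ {a | a ∈ box n n ∧ ext n n ω a = true} := Jn.mem hc ⟨h1, h5⟩
        obtain ⟨x, hx⟩ := exists_em hcm.1
        refine (ih x hx).trans (SimpleGraph.Adj.reachable ?_)
        rw [SimpleGraph.fromRel_adj]
        have hxy : adjF (Pool.Agent.H74.Tri.em x) (Pool.Agent.H74.Tri.em y) := by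
          rw [hx, hy]; exact hd.2
        refine ⟨fun e => adjF_ne hxy (by rw [e]), Or.inl ⟨?_, ?_, (hadj x y).1 hxy⟩⟩
        · rw [← ext_em ω x, hx]; exact hcm.2
        · rw [← ext_em ω y, hy]; exact hd.1.2
    exact key _ h6 v' rfl
  · rintro ⟨u, v, h1, h2, h3, h4⟩
    refine ⟨Pool.Agent.H74.Tri.em u, Pool.Agent.H74.Tri.em v, em_mem u, em_mem v, ?_, ?_,
      by rw [ext_em]; exact h3, ?_⟩
    · show (u.1.val : ℤ) = 0
      omega
    · show (v.1.val : ℤ) = n - 1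
      omega
    · rw [SimpleGraph.reachable_iff_reflTransGen] at h4
      clear h2
      induction h4 with
      | refl => exact Jn.refl _
      | @tail c d _ hd ih =>
        have hd' := (SimpleGraph.fromRel_adj _ _ _).1 hd
        have hcd : ω d = true ∧ adjF (Pool.Agent.H74.Tri.em c) (Pool.Agent.H74.Tri.em d) := by
          rcases hd'.2 with h | h
          · exact ⟨h.2.1, (hadj c d).2 h.2.2⟩
          · exact ⟨h.1, adjF_symm ((hadj d c).2 h.2.2)⟩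
        exact ih.step ⟨em_mem d, by rw [ext_em]; exact hcd.1⟩ hcd.2

/-! ### The induction over the sizes -/

/-- The step of the induction over the sizes. -/
def SizeStep : Prop := ∃ ε M : ℝ, 0 < ε ∧ ∀ N : ℕ,
  (∀ a b : ℕ, 1 ≤ a → 1 ≤ b → max a b < N → Has a b (M * ((max a b : ℕ) : ℝ) ^ ((7 : ℝ) / 4 - ε))) →
  ∀ a b : ℕ, 1 ≤ a → 1 ≤ b → max a b = N → Has a b (M * (N : ℝ) ^ ((7 : ℝ) / 4 - ε))

theorem has_of_step {ε M : ℝ} (h : ∀ N : ℕ,
    (∀ a b : ℕ, 1 ≤ a → 1 ≤ b → max a b < N → Has a b (M * ((max a b : ℕ) : ℝ) ^ ((7 : ℝ) / 4 - ε))) →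
    ∀ a b : ℕ, 1 ≤ a → 1 ≤ b → max a b = N → Has a b (M * (N : ℝ) ^ ((7 : ℝ) / 4 - ε))) :
    ∀ a b : ℕ, 1 ≤ a → 1 ≤ b → Has a b (M * ((max a b : ℕ) : ℝ) ^ ((7 : ℝ) / 4 - ε)) := by
  have key : ∀ N a b : ℕ, 1 ≤ a → 1 ≤ b → max a b < N →
      Has a b (M * ((max a b : ℕ) : ℝ) ^ ((7 : ℝ) / 4 - ε)) := by
    intro N
    induction N with
    | zero => intro a b _ _ h0; exact absurd h0 (Nat.not_lt_zero _)
    | succ N ih =>
      intro a b ha hb hab
      rcases Nat.lt_succ_iff_lt_or_eq.1 hab with h1 | h1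
      · exact ih a b ha hb h1
      · rw [h1]
        exact h N ih a b ha hb h1
  intro a b ha hb
  exact key (max a b + 1) a b ha hb (Nat.lt_succ_self _)

/-- The frozen statement S19243 from the step of the induction. -/
theorem frozen_of_step (h : SizeStep) :
    ∃ ε : ℝ, 0 < ε ∧ ∃ C : ℝ, ∀ n : ℕ, 1 ≤ n →
      ∀ f : (Fin n × Fin n → Bool) → Prop,
        (∀ ω : Fin n × Fin n → Bool, f ω ↔
          (∃ u v : Fin n × Fin n, u.1.val = 0 ∧ v.1.val = n - 1 ∧ ω u = true ∧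
            (SimpleGraph.fromRel (fun x y : Fin n × Fin n =>
              ω x = true ∧ ω y = true ∧
              ((x.1.val = y.1.val ∧ (x.2.val + 1 = y.2.val ∨ y.2.val + 1 = x.2.val)) ∨
               (x.2.val = y.2.val ∧ (x.1.val + 1 = y.1.val ∨ y.1.val + 1 = x.1.val)) ∨
               (x.1.val + 1 = y.1.val ∧ y.2.val + 1 = x.2.val) ∨
               (y.1.val + 1 = x.1.val ∧ x.2.val + 1 = y.2.val)))).Reachable u v)) →
        ∃ next : (Fin n × Fin n → Option Bool) → Fin n × Fin n,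
          (∀ ω : Fin n × Fin n → Bool, ∀ ω' : Fin n × Fin n → Bool,
            (∀ s : Fin n × Fin n, ∀ b : Bool,
              ((fun ρ : Fin n × Fin n → Option Bool =>
                  Function.update ρ (next ρ) (some (ω (next ρ))))^[n * n]
                  (fun _ => none)) s = some b → ω' s = b) →
            (f ω' ↔ f ω)) ∧
          (∑ ω : Fin n × Fin n → Bool,
              (((Finset.range (n * n)).filter (fun k =>
                ¬ ∀ ω' : Fin n × Fin n → Bool,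
                  (∀ s : Fin n × Fin n, ∀ b : Bool,
                    ((fun ρ : Fin n × Fin n → Option Bool =>
                        Function.update ρ (next ρ) (some (ω (next ρ))))^[k]
                        (fun _ => none)) s = some b → ω' s = b) →
                  (f ω' ↔ f ω))).card : ℝ)) / (2 : ℝ) ^ (n * n)
            ≤ C * (n : ℝ) ^ ((7 : ℝ) / 4 - ε) := by
  obtain ⟨ε, M, hε, hstep⟩ := h
  refine ⟨ε, hε, M, fun n hn f hf => ?_⟩
  obtain ⟨t, ht, _, hq⟩ := has_of_step hstep n n hn hn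
  have hf' : ∀ ω, f ω ↔ crF n n ω := fun ω => by rw [hf ω, frozen_iff n hn ω]
  rw [max_self] at hq
  exact next_of_dt n hn f t (decides_congr ht hf') _ hq

end Pool.Agent.H89.Per
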