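import Pool.Agent.H89.Per.Frozen

set_option autoImplicit false

/-! Explorations with nested attempts, as a decision tree (helper89, module ALG of MP_2e6055_pr).

An exploration system has contexts (the main exploration, and the attempts); a context is a path of
states.  When the history of a context triggers attempts, their paths are explored first (with their
own attempts), then the path goes on.  `alg` : the number of paid queries is at most `cost`, which
only looks at the plain paths of the contexts. -/

namespace Pool.Agent.H89.Per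

open Classical

/-- What a context does in a state. -/
inductive Act (V S : Type) : Type
  | stop : Act V S
  | go : S → Act V S
  | ask : V → (Bool → S) → Act V S

/-- An exploration system. Histories are lists of states, the latest first. -/
structure Sys (V : Type) : Type 1 where
  /-- contexts -/
  C : Type
  /-- states -/
  S : Type
  init : C → S
  act : C → S → Act V S
  /-- the attempts which start at this history -/
  trig : C → List S → List C
  /-- the level of a context, larger than the levels of its attempts -/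
  lev : C → ℕ
  trig_lev : ∀ c h c', c' ∈ trig c h → lev c' < lev c
  /-- the attempt `c'` which starts in `c` at the history `h` kills `x` -/
  kill : C → List S → C → (V → Bool) → V → Prop

variable {V : Type} (Y : Sys V)

/-- the next state in the configuration `ω` -/
def Act.nxt {S : Type} (ω : V → Bool) : Act V S → Option S
  | Act.stop => none
  | Act.go s => some s
  | Act.ask x k => some (k (ω x))

/-- the query -/
def Act.qry {S : Type} : Act V S → Option V
  | Act.stop => none
  | Act.go _ => none
  | Act.ask x _ => some x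

/-- the next history -/
def Sys.stepH (ω : V → Bool) (c : Y.C) : List Y.S → Option (List Y.S)
  | [] => none
  | s :: h => ((Y.act c s).nxt ω).map (fun s' => s' :: s :: h)

/-- the query at a history -/
def Sys.qH (c : Y.C) : List Y.S → Option V
  | [] => none
  | s :: _ => (Y.act c s).qry

/-- the history of the context `c` at time `t` (none after the stop) -/
def Sys.hist (ω : V → Bool) (c : Y.C) : ℕ → Option (List Y.S)
  | 0 => some [Y.init c]
  | t + 1 => (Sys.hist ω c t).bind (Y.stepH ω c)

/-- the site asked by the path of `c` at time `t` -/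
def Sys.asks (ω : V → Bool) (c : Y.C) (t : ℕ) : Option V := (Y.hist ω c t).bind (Y.qH c)

/-- the attempts started in `c` at time `t` -/
def Sys.trigAt (ω : V → Bool) (c : Y.C) (t : ℕ) : List Y.C :=
  match Y.hist ω c t with
  | none => []
  | some h => Y.trig c h

/-- `x` is killed by an attempt started in `c` before time `t` -/
def Sys.killed (ω : V → Bool) (c : Y.C) (t : ℕ) (x : V) : Prop :=
  ∃ t' < t, ∃ h, Y.hist ω c t' = some h ∧ ∃ c' ∈ Y.trig c h, Y.kill c h c' ω x

/-- The cost: queries of the path of `c` which are not killed, and the costs of the attempts. -/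
noncomputable def Sys.cost (N : ℕ) : ℕ → Y.C → (V → Bool) → (V → Prop) → ℕ
  | 0, _, _, _ => 0
  | l + 1, c, ω, Z => ∑ t ∈ Finset.range N,
      ((if ∃ x, Y.asks ω c t = some x ∧ ¬ Z x ∧ ¬ Y.killed ω c (t + 1) x then 1 else 0) +
        ((Y.trigAt ω c t).map
          (fun c' => Sys.cost N l c' ω (fun x => Z x ∨ Y.killed ω c t x))).sum)

/-- One step of the path, `w` = the rest of the walk. -/
def Sys.body (c : Y.C) (w : List Y.S → DT V) (cont : DT V) : List Y.S → DT V
  | [] => cont
  | s :: h' =>
    match Y.act c s with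
    | Act.stop => cont
    | Act.go s' => w (s' :: s :: h')
    | Act.ask x k => DT.ask x (fun b => w (k b :: s :: h'))

/-- The walk of a context, `att` = the trees of the attempts. -/
noncomputable def Sys.walk (c : Y.C) (att : Y.C → DT V → DT V) : ℕ → List Y.S → DT V → DT V
  | 0, _, cont => cont
  | n + 1, h, cont => (Y.trig c h).foldr att (Y.body c (fun h' => Sys.walk c att n h' cont) cont h)

theorem body_nil (c : Y.C) (w : List Y.S → DT V) (cont : DT V) : Y.body c w cont [] = cont := rfl

theorem body_stop (c : Y.C) (w : List Y.S → DT V) (cont : DT V) {s : Y.S} {h : List Y.S}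
    (e : Y.act c s = Act.stop) : Y.body c w cont (s :: h) = cont := by
  simp only [Sys.body, e]

theorem body_go (c : Y.C) (w : List Y.S → DT V) (cont : DT V) {s s' : Y.S} {h : List Y.S}
    (e : Y.act c s = Act.go s') : Y.body c w cont (s :: h) = w (s' :: s :: h) := by
  simp only [Sys.body, e]

theorem body_ask (c : Y.C) (w : List Y.S → DT V) (cont : DT V) {s : Y.S} {h : List Y.S} {x : V}
    {k : Bool → Y.S} (e : Y.act c s = Act.ask x k) :
    Y.body c w cont (s :: h) = DT.ask x (fun b => w (k b :: s :: h)) := by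
  simp only [Sys.body, e]

/-- The tree of a context. -/
noncomputable def Sys.tree (N : ℕ) : ℕ → Y.C → DT V → DT V
  | 0, _, cont => cont
  | l + 1, c, cont => Y.walk c (Sys.tree N l) N [Y.init c] cont

/-- Hypotheses on the system: `valid ω c` = the context `c` really occurs in `ω`. -/
structure Sys.Good (f : (V → Bool) → Prop) (N : ℕ) (valid : (V → Bool) → Y.C → Prop) : Prop where
  step : ∀ ω c t h c', t < N → valid ω c → Y.hist ω c t = some h → c' ∈ Y.trig c h → valid ω c'
  geo : ∀ ω c t h c' x ρ, t < N → valid ω c → Y.hist ω c t = some h → c' ∈ Y.trig c h →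
    Y.kill c h c' ω x → Agrees ρ ω → (∀ t' < t, ∀ y, Y.asks ω c t' = some y → ρ y ≠ none) →
    (∀ t' < N, ∀ y, Y.asks ω c' t' = some y → ρ y ≠ none) → ¬ Relevant f ρ x

/-! ### Extensions of partial assignments -/

/-- `ρ'` extends `ρ`. -/
def Ext (ρ ρ' : V → Option Bool) : Prop := ∀ s b, ρ s = some b → ρ' s = some b

theorem Ext.refl (ρ : V → Option Bool) : Ext ρ ρ := fun _ _ h => h

theorem Ext.trans {ρ ρ' ρ'' : V → Option Bool} (h : Ext ρ ρ') (h' : Ext ρ' ρ'') : Ext ρ ρ'' :=
  fun s b hs => h' s b (h s b hs)

theorem Ext.ne {ρ ρ' : V → Option Bool} (h : Ext ρ ρ') {y : V} (hy : ρ y ≠ none) : ρ' y ≠ none := by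
  rcases option_cases (ρ y) with h1 | ⟨b, h1⟩
  · exact absurd h1 hy
  · rw [h y b h1]; simp

theorem ext_update {ρ : V → Option Bool} {x : V} (b : Bool) (h : ρ x = none) :
    Ext ρ (Function.update ρ x (some b)) := by
  intro s b' hs
  have : s ≠ x := fun e => by rw [e, h] at hs; simp at hs
  rw [Function.update_of_ne this]
  exact hs

theorem agrees_update {ρ : V → Option Bool} {ω : V → Bool} (h : Agrees ρ ω) (x : V) :
    Agrees (Function.update ρ x (some (ω x))) ω := by
  intro s b hs
  by_cases hx : s = x
  · rw [hx, Function.update_self] at hs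
    rw [hx]
    exact Option.some.inj hs
  · rw [Function.update_of_ne hx] at hs
    exact h s b hs

/-- Irrelevant variables stay irrelevant. -/
theorem relevant_mono {f : (V → Bool) → Prop} {ρ ρ' : V → Option Bool} (h : Ext ρ ρ') {x : V}
    (hr : Relevant f ρ' x) : Relevant f ρ x := by
  obtain ⟨h1, ω, h2, h3⟩ := hr
  refine ⟨?_, ω, fun s b hs => h2 s b (h s b hs), h3⟩
  rcases option_cases (ρ x) with h4 | ⟨b, h4⟩
  · exact h4
  · rw [h x b h4] at h1; simp at h1

theorem not_relevant_of_det {f : (V → Bool) → Prop} {ρ : V → Option Bool} (h : Det f ρ) (x : V) :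
    ¬ Relevant f ρ x := by
  rintro ⟨h1, ω, h2, h3⟩
  have h4 : ∀ b, Agrees ρ (Function.update ω x b) := by
    intro b s b' hs
    have : s ≠ x := fun e => by rw [e, h1] at hs; simp at hs
    rw [Function.update_of_ne this]
    exact h2 s b' hs
  exact h3 (h _ _ (h4 false) (h4 true))

theorem det_mono {f : (V → Bool) → Prop} {ρ ρ' : V → Option Bool} (h : Ext ρ ρ') (hd : Det f ρ) :
    Det f ρ' := fun ω ω' h1 h2 =>
  hd ω ω' (fun s b hs => h1 s b (h s b hs)) (fun s b hs => h2 s b (h s b hs))

/-! ### Asking everything -/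

/-- Ask all variables of a list. -/
def askAll : List V → DT V
  | [] => DT.leaf
  | x :: L => DT.ask x (fun _ => askAll L)

theorem askAll_spec (f : (V → Bool) → Prop) (L : List V) : ∀ (ρ : V → Option Bool) (ω : V → Bool),
    Agrees ρ ω → Det f ρ → paid f (askAll L) ρ ω = 0 ∧ Agrees (final (askAll L) ρ ω) ω ∧
      Ext ρ (final (askAll L) ρ ω) ∧ ∀ y ∈ L, final (askAll L) ρ ω y ≠ none := by
  induction L with
  | nil =>
    intro ρ ω h _
    exact ⟨rfl, h, Ext.refl ρ, fun y hy => by simp at hy⟩
  | cons x L ih =>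
    intro ρ ω h hd
    rcases option_cases (ρ x) with h1 | ⟨b, h1⟩
    · have h2 := ih (Function.update ρ x (some (ω x))) ω (agrees_update h x)
        (det_mono (ext_update _ h1) hd)
      unfold askAll
      rw [paid_none f h1, final_none h1, if_neg (not_relevant_of_det hd x), zero_add]
      refine ⟨h2.1, h2.2.1, Ext.trans (ext_update _ h1) h2.2.2.1, ?_⟩
      intro y hy
      rcases List.mem_cons.1 hy with rfl | hy
      · exact h2.2.2.1.ne (by simp)
      · exact h2.2.2.2 y hy
    · have h2 := ih ρ ω h hd
      unfold askAll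
      rw [paid_some f h1, final_some h1]
      refine ⟨h2.1, h2.2.1, h2.2.2.1, ?_⟩
      intro y hy
      rcases List.mem_cons.1 hy with rfl | hy
      · exact h2.2.2.1.ne (by simp [h1])
      · exact h2.2.2.2 y hy

/-! ### The main estimate -/

/-- Specification of a tree with continuation. -/
def SpecAt (f : (V → Bool) → Prop) (ω : V → Bool) (t : DT V → DT V) (cst : (V → Prop) → ℕ)
    (P : V → Prop) : Prop :=
  ∀ (ρ : V → Option Bool) (Z : V → Prop) (cont : DT V), Agrees ρ ω → (∀ x, Z x → ¬ Relevant f ρ x) →
    ∃ ρ', Ext ρ ρ' ∧ Agrees ρ' ω ∧ (∀ y, P y → ρ' y ≠ none) ∧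
      paid f (t cont) ρ ω ≤ cst Z + paid f cont ρ' ω ∧ final (t cont) ρ ω = final cont ρ' ω

theorem foldr_spec (f : (V → Bool) → Prop) (ω : V → Bool) {C : Type} (att : C → DT V → DT V)
    (cst : C → (V → Prop) → ℕ) (P : C → V → Prop) (L : List C)
    (h : ∀ c ∈ L, SpecAt f ω (att c) (cst c) (P c)) :
    SpecAt f ω (fun t => L.foldr att t) (fun Z => (L.map (fun c => cst c Z)).sum)
      (fun y => ∃ c ∈ L, P c y) := by
  induction L with
  | nil =>
    intro ρ Z cont h1 _
    exact ⟨ρ, Ext.refl ρ, h1, by rintro y ⟨c, hc, _⟩; simp at hc, by simp, rfl⟩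
  | cons c L ih =>
    intro ρ Z cont h1 h2
    obtain ⟨ρ1, e1, a1, p1, q1, f1⟩ := h c (by simp) ρ Z (L.foldr att cont) h1 h2
    obtain ⟨ρ2, e2, a2, p2, q2, f2⟩ := ih (fun c' hc' => h c' (by simp [hc'])) ρ1 Z cont a1
      (fun x hx hr => h2 x hx (relevant_mono e1 hr))
    refine ⟨ρ2, e1.trans e2, a2, ?_, ?_, ?_⟩
    · rintro y ⟨c', hc', hP⟩
      rcases List.mem_cons.1 hc' with rfl | hc'
      · exact e2.ne (p1 y hP)
      · exact p2 y ⟨c', hc', hP⟩
    · simp only [List.foldr_cons, List.map_cons, List.sum_cons]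
      simp only at q2
      omega
    · simp only [List.foldr_cons]
      rw [f1, f2]

theorem hist_succ_none {ω : V → Bool} {c : Y.C} {t : ℕ} (h : Y.hist ω c t = none) :
    ∀ n, Y.hist ω c (t + n) = none := by
  intro n
  induction n with
  | zero => exact h
  | succ n ih =>
    have : Y.hist ω c (t + (n + 1)) = (Y.hist ω c (t + n)).bind (Y.stepH ω c) := rfl
    rw [this, ih]; rfl

/-- The walk from time `t`. -/
theorem walk_spec {f : (V → Bool) → Prop} {N : ℕ} {valid : (V → Bool) → Y.C → Prop}
    (hG : Y.Good f N valid) (l : ℕ) (ω : V → Bool) (c : Y.C) (hv : valid ω c)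
    (hatt : ∀ t < N, ∀ c' ∈ Y.trigAt ω c t, SpecAt f ω (Y.tree N l c') (fun Z => Y.cost N l c' ω Z)
      (fun y => ∃ t' < N, Y.asks ω c' t' = some y)) :
    ∀ (n t : ℕ) (h : List Y.S), t + n ≤ N → Y.hist ω c t = some h →
    ∀ (ρ : V → Option Bool) (Z : V → Prop) (cont : DT V), Agrees ρ ω →
      (∀ x, Z x → ¬ Relevant f ρ x) → (∀ x, Y.killed ω c t x → ¬ Relevant f ρ x) →
      (∀ t' < t, ∀ y, Y.asks ω c t' = some y → ρ y ≠ none) →
    ∃ ρ', Ext ρ ρ' ∧ Agrees ρ' ω ∧ (∀ y, (∃ t' < t + n, Y.asks ω c t' = some y) → ρ' y ≠ none) ∧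
      paid f (Y.walk c (Y.tree N l) n h cont) ρ ω ≤ (∑ i ∈ Finset.range n,
        ((if ∃ x, Y.asks ω c (t + i) = some x ∧ ¬ Z x ∧ ¬ Y.killed ω c (t + i + 1) x then 1 else 0) +
        ((Y.trigAt ω c (t + i)).map
          (fun c' => Y.cost N l c' ω (fun x => Z x ∨ Y.killed ω c (t + i) x))).sum)) +
        paid f cont ρ' ω ∧
      final (Y.walk c (Y.tree N l) n h cont) ρ ω = final cont ρ' ω := by
  intro n
  induction n with
  | zero =>
    intro t h _ _ ρ Z cont h1 _ _ h4
    refine ⟨ρ, Ext.refl ρ, h1, ?_, ?_, rfl⟩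
    · rintro y ⟨t', ht', hy⟩
      exact h4 t' (by omega) y hy
    · simp [Sys.walk]
  | succ n ih =>
    intro t h htn hh ρ Z cont h1 h2 h3 h4
    have htr : Y.trigAt ω c t = Y.trig c h := by
      unfold Sys.trigAt; rw [hh]
    -- the attempts
    have hL := foldr_spec f ω (Y.tree N l) (fun c' Z => Y.cost N l c' ω Z)
      (fun c' y => ∃ t' < N, Y.asks ω c' t' = some y) (Y.trig c h)
      (fun c' hc' => hatt t (by omega) c' (htr ▸ hc'))
    -- the body
    obtain ⟨ρ1, e1, a1, p1, q1, f1⟩ := hL ρ (fun x => Z x ∨ Y.killed ω c t x)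
      (Y.body c (fun h' => Y.walk c (Y.tree N l) n h' cont) cont h) h1
      (by
        rintro x (hx | hx)
        · exact h2 x hx
        · exact h3 x hx)
    have hkill : ∀ x, Y.killed ω c (t + 1) x → ¬ Relevant f ρ1 x := by
      rintro x ⟨t', ht', h', hh', c', hc', hk⟩
      rcases Nat.lt_succ_iff_lt_or_eq.1 ht' with hlt | heq
      · exact fun hr => h3 x ⟨t', hlt, h', hh', c', hc', hk⟩ (relevant_mono e1 hr)
      · subst heq
        rw [hh] at hh'
        have hhe : h = h' := Option.some.inj hh'
        subst hhe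
        exact hG.geo ω c t' h c' x ρ1 (by omega) hv hh hc' hk a1
          (fun s hs y hy => e1.ne (h4 s hs y hy))
          (fun s hs y hy => p1 y ⟨c', hc', s, hs, hy⟩)
    have hZ1 : ∀ x, Z x → ¬ Relevant f ρ1 x := fun x hx hr => h2 x hx (relevant_mono e1 hr)
    have hs0 : ∀ t' < t, ∀ y, Y.asks ω c t' = some y → ρ1 y ≠ none :=
      fun s hs y hy => e1.ne (h4 s hs y hy)
    rw [Finset.sum_range_succ']
    simp only [add_zero]
    have hshift : ∀ i, t + (i + 1) = (t + 1) + i := fun i => by omega
    rw [Finset.sum_congr rfl (fun i _ => by rw [hshift i])]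
    rw [htr]
    -- reduce to the body
    suffices hb : ∃ ρ', Ext ρ1 ρ' ∧ Agrees ρ' ω ∧
        (∀ y, (∃ t' < t + (n + 1), Y.asks ω c t' = some y) → ρ' y ≠ none) ∧
        paid f (Y.body c (fun h' => Y.walk c (Y.tree N l) n h' cont) cont h) ρ1 ω ≤
          (∑ i ∈ Finset.range n,
          ((if ∃ x, Y.asks ω c (t + 1 + i) = some x ∧ ¬ Z x ∧ ¬ Y.killed ω c (t + 1 + i + 1) x
            then 1 else 0) +
          ((Y.trigAt ω c (t + 1 + i)).map
          (fun c' => Y.cost N l c' ω (fun x => Z x ∨ Y.killed ω c (t + 1 + i) x))).sum)) +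
          (if ∃ x, Y.asks ω c t = some x ∧ ¬ Z x ∧ ¬ Y.killed ω c (t + 1) x then 1 else 0) +
          paid f cont ρ' ω ∧
        final (Y.body c (fun h' => Y.walk c (Y.tree N l) n h' cont) cont h) ρ1 ω =
          final cont ρ' ω by
      obtain ⟨ρ', e2, a2, p2, q2, f2⟩ := hb
      have hw : Y.walk c (Y.tree N l) (n + 1) h cont = (Y.trig c h).foldr (Y.tree N l)
        (Y.body c (fun h' => Y.walk c (Y.tree N l) n h' cont) cont h) := rfl
      refine ⟨ρ', e1.trans e2, a2, p2, ?_, ?_⟩
      · rw [hw]
        simp only at q1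
        omega
      · rw [hw]
        exact f1.trans f2
    -- the three cases
    have hsucc : Y.hist ω c (t + 1) = Y.stepH ω c h := by
      have : Y.hist ω c (t + 1) = (Y.hist ω c t).bind (Y.stepH ω c) := rfl
      rw [this, hh]; rfl
    have hask : Y.asks ω c t = Y.qH c h := by
      unfold Sys.asks; rw [hh]; rfl
    match h, hh, hsucc, hask with
    | [], hh, hsucc, hask =>
      rw [body_nil]
      refine ⟨ρ1, Ext.refl _, a1, ?_, ?_, rfl⟩
      · rintro y ⟨t', ht', hy⟩
        rcases lt_trichotomy t' t with hlt | heq | hgt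
        · exact hs0 t' hlt y hy
        · subst heq; rw [hask] at hy; simp [Sys.qH] at hy
        · exfalso
          obtain ⟨m, rfl⟩ : ∃ m, t' = t + 1 + m := ⟨t' - (t + 1), by omega⟩
          have h0 : Y.hist ω c (t + 1) = none := by rw [hsucc]; rfl
          have := hist_succ_none Y h0 m
          unfold Sys.asks at hy
          rw [this] at hy
          simp at hy
      · exact Nat.le_add_left _ _
    | s :: h', hh, hsucc, hask =>
      rcases hact : Y.act c s with _ | s' | ⟨x, k⟩
      · rw [body_stop Y c _ cont hact]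
        refine ⟨ρ1, Ext.refl _, a1, ?_, ?_, rfl⟩
        · rintro y ⟨t', ht', hy⟩
          rcases lt_trichotomy t' t with hlt | heq | hgt
          · exact hs0 t' hlt y hy
          · subst heq; rw [hask] at hy; simp [Sys.qH, hact, Act.qry] at hy
          · exfalso
            obtain ⟨m, rfl⟩ : ∃ m, t' = t + 1 + m := ⟨t' - (t + 1), by omega⟩
            have h0 : Y.hist ω c (t + 1) = none := by
              rw [hsucc]; simp [Sys.stepH, hact, Act.nxt]
            have := hist_succ_none Y h0 m
            unfold Sys.asks at hy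
            rw [this] at hy
            simp at hy
        · exact Nat.le_add_left _ _
      · have h0 : Y.hist ω c (t + 1) = some (s' :: s :: h') := by
          rw [hsucc]; simp [Sys.stepH, hact, Act.nxt]
        obtain ⟨ρ', e2, a2, p2, q2, f2⟩ := ih (t + 1) (s' :: s :: h') (by omega) h0 ρ1 Z cont a1 hZ1
          hkill (by
            intro t' ht' y hy
            rcases Nat.lt_succ_iff_lt_or_eq.1 ht' with hlt | heq
            · exact hs0 t' hlt y hy
            · subst heq; rw [hask] at hy; simp [Sys.qH, hact, Act.qry] at hy)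
        rw [body_go Y c _ cont hact]
        refine ⟨ρ', e2, a2, ?_, ?_, f2⟩
        · rintro y ⟨t', ht', hy⟩
          exact p2 y ⟨t', by omega, hy⟩
        · refine le_trans q2 ?_
          omega
      · have h0 : Y.hist ω c (t + 1) = some (k (ω x) :: s :: h') := by
          rw [hsucc]; simp [Sys.stepH, hact, Act.nxt]
        have hq : Y.asks ω c t = some x := by rw [hask]; simp [Sys.qH, hact, Act.qry]
        rw [body_ask Y c _ cont hact]
        rcases option_cases (ρ1 x) with hx | ⟨b, hx⟩
        · obtain ⟨ρ', e2, a2, p2, q2, f2⟩ := ih (t + 1) (k (ω x) :: s :: h') (by omega) h0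
            (Function.update ρ1 x (some (ω x))) Z cont (agrees_update a1 x)
            (fun y hy hr => hZ1 y hy (relevant_mono (ext_update _ hx) hr))
            (fun y hy hr => hkill y hy (relevant_mono (ext_update _ hx) hr)) (by
              intro t' ht' y hy
              rcases Nat.lt_succ_iff_lt_or_eq.1 ht' with hlt | heq
              · exact (ext_update _ hx).ne (hs0 t' hlt y hy)
              · subst heq
                rw [hq] at hy
                rw [← Option.some.inj hy]
                simp)
          refine ⟨ρ', (ext_update _ hx).trans e2, a2, ?_, ?_, ?_⟩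
          · rintro y ⟨t', ht', hy⟩
            exact p2 y ⟨t', by omega, hy⟩
          · rw [paid_none f hx]
            have : (if Relevant f ρ1 x then 1 else 0) ≤
                (if ∃ x, Y.asks ω c t = some x ∧ ¬ Z x ∧ ¬ Y.killed ω c (t + 1) x then 1 else 0) := by
              by_cases hr : Relevant f ρ1 x
              · rw [if_pos hr, if_pos ⟨x, hq, fun hz => hZ1 x hz hr, fun hz => hkill x hz hr⟩]
              · rw [if_neg hr]; exact Nat.zero_le _
            omega
          · rw [final_none hx]
            exact f2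
        · have hbx : ω x = b := a1 x b hx
          obtain ⟨ρ', e2, a2, p2, q2, f2⟩ := ih (t + 1) (k (ω x) :: s :: h') (by omega) h0
            ρ1 Z cont a1 hZ1 hkill (by
              intro t' ht' y hy
              rcases Nat.lt_succ_iff_lt_or_eq.1 ht' with hlt | heq
              · exact hs0 t' hlt y hy
              · subst heq
                rw [hq] at hy
                rw [← Option.some.inj hy, hx]
                simp)
          refine ⟨ρ', e2, a2, ?_, ?_, ?_⟩
          · rintro y ⟨t', ht', hy⟩
            exact p2 y ⟨t', by omega, hy⟩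
          · rw [paid_some f hx, ← hbx]
            refine le_trans q2 ?_
            omega
          · rw [final_some hx, ← hbx]
            exact f2

/-- The tree of a context of level `< l`. -/
theorem tree_spec {f : (V → Bool) → Prop} {N : ℕ} {valid : (V → Bool) → Y.C → Prop}
    (hG : Y.Good f N valid) : ∀ (l : ℕ) (ω : V → Bool) (c : Y.C), Y.lev c < l → valid ω c →
    SpecAt f ω (Y.tree N l c) (fun Z => Y.cost N l c ω Z)
      (fun y => ∃ t' < N, Y.asks ω c t' = some y) := by
  intro l
  induction l with
  | zero => intro ω c h _; exact absurd h (Nat.not_lt_zero _)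
  | succ l ih =>
    intro ω c hl hv ρ Z cont h1 h2
    obtain ⟨ρ', e, a, p, q, g⟩ := walk_spec Y hG l ω c hv
      (by
        intro t ht c' hc'
        have hex : ∃ h, Y.hist ω c t = some h := by
          rcases hh : Y.hist ω c t with _ | h
          · unfold Sys.trigAt at hc'; rw [hh] at hc'; simp at hc'
          · exact ⟨h, rfl⟩
        obtain ⟨h, hh⟩ := hex
        unfold Sys.trigAt at hc'
        rw [hh] at hc'
        simp only at hc'
        exact ih ω c' (by have := Y.trig_lev c h c' hc'; omega) (hG.step ω c t h c' ht hv hh hc'))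
      N 0 [Y.init c] (by omega) rfl ρ Z cont h1 h2
      (by rintro x ⟨t', ht', _⟩; exact absurd ht' (Nat.not_lt_zero _))
      (by intro t' ht'; exact absurd ht' (Nat.not_lt_zero _))
    refine ⟨ρ', e, a, ?_, ?_, ?_⟩
    · rintro y ⟨t', ht', hy⟩
      exact p y ⟨t', by omega, hy⟩
    · simp only [zero_add] at q
      exact q
    · exact g

/-- **Module ALG.** -/
theorem alg [Fintype V] {f : (V → Bool) → Prop} {N : ℕ} {valid : (V → Bool) → Y.C → Prop}
    (hG : Y.Good f N valid) (main : Y.C) (hv : ∀ ω, valid ω main)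
    (hdet : ∀ ω ρ, Agrees ρ ω → (∀ t < N, ∀ y, Y.asks ω main t = some y → ρ y ≠ none) → Det f ρ) :
    ∃ t : DT V, Decides t f ∧ ∀ ω, paid f t (fun _ => none) ω ≤
      Y.cost N (Y.lev main + 1) main ω (fun _ => False) := by
  refine ⟨Y.tree N (Y.lev main + 1) main (askAll Finset.univ.toList), ?_, ?_⟩
  · intro ω
    obtain ⟨ρ', e, a, p, q, g⟩ := tree_spec Y hG (Y.lev main + 1) ω main (by omega) (hv ω)
      (fun _ => none) (fun _ => False) (askAll Finset.univ.toList) (agrees_none ω)
      (fun x hx => absurd hx id)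
    rw [g]
    have hd := hdet ω ρ' a (fun t ht y hy => p y ⟨t, ht, hy⟩)
    exact det_mono (askAll_spec f _ ρ' ω a hd).2.2.1 hd
  · intro ω
    obtain ⟨ρ', e, a, p, q, g⟩ := tree_spec Y hG (Y.lev main + 1) ω main (by omega) (hv ω)
      (fun _ => none) (fun _ => False) (askAll Finset.univ.toList) (agrees_none ω)
      (fun x hx => absurd hx id)
    have hd := hdet ω ρ' a (fun t ht y hy => p y ⟨t, ht, hy⟩)
    rw [(askAll_spec f _ ρ' ω a hd).1] at q
    simpa using q

end Pool.Agent.H89.Per
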