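import Pool.Agent.H75.Lv.Model
import Pool.Agent.H74.Tri.Geo

set_option autoImplicit false

/-! MP_2e6055 (helper89): ASKM of helper75: the sites asked by the main exploration. -/

namespace Pool.Agent.H89.Per

open Pool.Agent.H7.UC Pool.Agent.H74.Tri Pool.Agent.H75.Lv
open Classical

theorem not_stopd_of_ins {m n : ℕ} (hm : 1 ≤ m) (hn : 1 ≤ n) {ω : Fin m × Fin n → Bool} {t : ℕ}
    (h : Ins (box m n) (ext m n ω) p0 t) : ∀ t' < t, ¬ stopd ω t' := by
  intro t' ht' hs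
  rcases Nat.eq_zero_or_pos t' with h0 | h0
  · subst h0
    exact hs.1 (Pool.Agent.H11.Tri.init m n _ hm hn (ext_bc ω)).2.1
  · rcases (inE_pe _ _).1 (h t' h0 ht'.le) with h1 | h1
    · exact hs.2.1 h1
    · exact hs.2.2 h1

/-- a new face of the box ahead: the exit has not taken place -/
theorem le_exit_of_new {m n : ℕ} (hm : 1 ≤ m) (hn : 1 ≤ n) {ω : Fin m × Fin n → Bool} {t N : ℕ}
    (hN : ExitAt (box m n) (ext m n ω) p0 N) (hb : ph (orb (ext m n ω) p0 t) ∈ box m n)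
    (hr : ph (orb (ext m n ω) p0 t) ∉ Rev (ext m n ω) p0 t) : t < N := by
  have hinit := Pool.Agent.H11.Tri.init m n (ext m n ω) hm hn (ext_bc ω)
  have h1 := after_exit (Pool.Agent.H98.Tri.int2 Pool.Agent.H63.UC.d1 Pool.Agent.H63.UC.d1b) ne
    hinit.1 hinit.2 hN hb (ph_next (ext m n ω) p0 t)
  by_contra hlt
  exact hr (Rev.mono (by omega) h1)

theorem ins_of_new {m n : ℕ} (hm : 1 ≤ m) (hn : 1 ≤ n) {ω : Fin m × Fin n → Bool} {t : ℕ}
    (hb : ph (orb (ext m n ω) p0 t) ∈ box m n)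
    (hr : ph (orb (ext m n ω) p0 t) ∉ Rev (ext m n ω) p0 t) : Ins (box m n) (ext m n ω) p0 t := by
  obtain ⟨N, hN⟩ := exists_Nmn hm hn
  obtain ⟨N, _, hN⟩ := hN ω
  have h1 := le_exit_of_new hm hn hN hb hr
  intro i h2 h3
  exact hN.2.1 i h2 (by omega)

/-- **ASKM.** -/
theorem askm : ASKM := by
  intro m n hm hn ω t x
  rw [ask_iff]
  constructor
  · rintro ⟨_, h2, h3⟩
    refine ⟨ins_of_new hm hn (h2 ▸ em_mem x) (h2 ▸ h3), h2.symm, em_mem x, h3⟩
  · rintro ⟨h1, h2, _, h4⟩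
    exact ⟨not_stopd_of_ins hm hn h1, h2.symm, h4⟩

end Pool.Agent.H89.Per
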