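import Pool.Agent.H89.Per.Alg2
import Pool.Agent.H75.Per.Cond

set_option autoImplicit false

/-! Averages over `W → Bool` as averages over the subsets (helper89). -/

namespace Pool.Agent.H89.Per

open Classical Finset
open Pool.Agent.H75.Per (CX)

variable {W : Type} [Fintype W]

/-- the configuration of a set -/
noncomputable def chi (ω : Finset W) : W → Bool := fun w => decide (w ∈ ω)

/-- the set of a configuration -/
noncomputable def supp (ω : W → Bool) : Finset W := univ.filter (fun w => ω w = true)

theorem chi_supp (ω : W → Bool) : chi (supp ω) = ω := by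
  funext w
  unfold chi supp
  cases h : ω w <;> simp [h]

theorem supp_chi (ω : Finset W) : supp (chi ω) = ω := by
  ext w
  unfold chi supp
  simp

theorem mem_supp {ω : W → Bool} {w : W} : w ∈ supp ω ↔ ω w = true := by
  unfold supp
  simp

theorem avg_eq_CX (F : (W → Bool) → ℝ) :
    avg F = CX (univ : Finset W) ∅ ∅ (fun ω => F (chi ω)) := by
  unfold avg CX
  have h1 : (∑ ω : W → Bool, F ω) =
      ∑ ω ∈ (univ : Finset W).powerset.filter (fun ω => ω ∩ ∅ = ∅ ∩ ∅), F (chi ω) := by
    refine sum_nbij' (fun ω => supp ω) (fun ω => chi ω) ?_ ?_ ?_ ?_ ?_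
    · intro ω _
      rw [mem_filter, mem_powerset]
      exact ⟨subset_univ _, by simp⟩
    · intro ω _; exact mem_univ _
    · intro ω _; exact chi_supp ω
    · intro ω _; exact supp_chi ω
    · intro ω _; rw [chi_supp]
  have h2 : ((univ : Finset W) \ ∅).card = Fintype.card W := by simp
  rw [h1, h2]

end Pool.Agent.H89.Per
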