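import Pool.Agent.H89.Per.Inn
import Pool.Agent.H89.Per.Size
import Pool.Agent.H93.SM.Final
import Pool.Agent.H58.TA.RetF
import Pool.Agent.H52.Tri.Circ
import Pool.Agent.H53.Per.All
import Pool.Agent.H29.Lv.Cong

set_option autoImplicit false

/-! MP_2e6055 (helper89): the closed statements. -/

namespace Pool.Agent.H89.Per

theorem inn : INN := inn_of Pool.Agent.H93.SM.os_final Pool.Agent.H93.SM.os'_final
  Pool.Agent.H15.SM.bd (Pool.Agent.H58.TA.ret_os Pool.Agent.H93.SM.os'_final)
  Pool.Agent.H52.Tri.circ Pool.Agent.H53.Per.f5_final Pool.Agent.H29.Lv.admc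

theorem jb_final : JB := jb inn Pool.Agent.H29.Lv.admc Pool.Agent.H93.SM.os'_final

end Pool.Agent.H89.Per
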