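import Pool.Agent.H89.Per.Alg

set_option autoImplicit false

/-! Expected cost of an exploration system (helper89, identity (1) of MP_2e6055_pr). -/

namespace Pool.Agent.H89.Per

open Classical

variable {V : Type} (Y : Sys V)

/-! ### Dependence on coordinates -/

/-- The history only depends on the sites asked before. -/
theorem hist_congr {ω ω' : V → Bool} {c : Y.C} : ∀ (t : ℕ),
    (∀ t' < t, ∀ x, Y.asks ω c t' = some x → ω' x = ω x) → Y.hist ω' c t = Y.hist ω c t := by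
  intro t
  induction t with
  | zero => intro _; rfl
  | succ t ih =>
    intro h
    have h1 := ih (fun t' ht' => h t' (by omega))
    have e1 : Y.hist ω' c (t + 1) = (Y.hist ω' c t).bind (Y.stepH ω' c) := rfl
    have e2 : Y.hist ω c (t + 1) = (Y.hist ω c t).bind (Y.stepH ω c) := rfl
    rw [e1, e2, h1]
    rcases hh : Y.hist ω c t with _ | l
    · rfl
    · simp only [Option.bind_some]
      rcases l with _ | ⟨s, l⟩
      · rfl
      · have e3 : ∀ ω'' : V → Bool, Y.stepH ω'' c (s :: l) =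
            ((Y.act c s).nxt ω'').map (fun s' => s' :: s :: l) := fun _ => rfl
        rw [e3, e3]
        rcases hact : Y.act c s with _ | s' | ⟨x, k⟩
        · rfl
        · rfl
        · have hq : Y.asks ω c t = some x := by
            unfold Sys.asks; rw [hh]; simp [Sys.qH, hact, Act.qry]
          simp only [Act.nxt]
          rw [h t (by omega) x hq]

theorem asks_congr {ω ω' : V → Bool} {c : Y.C} {t : ℕ} (h : Y.hist ω' c t = Y.hist ω c t) :
    Y.asks ω' c t = Y.asks ω c t := by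
  unfold Sys.asks; rw [h]

theorem trigAt_congr {ω ω' : V → Bool} {c : Y.C} {t : ℕ} (h : Y.hist ω' c t = Y.hist ω c t) :
    Y.trigAt ω' c t = Y.trigAt ω c t := by
  unfold Sys.trigAt; rw [h]

theorem mem_trigAt {ω : V → Bool} {c c' : Y.C} {t : ℕ} :
    c' ∈ Y.trigAt ω c t ↔ ∃ h, Y.hist ω c t = some h ∧ c' ∈ Y.trig c h := by
  unfold Sys.trigAt
  rcases Y.hist ω c t with _ | h
  · simp
  · simp

/-! ### Levels -/

theorem cost_level (N : ℕ) : ∀ (l l' : ℕ) (c : Y.C) (ω : V → Bool) (Z : V → Prop), Y.lev c < l →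
    Y.lev c < l' → Y.cost N l c ω Z = Y.cost N l' c ω Z := by
  intro l
  induction l with
  | zero => intro l' c ω Z h _; exact absurd h (Nat.not_lt_zero _)
  | succ l ih =>
    intro l' c ω Z h h'
    rcases l' with _ | l'
    · exact absurd h' (Nat.not_lt_zero _)
    · unfold Sys.cost
      refine Finset.sum_congr rfl (fun t _ => ?_)
      congr 1
      congr 1
      refine List.map_congr_left (fun c' hc' => ?_)
      obtain ⟨hh, _, hc'⟩ := (mem_trigAt Y).1 hc'
      have := Y.trig_lev c hh c' hc'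
      exact ih l' c' ω _ (by omega) (by omega)

theorem cost_mono (N : ℕ) : ∀ (l : ℕ) (c : Y.C) (ω : V → Bool) (Z Z' : V → Prop),
    (∀ x, Z x → Z' x) → Y.cost N l c ω Z' ≤ Y.cost N l c ω Z := by
  intro l
  induction l with
  | zero => intro c ω Z Z' _; exact le_refl _
  | succ l ih =>
    intro c ω Z Z' h
    unfold Sys.cost
    refine Finset.sum_le_sum (fun t _ => Nat.add_le_add ?_ ?_)
    · by_cases h1 : ∃ x, Y.asks ω c t = some x ∧ ¬ Z' x ∧ ¬ Y.killed ω c (t + 1) x
      · obtain ⟨x, h2, h3, h4⟩ := h1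
        rw [if_pos ⟨x, h2, h3, h4⟩, if_pos ⟨x, h2, fun hz => h3 (h x hz), h4⟩]
      · rw [if_neg h1]; exact Nat.zero_le _
    · refine List.sum_le_sum (fun c' _ => ih c' ω _ _ ?_)
      rintro x (hx | hx)
      · exact Or.inl (h x hx)
      · exact Or.inr hx

theorem cost_succ (N l : ℕ) (c : Y.C) (ω : V → Bool) (Z : V → Prop) :
    Y.cost N (l + 1) c ω Z = ∑ t ∈ Finset.range N,
      ((if ∃ x, Y.asks ω c t = some x ∧ ¬ Z x ∧ ¬ Y.killed ω c (t + 1) x then 1 else 0) +
        ((Y.trigAt ω c t).map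
          (fun c' => Y.cost N l c' ω (fun x => Z x ∨ Y.killed ω c t x))).sum) := rfl

/-! ### The hypotheses -/

/-- `x` is own-killed: an attempt with `v` in its square succeeded before time `t`. -/
def Sys.ownk (Q : Y.C → Finset V) (Succ : Y.C → (V → Bool) → Prop) (ω : V → Bool) (c : Y.C) (t : ℕ)
    (v : V) : Prop :=
  ∃ t' < t, ∃ c1 ∈ Y.trigAt ω c t', v ∈ Q c1 ∧ Succ c1 ω

/-- Hypotheses for the expected cost. `W` = class of contexts, `U c` = sites of `c`, `Q c` = square of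
the attempt `c`, `Succ c ω` = the attempt `c` succeeds. -/
structure Sys.Exp (W : Y.C → Prop) (U Q : Y.C → Finset V) (Succ : Y.C → (V → Bool) → Prop) :
    Prop where
  step : ∀ ω c t c', W c → c' ∈ Y.trigAt ω c t → W c'
  askU : ∀ ω c t x, W c → Y.asks ω c t = some x → x ∈ U c
  inj : ∀ ω c t t' x, W c → Y.asks ω c t = some x → Y.asks ω c t' = some x → t = t'
  sub : ∀ ω c t c', W c → c' ∈ Y.trigAt ω c t → U c' ⊆ U c
  fresh : ∀ ω c t c' t' x, W c → c' ∈ Y.trigAt ω c t → t' < t → Y.asks ω c t' = some x → x ∉ U c'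
  killloc : ∀ ω ω' c t h c' x, W c → Y.hist ω c t = some h → c' ∈ Y.trig c h →
    (∀ y ∈ U c', ω' y = ω y) → Y.kill c h c' ω x → Y.kill c h c' ω' x
  succloc : ∀ ω ω' c, W c → (∀ y ∈ U c, ω' y = ω y) → Succ c ω → Succ c ω'
  own : ∀ ω c t h c' v, W c → Y.hist ω c t = some h → c' ∈ Y.trig c h → v ∈ Q c' → Succ c' ω →
    Y.kill c h c' ω v
  disj : ∀ ω c t t' c1 c2 v, W c → t' < t → c1 ∈ Y.trigAt ω c t' → c2 ∈ Y.trigAt ω c t →
    v ∈ Q c1 → v ∈ Q c2 → ∀ x ∈ U c1, x ∉ U c2
  enc : ∀ ω c t t' h c1 c2 v, W c → t' < t → Y.hist ω c t' = some h → c1 ∈ Y.trig c h →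
    c2 ∈ Y.trigAt ω c t → v ∈ Q c1 → v ∈ Q c2 → Succ c1 ω → ∀ x ∈ U c2, Y.kill c h c1 ω x
  Qne : ∀ ω c t c', W c → c' ∈ Y.trigAt ω c t → (Q c').Nonempty
  Qsub : ∀ ω c t c', W c → c' ∈ Y.trigAt ω c t → Q c' ⊆ U c

section
variable {Y}
variable {W : Y.C → Prop} {U Q : Y.C → Finset V} {Succ : Y.C → (V → Bool) → Prop}

theorem hist_loc (hE : Y.Exp W U Q Succ) {ω ω' : V → Bool} {c : Y.C} (hc : W c)
    (h : ∀ y ∈ U c, ω' y = ω y) (t : ℕ) : Y.hist ω' c t = Y.hist ω c t :=
  hist_congr Y t (fun t' _ x hx => h x (hE.askU ω c t' x hc hx))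

theorem killed_loc (hE : Y.Exp W U Q Succ) {ω ω' : V → Bool} {c : Y.C} (hc : W c)
    (h : ∀ y ∈ U c, ω' y = ω y) (t : ℕ) (x : V) (hk : Y.killed ω c t x) : Y.killed ω' c t x := by
  obtain ⟨t', ht', hh, h1, c', h2, h3⟩ := hk
  refine ⟨t', ht', hh, by rw [hist_loc hE hc h]; exact h1, c', h2, ?_⟩
  have hm : c' ∈ Y.trigAt ω c t' := (mem_trigAt Y).2 ⟨hh, h1, h2⟩
  exact hE.killloc ω ω' c t' hh c' x hc h1 h2 (fun y hy => h y (hE.sub ω c t' c' hc hm hy)) h3

theorem killed_loc_iff (hE : Y.Exp W U Q Succ) {ω ω' : V → Bool} {c : Y.C} (hc : W c)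
    (h : ∀ y ∈ U c, ω' y = ω y) (t : ℕ) (x : V) : Y.killed ω c t x ↔ Y.killed ω' c t x :=
  ⟨killed_loc hE hc h t x, killed_loc hE hc (fun y hy => (h y hy).symm) t x⟩

/-- The cost of `c` only depends on `ω` on `U c`. -/
theorem cost_loc (hE : Y.Exp W U Q Succ) (N : ℕ) : ∀ (l : ℕ) (c : Y.C) (ω ω' : V → Bool)
    (Z : V → Prop), W c → (∀ y ∈ U c, ω' y = ω y) → Y.cost N l c ω Z = Y.cost N l c ω' Z := by
  intro l
  induction l with
  | zero => intro c ω ω' Z _ _; rfl
  | succ l ih =>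
    intro c ω ω' Z hc h
    unfold Sys.cost
    refine Finset.sum_congr rfl (fun t _ => ?_)
    have e1 := hist_loc hE hc h t
    rw [asks_congr Y e1, trigAt_congr Y e1]
    congr 1
    · simp only [killed_loc_iff hE hc h]
    · congr 1
      refine List.map_congr_left (fun c' hc' => ?_)
      have hZ : (fun x => Z x ∨ Y.killed ω c t x) = (fun x => Z x ∨ Y.killed ω' c t x) := by
        funext x
        rw [killed_loc_iff hE hc h t x]
      rw [hZ]
      exact ih c' ω ω' _ (hE.step ω c t c' hc hc') (fun y hy => h y (hE.sub ω c t c' hc hc' hy))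

/-- If all sites of `c` are killed, `c` costs nothing. -/
theorem cost_zero (hE : Y.Exp W U Q Succ) (N : ℕ) : ∀ (l : ℕ) (c : Y.C) (ω : V → Bool)
    (Z : V → Prop), W c → (∀ y ∈ U c, Z y) → Y.cost N l c ω Z = 0 := by
  intro l
  induction l with
  | zero => intro c ω Z _ _; rfl
  | succ l ih =>
    intro c ω Z hc h
    unfold Sys.cost
    refine Finset.sum_eq_zero (fun t _ => ?_)
    have h1 : ¬ ∃ x, Y.asks ω c t = some x ∧ ¬ Z x ∧ ¬ Y.killed ω c (t + 1) x := by
      rintro ⟨x, h2, h3, _⟩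
      exact h3 (h x (hE.askU ω c t x hc h2))
    rw [if_neg h1, zero_add]
    refine List.sum_eq_zero (fun a ha => ?_)
    obtain ⟨c', hc', rfl⟩ := List.mem_map.1 ha
    exact ih c' ω _ (hE.step ω c t c' hc hc')
      (fun y hy => Or.inl (h y (hE.sub ω c t c' hc hc' hy)))

/-! ### Averages -/

variable [Fintype V]

/-- average over the configurations -/
noncomputable def avg (F : (V → Bool) → ℝ) : ℝ := (∑ ω : V → Bool, F ω) / 2 ^ Fintype.card V

theorem avg_le {F G : (V → Bool) → ℝ} (h : ∀ ω, F ω ≤ G ω) : avg F ≤ avg G := by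
  unfold avg
  exact div_le_div_of_nonneg_right (Finset.sum_le_sum (fun ω _ => h ω)) (by positivity)

theorem avg_sum {ι : Type} (s : Finset ι) (F : ι → (V → Bool) → ℝ) :
    avg (fun ω => ∑ i ∈ s, F i ω) = ∑ i ∈ s, avg (F i) := by
  unfold avg
  rw [← Finset.sum_div, Finset.sum_comm]

theorem avg_add (F G : (V → Bool) → ℝ) : avg (fun ω => F ω + G ω) = avg F + avg G := by
  unfold avg
  rw [← add_div, ← Finset.sum_add_distrib]

theorem avg_const_mul (a : ℝ) (F : (V → Bool) → ℝ) : avg (fun ω => a * F ω) = a * avg F := by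
  unfold avg
  rw [← Finset.mul_sum, mul_div_assoc]

/-- Independence: `A` does not depend on the coordinates of `S`, `B` only depends on them. -/
theorem avg_mul (S : Finset V) (A B : (V → Bool) → ℝ)
    (hA : ∀ ω ω' : V → Bool, (∀ y, y ∉ S → ω' y = ω y) → A ω' = A ω)
    (hB : ∀ ω ω' : V → Bool, (∀ y ∈ S, ω' y = ω y) → B ω' = B ω) :
    avg (fun ω => A ω * B ω) = avg A * avg B := by
  -- swap the coordinates of `S` in two independent copies
  have h2 : ∑ ω : V → Bool, ∑ η : V → Bool, A ω * B ω =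
      ∑ ω : V → Bool, ∑ η : V → Bool, A ω * B η := by
    have e : ∀ (F : (V → Bool) → (V → Bool) → ℝ),
        ∑ ω : V → Bool, ∑ η : V → Bool, F ω η =
        ∑ ω : V → Bool, ∑ η : V → Bool,
          F (fun y => if y ∈ S then η y else ω y) (fun y => if y ∈ S then ω y else η y) := by
      intro F
      rw [← Finset.sum_product', ← Finset.sum_product']
      refine (Finset.sum_nbij'
        (fun p : (V → Bool) × (V → Bool) =>
          ((fun y => if y ∈ S then p.2 y else p.1 y), (fun y => if y ∈ S then p.1 y else p.2 y)))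
        (fun p : (V → Bool) × (V → Bool) =>
          ((fun y => if y ∈ S then p.2 y else p.1 y), (fun y => if y ∈ S then p.1 y else p.2 y)))
        ?_ ?_ ?_ ?_ ?_).symm
      · intro p _; simp
      · intro p _; simp
      · intro p _
        refine Prod.ext ?_ ?_ <;> funext y <;> by_cases hy : y ∈ S <;> simp [hy]
      · intro p _
        refine Prod.ext ?_ ?_ <;> funext y <;> by_cases hy : y ∈ S <;> simp [hy]
      · intro p _; rfl
    rw [e (fun ω η => A ω * B η)]
    refine Finset.sum_congr rfl (fun ω _ => Finset.sum_congr rfl (fun η _ => ?_))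
    rw [hA ω (fun y => if y ∈ S then η y else ω y) (fun y hy => by simp [hy]),
      hB ω (fun y => if y ∈ S then ω y else η y) (fun y hy => by simp [hy])]
  have hc : (Finset.univ : Finset (V → Bool)).card = 2 ^ Fintype.card V := by simp
  simp only [Finset.sum_const, nsmul_eq_mul] at h2
  rw [hc] at h2
  have h3 : ∑ ω : V → Bool, ∑ η : V → Bool, A ω * B η = (∑ ω : V → Bool, A ω) * ∑ η : V → Bool, B η :=
    by rw [Finset.sum_mul_sum]
  rw [h3] at h2
  unfold avg
  have hp : (0 : ℝ) < 2 ^ Fintype.card V := by positivity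
  rw [← Finset.mul_sum] at h2
  push_cast at h2
  field_simp
  linarith

/-! ### The step -/

theorem list_sum_count {C : Type} (L : List C) (T : Finset C) (hT : ∀ c ∈ L, c ∈ T) (F : C → ℝ) :
    (L.map F).sum = ∑ c ∈ T, (L.count c : ℝ) * F c := by
  induction L with
  | nil => simp
  | cons a L ih =>
    have ha : a ∈ T := hT a (by simp)
    rw [List.map_cons, List.sum_cons, ih (fun c hc => hT c (by simp [hc]))]
    have : ∀ c, ((List.count c (a :: L) : ℕ) : ℝ) * F c =
        (List.count c L : ℝ) * F c + (if c = a then F c else 0) := by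
      intro c
      rw [List.count_cons]
      by_cases h : c = a
      · subst h; simp; ring
      · have h' : ¬ a = c := fun e => h e.symm
        simp [h, h']
    simp only [this]
    rw [Finset.sum_add_distrib, Finset.sum_ite_eq' T a F, if_pos ha]
    ring

/-- the contexts attempted by `c` at time `t` -/
noncomputable def ctxs (c : Y.C) (t : ℕ) : Finset Y.C :=
  Finset.univ.biUnion (fun ω : V → Bool => (Y.trigAt ω c t).toFinset)

theorem mem_ctxs {c c' : Y.C} {t : ℕ} : c' ∈ ctxs c t ↔ ∃ ω : V → Bool, c' ∈ Y.trigAt ω c t := by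
  unfold ctxs
  simp

/-- the average cost of a context -/
noncomputable def avgc (Y : Sys V) (N : ℕ) (c : Y.C) : ℝ :=
  avg (fun ω => (Y.cost N (Y.lev c + 1) c ω (fun _ => False) : ℝ))

/-- the part of the cost charged to `v` -/
noncomputable def Jv (Y : Sys V) (N : ℕ) (Q : Y.C → Finset V) (Succ : Y.C → (V → Bool) → Prop)
    (chg : Y.C → ℝ) (c : Y.C) (v : V) : ℝ :=
  avg (fun ω => (if ∃ t < N, Y.asks ω c t = some v ∧ ¬ Y.ownk Q Succ ω c (t + 1) v then 1 else 0) +
    ∑ t ∈ Finset.range N, ((Y.trigAt ω c t).map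
      (fun c' => if v ∈ Q c' ∧ ¬ Y.ownk Q Succ ω c t v then chg c' else 0)).sum)

theorem ownk_killed (hE : Y.Exp W U Q Succ) {c : Y.C} (hc : W c) {ω : V → Bool} {t : ℕ} {v : V}
    (h : Y.ownk Q Succ ω c t v) : Y.killed ω c t v := by
  obtain ⟨t', ht', c1, h1, h2, h3⟩ := h
  obtain ⟨hh, h4, h5⟩ := (mem_trigAt Y).1 h1
  exact ⟨t', ht', hh, h4, c1, h5, hE.own ω c t' hh c1 v hc h4 h5 h2 h3⟩

theorem path_part (hE : Y.Exp W U Q Succ) (N : ℕ) {c : Y.C} (hc : W c) (ω : V → Bool) :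
    (∑ t ∈ Finset.range N, (if ∃ x, Y.asks ω c t = some x ∧ ¬ False ∧ ¬ Y.killed ω c (t + 1) x
      then (1 : ℝ) else 0)) ≤
    ∑ v : V, (if ∃ t < N, Y.asks ω c t = some v ∧ ¬ Y.ownk Q Succ ω c (t + 1) v then (1 : ℝ) else 0) := by
  rw [Finset.sum_boole, Finset.sum_boole]
  rw [Nat.cast_le]
  have hch : ∀ t, ∃ v : Option V, ∀ x, Y.asks ω c t = some x → v = some x :=
    fun t => ⟨Y.asks ω c t, fun x h => h⟩
  refine Finset.card_le_card_of_surjOn
    (fun v => if h : ∃ t, Y.asks ω c t = some v then h.choose else 0) ?_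
  intro t ht
  rw [Finset.mem_coe, Finset.mem_filter, Finset.mem_range] at ht
  obtain ⟨htN, x, hx, _, hk⟩ := ht
  refine ⟨x, ?_, ?_⟩
  · rw [Finset.mem_coe, Finset.mem_filter]
    exact ⟨Finset.mem_univ _, t, htN, hx, fun ho => hk (ownk_killed hE hc ho)⟩
  · have hex : ∃ t, Y.asks ω c t = some x := ⟨t, hx⟩
    show (if h : ∃ t, Y.asks ω c t = some x then h.choose else 0) = t
    rw [dif_pos hex]
    exact hE.inj ω c _ t x hc hex.choose_spec hx

theorem attempt_part (hE : Y.Exp W U Q Succ) (N : ℕ) {c c' : Y.C} (hc : W c) (ω : V → Bool) (t : ℕ)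
    (hc' : c' ∈ Y.trigAt ω c t) (l : ℕ) :
    (Y.cost N l c' ω (fun x => False ∨ Y.killed ω c t x) : ℝ) ≤
      ((Q c').card : ℝ)⁻¹ * ∑ v ∈ Q c', (if ¬ Y.ownk Q Succ ω c t v then
        (Y.cost N l c' ω (fun _ => False) : ℝ) else 0) := by
  have hW : W c' := hE.step ω c t c' hc hc'
  have hne := hE.Qne ω c t c' hc hc'
  have hcard : (0 : ℝ) < (Q c').card := by exact_mod_cast Finset.card_pos.2 hne
  by_cases h : ∃ v ∈ Q c', Y.ownk Q Succ ω c t v
  · obtain ⟨v, hv, t', ht', c1, h1, h2, h3⟩ := h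
    obtain ⟨hh, h4, h5⟩ := (mem_trigAt Y).1 h1
    have hz : Y.cost N l c' ω (fun x => False ∨ Y.killed ω c t x) = 0 := by
      refine cost_zero hE N l c' ω _ hW (fun x hx => Or.inr ?_)
      exact ⟨t', ht', hh, h4, c1, h5, hE.enc ω c t t' hh c1 c' v hc ht' h4 h5 hc' h2 hv h3 x hx⟩
    rw [hz, Nat.cast_zero]
    refine mul_nonneg (inv_nonneg.2 hcard.le) (Finset.sum_nonneg (fun v _ => ?_))
    split_ifs <;> positivity
  · have h' : ∀ v ∈ Q c', ¬ Y.ownk Q Succ ω c t v := fun v hv hk => h ⟨v, hv, hk⟩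
    rw [Finset.sum_congr rfl (fun v hv => if_pos (h' v hv)), Finset.sum_const, nsmul_eq_mul,
      ← mul_assoc, inv_mul_cancel₀ hcard.ne', one_mul]
    exact_mod_cast cost_mono Y N l c' ω _ _ (fun x hx => Or.inl hx)

/-- count of an attempt times the indicator of not own-killed, as a function of `ω` -/
theorem count_indep (hE : Y.Exp W U Q Succ) {c c' : Y.C} (hc : W c) (t : ℕ) (v : V) (hv : v ∈ Q c')
    (ω ω' : V → Bool) (h : ∀ y, y ∉ U c' → ω' y = ω y) :
    ((Y.trigAt ω' c t).count c' : ℝ) * (if ¬ Y.ownk Q Succ ω' c t v then 1 else 0) =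
    ((Y.trigAt ω c t).count c' : ℝ) * (if ¬ Y.ownk Q Succ ω c t v then 1 else 0) := by
  have key : ∀ ω ω' : V → Bool, (∀ y, y ∉ U c' → ω' y = ω y) → c' ∈ Y.trigAt ω c t →
      (∀ t' ≤ t, Y.hist ω' c t' = Y.hist ω c t') ∧
      (Y.ownk Q Succ ω c t v → Y.ownk Q Succ ω' c t v) := by
    intro ω ω' h hm
    have hh : ∀ t' ≤ t, Y.hist ω' c t' = Y.hist ω c t' := by
      intro t' ht'
      exact hist_congr Y t' (fun s hs x hx => h x (hE.fresh ω c t c' s x hc hm (by omega) hx))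
    refine ⟨hh, ?_⟩
    rintro ⟨t', ht', c1, h1, h2, h3⟩
    refine ⟨t', ht', c1, by rw [trigAt_congr Y (hh t' (by omega))]; exact h1, h2, ?_⟩
    refine hE.succloc ω ω' c1 (hE.step ω c t' c1 hc h1) (fun y hy => h y ?_) h3
    exact hE.disj ω c t t' c1 c' v hc ht' h1 hm h2 hv y hy
  by_cases h1 : c' ∈ Y.trigAt ω c t
  · obtain ⟨h2, h3⟩ := key ω ω' h h1
    have h4 : c' ∈ Y.trigAt ω' c t := by rw [trigAt_congr Y (h2 t le_rfl)]; exact h1
    obtain ⟨_, h5⟩ := key ω' ω (fun y hy => (h y hy).symm) h4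
    have h6 : Y.ownk Q Succ ω' c t v ↔ Y.ownk Q Succ ω c t v := ⟨h5, h3⟩
    rw [trigAt_congr Y (h2 t le_rfl)]
    simp only [h6]
  · by_cases h4 : c' ∈ Y.trigAt ω' c t
    · exfalso
      obtain ⟨h2, _⟩ := key ω' ω (fun y hy => (h y hy).symm) h4
      exact h1 (by rw [trigAt_congr Y (h2 t le_rfl)]; exact h4)
    · rw [List.count_eq_zero.2 h1, List.count_eq_zero.2 h4]
      simp

theorem avg_step (hE : Y.Exp W U Q Succ) (N : ℕ) (chg : Y.C → ℝ) {c : Y.C} (hc : W c)
    (hchg : ∀ ω t c', c' ∈ Y.trigAt ω c t → avgc Y N c' ≤ (Q c').card * chg c') :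
    avgc Y N c ≤ ∑ v : V, Jv Y N Q Succ chg c v := by
  -- pointwise bound
  have hpt : ∀ ω : V → Bool, (Y.cost N (Y.lev c + 1) c ω (fun _ => False) : ℝ) ≤
      (∑ v : V, (if ∃ t < N, Y.asks ω c t = some v ∧ ¬ Y.ownk Q Succ ω c (t + 1) v then (1 : ℝ) else 0)) +
      ∑ t ∈ Finset.range N, ∑ c' ∈ ctxs c t, ∑ v ∈ Q c', ((Q c').card : ℝ)⁻¹ *
        ((((Y.trigAt ω c t).count c' : ℝ) * (if ¬ Y.ownk Q Succ ω c t v then 1 else 0)) *
          (Y.cost N (Y.lev c' + 1) c' ω (fun _ => False) : ℝ)) := by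
    intro ω
    rw [cost_succ]
    push_cast
    rw [Finset.sum_add_distrib]
    refine add_le_add (path_part hE N hc ω) (Finset.sum_le_sum (fun t _ => ?_))
    rw [List.map_map,
      list_sum_count (Y.trigAt ω c t) (ctxs c t) (fun c' h => mem_ctxs.2 ⟨ω, h⟩)]
    refine Finset.sum_le_sum (fun c' _ => ?_)
    by_cases hm : c' ∈ Y.trigAt ω c t
    · have h1 := attempt_part hE N hc ω t hm (Y.lev c)
      have hl : ∀ Z : V → Prop, Y.cost N (Y.lev c) c' ω Z = Y.cost N (Y.lev c' + 1) c' ω Z := by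
        intro Z
        obtain ⟨hh, _, h5⟩ := (mem_trigAt Y).1 hm
        exact cost_level Y N _ _ c' ω Z (Y.trig_lev c hh c' h5) (by omega)
      have h2 : ((Y.trigAt ω c t).count c' : ℝ) *
          (Y.cost N (Y.lev c) c' ω (fun x => False ∨ Y.killed ω c t x) : ℝ) ≤
          ((Y.trigAt ω c t).count c' : ℝ) * (((Q c').card : ℝ)⁻¹ * ∑ v ∈ Q c',
          (if ¬ Y.ownk Q Succ ω c t v then
            (Y.cost N (Y.lev c) c' ω (fun _ => False) : ℝ) else 0)) :=
        mul_le_mul_of_nonneg_left h1 (Nat.cast_nonneg _)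
      refine le_trans h2 (le_of_eq ?_)
      rw [hl, Finset.mul_sum, Finset.mul_sum]
      refine Finset.sum_congr rfl (fun v _ => ?_)
      split_ifs <;> ring
    · rw [List.count_eq_zero.2 hm]
      simp
  refine le_trans (avg_le hpt) (le_of_eq_of_le (avg_add _ _) ?_)
  unfold Jv
  have hR : ∑ v : V, avg (fun ω =>
      (if ∃ t < N, Y.asks ω c t = some v ∧ ¬ Y.ownk Q Succ ω c (t + 1) v then (1 : ℝ) else 0) +
      ∑ t ∈ Finset.range N, ((Y.trigAt ω c t).map
        (fun c' => if v ∈ Q c' ∧ ¬ Y.ownk Q Succ ω c t v then chg c' else 0)).sum) =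
      (∑ v : V, avg (fun ω =>
      (if ∃ t < N, Y.asks ω c t = some v ∧ ¬ Y.ownk Q Succ ω c (t + 1) v then (1 : ℝ) else 0))) +
      ∑ t ∈ Finset.range N, ∑ c' ∈ ctxs c t, ∑ v ∈ Q c',
        avg (fun ω => (((Y.trigAt ω c t).count c' : ℝ) *
          (if ¬ Y.ownk Q Succ ω c t v then 1 else 0))) * chg c' := by
    rw [← avg_sum, ← avg_sum]
    rw [avg_sum (F := fun v ω => (if ∃ t < N, Y.asks ω c t = some v ∧
      ¬ Y.ownk Q Succ ω c (t + 1) v then (1 : ℝ) else 0) +
      ∑ t ∈ Finset.range N, ((Y.trigAt ω c t).map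
        (fun c' => if v ∈ Q c' ∧ ¬ Y.ownk Q Succ ω c t v then chg c' else 0)).sum)]
    have e1 : ∀ v : V, avg (fun ω =>
      (if ∃ t < N, Y.asks ω c t = some v ∧ ¬ Y.ownk Q Succ ω c (t + 1) v then (1 : ℝ) else 0) +
      ∑ t ∈ Finset.range N, ((Y.trigAt ω c t).map
        (fun c' => if v ∈ Q c' ∧ ¬ Y.ownk Q Succ ω c t v then chg c' else 0)).sum) =
      avg (fun ω => (if ∃ t < N, Y.asks ω c t = some v ∧
        ¬ Y.ownk Q Succ ω c (t + 1) v then (1 : ℝ) else 0)) +
      ∑ t ∈ Finset.range N, ∑ c' ∈ ctxs c t, (if v ∈ Q c' then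
        avg (fun ω => (((Y.trigAt ω c t).count c' : ℝ) *
          (if ¬ Y.ownk Q Succ ω c t v then 1 else 0))) * chg c' else 0) := by
      intro v
      rw [avg_add]
      congr 1
      rw [avg_sum]
      refine Finset.sum_congr rfl (fun t _ => ?_)
      have e2 : ∀ ω : V → Bool, ((Y.trigAt ω c t).map
        (fun c' => if v ∈ Q c' ∧ ¬ Y.ownk Q Succ ω c t v then chg c' else 0)).sum =
          ∑ c' ∈ ctxs c t, (if v ∈ Q c' then chg c' * (((Y.trigAt ω c t).count c' : ℝ) *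
          (if ¬ Y.ownk Q Succ ω c t v then 1 else 0)) else 0) := by
        intro ω
        rw [list_sum_count (Y.trigAt ω c t) (ctxs c t) (fun c' h => mem_ctxs.2 ⟨ω, h⟩)]
        refine Finset.sum_congr rfl (fun c' _ => ?_)
        by_cases h1 : v ∈ Q c' <;> by_cases h2 : Y.ownk Q Succ ω c t v <;> simp [h1, h2, mul_comm]
      simp only [e2]
      rw [avg_sum]
      refine Finset.sum_congr rfl (fun c' _ => ?_)
      by_cases h1 : v ∈ Q c'
      · simp only [if_pos h1]
        rw [avg_const_mul, mul_comm]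
      · simp only [if_neg h1]
        unfold avg
        simp
    simp only [e1]
    rw [Finset.sum_add_distrib]
    congr 1
    · rw [avg_sum]
    · rw [Finset.sum_comm]
      refine Finset.sum_congr rfl (fun t _ => ?_)
      rw [Finset.sum_comm]
      refine Finset.sum_congr rfl (fun c' _ => ?_)
      rw [← Finset.sum_filter]
      refine Finset.sum_congr ?_ (fun v _ => rfl)
      ext v; simp
  rw [hR]
  refine add_le_add (le_of_eq (avg_sum _ _)) ?_
  rw [avg_sum]
  refine Finset.sum_le_sum (fun t _ => ?_)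
  rw [avg_sum]
  refine Finset.sum_le_sum (fun c' hc' => ?_)
  obtain ⟨ω0, hm⟩ := mem_ctxs.1 hc'
  have hW : W c' := hE.step ω0 c t c' hc hm
  have hcard : (0 : ℝ) < (Q c').card := by
    exact_mod_cast Finset.card_pos.2 (hE.Qne ω0 c t c' hc hm)
  rw [avg_sum]
  refine Finset.sum_le_sum (fun v hv => ?_)
  rw [avg_const_mul, avg_mul (U c')
    (fun ω => ((Y.trigAt ω c t).count c' : ℝ) * (if ¬ Y.ownk Q Succ ω c t v then 1 else 0))
    (fun ω => (Y.cost N (Y.lev c' + 1) c' ω (fun _ => False) : ℝ))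
    (fun ω ω' h => count_indep hE hc t v hv ω ω' h)
    (fun ω ω' h => by rw [cost_loc hE N _ c' ω ω' _ hW h])]
  have h1 := hchg ω0 t c' hm
  have h2 : 0 ≤ avg (fun ω => ((Y.trigAt ω c t).count c' : ℝ) *
      (if ¬ Y.ownk Q Succ ω c t v then 1 else 0)) := by
    unfold avg
    refine div_nonneg (Finset.sum_nonneg (fun ω _ => ?_)) (by positivity)
    refine mul_nonneg (Nat.cast_nonneg _) ?_
    split_ifs <;> norm_num
  have h3 : avg (fun ω => (Y.cost N (Y.lev c' + 1) c' ω (fun _ => False) : ℝ)) = avgc Y N c' := rfl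
  rw [h3]
  calc ((Q c').card : ℝ)⁻¹ * (avg (fun ω => ((Y.trigAt ω c t).count c' : ℝ) *
        (if ¬ Y.ownk Q Succ ω c t v then 1 else 0)) * avgc Y N c')
      ≤ ((Q c').card : ℝ)⁻¹ * (avg (fun ω => ((Y.trigAt ω c t).count c' : ℝ) *
        (if ¬ Y.ownk Q Succ ω c t v then 1 else 0)) * ((Q c').card * chg c')) := by gcongr
    _ = _ := by field_simp

/-- **Identity (1) and the induction on the level.** -/
theorem avgc_le (hE : Y.Exp W U Q Succ) (N : ℕ) (chg est : Y.C → ℝ)
    (hJ : ∀ c, W c → ∑ v : V, Jv Y N Q Succ chg c v ≤ est c)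
    (hadm : ∀ ω c t c', W c → c' ∈ Y.trigAt ω c t → est c' ≤ (Q c').card * chg c') :
    ∀ c, W c → avgc Y N c ≤ est c := by
  have key : ∀ l : ℕ, ∀ c, Y.lev c < l → W c → avgc Y N c ≤ est c := by
    intro l
    induction l with
    | zero => intro c h; exact absurd h (Nat.not_lt_zero _)
    | succ l ih =>
      intro c hl hc
      refine le_trans (avg_step hE N chg hc (fun ω t c' hm => ?_)) (hJ c hc)
      obtain ⟨hh, _, h5⟩ := (mem_trigAt Y).1 hm
      refine le_trans (ih c' ?_ (hE.step ω c t c' hc hm)) (hadm ω c t c' hc hm)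
      have := Y.trig_lev c hh c' h5
      omega
  exact fun c hc => key (Y.lev c + 1) c (by omega) hc

end

end Pool.Agent.H89.Per
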