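import Pool.Agent.H89.Per.Exp

set_option autoImplicit false

open Classical

/-! From an exploration system with a good estimate to the conclusion of S19243 (helper89). -/

namespace Pool.Agent.H89.Per

/-- The conclusion of S19243 from an exploration system: `Good` (deterministic part), `Exp` (freshness
part), and the estimate of the plain path functionals `Jv`. -/
theorem next_of_sys (n : ℕ) (hn : 1 ≤ n) (f : (Fin n × Fin n → Bool) → Prop)
    (Y : Sys (Fin n × Fin n)) (N : ℕ) (valid : (Fin n × Fin n → Bool) → Y.C → Prop)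
    (hG : Y.Good f N valid) (main : Y.C) (hv : ∀ ω, valid ω main)
    (hdet : ∀ ω ρ, Agrees ρ ω → (∀ t < N, ∀ y, Y.asks ω main t = some y → ρ y ≠ none) → Det f ρ)
    (W : Y.C → Prop) (U Q : Y.C → Finset (Fin n × Fin n))
    (Succ : Y.C → (Fin n × Fin n → Bool) → Prop) (hE : Y.Exp W U Q Succ) (hW : W main)
    (chg est : Y.C → ℝ) (hJ : ∀ c, W c → ∑ v, Jv Y N Q Succ chg c v ≤ est c)
    (hadm : ∀ ω c t c', W c → c' ∈ Y.trigAt ω c t → est c' ≤ (Q c').card * chg c') :
    ∃ next : (Fin n × Fin n → Option Bool) → Fin n × Fin n,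
          (∀ ω : Fin n × Fin n → Bool, ∀ ω' : Fin n × Fin n → Bool,
            (∀ s : Fin n × Fin n, ∀ b : Bool,
              ((fun ρ : Fin n × Fin n → Option Bool =>
                  Function.update ρ (next ρ) (some (ω (next ρ))))^[n * n]
                  (fun _ => none)) s = some b → ω' s = b) →
            (f ω' ↔ f ω)) ∧
          (∑ ω : Fin n × Fin n → Bool,
              (((Finset.range (n * n)).filter (fun k =>
                ¬ ∀ ω' : Fin n × Fin n → Bool,
                  (∀ s : Fin n × Fin n, ∀ b : Bool,
                    ((fun ρ : Fin n × Fin n → Option Bool =>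
                        Function.update ρ (next ρ) (some (ω (next ρ))))^[k]
                        (fun _ => none)) s = some b → ω' s = b) →
                  (f ω' ↔ f ω))).card : ℝ)) / (2 : ℝ) ^ (n * n)
            ≤ est main := by
  obtain ⟨t, ht, hp⟩ := alg Y hG main hv hdet
  obtain ⟨next, h1, h2⟩ := exists_next n hn f t ht
  refine ⟨next, h1, le_trans h2 ?_⟩
  have h3 := avgc_le hE N chg est hJ hadm main hW
  have hc : Fintype.card (Fin n × Fin n) = n * n := by simp
  have h4 : ∀ ω : Fin n × Fin n → Bool, (paid f t (fun _ => none) ω : ℝ) ≤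
      (Y.cost N (Y.lev main + 1) main ω (fun _ => False) : ℝ) := fun ω => by exact_mod_cast hp ω
  have h5 : (∑ ω : Fin n × Fin n → Bool,
      (Y.cost N (Y.lev main + 1) main ω (fun _ => False) : ℝ)) / (2 : ℝ) ^ (n * n) =
      avgc Y N main := by
    unfold avgc avg
    rw [hc]
    congr 1
    refine Finset.sum_congr ?_ (fun _ _ => rfl)
    ext ω; simp
  rw [← h5] at h3
  exact le_trans (div_le_div_of_nonneg_right (Finset.sum_le_sum (fun ω _ => h4 ω)) (by positivity)) h3

end Pool.Agent.H89.Per
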