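import Pool.Agent.H89.Per.Alg2

set_option autoImplicit false

open Classical

/-! From a decision tree, counted with all its queries, to the conclusion of S19243 (helper89). -/

namespace Pool.Agent.H89.Per

/-- The conclusion of S19243 from a decision tree and a bound on its average number of queries. -/
theorem next_of_dt (n : ℕ) (hn : 1 ≤ n) (f : (Fin n × Fin n → Bool) → Prop)
    (t : DT (Fin n × Fin n)) (ht : Decides t f) (B : ℝ)
    (hB : avg (fun ω => (qcount t ω : ℝ)) ≤ B) :
    ∃ next : (Fin n × Fin n → Option Bool) → Fin n × Fin n,
          (∀ ω : Fin n × Fin n → Bool, ∀ ω' : Fin n × Fin n → Bool,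
            (∀ s : Fin n × Fin n, ∀ b : Bool,
              ((fun ρ : Fin n × Fin n → Option Bool =>
                  Function.update ρ (next ρ) (some (ω (next ρ))))^[n * n]
                  (fun _ => none)) s = some b → ω' s = b) →
            (f ω' ↔ f ω)) ∧
          (∑ ω : Fin n × Fin n → Bool,
              (((Finset.range (n * n)).filter (fun k =>
                ¬ ∀ ω' : Fin n × Fin n → Bool,
                  (∀ s : Fin n × Fin n, ∀ b : Bool,
                    ((fun ρ : Fin n × Fin n → Option Bool =>
                        Function.update ρ (next ρ) (some (ω (next ρ))))^[k]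
                        (fun _ => none)) s = some b → ω' s = b) →
                  (f ω' ↔ f ω))).card : ℝ)) / (2 : ℝ) ^ (n * n)
            ≤ B := by
  obtain ⟨next, h1, h2⟩ := exists_next n hn f t ht
  refine ⟨next, h1, le_trans h2 (le_trans ?_ hB)⟩
  have h3 : ∀ ω : Fin n × Fin n → Bool, (paid f t (fun _ => none) ω : ℝ) ≤ (qcount t ω : ℝ) :=
    fun ω => by exact_mod_cast paid_le_qcount f t (fun _ => none) ω (agrees_none ω)
  have hc : Fintype.card (Fin n × Fin n) = n * n := by simp
  unfold avg
  rw [hc]
  refine div_le_div_of_nonneg_right ?_ (by positivity)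
  refine le_trans (Finset.sum_le_sum (fun ω _ => h3 ω)) (le_of_eq ?_)
  refine Finset.sum_congr ?_ (fun _ _ => rfl)
  ext ω; simp

end Pool.Agent.H89.Per
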