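import Pool.Agent.H89.Per.Lea

set_option autoImplicit false

/-! MP_2e6055 (helper89): the fields `lr`, `lrA`, `touch` of the input of the recursion. -/

namespace Pool.Agent.H89.Per

open Pool.Agent.H7.UC Pool.Agent.H74.Tri Pool.Agent.H75.Lv
open Pool.Agent.H75.Per (CX I)
open Classical

attribute [-instance] instDecidableEqSum

variable {c : Cf}

theorem rho_succ (c : Cf) (j : ℕ) : c.rho (j + 1) = c.l * c.rho j := by
  unfold Cf.rho Cf.un
  push_cast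
  ring

theorem rho_hs (hc : c.Ok) (j : ℕ) : c.rho j = 16 * c.g.N * c.hs j := by
  have h1 := hc.hs8 j
  have h2 : c.rho j = 2 * c.g.N * (c.g.h * c.un j) := by unfold Cf.rho; ring
  rw [h2, ← h1]
  ring

theorem Bx_box (hc : c.Ok) {j0 j : ℕ} {v : Fc} (hu : c.use j0 v) (h1 : 1 ≤ j) (h2 : j ≤ j0) :
    Bx v (c.rho j) ⊆ box c.m c.n := by
  have h3 := use_mono hc hu h1 h2
  refine Finset.Subset.trans ?_ h3.2.2
  apply Bx_sub (Pool.Agent.H75.Lv.sq_near hc j v)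
  have h4 := hc.hs8 j
  have h5 := hc.hu_le_rho j
  have h6 := hc.hu_pos j
  linarith

theorem a_le_un (hc : c.Ok) (j : ℕ) : (c.a : ℤ) ≤ c.un j := by
  have h1 := hc.un_pos 0
  have h2 : c.un 0 = c.a := by unfold Cf.un; simp
  have h3 := un_le hc (Nat.zero_le j)
  rw [h2] at h3
  exact h3

/-- **lr.** -/
theorem lr_field (hR : RET) : ∃ C κ : ℝ, 0 < C ∧ 0 < κ ∧ ∀ l : ℕ, ∃ a0 : ℕ, ∀ (c : Cf)
    (hc : c.Ok) (hA : ADMC), c.l = l → a0 ≤ c.a → ∀ (v : Fc) (j0 k : ℕ), k < j0 → c.use j0 v →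
    ∀ ω : Finset c.al, (SY c hc hA v j0).alive k ω → ∀ H ⊆ (SY c hc hA v j0).far k,
    CX (Finset.univ : Finset c.al) ((SY c hc hA v j0).T k ω ∪ H) ω
      (fun ω' => I ((SY c hc hA v j0).alive (k + 1) ω' ∧ ¬ (SY c hc hA v j0).NL k ω')) ≤
    C * (1 / (c.L : ℝ)) ^ κ * (1 / (l : ℝ)) ^ ((1 / 4) : ℝ) := by
  obtain ⟨C, κ, hC, hκ, hR⟩ := hR
  refine ⟨C, κ, hC, hκ, fun l => ?_⟩
  obtain ⟨K, hK⟩ := hR (max 1 l) (le_max_left _ _)
  refine ⟨K.toNat, fun c hc hA hl ha v j0 k hk hu ω h0 H hH => ?_⟩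
  set j := j0 - k with hj
  have hj1 : 1 ≤ j := by omega
  have hjj : j0 - (k + 1) = j - 1 := by omega
  have hjs : j - 1 + 1 = j := by omega
  have hrs : c.rho j = c.l * c.rho (j - 1) := by rw [← rho_succ, hjs]
  have hρ0 := hc.rho_pos (j - 1)
  have hρj := hc.rho_pos j
  have hL := hc.L
  have hKa : K ≤ c.rho (j - 1) := by
    have h1 : (K.toNat : ℤ) ≤ c.a := by exact_mod_cast ha
    have h2 := a_le_un hc (j - 1)
    have h3 := hc.u_le_hu (j - 1)
    have h4 := hc.hu_le_rho (j - 1)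
    have h5 := hc.un_pos (j - 1)
    omega
  have hmono : c.rho (j - 1) ≤ c.rho j := hc.rho_mono (by omega)
  have hret := hK v (c.rho (j - 1)) (c.rho j) (c.rho j) (c.L * c.rho j) hKa hmono (by
    rw [hrs]
    push_cast
    rw [hl]
    exact mul_le_mul_of_nonneg_right (le_max_right _ _) (by exact_mod_cast hρ0.le)) le_rfl
    (by nlinarith)
  have hval : C * ((c.rho j : ℝ) / ((c.L * c.rho j : ℤ) : ℝ)) ^ κ *
      ((c.rho (j - 1) : ℝ) / (c.rho j : ℝ)) ^ ((1 / 4) : ℝ) =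
      C * (1 / (c.L : ℝ)) ^ κ * (1 / (l : ℝ)) ^ ((1 / 4) : ℝ) := by
    have hρjr : (0 : ℝ) < c.rho j := by exact_mod_cast hρj
    have hρ0r : (0 : ℝ) < c.rho (j - 1) := by exact_mod_cast hρ0
    have hLr : (0 : ℝ) < c.L := by
      have : (4 : ℝ) ≤ c.L := by exact_mod_cast hL
      linarith
    have e1 : (c.rho j : ℝ) / ((c.L * c.rho j : ℤ) : ℝ) = 1 / c.L := by
      push_cast
      field_simp
    have e2 : (c.rho (j - 1) : ℝ) / (c.rho j : ℝ) = 1 / l := by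
      have e3 : (c.rho j : ℝ) = (l : ℝ) * c.rho (j - 1) := by
        rw [hrs, hl]; push_cast; ring
      rw [e3]
      field_simp
    rw [e1, e2]
  rw [← hval]
  have hvS : v ∈ Bx v (c.rho j) := mem_Bx.2 (by simp [hρj.le])
  refine leave_return (S := Bx v (c.rho j)) (S2 := Bx v (c.rho (j - 1))) hret hc
    (Bx_box hc hu hj1 (by omega)) (Finset.Subset.refl _) (Finset.Subset.refl _)
    (fun f hf => Pool.Agent.H58.TA.jn_Bx hvS hf) hvS (Finset.Subset.refl _) hmono h0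
    Finset.subset_union_left ?_ ?_
  · intro y hy
    rcases Finset.mem_union.1 hy with h1 | h1
    · exact Or.inl (mem_Rg.1 h1)
    · exact Or.inr (mem_FF_inl.1 (hH h1))
  · intro ω' _
    apply Pool.Agent.H75.Per.I_mono
    rintro ⟨h1, h2⟩
    have h1' : hit (Bx v (c.rho (j - 1))) ω' := by
      have : hit (Bx v (c.rho (j0 - (k + 1)))) ω' := h1
      rw [hjj] at this
      exact this
    refine ⟨h1', ?_⟩
    have h3 : ¬ Disjoint (Rg (Bx v (c.rho (j0 - (k + 1)))) ω' \ Rg (Bx v (c.rho j)) ω')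
      (FF v j0 k) := h2
    rw [hjj, Finset.not_disjoint_iff] at h3
    obtain ⟨x, hx1, hx2⟩ := h3
    rw [Finset.mem_sdiff] at hx1
    rcases x with y | x
    · exact ⟨y, mem_FF_inl.1 hx2, mem_Rg.1 hx1.1, fun h => hx1.2 (mem_Rg.2 h)⟩
    · exact absurd hx1.1 not_mem_Rg

/-- **lrA.** -/
theorem lrA_field (hR : RET) : ∃ C κ : ℝ, 0 < C ∧ 0 < κ ∧ ∀ N : ℤ, ∃ a0 : ℕ, ∀ (c : Cf)
    (hc : c.Ok) (hA : ADMC), c.g.N = N → a0 ≤ c.a → ∀ (v : Fc) (j0 k : ℕ), k < j0 →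
    c.use j0 v →
    ∀ ω : Finset c.al, (SY c hc hA v j0).alive k ω → ∀ H ⊆ (SY c hc hA v j0).far k,
    CX (Finset.univ : Finset c.al) ((SY c hc hA v j0).T k ω ∪ H) ω
      (fun ω' => I ((SY c hc hA v j0).made k ω' ∧ ¬ (SY c hc hA v j0).NLA k ω')) ≤
    C * (1 / (c.L : ℝ)) ^ κ := by
  obtain ⟨C, κ, hC, hκ, hR⟩ := hR
  refine ⟨C, κ, hC, hκ, fun N => ?_⟩
  obtain ⟨K, hK⟩ := hR (max 1 (2 * N)) (le_max_left _ _)
  refine ⟨K.toNat, fun c hc hA hN ha v j0 k hk hu ω h0 H hH => ?_⟩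
  set j := j0 - k with hj
  have hj1 : 1 ≤ j := by omega
  have hρj := hc.rho_pos j
  have hL := hc.L
  have hhs := hc.hs_pos j
  have hρhs := rho_hs hc j
  have hN64 := hc.g.N8
  have hKa : K ≤ 9 * c.hs j := by
    have h1 : (K.toNat : ℤ) ≤ c.a := by exact_mod_cast ha
    have h2 := a_le_un hc j
    have h3 := hc.u_le_hu j
    have h4 := hc.hs8 j
    have h5 := hc.un_pos j
    omega
  have hle : 9 * c.hs j ≤ c.rho j := by rw [hρhs]; nlinarith
  have hret := hK v (9 * c.hs j) (c.rho j) (c.rho j) (c.L * c.rho j) hKa hle (by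
    rw [hρhs, hN]
    have h1 : (2 * (N : ℝ)) ≤ max 1 (2 * (N : ℝ)) := le_max_right _ _
    have h2 : (0 : ℝ) ≤ c.hs j := by exact_mod_cast hhs.le
    have h3 : (64 : ℝ) ≤ N := by rw [hN] at hN64; exact_mod_cast hN64
    push_cast
    nlinarith) le_rfl (by nlinarith)
  have hval : C * ((c.rho j : ℝ) / ((c.L * c.rho j : ℤ) : ℝ)) ^ κ *
      (((9 * c.hs j : ℤ) : ℝ) / (c.rho j : ℝ)) ^ ((1 / 4) : ℝ) ≤
      C * (1 / (c.L : ℝ)) ^ κ := by
    have hρjr : (0 : ℝ) < c.rho j := by exact_mod_cast hρj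
    have hLr : (0 : ℝ) < c.L := by
      have : (4 : ℝ) ≤ c.L := by exact_mod_cast hL
      linarith
    have e1 : (c.rho j : ℝ) / ((c.L * c.rho j : ℤ) : ℝ) = 1 / c.L := by
      push_cast
      field_simp
    have e2 : (((9 * c.hs j : ℤ) : ℝ) / (c.rho j : ℝ)) ^ ((1 / 4) : ℝ) ≤ 1 := by
      refine Real.rpow_le_one ?_ ?_ (by norm_num)
      · have : (0 : ℝ) ≤ ((9 * c.hs j : ℤ) : ℝ) := by exact_mod_cast (by omega)
        positivity
      · rw [div_le_one hρjr]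
        exact_mod_cast hle
    rw [e1]
    exact mul_le_of_le_one_right (by positivity) e2
  refine le_trans ?_ hval
  have hvS : v ∈ Bx v (c.rho j) := mem_Bx.2 (by simp [hρj.le])
  refine leave_return (S := Bx v (c.rho j)) (S2 := c.En j (c.sq j v)) hret hc
    (Bx_box hc hu hj1 (by omega)) (Finset.Subset.refl _) (Finset.Subset.refl _)
    (fun f hf => Pool.Agent.H58.TA.jn_Bx hvS hf) hvS ?_ hle h0
    Finset.subset_union_left ?_ ?_
  · apply Bx_sub (Bx_symm (Pool.Agent.H75.Lv.sq_near hc j v))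
    have h1 := hc.hs8 j
    linarith
  · intro y hy
    rcases Finset.mem_union.1 hy with h1 | h1
    · exact Or.inl (mem_Rg.1 h1)
    · exact Or.inr (mem_FF_inl.1 (hH h1))
  · intro ω' _
    apply Pool.Agent.H75.Per.I_mono
    rintro ⟨h1, h2⟩
    have h1' : mad v j0 k ω' := h1
    refine ⟨h1'.2.1, ?_⟩
    have h3 : ¬ Disjoint (AR v j0 k ω' \ Rg (Bx v (c.rho j)) ω') (FF v j0 k) := h2
    unfold AR at h3
    rw [if_pos hj1, Finset.not_disjoint_iff] at h3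
    obtain ⟨x, hx1, hx2⟩ := h3
    rw [Finset.mem_sdiff] at hx1
    rcases x with y | x
    · exact ⟨y, mem_FF_inl.1 hx2, mem_Rg.1 hx1.1, fun h => hx1.2 (mem_Rg.2 h)⟩
    · exact absurd hx1.1 not_mem_Rg

/-- **touch.** -/
theorem touch_field (hR : RET) : ∃ C κ : ℝ, 0 < C ∧ 0 < κ ∧ ∀ l : ℕ, ∃ a0 : ℕ, ∀ (c : Cf)
    (hc : c.Ok) (hA : ADMC), c.l = l → a0 ≤ c.a → ∀ (v : Fc) (j0 k : ℕ), k < j0 →
    c.use j0 v →
    ∀ ω : Finset c.al, (SY c hc hA v j0).made k ω → ∀ H ⊆ (SY c hc hA v j0).far k,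
    CX (Finset.univ : Finset c.al) ((SY c hc hA v j0).A k ω ∪ ((SY c hc hA v j0).Fr k ω ∪ H)) ω
      (fun ω' => I ((SY c hc hA v j0).alive (k + 1) ω' ∧ ¬ (SY c hc hA v j0).NT k ω')) ≤
    C * (9 / (c.g.N : ℝ)) ^ κ * (3 * (c.g.N : ℝ)) ^ ((1 / 4) : ℝ) *
      (1 / (l : ℝ)) ^ ((1 / 4) : ℝ) := by
  obtain ⟨C, κ, hC, hκ, hR⟩ := hR
  refine ⟨C, κ, hC, hκ, fun l => ?_⟩
  obtain ⟨K, hK⟩ := hR (max 1 l) (le_max_left _ _)
  refine ⟨K.toNat, fun c hc hA hl ha v j0 k hk hu ω h0 H hH => ?_⟩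
  set j := j0 - k with hj
  have hj1 : 1 ≤ j := by omega
  have hjj : j0 - (k + 1) = j - 1 := by omega
  have hjs : j - 1 + 1 = j := by omega
  have hrs : c.rho j = c.l * c.rho (j - 1) := by rw [← rho_succ, hjs]
  have hρ0 := hc.rho_pos (j - 1)
  have hρj := hc.rho_pos j
  have hL := hc.L
  have hhs := hc.hs_pos j
  have hρhs := rho_hs hc j
  have hN64 := hc.g.N8
  have hh8 := hc.hs8 j
  have hKa : K ≤ c.rho (j - 1) := by
    have h1 : (K.toNat : ℤ) ≤ c.a := by exact_mod_cast ha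
    have h2 := a_le_un hc (j - 1)
    have h3 := hc.u_le_hu (j - 1)
    have h4 := hc.hu_le_rho (j - 1)
    have h5 := hc.un_pos (j - 1)
    omega
  have hsmall : c.rho (j - 1) ≤ 7 * c.hs j := by
    have h1 := hc.Lrho_step (j - 1)
    rw [hjs] at h1
    have h2 := hc.rho_le_L (j - 1)
    have h3 := hc.u_le_hu j
    have h4 := hc.un_pos j
    linarith
  have hbig : 7 * c.hs j ≤ c.rho j := by rw [hρhs]; nlinarith
  have hret := hK v (c.rho (j - 1)) (7 * c.hs j) (9 * c.hs j) (c.g.N * c.hs j) hKa hsmall (by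
    have h1 : (l : ℝ) ≤ max 1 (l : ℝ) := le_max_right _ _
    have h2 : (0 : ℝ) ≤ c.rho (j - 1) := by exact_mod_cast hρ0.le
    calc ((7 * c.hs j : ℤ) : ℝ) ≤ c.rho j := by exact_mod_cast hbig
      _ = (l : ℝ) * c.rho (j - 1) := by rw [hrs, hl]; push_cast; ring
      _ ≤ max 1 (l : ℝ) * c.rho (j - 1) := mul_le_mul_of_nonneg_right h1 h2) (by linarith)
    (by nlinarith)
  have hval : C * (((9 * c.hs j : ℤ) : ℝ) / ((c.g.N * c.hs j : ℤ) : ℝ)) ^ κ *
      ((c.rho (j - 1) : ℝ) / ((7 * c.hs j : ℤ) : ℝ)) ^ ((1 / 4) : ℝ) ≤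
      C * (9 / (c.g.N : ℝ)) ^ κ * (3 * (c.g.N : ℝ)) ^ ((1 / 4) : ℝ) *
        (1 / (l : ℝ)) ^ ((1 / 4) : ℝ) := by
    have hhr : (0 : ℝ) < c.hs j := by exact_mod_cast hhs
    have hNr : (64 : ℝ) ≤ c.g.N := by exact_mod_cast hN64
    have hρ0r : (0 : ℝ) < c.rho (j - 1) := by exact_mod_cast hρ0
    have e1 : ((9 * c.hs j : ℤ) : ℝ) / ((c.g.N * c.hs j : ℤ) : ℝ) = 9 / c.g.N := by
      push_cast
      field_simp
    have e3 : (l : ℝ) * c.rho (j - 1) = 16 * c.g.N * c.hs j := by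
      have h1 : (c.rho j : ℝ) = (l : ℝ) * c.rho (j - 1) := by rw [hrs, hl]; push_cast; ring
      rw [← h1, hρhs]; push_cast; ring
    have hl0 : (0 : ℝ) < l := by
      by_contra hcon
      have h1 : (l : ℝ) ≤ 0 := not_lt.1 hcon
      have h2 : (0 : ℝ) < 16 * c.g.N * c.hs j := by positivity
      rw [← e3] at h2
      nlinarith
    have e2 : (c.rho (j - 1) : ℝ) / ((7 * c.hs j : ℤ) : ℝ) ≤ 3 * c.g.N * (1 / l) := by
      have h1 : (c.rho (j - 1) : ℝ) = 16 * c.g.N * c.hs j / l := by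
        rw [← e3]; field_simp
      rw [h1]
      push_cast
      rw [div_div, div_le_iff₀ (by positivity)]
      have : 3 * (c.g.N : ℝ) * (1 / l) * (l * (7 * c.hs j)) = 21 * c.g.N * c.hs j := by
        field_simp
        norm_num
      rw [this]
      have : (0 : ℝ) < c.g.N * c.hs j := by positivity
      nlinarith
    have h7 : (0 : ℝ) < ((7 * c.hs j : ℤ) : ℝ) := by exact_mod_cast (by omega)
    rw [e1, mul_assoc (C * (9 / (c.g.N : ℝ)) ^ κ), ← Real.mul_rpow (by positivity) (by positivity)]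
    refine mul_le_mul_of_nonneg_left ?_ (by positivity)
    exact Real.rpow_le_rpow (by positivity) e2 (by norm_num)
  refine le_trans ?_ hval
  have hz0 : c.sq j v ∈ c.En j (c.sq j v) := by
    unfold Cf.En
    rw [mem_Bx]
    simp only [sub_self, abs_zero]
    have := hc.hu_pos j
    constructor <;> omega
  have hvS : v ∈ c.En j (c.sq j v) := self_En hc j v
  have h0' : mad v j0 k ω := h0
  have hAeq : ∀ ω' : Finset c.al, (SY c hc hA v j0).A k ω' = Rg (c.En j (c.sq j v)) ω' := by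
    intro ω'
    show AR v j0 k ω' = _
    unfold AR
    rw [if_pos hj1]
  have hfar : ∀ f ∈ c.aS j (c.sq j v), f ∉ Bx v (c.g.N * c.hs j) := by
    intro f hf hB
    have h1 := (ann_far hc hf).2
    have h2 := Pool.Agent.H75.Lv.sq_near hc j v
    rw [mem_Bx] at hB h2
    have h3 : c.g.N * c.g.h * c.un j = 8 * (c.g.N * c.hs j) := by
      calc c.g.N * c.g.h * c.un j = c.g.N * (c.g.h * c.un j) := by ring
        _ = 8 * (c.g.N * c.hs j) := by rw [← hh8]; ring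
    rw [h3] at h1
    have h4 : 64 * c.hs j ≤ c.g.N * c.hs j := mul_le_mul_of_nonneg_right hN64 hhs.le
    simp only [abs_le] at hB h2
    rcases h1 with h1 | h1
    · rcases abs_cases (f.1 - (c.sq j v).1) with ⟨e, _⟩ | ⟨e, _⟩ <;> rw [e] at h1 <;> omega
    · rcases abs_cases (f.2 - (c.sq j v).2) with ⟨e, _⟩ | ⟨e, _⟩ <;> rw [e] at h1 <;> omega
  have hEb : c.En j (c.sq j v) ⊆ box c.m c.n :=
    Finset.Subset.trans (En_sub hc j v) (Bx_box hc hu hj1 (by omega))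
  refine leave_return (S := c.En j (c.sq j v)) (S2 := Bx v (c.rho (j - 1))) hret hc
    hEb ?_ ?_ ?_ hvS (Finset.Subset.refl _) hsmall h0'.2.1 ?_ ?_ ?_
  · apply Bx_sub (Pool.Agent.H75.Lv.sq_near hc j v)
    linarith
  · apply Bx_sub (Bx_symm (Pool.Agent.H75.Lv.sq_near hc j v))
    linarith
  · intro f hf
    exact Pool.Agent.H58.TA.jn_Bx hvS hf
  · rw [hAeq]
    exact Finset.subset_union_left
  · intro y hy
    rw [hAeq] at hy
    rcases Finset.mem_union.1 hy with h1 | h1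
    · exact Or.inl (mem_Rg.1 h1)
    · right
      rcases Finset.mem_union.1 h1 with h2 | h2
      · have h3 : Sum.inl y ∈ FR v j0 k ω := h2
        exact hfar _ (mem_FR_inl.1 h3).2.1
      · have h3 := mem_FF_inl.1 (hH h2)
        intro h4
        refine h3 (Bx_mono ?_ h4)
        rw [← hj, hρhs]
        have : (0 : ℤ) < c.g.N * c.hs j := by positivity
        nlinarith
  · intro ω' _
    apply Pool.Agent.H75.Per.I_mono
    rintro ⟨h1, h2⟩
    have h1' : hit (Bx v (c.rho (j - 1))) ω' := by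
      have : hit (Bx v (c.rho (j0 - (k + 1)))) ω' := h1
      rw [hjj] at this
      exact this
    refine ⟨h1', ?_⟩
    have h3 : ¬ Disjoint (Rg (Bx v (c.rho (j0 - (k + 1)))) ω') (FR v j0 k ω') := h2
    rw [hjj, Finset.not_disjoint_iff] at h3
    obtain ⟨x, hx1, hx2⟩ := h3
    rcases x with y | x
    · obtain ⟨_, h5, h6⟩ := mem_FR_inl.1 hx2
      exact ⟨y, hfar _ h5, mem_Rg.1 hx1, h6⟩
    · exact absurd hx1 not_mem_Rg

end Pool.Agent.H89.Per
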