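import Pool.Agent.H89.Per.Next

set_option autoImplicit false

open Classical

/-! From a decision tree with few paid queries to the conclusion of S19243 (helper89). -/

namespace Pool.Agent.H89.Per

theorem need_le_card {V : Type} [Fintype V] (f : (V → Bool) → Prop) (η : V → Bool) (t : DT V) :
    ∀ (ρ σ : V → Option Bool) (ω : V → Bool),
      need f η t ρ σ ω ≤ (Finset.univ.filter (fun x => ρ x = none)).card := by
  have key : ∀ (ρ : V → Option Bool) (x : V) (b : Bool), ρ x = none →
      (Finset.univ.filter (fun y => Function.update ρ x (some b) y = none)).card + 1 ≤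
        (Finset.univ.filter (fun y => ρ y = none)).card := by
    intro ρ x b hx
    have h1 : (Finset.univ.filter (fun y => Function.update ρ x (some b) y = none)) =
        (Finset.univ.filter (fun y => ρ y = none)).erase x := by
      ext y
      simp only [Finset.mem_filter, Finset.mem_univ, true_and, Finset.mem_erase]
      by_cases hy : y = x
      · subst hy; simp
      · rw [Function.update_of_ne hy]; simp [hy]
    rw [h1]
    have h2 : x ∈ Finset.univ.filter (fun y => ρ y = none) := by simp [hx]
    rw [Finset.card_erase_of_mem h2]
    have := Finset.card_pos.2 ⟨x, h2⟩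
    omega
  induction t with
  | leaf => intro ρ σ ω; simp [need]
  | ask x k ih =>
    intro ρ σ ω
    rcases option_cases (ρ x) with h | ⟨b, h⟩
    · by_cases hr : Relevant f ρ x
      · rw [need_rel f η h hr]
        have h1 := ih (ω x) (Function.update ρ x (some (ω x))) σ ω
        have h2 := key ρ x (ω x) h
        split_ifs <;> omega
      · rw [need_irr f η h hr]
        have h1 := ih (η x) (Function.update ρ x (some (η x))) σ ω
        have h2 := key ρ x (η x) h
        omega
    · rw [need_some f η h]
      exact ih _ _ _ _

/-- The conclusion of S19243 from a decision tree. -/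
theorem exists_next (n : ℕ) (hn : 1 ≤ n) (f : (Fin n × Fin n → Bool) → Prop)
    (t : DT (Fin n × Fin n)) (ht : Decides t f) :
    ∃ next : (Fin n × Fin n → Option Bool) → Fin n × Fin n,
          (∀ ω : Fin n × Fin n → Bool, ∀ ω' : Fin n × Fin n → Bool,
            (∀ s : Fin n × Fin n, ∀ b : Bool,
              ((fun ρ : Fin n × Fin n → Option Bool =>
                  Function.update ρ (next ρ) (some (ω (next ρ))))^[n * n]
                  (fun _ => none)) s = some b → ω' s = b) →
            (f ω' ↔ f ω)) ∧
          (∑ ω : Fin n × Fin n → Bool,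
              (((Finset.range (n * n)).filter (fun k =>
                ¬ ∀ ω' : Fin n × Fin n → Bool,
                  (∀ s : Fin n × Fin n, ∀ b : Bool,
                    ((fun ρ : Fin n × Fin n → Option Bool =>
                        Function.update ρ (next ρ) (some (ω (next ρ))))^[k]
                        (fun _ => none)) s = some b → ω' s = b) →
                  (f ω' ↔ f ω))).card : ℝ)) / (2 : ℝ) ^ (n * n)
            ≤ (∑ ω : Fin n × Fin n → Bool, (paid f t (fun _ => none) ω : ℝ)) / (2 : ℝ) ^ (n * n) := by
  have : Nonempty (Fin n × Fin n) := ⟨(⟨0, hn⟩, ⟨0, hn⟩)⟩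
  obtain ⟨η, hη⟩ := exists_eta f t
  have hst : ∀ (ω : Fin n × Fin n → Bool) (k : ℕ),
      ((fun ρ : Fin n × Fin n → Option Bool =>
        Function.update ρ (nextOf f t η ρ) (some (ω (nextOf f t η ρ))))^[k] (fun _ => none)) =
      st (nextOf f t η) ω k := by
    intro ω k
    unfold st
    congr 2
    funext ρ
    congr
    exact Subsingleton.elim _ _
  have hη' : ∑ ω : Fin n × Fin n → Bool, need f η t (fun _ => none) (fun _ => none) ω ≤
      ∑ ω : Fin n × Fin n → Bool, paid f t (fun _ => none) ω := by
    refine le_trans (le_of_eq ?_) (hη.trans (le_of_eq ?_))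
    · refine Finset.sum_congr ?_ (fun _ _ => rfl)
      ext ω
      simp
    · refine Finset.sum_congr ?_ (fun _ _ => rfl)
      ext ω
      simp
  refine ⟨nextOf f t η, ?_, ?_⟩
  · intro ω ω' h
    rw [hst] at h
    refine (det_iff (st_agrees _ _ _)).1 (det_st ht η ω (n * n) ?_) ω' h
    refine le_trans (need_le_card f η t _ _ _) ?_
    refine le_trans (Finset.card_filter_le _ _) ?_
    simp
  · refine div_le_div_of_nonneg_right ?_ (by positivity)
    have h1 : ∀ ω : Fin n × Fin n → Bool,
        (((Finset.range (n * n)).filter (fun k =>
                ¬ ∀ ω' : Fin n × Fin n → Bool,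
                  (∀ s : Fin n × Fin n, ∀ b : Bool,
                    ((fun ρ : Fin n × Fin n → Option Bool =>
                        Function.update ρ (nextOf f t η ρ) (some (ω (nextOf f t η ρ))))^[k]
                        (fun _ => none)) s = some b → ω' s = b) →
                  (f ω' ↔ f ω))).card : ℝ) ≤
          (need f η t (fun _ => none) (fun _ => none) ω : ℝ) := by
      intro ω
      refine Nat.cast_le.2 (le_trans (Finset.card_le_card ?_) (card_undet ht η ω (n * n)))
      intro k hk
      rw [Finset.mem_filter] at hk ⊢
      refine ⟨hk.1, fun hd => hk.2 ?_⟩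
      intro ω' h'
      rw [hst] at h'
      exact (det_iff (st_agrees _ _ _)).1 hd ω' h'
    refine le_trans (Finset.sum_le_sum (fun ω _ => h1 ω)) ?_
    exact_mod_cast hη'

end Pool.Agent.H89.Per
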