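import Pool.Agent.H89.Per.JBA
import Pool.Agent.H89.Per.Fld
import Pool.Agent.H7.Inst.Fld5
import Pool.Agent.H98.Inst.Suc
import Pool.Agent.H74.Lv.Os2

set_option autoImplicit false

/-! MP_2e6055 (helper89): the quantitative input of the recursion, assembled (`INN`). -/

namespace Pool.Agent.H89.Per

open Pool.Agent.H7.UC Pool.Agent.H74.Tri Pool.Agent.H75.Lv Pool.Agent.H93.SM
open Pool.Agent.H75.Per (CX CX_mono CX_congr CX_smul CX_const I I_nonneg I_le_one Par)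
open Classical

attribute [-instance] instDecidableEqSum

theorem pow_small {C b κ d : ℝ} (hb : 0 < b) (hκ : 0 < κ) (hd : 0 < d) : ∃ x0 : ℝ,
    ∀ x : ℝ, x0 ≤ x → 0 < x → C * (b / x) ^ κ ≤ d := by
  have h1 : Filter.Tendsto (fun x : ℝ => C * (b ^ κ * x ^ (-κ))) Filter.atTop
      (nhds (C * (b ^ κ * 0))) :=
    ((tendsto_rpow_neg_atTop hκ).const_mul _).const_mul _
  rw [mul_zero, mul_zero] at h1
  have h2 := h1.eventually (gt_mem_nhds hd)
  obtain ⟨x0, hx0⟩ := Filter.eventually_atTop.1 h2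
  refine ⟨x0, fun x hx hx1 => ?_⟩
  have h3 := hx0 x hx
  have h4 : (b / x) ^ κ = b ^ κ * x ^ (-κ) := by
    rw [Real.div_rpow hb.le hx1.le, Real.rpow_neg hx1.le, div_eq_mul_inv]
  rw [h4]
  exact h3.le

/-- **INN** -/
theorem inn_of (hOS : OS) (hOS' : OS') (hBD : BD) (hR : RET) (hC : CIRC) (hF5 : F5)
    (hA0 : ADMC) : INN := by
  obtain ⟨s3', hs3', N0, hmade⟩ := Pool.Agent.H7.Inst.f5_made hF5
  obtain ⟨sa, hsa, ac, hcen⟩ := Pool.Agent.H7.Inst.cen_GGA hBD hs3'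
  obtain ⟨c0', hc0', w0, hsuc⟩ := Pool.Agent.H98.Inst.suc_field hC
  obtain ⟨C0, hC0, hf4⟩ := Pool.Agent.H74.Lv.f4_field hOS'
  obtain ⟨Cl, κl, hCl, hκl, hlr⟩ := lr_field hR
  obtain ⟨Ca, κa, hCa, hκa, hlrA⟩ := lrA_field hR
  obtain ⟨Ct, κt, hCt, hκt, htouch⟩ := touch_field hR
  have hC00 : 0 < C0 := by linarith
  set c0 : ℝ := min c0' 1 with hc0d
  have hc0 : 0 < c0 := lt_min hc0' one_pos
  have hc01 : c0 ≤ 1 := min_le_right _ _
  have hd : 0 < c0 * sa := by positivity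
  obtain ⟨xN, hxN⟩ := pow_small (C := 80 * Ct) (b := 9) (by norm_num) hκt hd
  set N : ℤ := max (max N0 64) ⌈xN⌉ with hN
  have hN0 : N0 ≤ N := (le_max_left _ _).trans (le_max_left _ _)
  have hN64 : 64 ≤ N := (le_max_right _ _).trans (le_max_left _ _)
  have hNx : xN ≤ N := (Int.le_ceil xN).trans (by exact_mod_cast le_max_right _ _)
  have hNr : (64 : ℝ) ≤ N := by exact_mod_cast hN64
  have hNpos : (0 : ℝ) < N := by linarith
  obtain ⟨h0, hmade⟩ := hmade N hN0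
  set s3 : ℝ := (2 * (N : ℝ)) ^ ((1 / 4) : ℝ) * sa with hs3d
  have hs3 : 0 < s3 := by positivity
  set e3 : ℝ := Ct * (9 / (N : ℝ)) ^ κt * (3 * (N : ℝ)) ^ ((1 / 4) : ℝ) / C0 with he3d
  have he30 : 0 ≤ e3 := by positivity
  have hNe : 40 * C0 * e3 ≤ c0 * s3 := by
    have h1 := hxN N hNx hNpos
    have h2 : (3 * (N : ℝ)) ^ ((1 / 4) : ℝ) ≤ 2 * (2 * (N : ℝ)) ^ ((1 / 4) : ℝ) := by
      have h3 : (3 * (N : ℝ)) ^ ((1 / 4) : ℝ) ≤ (16 * (2 * (N : ℝ))) ^ ((1 / 4) : ℝ) :=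
        Real.rpow_le_rpow (by positivity) (by linarith) (by norm_num)
      have h4 : (16 * (2 * (N : ℝ))) ^ ((1 / 4) : ℝ) = 2 * (2 * (N : ℝ)) ^ ((1 / 4) : ℝ) := by
        rw [Real.mul_rpow (by norm_num) (by positivity)]
        congr 1
        rw [show (16 : ℝ) = 2 ^ (4 : ℝ) by norm_num, ← Real.rpow_mul (by norm_num)]
        norm_num
      linarith
    have h5 : 0 ≤ (2 * (N : ℝ)) ^ ((1 / 4) : ℝ) := by positivity
    have h6 : 0 ≤ 40 * Ct * (9 / (N : ℝ)) ^ κt := by positivity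
    calc 40 * C0 * e3 = 40 * Ct * (9 / (N : ℝ)) ^ κt * (3 * (N : ℝ)) ^ ((1 / 4) : ℝ) := by
          rw [he3d]; field_simp
      _ ≤ 40 * Ct * (9 / (N : ℝ)) ^ κt * (2 * (2 * (N : ℝ)) ^ ((1 / 4) : ℝ)) :=
          mul_le_mul_of_nonneg_left h2 h6
      _ = 80 * Ct * (9 / (N : ℝ)) ^ κt * (2 * (N : ℝ)) ^ ((1 / 4) : ℝ) := by ring
      _ ≤ c0 * sa * (2 * (N : ℝ)) ^ ((1 / 4) : ℝ) := mul_le_mul_of_nonneg_right h1 h5
      _ = c0 * s3 := by rw [hs3d]; ring
  refine ⟨c0, C0, s3, s3', e3, hc0, hc01, hC0, hs3, he30, hNe, N, h0, ?_⟩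
  intro h hh h8
  obtain ⟨g, gN, gh, gOk, hmade⟩ := hmade h hh h8
  refine ⟨g, gN, gh, gOk, ?_⟩
  intro s0 hs0
  obtain ⟨pK0, hpK0, hpK01, am, hmade⟩ := hmade s0 hs0
  refine ⟨min 1 (s3 * (pK0 / 2)), lt_min one_pos (by positivity), min_le_left _ _, ?_⟩
  intro e he
  have hh64 : 64 ≤ h := by rw [← gh]; exact gOk.h64
  obtain ⟨x1, hx1⟩ := pow_small (C := Cl) (b := 1) one_pos hκl (show 0 < C0 * e by positivity)
  obtain ⟨x2, hx2⟩ := pow_small (C := Ca) (b := 1) one_pos hκa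
    (show 0 < min e (pK0 / 2) from lt_min he (by positivity))
  set L : ℤ := max 4 (max ⌈x1⌉ ⌈x2⌉) with hL
  have hL4 : 4 ≤ L := le_max_left _ _
  have hLx1 : x1 ≤ L := (Int.le_ceil x1).trans
    (by exact_mod_cast (le_max_left _ _).trans (le_max_right _ _))
  have hLx2 : x2 ≤ L := (Int.le_ceil x2).trans
    (by exact_mod_cast (le_max_right _ _).trans (le_max_right _ _))
  have hLpos : (0 : ℝ) < L := by
    have : (4 : ℝ) ≤ L := by exact_mod_cast hL4
    linarith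
  set l : ℕ := max 700 (64 * L * N * h).toNat with hl
  have hl7 : 700 ≤ l := le_max_left _ _
  have hlL : 64 * L * N * h ≤ l := by
    have h1 := Int.self_le_toNat (64 * L * N * h)
    have h2 : ((64 * L * N * h).toNat : ℤ) ≤ l := by exact_mod_cast le_max_right _ _
    linarith
  have hl1 : 1 ≤ l := by omega
  obtain ⟨b1, hos1⟩ := Pool.Agent.H74.Lv.os1_field hOS hA0 hl1 he
  obtain ⟨b2, hos2⟩ := Pool.Agent.H74.Lv.os2_field hOS hN64 hl1 he
  obtain ⟨b3, hf4⟩ := hf4 l hl7 e he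
  obtain ⟨b4, hlr⟩ := hlr l
  obtain ⟨b5, hlrA⟩ := hlrA N
  obtain ⟨b6, htouch⟩ := htouch l
  refine ⟨L, l, 100 + ac + w0 + am + b1 + b2 + b3 + b4 + b5 + b6, hL4, hlL, by omega, ?_⟩
  intro c hc hA cg cs cl cL ca v j0 hu
  have cgN : c.g.N = N := by rw [cg, gN]
  refine ⟨fun k => Pool.Agent.H74.Lv.GG (em v) j0 k, fun k => Pool.Agent.H74.Lv.GGA (em v) j0 k, ?_⟩
  intro P Pr Pc0 Ps0 Ps3 PpK PC0 Pe Pe1 Pe2 Pe3 k hk
  have hbx : ∀ j, 1 ≤ j → j ≤ j0 → Bx (em v) (c.rho j) ⊆ box c.m c.n := fun j h1 h2 =>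
    Bx_box hc hu h1 h2
  have hbk : Bx (em v) (c.rho (j0 - k)) ⊆ box c.m c.n := hbx _ (by omega) (by omega)
  have hbk' : Bx (em v) (c.rho (j0 - (k + 1))) ⊆ box c.m c.n := by
    refine Finset.Subset.trans ?_ hbk
    exact Bx_mono (hc.rho_mono (by omega))
  have hlpos : (0 : ℝ) < (l : ℝ) := by exact_mod_cast hl1
  have hrpos : 0 < (l : ℝ) ^ ((1 / 4) : ℝ) := by positivity
  have hrinv : (1 / (l : ℝ)) ^ ((1 / 4) : ℝ) = 1 / (l : ℝ) ^ ((1 / 4) : ℝ) := by
    rw [Real.div_rpow zero_le_one hlpos.le, Real.one_rpow]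
  have hlrA' : ∀ ω : Finset c.al, (SY c hc hA (em v) j0).alive k ω →
      ∀ H ⊆ (SY c hc hA (em v) j0).far k,
      CX (Finset.univ : Finset c.al) ((SY c hc hA (em v) j0).T k ω ∪ H) ω
      (fun ω' => I ((SY c hc hA (em v) j0).made k ω' ∧ ¬ (SY c hc hA (em v) j0).NLA k ω')) ≤
      min e (pK0 / 2) := by
    intro ω h1 H h2
    refine (hlrA c hc hA cgN (by omega) (em v) j0 k hk hu ω h1 H h2).trans ?_
    rw [cL]
    exact hx2 L hLx2 hLpos
  exact
    { mG' := Pool.Agent.H74.Lv.mGG hc (em v) j0 (k + 1)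
      G0 := fun ω _ => Pool.Agent.H74.Lv.GG_nonneg hc _ _ _ _
      G4 := fun ω _ => Pool.Agent.H74.Lv.GG_le hc hbk _
      G0' := fun ω _ => Pool.Agent.H74.Lv.GG_nonneg hc _ _ _ _
      G4' := fun ω _ => Pool.Agent.H74.Lv.GG_le hc hbk' _
      GA0 := fun ω _ => Pool.Agent.H74.Lv.GGA_nonneg hc _ _ _ _
      cen := by
        intro ω _ hm
        rw [Ps3, hs3d, ← cgN]
        exact hcen c hc cs (by omega) (em v) j0 k ω hm
      os1 := by
        intro ω _ hal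
        rw [Pe]
        exact hos1 c hc cl (by omega) (em v) j0 k hk hbk P.r Pr ω hal
      os2 := by
        intro ω _ hm
        rw [Pe]
        exact hos2 c hc cgN cl (by omega) (em v) j0 k hk hbk P.r Pr ω hm
      f4 := by
        intro ω _ hal
        rw [Pe1, PC0]
        exact hf4 c hc cl (by omega) (em v) j0 k hk hbk P.r Pr ω hal
      lr := by
        intro ω _ hal H hH
        refine (hlr c hc hA cl (by omega) (em v) j0 k hk hu ω hal H hH).trans ?_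
        rw [PC0, Pr, Pe2, hrinv, cL]
        have h1 := hx1 L hLx1 hLpos
        calc Cl * (1 / (L : ℝ)) ^ κl * (1 / (l : ℝ) ^ ((1 / 4) : ℝ))
            ≤ C0 * e * (1 / (l : ℝ) ^ ((1 / 4) : ℝ)) :=
              mul_le_mul_of_nonneg_right h1 (by positivity)
          _ = C0 / (l : ℝ) ^ ((1 / 4) : ℝ) * e := by ring
      lrA := by
        intro ω _ hal H hH
        rw [Pe2]
        exact (hlrA' ω hal H hH).trans (min_le_left _ _)
      touch := by
        intro ω _ hm H hH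
        refine (htouch c hc hA cl (by omega) (em v) j0 k hk hu ω hm H hH).trans (le_of_eq ?_)
        rw [PC0, Pr, Pe3, hrinv, cgN, he3d]
        field_simp
      suc := by
        intro ω _ hm
        rw [Pc0]
        exact (min_le_left _ _).trans (hsuc c hc hA (em v) j0 k (by omega) hu ω hm)
      f5 := by
        intro ω _ hal hG
        rw [PpK]
        refine (min_le_right _ _).trans ?_
        have h1 := hmade c hc hA cg cs (by omega) (em v) j0 k hu hk ω hal (by rw [← Ps0]; exact hG)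
        have h2 := (hlrA' ω hal ∅ (Finset.empty_subset _)).trans (min_le_right _ _)
        rw [Finset.union_empty] at h2
        have h3 := Pool.Agent.H7.Inst.f5_comb (M := fun ω' => mad (em v) j0 k ω')
          (L := fun ω' => (SY c hc hA (em v) j0).NLA k ω')
          (X := fun ω' => Pool.Agent.H74.Lv.GGA (em v) j0 k ω') hs3.le h1 h2 (by
            intro ω' _ hm
            rw [hs3d, ← cgN]
            exact hcen c hc cs (by omega) (em v) j0 k ω' hm)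
        refine le_trans (le_of_eq ?_) h3
        ring }

end Pool.Agent.H89.Per
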