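import Pool.Agent.H89.Per.Top1
import Pool.Agent.H75.Lv.Site3
import Pool.Agent.H75.Per.Main

set_option autoImplicit false

/-! MP_2e6055 (helper89): from the quantitative input of the recursion (`INN`) to `JB`. -/

namespace Pool.Agent.H89.Per

open Pool.Agent.H7.UC Pool.Agent.H74.Tri Pool.Agent.H75.Lv Pool.Agent.H93.SM
open Pool.Agent.H75.Per (CX CX_mono CX_congr CX_smul CX_const I I_nonneg I_le_one Par Phi Phi_le
  tower_stop rec_all agree_mono)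
open Classical

attribute [-instance] instDecidableEqSum

/-- **REC with free cost level `M`** (helper75's `rec_main`). -/
theorem rec_main_M {α : Type*} {E : Finset α} {Y : Pool.Agent.H75.Per.Sys E} {P : Par}
    {G GA : ℕ → Finset α → ℝ} {ch : ℕ → ℝ} (h : P.Ok) {m : ℕ} (hin : ∀ k < m, Y.In P G GA k)
    (hch : ∀ k, 0 ≤ ch k) {M : ℝ} (hM0 : 0 < M) (hM : 1 ≤ M * P.kap)
    (hchk : ∀ k < m, ch k ≤ P.chi * (M * (P.q / P.r) ^ (m - k)))
    (hG0 : ∀ ω ⊆ E, 0 ≤ G 0 ω) (hG4 : ∀ ω ⊆ E, G 0 ω ≤ 4) (hG : ∀ ω ⊆ E, 0 ≤ G m ω)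
    (ω₀ : Finset α) :
    CX E ∅ ω₀ (Y.J ch m 0) ≤
      5 * M * (P.q / P.r) ^ m * CX E ∅ ω₀ (fun ω => I (Y.alive 0 ω)) := by
  have hr : 0 < P.r := by linarith [h.r1]
  have q0 := h.q0
  set c := M * (P.q / P.r) ^ m with hcdef
  have hc : 0 < c := by positivity
  have e0 : ∀ k ≤ m, c * (P.r / P.q) ^ k = M * (P.q / P.r) ^ (m - k) := by
    intro k hk
    have h1 : (P.q / P.r) ^ m = (P.q / P.r) ^ (m - k) * (P.q / P.r) ^ k := by
      rw [← pow_add]; congr 1; omega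
    have h2 : (P.q / P.r) ^ k * (P.r / P.q) ^ k = 1 := by
      rw [← mul_pow]
      have : P.q / P.r * (P.r / P.q) = 1 := by field_simp
      rw [this, one_pow]
    rw [hcdef, h1]
    linear_combination (M * (P.q / P.r) ^ (m - k)) * h2
  have key := rec_all (ch := ch) h hin hch hc (fun k hk => by rw [e0 k hk.le]; exact hchk k hk)
    hG (by
      rw [e0 m le_rfl, Nat.sub_self, pow_zero, mul_one]; exact hM) m 0 (by omega)
  rw [pow_zero, mul_one] at key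
  have t := tower_stop (F := Y.J ch m 0) (S := ∅) (ω₀ := ω₀) (Y.stopT 0) ∅
    (fun _ _ _ => Finset.empty_subset _)
  rw [t, ← CX_smul]
  apply CX_mono
  intro ω h1 _
  refine (key ω h1 ∅ (Finset.empty_subset _)).trans ?_
  have h5 := Phi_le h (hG0 ω h1) (hG4 ω h1)
  have h6 := I_nonneg (Y.alive 0 ω)
  calc c * (I (Y.alive 0 ω) * Phi P (G 0 ω)) ≤ c * (I (Y.alive 0 ω) * 5) := by gcongr
    _ = 5 * M * (P.q / P.r) ^ m * I (Y.alive 0 ω) := by rw [hcdef]; ring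

/-- **INN** (helper75 and writers): the input of the recursion for the site `v`. -/
def INN : Prop := ∃ c0 C0 s3 s3' e3 : ℝ, 0 < c0 ∧ c0 ≤ 1 ∧ 1 ≤ C0 ∧ 0 < s3 ∧ 0 ≤ e3 ∧
  40 * C0 * e3 ≤ c0 * s3 ∧
  ∃ N h0 : ℤ, ∀ h : ℤ, h0 ≤ h → 8 ∣ h → ∃ g : Gm, g.N = N ∧ g.h = h ∧ g.Ok ∧
  ∀ s0 : ℝ, 0 < s0 → ∃ pK : ℝ, 0 < pK ∧ pK ≤ 1 ∧ ∀ e : ℝ, 0 < e →
  ∃ (L : ℤ) (l a1 : ℕ), 4 ≤ L ∧ 64 * L * N * h ≤ l ∧ 100 ≤ a1 ∧
  ∀ (c : Cf) (hc : c.Ok) (hA : ADMC), c.g = g → c.s3 = s3' → c.l = l → c.L = L → a1 ≤ c.a →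
  ∀ (v : c.V) (j0 : ℕ), c.use j0 (em v) → ∃ G GA : ℕ → Finset c.al → ℝ, ∀ P : Par,
  P.r = (l : ℝ) ^ ((1 / 4) : ℝ) → P.c0 = c0 → P.s0 = s0 → P.s3 = s3 → P.pK = pK → P.C0 = C0 →
  P.e = e → P.e1 = e → P.e2 = e → P.e3 = e3 → ∀ k < j0, (SY c hc hA (em v) j0).In P G GA k

/-- **JB** from `INN`. -/
theorem jb (hI : INN) (hA : ADMC) (hOS : OS') : JB := by
  obtain ⟨c0, C0, s3, s3', e3, hc0, hc01, hC0, hs3, he30, he3, N, h0, hI⟩ := hI
  obtain ⟨Ct, hCt, htop⟩ := top0 hOS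
  have hc0s : 0 < c0 * s3 := by positivity
  have hC00 : 0 < C0 := by linarith
  set χ : ℝ := min 1 (c0 * s3 / 8) with hχ
  have hχ0 : 0 < χ := lt_min one_pos (by positivity)
  refine ⟨χ, 5 * Ct, hχ0, by positivity, N, h0, ?_⟩
  intro h hh h8
  obtain ⟨g, gN, gh, gOk, hI⟩ := hI h hh h8
  obtain ⟨pK, hpK, hpK1, hI⟩ := hI (1 / (4 * C0)) (by positivity)
  set th : ℝ := c0 * pK / 16 with hth
  have hth0 : 0 < th := by rw [hth]; positivity
  have hth1 : th ≤ 1 / 16 := by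
    have : c0 * pK ≤ 1 := by nlinarith
    rw [hth]; linarith
  set kap : ℝ := th / (4 * C0) with hkap
  have hkap0 : 0 < kap := by rw [hkap]; positivity
  set e : ℝ := kap / (20 * C0) with he
  have he0 : 0 < e := by rw [he]; positivity
  obtain ⟨L, l, a1, hL, hl, ha1, hI⟩ := hI e he0
  obtain ⟨a0, htop⟩ := htop l
  have hN64 : 64 ≤ N := by rw [← gN]; exact gOk.N8
  have hh64 : 64 ≤ h := by rw [← gh]; exact gOk.h64
  have hl1 : (1 : ℝ) ≤ l := by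
    have h7 : (1 : ℤ) ≤ 64 * L * N * h := by
      have : (0 : ℤ) < 64 * L * N * h := by positivity
      omega
    have h9 : (1 : ℤ) ≤ l := h7.trans hl
    exact_mod_cast h9
  refine ⟨g, s3', max a0 a1, l, L, 1 - th / 16, 1 / kap, gN, gh, gOk,
    ha1.trans (le_max_right _ _), hL, hl, by linarith, by linarith, by positivity, ?_⟩
  intro c hc cg cs ca cl cL T hT M hM chg hchg0 hchg Nn v j0 hu hmax hJ
  have hj1 : 1 ≤ j0 := hu.1
  obtain ⟨G, GA, hI⟩ := hI c hc hA cg cs cl cL (by rw [ca]; exact le_max_right _ _) v j0 hu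
  set P : Par := ⟨(l : ℝ) ^ ((1 / 4) : ℝ), c0, 1 / (4 * C0), s3, pK, th, kap, C0, e, e, e, e3, χ⟩
    with hP
  have hin := hI P rfl rfl rfl rfl rfl rfl rfl rfl rfl rfl
  have hPok : P.Ok := by
    refine ⟨?_, hc0, hc01, by show (0 : ℝ) < 1 / (4 * C0); positivity, hs3, hpK, hpK1, rfl, hC0,
      hkap0, ?_, ?_, he0.le, he0.le, he0.le, he30, ?_, hχ0.le, ?_, min_le_left _ _, he3⟩
    · exact Real.one_le_rpow hl1 (by norm_num)
    · show 4 * C0 * kap ≤ th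
      rw [hkap]
      apply le_of_eq
      field_simp
    · show 1 / (4 * C0) * C0 ≤ 1 / 4
      apply le_of_eq
      field_simp
    · show 2 * (2 * e + 2 * e + 6 * C0 * e) ≤ kap
      have h1 : kap = 20 * C0 * e := by rw [he]; field_simp
      rw [h1]
      nlinarith
    · show 8 * χ ≤ c0 * s3
      have := min_le_right 1 (c0 * s3 / 8)
      rw [← hχ] at this
      linarith
  have hq : P.q = 1 - th / 16 := rfl
  have hr : P.r = (l : ℝ) ^ ((1 / 4) : ℝ) := rfl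
  have hMpos : 0 < M := lt_of_lt_of_le (by positivity) hM
  have hMk : 1 ≤ M * P.kap := by
    show 1 ≤ M * kap
    calc (1 : ℝ) = 1 / kap * kap := by field_simp
      _ ≤ M * kap := mul_le_mul_of_nonneg_right hM hkap0.le
  have h0in := hin 0 (by omega)
  have h1in := hin (j0 - 1) (by omega)
  have hj : j0 - 1 + 1 = j0 := by omega
  -- the recursion
  have hrec := rec_main_M (Y := SY c hc hA (em v) j0) (P := P) (G := G) (GA := GA)
    (ch := fun k => chg (j0 - k)) hPok hin (fun k => hchg0 _) hMpos hMk (by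
      intro k hk
      have h1 := hchg (j0 - k)
      rw [hq, hr]
      show chg (j0 - k) ≤ χ * (M * ((1 - th / 16) / (l : ℝ) ^ ((1 / 4) : ℝ)) ^ (j0 - k))
      rw [← mul_assoc]
      exact h1) h0in.G0 h0in.G4 (by
      intro ω hω
      have := h1in.G0' ω hω
      rw [hj] at this
      exact this) ∅
  have hjj := (jj c T hc hT Nn chg hchg0 v).2 j0 hu hmax
  refine hjj.trans ?_
  have e1 : ∀ ω : Finset c.al, JF (fun k => alv (em v) j0 k ω) (fun k => mad (em v) j0 k ω)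
      (fun k => suc (em v) j0 k ω) (fun k => chg (j0 - k)) j0 0 =
      (SY c hc hA (em v) j0).J (fun k => chg (j0 - k)) j0 0 ω := by
    intro ω
    rw [JF_eq, sysJ_eq]
    rfl
  simp only [e1]
  have hrec' : CX (Finset.univ : Finset c.al) ∅ ∅
      (fun ω => (SY c hc hA (em v) j0).J (fun k => chg (j0 - k)) j0 0 ω) ≤
      5 * M * (P.q / P.r) ^ j0 * CX (Finset.univ : Finset c.al) ∅ ∅
        (fun ω => I ((SY c hc hA (em v) j0).alive 0 ω)) := hrec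
  refine hrec'.trans ?_
  have htop' := htop c hc cl (by rw [ca]; exact le_max_left _ _) v j0 hu hmax hJ
  have hq0 := hPok.q0
  have hr0 : 0 < P.r := by linarith [hPok.r1]
  have hfac : 0 ≤ 5 * M * (P.q / P.r) ^ j0 := by positivity
  calc 5 * M * (P.q / P.r) ^ j0 * CX (Finset.univ : Finset c.al) ∅ ∅
        (fun ω => I ((SY c hc hA (em v) j0).alive 0 ω))
      ≤ 5 * M * (P.q / P.r) ^ j0 *
        (Ct * ((c.rho j0 : ℝ) / (dd v : ℕ)) ^ ((1 / 4) : ℝ)) :=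
        mul_le_mul_of_nonneg_left htop' hfac
    _ = 5 * Ct * M * (P.q / P.r) ^ j0 * ((c.rho j0 : ℝ) / (dd v : ℕ)) ^ ((1 / 4) : ℝ) := by ring

end Pool.Agent.H89.Per
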