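import Pool.Agent.H89.Per.JBA
import Pool.Agent.H11.Lv.RST
import Pool.Agent.H58.TA.Ret

set_option autoImplicit false

/-! MP_2e6055 (helper89): leave a box and come back, in the main exploration, conditionally on the
explored bits and on arbitrary far bits (from helper58's RET). -/

namespace Pool.Agent.H89.Per

open Pool.Agent.H7.UC Pool.Agent.H74.Tri Pool.Agent.H75.Lv Pool.Agent.H93.SM Pool.Agent.H75.Perc
open Pool.Agent.H75.Per (CX CX_mono CX_congr CX_const CX_le I I_nonneg I_le_one I_true I_false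
  tower agree_mono agree_iff)
open Classical

attribute [-instance] instDecidableEqSum

variable {c : Cf}

/-! ### Fixing all bits but those of a set of sites -/

/-- the bits of the sites of `V` -/
noncomputable def bits (V : Finset Fc) : Finset c.al :=
  Finset.univ.filter (fun x => ∃ y : c.V, x = Sum.inl y ∧ em y ∈ V)

theorem mem_bits {V : Finset Fc} {y : c.V} : (Sum.inl y : c.al) ∈ bits V ↔ em y ∈ V := by
  unfold bits
  rw [Finset.mem_filter]
  constructor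
  · rintro ⟨_, z, h1, h2⟩
    rw [Sum.inl.inj h1]; exact h2
  · intro h
    exact ⟨Finset.mem_univ _, y, rfl, h⟩

theorem mem_bits' {V : Finset Fc} {x : c.al} :
    x ∈ bits V ↔ ∃ y : c.V, x = Sum.inl y ∧ em y ∈ V := by
  unfold bits
  rw [Finset.mem_filter]
  exact ⟨fun h => h.2, fun h => ⟨Finset.mem_univ _, h⟩⟩

theorem bits_mono {V W : Finset Fc} (h : W ⊆ V) : bits (c := c) W ⊆ bits V := by
  intro x hx
  obtain ⟨y, h1, h2⟩ := mem_bits'.1 hx
  exact mem_bits'.2 ⟨y, h1, h h2⟩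

theorem card_bits {V : Finset Fc} (hV : V ⊆ box c.m c.n) : (bits (c := c) V).card = V.card := by
  symm
  refine Finset.card_bij (fun f hf => (Sum.inl (toV c.m c.n f (hV hf)) : c.al)) ?_ ?_ ?_
  · intro f hf
    rw [mem_bits, em_toV]
    exact hf
  · intro f hf g hg h
    rw [← em_toV (hV hf), ← em_toV (hV hg), Sum.inl.inj h]
  · intro x hx
    obtain ⟨y, rfl, hy⟩ := mem_bits'.1 hx
    exact ⟨em y, hy, by rw [toV_em]⟩

/-- `ω` with the sites of `V` replaced by `w` -/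
noncomputable def ins (V : Finset Fc) (ω : Finset c.al) (w : Finset Fc) : Finset c.al :=
  (ω \ bits V) ∪ bits w

theorem mem_ins_out {V w : Finset Fc} (hw : w ⊆ V) {ω : Finset c.al} {x : c.al}
    (hx : x ∉ bits V) : x ∈ ins V ω w ↔ x ∈ ω := by
  unfold ins
  rw [Finset.mem_union, Finset.mem_sdiff]
  constructor
  · rintro (h | h)
    · exact h.1
    · exact absurd (bits_mono hw h) hx
  · intro h
    exact Or.inl ⟨h, hx⟩

theorem mem_ins_in {V w : Finset Fc} {ω : Finset c.al} {y : c.V} (hy : em y ∈ V) :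
    (Sum.inl y : c.al) ∈ ins V ω w ↔ em y ∈ w := by
  unfold ins
  rw [Finset.mem_union, Finset.mem_sdiff]
  constructor
  · rintro (h | h)
    · exact absurd (mem_bits.2 hy) h.2
    · exact mem_bits.1 h
  · intro h
    exact Or.inr (mem_bits.2 h)

theorem ins_agree {V w : Finset Fc} (hw : w ⊆ V) (ω : Finset c.al) :
    ins V ω w ∩ (Finset.univ \ bits V) = ω ∩ (Finset.univ \ bits V) := by
  rw [agree_iff]
  intro x hx
  exact mem_ins_out hw (Finset.mem_sdiff.1 hx).2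

theorem CX_bits {V : Finset Fc} (hV : V ⊆ box c.m c.n) (ω : Finset c.al) (F : Finset c.al → ℝ) :
    CX (Finset.univ : Finset c.al) (Finset.univ \ bits V) ω F =
      (∑ w ∈ V.powerset, F (ins V ω w)) / 2 ^ V.card := by
  unfold CX
  have hcard : ((Finset.univ : Finset c.al) \ (Finset.univ \ bits V)).card = V.card := by
    rw [Finset.sdiff_sdiff_eq_self (Finset.subset_univ _), card_bits hV]
  rw [hcard]
  congr 1
  refine Finset.sum_nbij' (fun ω' => V.filter (fun f => ∃ y : c.V, em y = f ∧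
    (Sum.inl y : c.al) ∈ ω')) (fun w => ins V ω w) ?_ ?_ ?_ ?_ ?_
  · intro ω' _
    rw [Finset.mem_powerset]
    exact Finset.filter_subset _ _
  · intro w hw
    rw [Finset.mem_powerset] at hw
    rw [Finset.mem_filter, Finset.mem_powerset]
    exact ⟨Finset.subset_univ _, ins_agree hw ω⟩
  · intro ω' hω'
    rw [Finset.mem_filter] at hω'
    have h1 := agree_iff.1 hω'.2
    ext x
    by_cases hx : x ∈ bits V
    · obtain ⟨y, rfl, hy⟩ := mem_bits'.1 hx
      rw [mem_ins_in hy, Finset.mem_filter]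
      constructor
      · rintro ⟨_, y', h2, h3⟩
        rw [← em_inj h2]; exact h3
      · intro h
        exact ⟨hy, y, rfl, h⟩
    · rw [mem_ins_out (Finset.filter_subset _ _) hx]
      exact (h1 x (Finset.mem_sdiff.2 ⟨Finset.mem_univ _, hx⟩)).symm
  · intro w hw
    rw [Finset.mem_powerset] at hw
    ext f
    rw [Finset.mem_filter]
    constructor
    · rintro ⟨h1, y, rfl, h2⟩
      exact (mem_ins_in h1).1 h2
    · intro h
      obtain ⟨y, rfl⟩ := exists_em (hV (hw h))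
      exact ⟨hw h, y, rfl, (mem_ins_in (hw h)).2 h⟩
  · intro ω' hω'
    rw [Finset.mem_filter] at hω'
    have h1 := agree_iff.1 hω'.2
    congr 1
    ext x
    by_cases hx : x ∈ bits V
    · obtain ⟨y, rfl, hy⟩ := mem_bits'.1 hx
      rw [mem_ins_in hy, Finset.mem_filter]
      constructor
      · intro h
        exact ⟨hy, y, rfl, h⟩
      · rintro ⟨_, y', h2, h3⟩
        rw [← em_inj h2]; exact h3
    · rw [mem_ins_out (Finset.filter_subset _ _) hx]
      exact h1 x (Finset.mem_sdiff.2 ⟨Finset.mem_univ _, hx⟩)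

/-- the colouring of the replaced configuration -/
theorem Om_ins {V w : Finset Fc} (hV : V ⊆ box c.m c.n) (hw : w ⊆ V) (ω : Finset c.al) :
    Om (ins V ω w) = mixc V w (Om ω) := by
  funext f
  unfold mixc
  by_cases hf : f ∈ V
  · rw [if_pos hf]
    obtain ⟨y, rfl⟩ := exists_em (hV hf)
    rw [Om_em]
    have h1 := mem_ins_in (ω := ω) (w := w) hf
    rw [← b1_iff] at h1
    by_cases h2 : em y ∈ w
    · rw [h1.2 h2]; simp [h2]
    · have h3 : b1 (ins V ω w) y = false := by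
        cases h4 : b1 (ins V ω w) y
        · rfl
        · exact absurd (h1.1 h4) h2
      rw [h3]; simp [h2]
  · rw [if_neg hf]
    by_cases hb : f ∈ box c.m c.n
    · obtain ⟨y, rfl⟩ := exists_em hb
      rw [Om_em, Om_em]
      have h1 := mem_ins_out hw (ω := ω) (x := (Sum.inl y : c.al)) (fun h => hf (mem_bits.1 h))
      rw [← b1_iff, ← b1_iff] at h1
      cases h2 : b1 (ins V ω w) y <;> cases h3 : b1 ω y <;> simp_all
    · rw [Om_out _ hb, Om_out _ hb]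

/-! ### The state at the first visit -/

theorem unx_eq (ω : Finset c.al) (t : ℕ) (z : Fc) :
    unx (box c.m c.n) (Om ω) p0 t z = comp (un (b1 ω) t) z := by
  unfold unx
  congr 1
  ext f
  rw [Finset.mem_sdiff, Pool.Agent.H75.Lv.mem_expl, mem_un]
  show _ ↔ f ∈ box c.m c.n ∧ f ∉ Rev (Om ω) p0 t
  tauto

/-- nothing of `S` is revealed at the first visit -/
theorem free_fi (hc : c.Ok) {S : Finset Fc} (hS : S ⊆ box c.m c.n) (ω : Finset c.al) :
    ∀ g ∈ S, g ∉ Rev (Om ω) p0 (fi S ω) := by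
  intro g hg hr
  obtain ⟨t', h1, h2⟩ := asked_of_rev hc (hS hg) hr
  have := Pool.Agent.H89.Per.fi_le (S := S) ⟨g, hg, h2⟩
  omega

/-- **Leave the box `Bx v R` and come back to `Bx v ρf`**, after the first visit of `S`; all bits but
those of the unexplored sites in `Bx v R` may be fixed. -/
theorem leave_return {B : ℝ} {ρf ρ1 ρ R : ℤ} {v : Fc}
    (hret : ∀ (U : Finset Fc) (col : Fc → Bool) (p : Pos), St U col → IsTip U col p →
      ph p ∈ Bx v ρ → Jn {a | a ∈ U ∧ a ∈ Bx v ρ} v (ph p) → Bx v ρ1 ⊆ U →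
      Pr (U ∩ Bx v R) (fun w => ∃ i i' f g, i < i' ∧ Ask U (mixc (U ∩ Bx v R) w col) p i f ∧
        f ∉ Bx v R ∧ Ask U (mixc (U ∩ Bx v R) w col) p i' g ∧ g ∈ Bx v ρf) ≤ B)
    (hc : c.Ok) {S S2 : Finset Fc} (hS : S ⊆ box c.m c.n) (hS1 : Bx v ρ1 ⊆ S)
    (hSρ : S ⊆ Bx v ρ) (hconn : ∀ f ∈ S, Jn (↑S : Set Fc) v f) (hv : v ∈ S)
    (hS2 : S2 ⊆ Bx v ρf) (hf1 : ρf ≤ ρ1) {ω₀ : Finset c.al} (h0 : hit S ω₀)
    {S' : Finset c.al} (hRg : Rg S ω₀ ⊆ S')
    (hS' : ∀ y : c.V, Sum.inl y ∈ S' → em y ∈ Rev (Om ω₀) p0 (fi S ω₀) ∨ em y ∉ Bx v R)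
    {F : Finset c.al → ℝ} (hF : ∀ ω', ω' ∩ S' = ω₀ ∩ S' → F ω' ≤ I (hit S2 ω' ∧
      ∃ y : c.V, em y ∉ Bx v R ∧ em y ∈ Rev (Om ω') p0 (fi S2 ω') ∧
        em y ∉ Rev (Om ω') p0 (fi S ω'))) :
    CX (Finset.univ : Finset c.al) S' ω₀ F ≤ B := by
  set t0 := fi S ω₀ with ht0
  set D := comp (un (b1 ω₀) t0) v with hD
  have hBox : ∀ f ∈ D, f ∈ box c.m c.n := fun f hf => (mem_un.1 (comp_sub _ _ hf)).1
  set V : Finset Fc := D ∩ Bx v R with hV
  have hVb : V ⊆ box c.m c.n := fun f hf => hBox f (Finset.mem_inter.1 hf).1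
  -- fix everything but the bits of `V`
  have hsub : S' ⊆ (Finset.univ : Finset c.al) \ bits V := by
    intro x hx
    rw [Finset.mem_sdiff]
    refine ⟨Finset.mem_univ _, fun hb => ?_⟩
    obtain ⟨y, rfl, hy⟩ := mem_bits'.1 hb
    obtain ⟨h1, h2⟩ := Finset.mem_inter.1 hy
    rcases hS' y hx with h3 | h3
    · exact (mem_un.1 (comp_sub _ _ h1)).2 h3
    · exact h3 h2
  have htow := tower (E := (Finset.univ : Finset c.al)) (S := S') (ω₀ := ω₀) (F := F)
    (T := fun _ => (Finset.univ : Finset c.al) \ bits V) (fun _ _ _ _ _ _ _ => rfl)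
    (fun _ _ _ => hsub)
  rw [htow]
  refine CX_le (Finset.subset_univ _) (fun ω _ hω => ?_)
  -- facts common to all configurations which agree with `ω₀` on `S'`
  have hcommon : ∀ ω' : Finset c.al, ω' ∩ S' = ω₀ ∩ S' → Pool.Agent.H75.Lv.Agr (Om ω₀) (Om ω') t0 ∧
      fi S ω' = t0 ∧ comp (un (b1 ω') t0) v = D := by
    intro ω' h
    have h1 : Pool.Agent.H75.Lv.Agr (Om ω₀) (Om ω') t0 := agr_Rg (agree_mono h hRg)
    exact ⟨h1, fi_agr hc h1, by rw [un_agr h1]⟩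
  -- the state
  have hstate : ∀ ω' : Finset c.al, ω' ∩ S' = ω₀ ∩ S' → ∃ f0, Ask (box c.m c.n) (Om ω') p0 t0 f0 ∧
      f0 ∈ S ∧ f0 ∈ unx (box c.m c.n) (Om ω') p0 t0 v ∧ v ∉ Rev (Om ω') p0 t0 := by
    intro ω' h
    obtain ⟨h1, h2, h3⟩ := hcommon ω' h
    obtain ⟨f0, hf0, ha0⟩ := fi_asks h0
    have ha : Ask (box c.m c.n) (Om ω') p0 t0 f0 := (h1.Ask _ _).2 ha0
    have hfree : ∀ g ∈ S, g ∉ Rev (Om ω') p0 t0 := by
      intro g hg
      rw [← h2]
      exact free_fi hc hS ω' g hg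
    refine ⟨f0, ha, hf0, ?_, hfree v hv⟩
    rw [unx_eq]
    have hvun : v ∈ un (b1 ω') t0 := mem_un.2 ⟨hS hv, hfree v hv⟩
    refine mem_comp.2 ⟨mem_un.2 ⟨hS hf0, hfree f0 hf0⟩, (hconn f0 hf0).mono ?_⟩
    intro g hg
    have hg' : g ∈ S := by exact_mod_cast hg
    exact_mod_cast (mem_un.2 ⟨hS hg', hfree g hg'⟩ : g ∈ un (b1 ω') t0)
  have hSD : ∀ g ∈ S, g ∈ D := by
    intro g hg
    have hfree : ∀ g ∈ S, g ∉ Rev (Om ω₀) p0 t0 := free_fi hc hS ω₀
    refine mem_comp.2 ⟨mem_un.2 ⟨hS hg, hfree g hg⟩, (hconn g hg).mono ?_⟩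
    intro a ha
    have ha' : a ∈ S := by exact_mod_cast ha
    exact_mod_cast (mem_un.2 ⟨hS ha', hfree a ha'⟩ : a ∈ un (b1 ω₀) t0)
  have hinit : ∀ ω' : Finset c.al, St (box c.m c.n) (Om ω') ∧ IsTip (box c.m c.n) (Om ω') p0 :=
    fun ω' => Pool.Agent.H11.Tri.init c.m c.n _ hc.m hc.n (ext_bc _)
  obtain ⟨hag, hfi, hDω⟩ := hcommon ω hω
  obtain ⟨f0, ha0, hf0S, hf0D, hv0⟩ := hstate ω hω
  obtain ⟨r1, r2, _, _, _⟩ := Pool.Agent.H11.Lv.rst (box c.m c.n) (Om ω) p0 (hinit ω).1 (hinit ω).2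
    t0 f0 v ha0 (hS hv) hv0 hf0D
  have hunxD : unx (box c.m c.n) (Om ω) p0 t0 v = D := by rw [unx_eq, hDω]
  rw [hunxD] at r1 r2
  set p := orb (Om ω) p0 t0 with hp
  have hph : ph p = f0 := ha0.2.1
  have hjn : Jn {a | a ∈ D ∧ a ∈ Bx v ρ} v (ph p) := by
    rw [hph]
    refine (hconn f0 hf0S).mono ?_
    intro a ha
    have ha' : a ∈ S := by exact_mod_cast ha
    exact ⟨hSD a ha', hSρ ha'⟩
  have hR := hret D (Om ω) p r1 r2 (by rw [hph]; exact hSρ hf0S) hjn (fun a ha => hSD a (hS1 ha))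
  rw [CX_bits hVb]
  refine le_trans ?_ hR
  rw [Pr_eq]
  refine div_le_div_of_nonneg_right ?_ (by positivity)
  rw [← Finset.sum_boole]
  refine Finset.sum_le_sum (fun w hw => ?_)
  rw [Finset.mem_powerset] at hw
  -- the configuration
  set ω' := ins V ω w with hω'
  have hag' : ω' ∩ S' = ω₀ ∩ S' := by
    rw [← hω]
    exact agree_mono (ins_agree hw ω) hsub
  have hF' := hF ω' hag'
  refine hF'.trans ?_
  by_cases hev : hit S2 ω' ∧ ∃ y : c.V, em y ∉ Bx v R ∧ em y ∈ Rev (Om ω') p0 (fi S2 ω') ∧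
        em y ∉ Rev (Om ω') p0 (fi S ω')
  swap
  · rw [I_false hev]
    split_ifs <;> norm_num
  rw [I_true hev]
  rw [if_pos]
  obtain ⟨hh, y, hy1, hy2, hy3⟩ := hev
  obtain ⟨hagp, hfip, hDp⟩ := hcommon ω' hag'
  rw [hfip] at hy3
  obtain ⟨g, hg, hga⟩ := fi_asks hh
  obtain ⟨t1, ht1, hya⟩ := asked_of_rev hc (em_mem y) hy2
  set t2 := fi S2 ω' with ht2
  have ht01 : t0 ≤ t1 := by
    by_contra hlt
    exact hy3 (Rev.mono (by omega) (asks_rev hya))
  obtain ⟨f0', ha0', hf0S', hf0D', hv0'⟩ := hstate ω' hag'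
  obtain ⟨_, _, _, r4, _⟩ := Pool.Agent.H11.Lv.rst (box c.m c.n) (Om ω') p0 (hinit ω').1
    (hinit ω').2 t0 f0' v ha0' (hS hv) hv0' hf0D'
  have hunxD' : unx (box c.m c.n) (Om ω') p0 t0 v = D := by rw [unx_eq, hDp]
  rw [hunxD'] at r4
  have hgD : g ∈ D := hSD g (hS1 (by
    have h1 := hS2 hg
    rw [Pool.Agent.H75.Lv.mem_Bx] at h1 ⊢
    exact ⟨h1.1.trans hf1, h1.2.trans hf1⟩))
  have e1 : t0 + (t1 - t0) = t1 := by omega
  have e2 : t0 + (t2 - t0) = t2 := by omega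
  have hya' : Ask (box c.m c.n) (Om ω') p0 (t0 + (t1 - t0)) (em y) := by rw [e1]; exact hya
  have hga' : Ask (box c.m c.n) (Om ω') p0 (t0 + (t2 - t0)) g := by rw [e2]; exact hga
  have k1 := r4 (t1 - t0) (em y) (t2 - t0) g hya' (by omega) hga' hgD
  have k2 := r4 (t2 - t0) g (t2 - t0) g hga' le_rfl hga' hgD
  have horb : orb (Om ω') p0 t0 = p := by
    have h1 : Pool.Agent.H75.Lv.Agr (Om ω) (Om ω') t0 := by
      intro f hf
      rw [hag.Rev] at hf
      rw [hagp f hf, hag f hf]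
    exact h1.orb
  rw [horb, Om_ins hVb hw] at k1 k2
  exact ⟨t1 - t0, t2 - t0, em y, g, by omega, k1, hy1, k2, hS2 hg⟩

end Pool.Agent.H89.Per
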