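import Pool.Agent.H89.Per.Tree

set_option autoImplicit false

/-! Averages of paid queries, and the rule in the format of S19243 (helper89). -/

namespace Pool.Agent.H89.Per

open Classical

variable {V : Type}

section
variable [Fintype V]

/-- Flip one coordinate. -/
noncomputable def flip (x : V) (ω : V → Bool) : V → Bool := Function.update ω x (!(ω x))

theorem flip_flip (x : V) (ω : V → Bool) : flip x (flip x ω) = ω := by
  unfold flip
  simp

theorem half_sum (x : V) (G : Bool → (V → Bool) → ℕ)
    (hG : ∀ b ω c, G b (Function.update ω x c) = G b ω) :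
    2 * ∑ ω : V → Bool, G (ω x) ω = ∑ ω : V → Bool, G true ω + ∑ ω : V → Bool, G false ω := by
  have h1 : ∑ ω : V → Bool, G (ω x) ω = ∑ ω : V → Bool, G (!(ω x)) ω := by
    have h2 : ∑ ω : V → Bool, G (ω x) ω = ∑ ω : V → Bool, G (flip x ω x) (flip x ω) := by
      refine (Finset.sum_nbij' (flip x) (flip x) ?_ ?_ ?_ ?_ ?_).symm
      · intro ω _; exact Finset.mem_univ _
      · intro ω _; exact Finset.mem_univ _
      · intro ω _; exact flip_flip x ω
      · intro ω _; exact flip_flip x ω
      · intro ω _; rfl
    rw [h2]
    refine Finset.sum_congr rfl (fun ω _ => ?_)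
    unfold flip
    rw [hG, Function.update_self]
  rw [two_mul]
  nth_rw 2 [h1]
  rw [← Finset.sum_add_distrib, ← Finset.sum_add_distrib]
  refine Finset.sum_congr rfl (fun ω _ => ?_)
  cases ω x
  · simp [add_comm]
  · simp

theorem sum_need (f : (V → Bool) → Prop) (t : DT V) : ∀ (ρ : V → Option Bool),
    ∑ ω : V → Bool, ∑ η : V → Bool, need f η t ρ (fun _ => none) ω =
      2 ^ Fintype.card V * ∑ ω : V → Bool, paid f t ρ ω := by
  have hcard : Fintype.card (V → Bool) = 2 ^ Fintype.card V := by simp
  induction t with
  | leaf => intro ρ; simp [need, paid]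
  | ask x k ih =>
    intro ρ
    rcases option_cases (ρ x) with h | ⟨b, h⟩
    · -- the paid side
      have hP : 2 * ∑ ω : V → Bool, paid f (k (ω x)) (Function.update ρ x (some (ω x))) ω =
          ∑ ω : V → Bool, paid f (k true) (Function.update ρ x (some true)) ω +
          ∑ ω : V → Bool, paid f (k false) (Function.update ρ x (some false)) ω :=
        half_sum x (fun b ω => paid f (k b) (Function.update ρ x (some b)) ω)
          (fun b ω c => paid_upd f (k b) _ ω x c (by simp))
      by_cases hr : Relevant f ρ x
      · have hN : 2 * ∑ ω : V → Bool, ∑ η : V → Bool,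
              need f η (k (ω x)) (Function.update ρ x (some (ω x))) (fun _ => none) ω =
            ∑ ω : V → Bool, ∑ η : V → Bool,
              need f η (k true) (Function.update ρ x (some true)) (fun _ => none) ω +
            ∑ ω : V → Bool, ∑ η : V → Bool,
              need f η (k false) (Function.update ρ x (some false)) (fun _ => none) ω :=
          half_sum x (fun b ω => ∑ η : V → Bool,
              need f η (k b) (Function.update ρ x (some b)) (fun _ => none) ω)
            (fun b ω c => Finset.sum_congr rfl
              (fun η _ => need_updω f η (k b) _ _ ω x c (by simp)))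
        have e1 : ∑ ω : V → Bool, ∑ η : V → Bool, need f η (DT.ask x k) ρ (fun _ => none) ω =
            (∑ ω : V → Bool, ∑ η : V → Bool, 1) + ∑ ω : V → Bool, ∑ η : V → Bool,
              need f η (k (ω x)) (Function.update ρ x (some (ω x))) (fun _ => none) ω := by
          rw [← Finset.sum_add_distrib]
          refine Finset.sum_congr rfl (fun ω _ => ?_)
          rw [← Finset.sum_add_distrib]
          refine Finset.sum_congr rfl (fun η _ => ?_)
          rw [need_rel f η h hr]
          simp
        have e2 : ∑ ω : V → Bool, paid f (DT.ask x k) ρ ω = (∑ _ω : V → Bool, 1) +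
            ∑ ω : V → Bool, paid f (k (ω x)) (Function.update ρ x (some (ω x))) ω := by
          rw [← Finset.sum_add_distrib]
          refine Finset.sum_congr rfl (fun ω _ => ?_)
          rw [paid_none f h, if_pos hr]
        have e3 : (∑ ω : V → Bool, ∑ η : V → Bool, 1) = 2 ^ Fintype.card V * ∑ _ω : V → Bool, 1 := by
          simp
        rw [e1, e2, mul_add, e3]
        congr 1
        have h4 : 2 * ∑ ω : V → Bool, ∑ η : V → Bool,
              need f η (k (ω x)) (Function.update ρ x (some (ω x))) (fun _ => none) ω =
            2 * (2 ^ Fintype.card V *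
              ∑ ω : V → Bool, paid f (k (ω x)) (Function.update ρ x (some (ω x))) ω) := by
          rw [hN, ih true, ih false, ← mul_add, ← hP]
          ring
        exact Nat.eq_of_mul_eq_mul_left (by norm_num) h4
      · have hN : 2 * ∑ ω : V → Bool, ∑ η : V → Bool,
              need f η (k (η x)) (Function.update ρ x (some (η x))) (fun _ => none) ω =
            ∑ ω : V → Bool, ∑ η : V → Bool,
              need f η (k true) (Function.update ρ x (some true)) (fun _ => none) ω +
            ∑ ω : V → Bool, ∑ η : V → Bool,
              need f η (k false) (Function.update ρ x (some false)) (fun _ => none) ω := by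
          rw [Finset.mul_sum, ← Finset.sum_add_distrib]
          refine Finset.sum_congr rfl (fun ω _ => ?_)
          exact half_sum x (fun b η =>
              need f η (k b) (Function.update ρ x (some b)) (fun _ => none) ω)
            (fun b η c => need_updη f (k b) η _ _ ω x c (by simp))
        have e1 : ∑ ω : V → Bool, ∑ η : V → Bool, need f η (DT.ask x k) ρ (fun _ => none) ω =
            ∑ ω : V → Bool, ∑ η : V → Bool,
              need f η (k (η x)) (Function.update ρ x (some (η x))) (fun _ => none) ω := by
          refine Finset.sum_congr rfl (fun ω _ => Finset.sum_congr rfl (fun η _ => ?_))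
          rw [need_irr f η h hr]
        have e2 : ∑ ω : V → Bool, paid f (DT.ask x k) ρ ω =
            ∑ ω : V → Bool, paid f (k (ω x)) (Function.update ρ x (some (ω x))) ω := by
          refine Finset.sum_congr rfl (fun ω _ => ?_)
          rw [paid_none f h, if_neg hr, zero_add]
        rw [e1, e2]
        have h4 : 2 * ∑ ω : V → Bool, ∑ η : V → Bool,
              need f η (k (η x)) (Function.update ρ x (some (η x))) (fun _ => none) ω =
            2 * (2 ^ Fintype.card V *
              ∑ ω : V → Bool, paid f (k (ω x)) (Function.update ρ x (some (ω x))) ω) := by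
          rw [hN, ih true, ih false, ← mul_add, ← hP]
          ring
        exact Nat.eq_of_mul_eq_mul_left (by norm_num) h4
    · have e1 : ∑ ω : V → Bool, ∑ η : V → Bool, need f η (DT.ask x k) ρ (fun _ => none) ω =
            ∑ ω : V → Bool, ∑ η : V → Bool, need f η (k b) ρ (fun _ => none) ω := by
        refine Finset.sum_congr rfl (fun ω _ => Finset.sum_congr rfl (fun η _ => ?_))
        rw [need_some f η h]
      have e2 : ∑ ω : V → Bool, paid f (DT.ask x k) ρ ω = ∑ ω : V → Bool, paid f (k b) ρ ω := by
        refine Finset.sum_congr rfl (fun ω _ => ?_)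
        rw [paid_some f h]
      rw [e1, e2, ih b]

/-- Some fixed auxiliary bits are at least as good as the average. -/
theorem exists_eta (f : (V → Bool) → Prop) (t : DT V) : ∃ η : V → Bool,
    ∑ ω : V → Bool, need f η t (fun _ => none) (fun _ => none) ω ≤
      ∑ ω : V → Bool, paid f t (fun _ => none) ω := by
  by_contra hc
  push_neg at hc
  have h1 : ∑ η : V → Bool, ∑ ω : V → Bool, paid f t (fun _ => none) ω <
      ∑ η : V → Bool, ∑ ω : V → Bool, need f η t (fun _ => none) (fun _ => none) ω :=
    Finset.sum_lt_sum_of_nonempty ⟨fun _ => true, Finset.mem_univ _⟩ (fun η _ => hc η)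
  rw [Finset.sum_comm (f := fun η ω => need f η t (fun _ => none) (fun _ => none) ω),
    sum_need] at h1
  simp at h1

end

/-- Number of steps before `N` at which `f` is not determined. -/
theorem card_undet [Nonempty V] {f : (V → Bool) → Prop} {t : DT V} (ht : Decides t f) (η ω : V → Bool)
    (N : ℕ) :
    ((Finset.range N).filter (fun k => ¬ Det f (st (nextOf f t η) ω k))).card ≤
      need f η t (fun _ => none) (fun _ => none) ω := by
  calc ((Finset.range N).filter (fun k => ¬ Det f (st (nextOf f t η) ω k))).card
      ≤ (Finset.range (need f η t (fun _ => none) (fun _ => none) ω)).card := by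
        refine Finset.card_le_card (fun k hk => ?_)
        rw [Finset.mem_filter] at hk
        rw [Finset.mem_range]
        by_contra hc
        exact hk.2 (det_st ht η ω k (not_lt.1 hc))
    _ = _ := Finset.card_range _

/-- `Det` at a state that agrees with `ω` in the one-sided form. -/
theorem det_iff {f : (V → Bool) → Prop} {ρ : V → Option Bool} {ω : V → Bool} (h : Agrees ρ ω) :
    Det f ρ ↔ ∀ ω' : V → Bool, Agrees ρ ω' → (f ω' ↔ f ω) := by
  constructor
  · intro hd ω' h'
    exact hd ω ω' h h'
  · intro hd ω₁ ω₂ h1 h2
    rw [hd ω₁ h1, hd ω₂ h2]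

end Pool.Agent.H89.Per
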