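import Pool.Agent.H89.Per.Exp

set_option autoImplicit false

/-! Decision trees which ask every variable at most once, counted with all their queries; from paid
queries to queries; renaming and fixing variables (helper89). -/

namespace Pool.Agent.H89.Per

open Classical

variable {V : Type}

/-- number of queries of `t` on `ω` -/
def qcount : DT V → (V → Bool) → ℕ
  | DT.leaf, _ => 0
  | DT.ask x k, ω => 1 + qcount (k (ω x)) ω

/-- `t` asks sites of `S` only, each at most once on every branch. -/
inductive Once : Finset V → DT V → Prop
  | leaf (S : Finset V) : Once S DT.leaf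
  | ask (S : Finset V) (x : V) (k : Bool → DT V) (hx : x ∈ S) (h : ∀ b, Once (S.erase x) (k b)) :
      Once S (DT.ask x k)

theorem Once.mono {S : Finset V} {t : DT V} (h : Once S t) : ∀ {S' : Finset V}, S ⊆ S' → Once S' t := by
  induction h with
  | leaf S => intro S' _; exact Once.leaf S'
  | ask S x k hx _ ih =>
    intro S' hS
    exact Once.ask S' x k (hS hx) (fun b => ih b (Finset.erase_subset_erase x hS))

theorem Once.card {S : Finset V} {t : DT V} (h : Once S t) (ω : V → Bool) : qcount t ω ≤ S.card := by
  induction h with
  | leaf S => exact Nat.zero_le _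
  | ask S x k hx _ ih =>
    have := ih (ω x)
    rw [Finset.card_erase_of_mem hx] at this
    have h1 : 0 < S.card := Finset.card_pos.2 ⟨x, hx⟩
    simp only [qcount]
    omega

/-- The number of paid queries is at most the number of queries. -/
theorem paid_le_qcount (f : (V → Bool) → Prop) (t : DT V) : ∀ (ρ : V → Option Bool) (ω : V → Bool),
    Agrees ρ ω → paid f t ρ ω ≤ qcount t ω := by
  induction t with
  | leaf => intro ρ ω _; exact le_refl _
  | ask x k ih =>
    intro ρ ω h
    rcases option_cases (ρ x) with hx | ⟨b, hx⟩
    · rw [paid_none f hx]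
      have := ih (ω x) (Function.update ρ x (some (ω x))) ω (agrees_update h x)
      simp only [qcount]
      split_ifs <;> omega
    · rw [paid_some f hx]
      have := ih b ρ ω h
      simp only [qcount]
      rw [h x b hx]
      omega

/-! ### From paid queries to queries -/

/-- The tree of a rule. -/
noncomputable def ofNext (f : (V → Bool) → Prop) (nx : (V → Option Bool) → V) :
    ℕ → (V → Option Bool) → DT V
  | 0, _ => DT.leaf
  | n + 1, σ => if Det f σ then DT.leaf
      else DT.ask (nx σ) (fun b => ofNext f nx n (Function.update σ (nx σ) (some b)))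

theorem nextOf_spec [Nonempty V] {f : (V → Bool) → Prop} {t : DT V} (ht : Decides t f)
    (η : V → Bool) {σ : V → Option Bool} {ω : V → Bool} (hσ : Agrees σ ω) (hd : ¬ Det f σ) :
    σ (nextOf f t η σ) = none ∧ need f η t (fun _ => none) σ ω =
      need f η t (fun _ => none)
        (Function.update σ (nextOf f t η σ) (some (ω (nextOf f t η σ)))) ω + 1 := by
  rcases sim_need f η t (fun _ => none) σ ω hσ with ⟨h1, _⟩ | ⟨y, h1, h2, h3⟩
  · exact absurd (det_of_sim_none ht η h1) hd
  · have hn : nextOf f t η σ = y := by
      have : nextOf f t η σ = (sim f η t (fun _ => none) σ).getD (Classical.arbitrary V) := rfl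
      rw [this, h1]; rfl
    rw [hn]
    exact ⟨h2, h3⟩

theorem ofNext_spec [Nonempty V] {f : (V → Bool) → Prop} {t : DT V} (ht : Decides t f)
    (η : V → Bool) : ∀ (n : ℕ) (σ : V → Option Bool) (ω : V → Bool), Agrees σ ω →
    need f η t (fun _ => none) σ ω ≤ n →
    qcount (ofNext f (nextOf f t η) n σ) ω ≤ need f η t (fun _ => none) σ ω ∧
    ∀ ρ : V → Option Bool, (∀ x, ρ x = none → σ x = none) → Agrees ρ ω →
      (∀ x b, σ x = some b → ρ x = some b) →
      Det f (final (ofNext f (nextOf f t η) n σ) ρ ω) := by
  intro n
  induction n with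
  | zero =>
    intro σ ω hσ hn
    have hd : Det f σ := by
      by_contra hd
      have := (nextOf_spec ht η hσ hd).2
      omega
    refine ⟨Nat.zero_le _, fun ρ _ _ hρ => ?_⟩
    exact det_mono (fun s b hs => hρ s b hs) hd
  | succ n ih =>
    intro σ ω hσ hn
    by_cases hd : Det f σ
    · unfold ofNext
      rw [if_pos hd]
      exact ⟨Nat.zero_le _, fun ρ _ _ hρ => det_mono (fun s b hs => hρ s b hs) hd⟩
    · obtain ⟨h1, h2⟩ := nextOf_spec ht η hσ hd
      unfold ofNext
      rw [if_neg hd]
      have h3 := ih (Function.update σ (nextOf f t η σ) (some (ω (nextOf f t η σ)))) ω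
        (agrees_update hσ _) (by omega)
      refine ⟨?_, ?_⟩
      · simp only [qcount]
        have := h3.1
        omega
      · intro ρ hρ1 hρ2 hρ3
        rcases option_cases (ρ (nextOf f t η σ)) with hx | ⟨b, hx⟩
        · rw [final_none hx]
          refine h3.2 _ ?_ (agrees_update hρ2 _) ?_
          · intro x hx'
            by_cases hxe : x = nextOf f t η σ
            · rw [hxe, Function.update_self] at hx'; simp at hx'
            · rw [Function.update_of_ne hxe] at hx' ⊢
              exact hρ1 x hx'
          · intro x b hxb
            by_cases hxe : x = nextOf f t η σ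
            · rw [hxe, Function.update_self] at hxb ⊢; exact hxb
            · rw [Function.update_of_ne hxe] at hxb ⊢
              exact hρ3 x b hxb
        · have hb : ω (nextOf f t η σ) = b := hρ2 _ b hx
          rw [final_some hx, ← hb]
          refine h3.2 ρ ?_ hρ2 ?_
          · intro x hx'
            by_cases hxe : x = nextOf f t η σ
            · rw [hxe, hx] at hx'; simp at hx'
            · rw [Function.update_of_ne hxe]
              exact hρ1 x hx'
          · intro x b' hxb
            by_cases hxe : x = nextOf f t η σ
            · rw [hxe, Function.update_self] at hxb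
              rw [hxe, hx, ← hb]; exact hxb
            · rw [Function.update_of_ne hxe] at hxb
              exact hρ3 x b' hxb

theorem ofNext_once [Fintype V] [Nonempty V] {f : (V → Bool) → Prop} {t : DT V} (ht : Decides t f)
    (η : V → Bool) : ∀ (n : ℕ) (σ : V → Option Bool),
    Once (Finset.univ.filter (fun x => σ x = none)) (ofNext f (nextOf f t η) n σ) := by
  intro n
  induction n with
  | zero => intro σ; exact Once.leaf _
  | succ n ih =>
    intro σ
    unfold ofNext
    by_cases hd : Det f σ
    · rw [if_pos hd]; exact Once.leaf _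
    · rw [if_neg hd]
      have h1 := (nextOf_spec ht η (agrees_over σ (fun _ => true)) hd).1
      refine Once.ask _ _ _ (by simp [h1]) (fun b => (ih _).mono ?_)
      intro x hx
      simp only [Finset.mem_filter, Finset.mem_univ, true_and, Finset.mem_erase] at hx ⊢
      by_cases hxe : x = nextOf f t η σ
      · rw [hxe, Function.update_self] at hx; simp at hx
      · rw [Function.update_of_ne hxe] at hx
        exact ⟨hxe, hx⟩

/-- **From paid queries to queries.** -/
theorem exists_once [Fintype V] [Nonempty V] {f : (V → Bool) → Prop} {t : DT V}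
    (ht : Decides t f) : ∃ t' : DT V, Decides t' f ∧ Once Finset.univ t' ∧
      avg (fun ω => (qcount t' ω : ℝ)) ≤ avg (fun ω => (paid f t (fun _ => none) ω : ℝ)) := by
  obtain ⟨η, hη⟩ := exists_eta f t
  have hcard : ∀ ω, need f η t (fun _ => none) (fun _ => none) ω ≤ Fintype.card V := by
    intro ω
    refine le_trans (need_le_card f η t _ _ ω) ?_
    refine le_trans (Finset.card_filter_le _ _) (le_of_eq ?_)
    simp
  refine ⟨ofNext f (nextOf f t η) (Fintype.card V) (fun _ => none), ?_, ?_, ?_⟩
  · intro ω
    exact (ofNext_spec ht η _ _ ω (agrees_none ω) (hcard ω)).2 _ (fun _ _ => rfl) (agrees_none ω)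
      (fun x b h => by simp at h)
  · exact (ofNext_once ht η _ _).mono (Finset.subset_univ _)
  · unfold avg
    refine div_le_div_of_nonneg_right ?_ (by positivity)
    have h1 : ∑ ω : V → Bool, (qcount (ofNext f (nextOf f t η) (Fintype.card V) (fun _ => none)) ω : ℝ) ≤
        ∑ ω : V → Bool, (need f η t (fun _ => none) (fun _ => none) ω : ℝ) :=
      Finset.sum_le_sum (fun ω _ => by
        exact_mod_cast (ofNext_spec ht η _ _ ω (agrees_none ω) (hcard ω)).1)
    refine le_trans h1 ?_
    simp only
    rw [← Nat.cast_sum, ← Nat.cast_sum, Nat.cast_le]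
    exact hη

/-! ### Fixing auxiliary variables -/

variable {A : Type}

attribute [-instance] instDecidableEqSum

/-- `f` as a function of more variables -/
def lift (f : (V → Bool) → Prop) : (V ⊕ A → Bool) → Prop := fun ω => f (fun x => ω (Sum.inl x))

/-- Fix the variables of `A`. -/
def fixA (η : A → Bool) : DT (V ⊕ A) → DT V
  | DT.leaf => DT.leaf
  | DT.ask (Sum.inl x) k => DT.ask x (fun b => fixA η (k b))
  | DT.ask (Sum.inr a) k => fixA η (k (η a))

/-- join two configurations -/
def joinC (ω : V → Bool) (η : A → Bool) : V ⊕ A → Bool := Sum.elim ω η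

theorem not_relevant_inr (f : (V → Bool) → Prop) (ρ : V ⊕ A → Option Bool) (a : A) :
    ¬ Relevant (lift f) ρ (Sum.inr a) := by
  rintro ⟨_, ω, _, h⟩
  refine h ?_
  unfold lift
  have : (fun x : V => Function.update ω (Sum.inr a) true (Sum.inl x)) =
      (fun x : V => Function.update ω (Sum.inr a) false (Sum.inl x)) := by
    funext x; simp
  rw [this]

theorem fix_spec (f : (V → Bool) → Prop) (η : A → Bool) (t : DT (V ⊕ A)) :
    ∀ (ρ : V ⊕ A → Option Bool) (σ : V → Option Bool) (ω : V → Bool),
      (∀ x, ρ (Sum.inl x) = σ x) → (∀ a b, ρ (Sum.inr a) = some b → η a = b) →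
      paid f (fixA η t) σ ω ≤ paid (lift f) t ρ (joinC ω η) ∧
      (∀ x, final t ρ (joinC ω η) (Sum.inl x) = final (fixA η t) σ ω x) := by
  induction t with
  | leaf => intro ρ σ ω h1 _; exact ⟨le_refl _, h1⟩
  | ask y k ih =>
    intro ρ σ ω h1 h2
    rcases y with x | a
    · have e1 : fixA η (DT.ask (Sum.inl x) k) = DT.ask x (fun b => fixA η (k b)) := rfl
      rw [e1]
      rcases option_cases (σ x) with hx | ⟨b, hx⟩
      · have hx' : ρ (Sum.inl x) = none := by rw [h1, hx]
        rw [paid_none f hx, paid_none (lift f) hx', final_none hx, final_none hx']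
        have hj : joinC ω η (Sum.inl x) = ω x := rfl
        rw [hj]
        have h3 := ih (ω x) (Function.update ρ (Sum.inl x) (some (ω x)))
          (Function.update σ x (some (ω x))) ω
          (by
            intro x'
            by_cases he : x' = x
            · rw [he]; simp
            · rw [Function.update_of_ne (fun e => he (Sum.inl.inj e)), Function.update_of_ne he, h1])
          (by
            intro a b hab
            rw [Function.update_of_ne (by simp)] at hab
            exact h2 a b hab)
        refine ⟨Nat.add_le_add ?_ h3.1, h3.2⟩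
        have hrel : Relevant f σ x → Relevant (lift f) ρ (Sum.inl x) := by
          rintro ⟨_, ω', h4, h5⟩
          refine ⟨hx', joinC ω' η, ?_, ?_⟩
          · intro s b hs
            rcases s with s | a
            · exact h4 s b (by rw [← h1]; exact hs)
            · exact h2 a b hs
          · have h6 : ∀ b, (fun y : V => Function.update (joinC ω' η) (Sum.inl x) b (Sum.inl y)) =
                Function.update ω' x b := by
              intro b
              funext y
              by_cases he : y = x
              · rw [he]; simp
              · rw [Function.update_of_ne (fun e => he (Sum.inl.inj e)), Function.update_of_ne he]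
                rfl
            unfold lift
            rw [h6, h6]
            exact h5
        by_cases hr : Relevant f σ x
        · rw [if_pos hr, if_pos (hrel hr)]
        · rw [if_neg hr]; exact Nat.zero_le _
      · have hx' : ρ (Sum.inl x) = some b := by rw [h1, hx]
        rw [paid_some f hx, paid_some (lift f) hx', final_some hx, final_some hx']
        exact ih b ρ σ ω h1 h2
    · have e1 : fixA η (DT.ask (Sum.inr a) k) = fixA η (k (η a)) := rfl
      rw [e1]
      rcases option_cases (ρ (Sum.inr a)) with hx | ⟨b, hx⟩
      · rw [paid_none (lift f) hx, final_none hx, if_neg (not_relevant_inr f ρ a), zero_add]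
        have hj : joinC ω η (Sum.inr a) = η a := rfl
        rw [hj]
        refine ih (η a) _ σ ω ?_ ?_
        · intro x
          rw [Function.update_of_ne (by simp)]
          exact h1 x
        · intro a' b hab
          by_cases he : a' = a
          · rw [he, Function.update_self] at hab
            rw [he]
            exact Option.some.inj hab
          · rw [Function.update_of_ne (fun e => he (Sum.inr.inj e))] at hab
            exact h2 a' b hab
      · rw [paid_some (lift f) hx, final_some hx]
        have hb : η a = b := h2 a b hx
        rw [hb]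
        exact ih b ρ σ ω h1 h2

/-- Average over the joined configurations. -/
theorem avg_join [Fintype V] [Fintype A] (F : (V ⊕ A → Bool) → ℝ) :
    avg F = (∑ η : A → Bool, avg (fun ω : V → Bool => F (joinC ω η))) / 2 ^ Fintype.card A := by
  unfold avg
  have h1 : ∑ ω : V ⊕ A → Bool, F ω = ∑ η : A → Bool, ∑ ω : V → Bool, F (joinC ω η) := by
    rw [Finset.sum_comm, ← Finset.sum_product']
    refine (Finset.sum_nbij' (fun p : (V → Bool) × (A → Bool) => joinC p.1 p.2)
      (fun ω => (fun x => ω (Sum.inl x), fun a => ω (Sum.inr a))) ?_ ?_ ?_ ?_ ?_).symm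
    · intro p _; simp
    · intro ω _; simp
    · intro p _; rfl
    · intro ω _; funext s; rcases s with s | s <;> rfl
    · intro p _; rfl
  rw [h1, Fintype.card_sum, pow_add, ← Finset.sum_div, div_div]

theorem exists_fix [Fintype V] [Fintype A] {f : (V → Bool) → Prop} {t : DT (V ⊕ A)}
    (ht : Decides t (lift f)) : ∃ t' : DT V, Decides t' f ∧
      avg (fun ω => (paid f t' (fun _ => none) ω : ℝ)) ≤
        avg (fun ω => (paid (lift f) t (fun _ => none) ω : ℝ)) := by
  have hex : ∃ η : A → Bool, avg (fun ω : V → Bool => (paid (lift f) t (fun _ => none) (joinC ω η) : ℝ)) ≤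
      avg (fun ω => (paid (lift f) t (fun _ => none) ω : ℝ)) := by
    by_contra hc
    simp only [not_exists, not_le] at hc
    rw [avg_join] at hc
    have h1 := Finset.sum_lt_sum_of_nonempty (s := (Finset.univ : Finset (A → Bool)))
      ⟨fun _ => true, Finset.mem_univ _⟩ (fun η _ => hc η)
    rw [Finset.sum_const, nsmul_eq_mul] at h1
    have h2 : ((Finset.univ : Finset (A → Bool)).card : ℝ) = 2 ^ Fintype.card A := by simp
    rw [h2, mul_div_cancel₀ _ (by positivity)] at h1
    exact lt_irrefl _ h1
  obtain ⟨η, hη⟩ := hex
  refine ⟨fixA η t, ?_, le_trans (avg_le (fun ω => ?_)) hη⟩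
  · intro ω ω1 ω2 h1 h2
    have h3 := (fix_spec f η t (fun _ => none) (fun _ => none) ω (fun _ => rfl)
      (fun a b h => by simp at h)).2
    have h4 := ht (joinC ω η)
    have hag : ∀ ω' : V → Bool, Agrees (final (fixA η t) (fun _ => none) ω) ω' →
        ∃ η' : A → Bool, Agrees (final t (fun _ => none) (joinC ω η)) (joinC ω' η') := by
      intro ω' h
      refine ⟨fun a => (final t (fun _ => none) (joinC ω η) (Sum.inr a)).getD true, ?_⟩
      intro s b hs
      rcases s with s | a
      · exact h s b (by rw [← h3]; exact hs)
      · show (final t (fun _ => none) (joinC ω η) (Sum.inr a)).getD true = b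
        rw [hs]; rfl
    obtain ⟨η1, e1⟩ := hag ω1 h1
    obtain ⟨η2, e2⟩ := hag ω2 h2
    exact h4 _ _ e1 e2
  · exact_mod_cast (fix_spec f η t (fun _ => none) (fun _ => none) ω (fun _ => rfl)
      (fun a b h => by simp at h)).1

end Pool.Agent.H89.Per
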