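import Pool.Agent.H89.Per.Last
import Pool.Agent.H89.Per.LabA

set_option autoImplicit false

/-! MP_2e6055 (helper89): the numerics of the induction over the sizes. -/

namespace Pool.Agent.H89.Per

theorem pow_rpow' {l : ℝ} (hl : 0 < l) (e : ℝ) (j : ℕ) : (l ^ e) ^ j = (l ^ j) ^ e := by
  rw [← Real.rpow_natCast (l ^ e) j, ← Real.rpow_natCast l j, ← Real.rpow_mul hl.le,
    ← Real.rpow_mul hl.le, mul_comm]

/-- the bound of the cost of one site in terms of its distance to the outside -/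
theorem site_num {C1 M q ε l R0 D d : ℝ} {j : ℕ} (hC : 0 ≤ C1) (hM : 0 ≤ M) (hl : 1 < l)
    (hq : l ^ (-ε) = q) (hq2 : 1 / 2 ≤ q) (hε : 0 ≤ ε) (hR : 0 < R0) (hRD : R0 ≤ D) (hd : 0 < d)
    (hdD : d ≤ D * l ^ (j + 1)) :
    C1 * M * (q / l ^ ((1 / 4) : ℝ)) ^ j * ((R0 * l ^ j) / d) ^ ((1 / 4) : ℝ) ≤
      2 * C1 * M * D ^ (1 / 4 + ε) * d ^ (-(1 / 4 + ε)) := by
  have hl0 : 0 < l := by linarith
  set x : ℝ := l ^ j with hx
  have hx0 : 0 < x := by positivity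
  have hD : 0 < D := by linarith
  have e1 : (q / l ^ ((1 / 4) : ℝ)) ^ j = x ^ (-ε) / x ^ ((1 / 4) : ℝ) := by
    rw [div_pow, ← hq, pow_rpow' hl0, pow_rpow' hl0]
  have e2 : ((R0 * x) / d) ^ ((1 / 4) : ℝ) =
      R0 ^ ((1 / 4) : ℝ) * x ^ ((1 / 4) : ℝ) * d ^ (-(1 / 4) : ℝ) := by
    rw [Real.div_rpow (by positivity) hd.le, Real.mul_rpow hR.le hx0.le,
      Real.rpow_neg hd.le, div_eq_mul_inv]
  have hx4 : x ^ ((1 / 4) : ℝ) ≠ 0 := (Real.rpow_pos_of_pos hx0 _).ne'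
  have e3 : C1 * M * (q / l ^ ((1 / 4) : ℝ)) ^ j * ((R0 * x) / d) ^ ((1 / 4) : ℝ) =
      C1 * M * (x ^ (-ε) * (R0 ^ ((1 / 4) : ℝ) * d ^ (-(1 / 4) : ℝ))) := by
    rw [e1, e2]
    field_simp
  have e4 : x ^ (-ε) ≤ 2 * D ^ ε * d ^ (-ε) := by
    have h1 : d ^ ε ≤ D ^ ε * (l ^ ε * x ^ ε) := by
      calc d ^ ε ≤ (D * l ^ (j + 1)) ^ ε := Real.rpow_le_rpow hd.le hdD hε
        _ = D ^ ε * (l ^ ε * x ^ ε) := by
            rw [pow_succ, Real.mul_rpow hD.le (by positivity), Real.mul_rpow (by positivity) hl0.le,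
              ← hx]
            ring
    have h2 : l ^ ε ≤ 2 := by
      have h3 : l ^ ε = q⁻¹ := by
        rw [← hq, Real.rpow_neg hl0.le, inv_inv]
      rw [h3]
      rw [inv_le_comm₀ (by linarith) (by norm_num)]
      linarith
    have hdε : 0 < d ^ ε := Real.rpow_pos_of_pos hd _
    have hxε : 0 < x ^ ε := Real.rpow_pos_of_pos hx0 _
    have hDε : 0 < D ^ ε := Real.rpow_pos_of_pos hD _
    rw [Real.rpow_neg hx0.le, Real.rpow_neg hd.le]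
    rw [← div_eq_mul_inv, inv_eq_one_div, div_le_div_iff₀ hxε hdε, one_mul]
    calc d ^ ε ≤ D ^ ε * (l ^ ε * x ^ ε) := h1
      _ ≤ D ^ ε * (2 * x ^ ε) := by gcongr
      _ = 2 * D ^ ε * x ^ ε := by ring
  have e5 : R0 ^ ((1 / 4) : ℝ) ≤ D ^ ((1 / 4) : ℝ) := Real.rpow_le_rpow hR.le hRD (by norm_num)
  rw [e3]
  have hd4 : 0 < d ^ (-(1 / 4) : ℝ) := Real.rpow_pos_of_pos hd _
  have hxn : 0 < x ^ (-ε) := Real.rpow_pos_of_pos hx0 _
  calc C1 * M * (x ^ (-ε) * (R0 ^ ((1 / 4) : ℝ) * d ^ (-(1 / 4) : ℝ)))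
      ≤ C1 * M * ((2 * D ^ ε * d ^ (-ε)) * (D ^ ((1 / 4) : ℝ) * d ^ (-(1 / 4) : ℝ))) := by
        gcongr
    _ = 2 * C1 * M * D ^ (1 / 4 + ε) * d ^ (-(1 / 4 + ε)) := by
        rw [Real.rpow_add hD, neg_add, Real.rpow_add hd]
        ring

/-- the charges -/
theorem charge_num {C1 M M' q ε l a u h Nr χ : ℝ} {j : ℕ} (hC : 0 < C1) (hM : 0 ≤ M) (hl : 1 < l)
    (hq : l ^ (-ε) = q) (hε0 : 0 ≤ ε) (hε : ε ≤ 1 / 4) (ha : 1 ≤ a) (hu : u = a * l ^ j)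
    (hN : 1 ≤ Nr) (hh : 1 ≤ h) (hχ : 0 < χ)
    (hM' : M' = M / (16 * C1 * (20 * Nr * h * a) ^ (1 / 4 + ε)))
    (hbig : 10000000 * C1 * Nr ≤ χ * h) :
    32 * (M * (6 * u + 1) ^ ((7 : ℝ) / 4 - ε)) ≤
      (h * u / 4) ^ 2 * (χ * M' * (q / l ^ ((1 / 4) : ℝ)) ^ j) := by
  have hl0 : 0 < l := by linarith
  set x : ℝ := l ^ j with hx
  have hx1 : 1 ≤ x := one_le_pow₀ hl.le
  have hx0 : 0 < x := by linarith
  have ha0 : 0 < a := by linarith
  have hh0 : 0 < h := by linarith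
  have hN0 : 0 < Nr := by linarith
  have hu1 : 1 ≤ u := by rw [hu]; nlinarith
  have hu0 : 0 < u := by linarith
  have e1 : (q / l ^ ((1 / 4) : ℝ)) ^ j = x ^ (-(1 / 4 + ε)) := by
    rw [div_pow, ← hq, pow_rpow' hl0, pow_rpow' hl0, ← hx, neg_add, Real.rpow_add hx0,
      Real.rpow_neg hx0.le (1 / 4), div_eq_mul_inv, mul_comm]
  have e2 : x ^ (-(1 / 4 + ε)) = a ^ (1 / 4 + ε) * u ^ (-(1 / 4 + ε)) := by
    rw [hu, Real.mul_rpow ha0.le hx0.le, Real.rpow_neg ha0.le (1 / 4 + ε), ← mul_assoc,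
      mul_inv_cancel₀ (Real.rpow_pos_of_pos ha0 _).ne', one_mul]
  have e3 : (6 * u + 1) ^ ((7 : ℝ) / 4 - ε) ≤ 49 * (u ^ 2 * u ^ (-(1 / 4 + ε))) := by
    calc (6 * u + 1) ^ ((7 : ℝ) / 4 - ε) ≤ (7 * u) ^ ((7 : ℝ) / 4 - ε) :=
          Real.rpow_le_rpow (by positivity) (by linarith) (by linarith)
      _ = 7 ^ ((7 : ℝ) / 4 - ε) * u ^ ((7 : ℝ) / 4 - ε) := Real.mul_rpow (by norm_num) hu0.le
      _ ≤ 49 * u ^ ((7 : ℝ) / 4 - ε) := by
          refine mul_le_mul_of_nonneg_right ?_ (by positivity)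
          calc (7 : ℝ) ^ ((7 : ℝ) / 4 - ε) ≤ 7 ^ (2 : ℝ) :=
                Real.rpow_le_rpow_of_exponent_le (by norm_num) (by linarith)
            _ = 49 := by norm_num
      _ = 49 * (u ^ 2 * u ^ (-(1 / 4 + ε))) := by
          rw [← Real.rpow_natCast u 2, ← Real.rpow_add hu0]
          congr 2
          push_cast
          ring
  set s : ℝ := 1 / 4 + ε with hs
  have hB : 0 < (20 * Nr * h * a) ^ s := Real.rpow_pos_of_pos (by positivity) _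
  have e4 : (20 * Nr * h * a) ^ s = (20 * Nr * h) ^ s * a ^ s :=
    Real.mul_rpow (by positivity) ha0.le
  have hA : 0 < (20 * Nr * h) ^ s := Real.rpow_pos_of_pos (by positivity) _
  have has : 0 < a ^ s := Real.rpow_pos_of_pos ha0 _
  have e5 : (20 * Nr * h) ^ s ≤ 20 * Nr * h := by
    calc (20 * Nr * h) ^ s ≤ (20 * Nr * h) ^ (1 : ℝ) :=
          Real.rpow_le_rpow_of_exponent_le (by nlinarith) (by rw [hs]; linarith)
      _ = 20 * Nr * h := Real.rpow_one _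
  have hus : 0 < u ^ (-s) := Real.rpow_pos_of_pos hu0 _
  rw [e1, e2]
  have e6 : (h * u / 4) ^ 2 * (χ * M' * (a ^ s * u ^ (-s))) =
      M * (u ^ 2 * u ^ (-s)) * (h ^ 2 * χ / (256 * C1 * (20 * Nr * h) ^ s)) := by
    rw [hM', e4]
    field_simp
    ring
  rw [e6]
  have e7 : (1568 : ℝ) ≤ h ^ 2 * χ / (256 * C1 * (20 * Nr * h) ^ s) := by
    rw [le_div_iff₀ (by positivity)]
    calc 1568 * (256 * C1 * (20 * Nr * h) ^ s) ≤ 1568 * (256 * C1 * (20 * Nr * h)) := by gcongr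
      _ ≤ (10000000 * C1 * Nr) * h := by nlinarith [mul_pos (mul_pos hC hN0) hh0]
      _ ≤ (χ * h) * h := by gcongr
      _ = h ^ 2 * χ := by ring
  calc 32 * (M * (6 * u + 1) ^ ((7 : ℝ) / 4 - ε)) ≤ 32 * (M * (49 * (u ^ 2 * u ^ (-s)))) := by gcongr
    _ = M * (u ^ 2 * u ^ (-s)) * 1568 := by ring
    _ ≤ M * (u ^ 2 * u ^ (-s)) * (h ^ 2 * χ / (256 * C1 * (20 * Nr * h) ^ s)) := by gcongr

/-- the exponent -/
theorem exists_eps {q l : ℝ} (hq : 1 / 2 ≤ q) (hq1 : q < 1) (hl : 16 ≤ l) :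
    ∃ ε : ℝ, 0 < ε ∧ ε ≤ 1 / 4 ∧ l ^ (-ε) = q := by
  have hl0 : 0 < l := by linarith
  have hq0 : 0 < q := by linarith
  have hlog : 0 < Real.log l := Real.log_pos (by linarith)
  have hlq : Real.log q < 0 := Real.log_neg hq0 hq1
  refine ⟨-Real.log q / Real.log l, div_pos (by linarith) hlog, ?_, ?_⟩
  · rw [div_le_iff₀ hlog]
    have h1 : Real.log (1 / 2) ≤ Real.log q := Real.log_le_log (by norm_num) hq
    have h2 : Real.log 16 ≤ Real.log l := Real.log_le_log (by norm_num) hl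
    have h3 : Real.log 16 = 4 * Real.log 2 := by
      rw [show (16 : ℝ) = 2 ^ (4 : ℕ) by norm_num, Real.log_pow]
      push_cast
      ring
    have h4 : Real.log (1 / 2) = - Real.log 2 := by
      rw [one_div, Real.log_inv]
    linarith
  · rw [Real.rpow_def_of_pos hl0]
    have : Real.log l * -(-Real.log q / Real.log l) = Real.log q := by
      field_simp
    rw [this, Real.exp_log hq0]

end Pool.Agent.H89.Per
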