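import Pool.Agent.H89.Per.Top0
import Pool.Agent.H89.Per.Size

set_option autoImplicit false

/-! MP_2e6055 (helper89), TOP0: the probability that the exploration of the box comes near a site is at
most a constant times the fourth root of the ratio of the distances. -/

namespace Pool.Agent.H89.Per

open Pool.Agent.H7.UC Pool.Agent.H74.Tri Pool.Agent.H75.Lv Pool.Agent.H93.SM
open Pool.Agent.H75.Per (CX CX_mono CX_const I I_nonneg I_le_one)
open Classical

attribute [-instance] instDecidableEqSum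

variable {c : Cf}

/-- the Green function of the whole box -/
theorem gv_le {U : Finset Fc} {col : Fc → Bool} {z : Fc} (hU : IsDom U) (hz : z ∈ U) :
    dst U z ^ ((1 / 4) : ℝ) * gv U col z ≤ 1 := by
  obtain ⟨h1, h2, _⟩ := Pool.Agent.H21.SM.crad_bd Pool.Agent.H84.SM.ch hU hz
  have hd : 0 < dst U z := by linarith
  have hcr : 0 < crad U z := by linarith
  have s0 := Pool.Agent.H21.SM.sn_nonneg U col z
  have s1 := Pool.Agent.H21.SM.sn_le_one U col z
  unfold gv
  have h3 : crad U z ^ (-(1 / 4) : ℝ) ≤ dst U z ^ (-(1 / 4) : ℝ) :=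
    Real.rpow_le_rpow_of_nonpos hd h2 (by norm_num)
  have h4 : sn U col z ^ ((1 / 3) : ℝ) ≤ 1 := Real.rpow_le_one s0 s1 (by norm_num)
  have h5 : dst U z ^ ((1 / 4) : ℝ) * dst U z ^ (-(1 / 4) : ℝ) = 1 := by
    rw [← Real.rpow_add hd, add_neg_cancel, Real.rpow_zero]
  calc dst U z ^ ((1 / 4) : ℝ) * (crad U z ^ (-(1 / 4) : ℝ) * sn U col z ^ ((1 / 3) : ℝ))
      ≤ dst U z ^ ((1 / 4) : ℝ) * (dst U z ^ (-(1 / 4) : ℝ) * 1) := by gcongr
    _ = 1 := by rw [mul_one, h5]

/-- a site at distance `d` from the outside: the box around it -/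
theorem Bx_dd (v : c.V) : Bx (em v) ((dd v : ℤ) - 1) ⊆ box c.m c.n := by
  intro f hf
  rw [mem_Bx, abs_le, abs_le] at hf
  rw [mem_box']
  have e1 : (em v).1 = (v.1.val : ℤ) := rfl
  have e2 : (em v).2 = (v.2.val : ℤ) := rfl
  have hv1 := v.1.isLt
  have hv2 := v.2.isLt
  unfold dd at hf
  omega

/-- the distance of a site is at most its lattice distance -/
theorem dst_dd (v : c.V) : dst (box c.m c.n) (em v) ≤ 2 * (dd v : ℕ) := by
  have hv1 := v.1.isLt
  have hv2 := v.2.isLt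
  have key : ∃ g : Fc, g ∉ box c.m c.n ∧ |g.1 - (em v).1| ≤ (dd v : ℤ) ∧
      |g.2 - (em v).2| ≤ (dd v : ℤ) := by
    have e1 : (em v).1 = (v.1.val : ℤ) := rfl
    have e2 : (em v).2 = (v.2.val : ℤ) := rfl
    have h5 : dd v = v.1.val + 1 ∨ dd v = c.m - v.1.val ∨ dd v = v.2.val + 1 ∨
        dd v = c.n - v.2.val := by
      unfold dd
      omega
    rcases h5 with h | h | h | h
    · refine ⟨(-1, (em v).2), ?_, ?_, ?_⟩
      · rw [mem_box']; simp
      · simp only; rw [abs_le]; omega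
      · simp
    · refine ⟨((c.m : ℤ), (em v).2), ?_, ?_, ?_⟩
      · rw [mem_box']; simp
      · simp only; rw [abs_le]; omega
      · simp
    · refine ⟨((em v).1, -1), ?_, ?_, ?_⟩
      · rw [mem_box']; simp
      · simp
      · simp only; rw [abs_le]; omega
    · refine ⟨((em v).1, (c.n : ℤ)), ?_, ?_, ?_⟩
      · rw [mem_box']; simp
      · simp
      · simp only; rw [abs_le]; omega
  obtain ⟨g, h1, h2, h3⟩ := key
  have := dst_le_of h1 h2 h3
  exact_mod_cast this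

theorem exists_two_pow {x : ℝ} (hx : 1 ≤ x) : ∃ i : ℕ, (2 : ℝ) ^ i ≤ x ∧ x < 2 ^ (i + 1) :=
  exists_nat_pow_near hx (by norm_num)

/-- **TOP0.** -/
theorem top0 (hOS : OS') : ∃ C : ℝ, 0 < C ∧ ∀ l : ℕ, ∃ a0 : ℕ, ∀ c : Cf, c.Ok → c.l = l →
    a0 ≤ c.a → ∀ (v : c.V) (j0 : ℕ), c.use j0 (em v) → (∀ j, c.use j (em v) → j ≤ j0) →
    j0 < c.J → CX (Finset.univ : Finset c.al) ∅ ∅ (fun ω => I (alv (em v) j0 0 ω)) ≤
      C * ((c.rho j0 : ℝ) / (dd v : ℕ)) ^ ((1 / 4) : ℝ) := by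
  obtain ⟨C0, hOS⟩ := hOS
  refine ⟨7 + 6 * |C0|, by positivity, fun l => ?_⟩
  have hK : ∀ i : ℕ, ∃ K : ℝ, 0 < K ∧ ∀ ρ : ℝ, K ≤ ρ →
      ∀ (U : Finset Fc) (col : Fc → Bool) (z : Fc), St U col → z ∈ U → ρ / 2 ≤ dst U z →
      dst U z ≤ 2 * ρ →
      EV z (fun U' _ _ => dst U' z < ρ / (100 * 2 ^ i)) (fun U' _ _ => by
        classical exact if dst U' z < ρ / (100 * 2 ^ i) then 1 else 0) U.card U col [] ≤
      C0 * (100 * 2 ^ i : ℝ) ^ (-(1 / 4) : ℝ) * (ρ ^ ((1 / 4) : ℝ) * gv U col z + 1) := by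
    intro i
    have h1 : (1 : ℝ) ≤ 2 ^ i := one_le_pow₀ (by norm_num)
    exact hOS (100 * 2 ^ i) (by linarith) 1 one_pos
  choose K hK0 hK using hK
  obtain ⟨a0, ha0⟩ := exists_nat_ge (∑ i ∈ Finset.range (l + 1), K i)
  refine ⟨a0, fun c hc hl ha v j0 hu hmax hJ => ?_⟩
  obtain ⟨A, B, eA, eB, a1, a2, a3, a4, a5, a6⟩ := scale_num hc j0
  set ρ : ℤ := c.rho j0 with hρ
  have hl0 : (1 : ℝ) ≤ l := by
    rw [← hl]
    have h1 := un_lt hc (Nat.lt_succ_self 0)
    have h2 : 1 ≤ c.l := by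
      by_contra hcon
      have h3 : c.l = 0 := by omega
      have h4 : c.un (0 + 1) = 0 := by unfold Cf.un; rw [h3]; simp
      have h5 := (scale_num hc 1)
      obtain ⟨_, _, _, _, _, h6, _⟩ := h5
      simp only [zero_add] at h4
      rw [h4] at h6
      norm_num at h6
    exact_mod_cast h2
  have hρ0 : 12800 ≤ ρ := by rw [a6]; omega
  -- the distances
  have hnear : (dd v : ℤ) ≤ 9 * c.rho (j0 + 1) + c.hs (j0 + 1) :=
    dd_le hc (by omega) (by omega) (fun h => by have := hmax _ h; omega)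
  have hlρ : c.rho (j0 + 1) = l * ρ := by
    rw [hρ, ← hl]
    unfold Cf.rho Cf.un
    push_cast
    ring
  have hfar : 8 * ρ + 1 ≤ (dd v : ℤ) := by
    have n1 := sq_near hc j0 (em v)
    rw [a5] at n1
    rw [abs_le, abs_le] at n1
    have hb : ∀ f : Fc, |f.1 - (em v).1| ≤ 8 * ρ → |f.2 - (em v).2| ≤ 8 * ρ →
        f ∈ box c.m c.n := by
      intro f h1 h2
      refine hu.2.2 (mem_Bx.2 ?_)
      rw [abs_le] at h1 h2
      rw [abs_le, abs_le, ← hρ]
      omega
    have e1 : (em v).1 = (v.1.val : ℤ) := rfl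
    have e2 : (em v).2 = (v.2.val : ℤ) := rfl
    have z0 : |(em v).1 - (em v).1| ≤ 8 * ρ := by simp; omega
    have z0' : |(em v).2 - (em v).2| ≤ 8 * ρ := by simp; omega
    have b1 := hb ((em v).1 - 8 * ρ, (em v).2) (by simp only; rw [abs_le]; omega) z0'
    have b2 := hb ((em v).1 + 8 * ρ, (em v).2) (by simp only; rw [abs_le]; omega) z0'
    have b3 := hb ((em v).1, (em v).2 - 8 * ρ) z0 (by simp only; rw [abs_le]; omega)
    have b4 := hb ((em v).1, (em v).2 + 8 * ρ) z0 (by simp only; rw [abs_le]; omega)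
    rw [mem_box'] at b1 b2 b3 b4
    simp only at b1 b2 b3 b4
    have hv1 := v.1.isLt
    have hv2 := v.2.isLt
    unfold dd
    omega
  have hρr : (12800 : ℝ) ≤ ρ := by exact_mod_cast hρ0
  set d : ℝ := ((dd v : ℕ) : ℝ) with hd
  have hd8 : 8 * (ρ : ℝ) + 1 ≤ d := by rw [hd]; exact_mod_cast hfar
  have hdl : d ≤ 10 * l * ρ := by
    have h1 : c.hs (j0 + 1) ≤ c.rho (j0 + 1) := by
      obtain ⟨A', B', _, _, _, _, b3, b4, b5, b6⟩ := scale_num hc (j0 + 1)
      rw [b5, b6]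
      omega
    have h2 : (dd v : ℤ) ≤ 10 * (l * ρ) := by rw [← hlρ]; omega
    rw [hd]
    have h3 : ((dd v : ℤ) : ℝ) ≤ ((10 * (l * ρ) : ℤ) : ℝ) := by exact_mod_cast h2
    push_cast at h3
    linarith
  have hd0 : 0 < d := by linarith
  set D : ℝ := dst (box c.m c.n) (em v) with hD
  have hD4 : d / 4 ≤ D := by
    have h1 := Pool.Agent.H12.Inst.dst_ge_box (s := (dd v : ℤ) - 1) (by omega) (Bx_dd v)
    push_cast at h1
    rw [← hd] at h1
    rw [hD]
    linarith
  have hD2 : D ≤ 2 * d := by rw [hD, hd]; exact dst_dd v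
  have hBρ : Bx (em v) ρ ⊆ box c.m c.n := by
    intro f hf
    refine Bx_dd v ?_
    rw [mem_Bx] at hf ⊢
    exact ⟨hf.1.trans (by omega), hf.2.trans (by omega)⟩
  have hx0 : 0 < (ρ : ℝ) / d := by positivity
  have hcx : ∀ P : Finset c.al → Prop, CX (Finset.univ : Finset c.al) ∅ ∅ (fun ω => I (P ω)) ≤ 1 := by
    intro P
    refine (CX_mono (G := fun _ => 1) (fun ω _ _ => I_le_one _)).trans (le_of_eq ?_)
    exact CX_const (Finset.empty_subset _) 1
  have habs : 0 ≤ |C0| := abs_nonneg _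
  have hp0 : 0 ≤ ((ρ : ℝ) / d) ^ ((1 / 4) : ℝ) := by positivity
  set R : ℝ := 3 * ρ with hR
  have hR0 : 0 < R := by rw [hR]; positivity
  by_cases hcase : D ≤ 200 * R
  · -- the trivial bound
    refine (hcx _).trans ?_
    have h1 : (1 : ℝ) / 2401 ≤ (ρ : ℝ) / d := by
      rw [div_le_div_iff₀ (by norm_num) hd0]
      rw [hR] at hcase
      linarith
    have h2 : (1 : ℝ) / 7 ≤ ((ρ : ℝ) / d) ^ ((1 / 4) : ℝ) := by
      calc (1 : ℝ) / 7 = ((1 : ℝ) / 2401) ^ ((1 / 4) : ℝ) := by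
            rw [show (1 : ℝ) / 2401 = (1 / 7) ^ (4 : ℝ) by norm_num,
              ← Real.rpow_mul (by norm_num)]
            norm_num
        _ ≤ _ := Real.rpow_le_rpow (by norm_num) h1 (by norm_num)
    nlinarith
  · push Not at hcase
    obtain ⟨i, hi1, hi2⟩ := exists_two_pow (x := D / (101 * R)) (by
      rw [le_div_iff₀ (by positivity)]
      linarith)
    rw [le_div_iff₀ (by positivity)] at hi1
    rw [div_lt_iff₀ (by positivity)] at hi2
    have h2i : (1 : ℝ) ≤ 2 ^ i := one_le_pow₀ (by norm_num)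
    -- the number of ratios is bounded
    have hil : i ∈ Finset.range (l + 1) := by
      rw [Finset.mem_range]
      have h1 : (2 : ℝ) ^ i * (101 * R) ≤ 2 * (10 * l * ρ) := hi1.trans (by linarith)
      have h2 : (2 : ℝ) ^ i ≤ l := by
        rw [hR] at h1
        by_contra hcon
        push Not at hcon
        have h3 : (0 : ℝ) < ρ := by linarith
        have h4 : (l : ℝ) * (101 * (3 * ρ)) < 2 ^ i * (101 * (3 * ρ)) :=
          mul_lt_mul_of_pos_right hcon (by positivity)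
        have h5 : (0 : ℝ) < l * ρ := by positivity
        nlinarith
      have h3 : ((2 ^ i : ℕ) : ℝ) ≤ l := by push_cast; exact h2
      have h4 : 2 ^ i ≤ l := by exact_mod_cast h3
      have h5 : i < 2 ^ i := Nat.lt_two_pow_self
      omega
    have hKi : K i ≤ D := by
      have h1 : K i ≤ ∑ i ∈ Finset.range (l + 1), K i :=
        Finset.single_le_sum (f := K) (fun j _ => (hK0 j).le) hil
      have h2 : (a0 : ℝ) ≤ c.a := by exact_mod_cast ha
      have h3 : (c.a : ℝ) ≤ c.un j0 := by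
        have h4 : c.a ≤ c.un j0 := by
          unfold Cf.un
          refine Nat.le_mul_of_pos_right _ (pow_pos ?_ _)
          have : (1 : ℝ) ≤ c.l := by rw [hl]; exact hl0
          exact_mod_cast this
        exact_mod_cast h4
      have h4 : (c.un j0 : ℝ) ≤ ρ := by
        have h5 : (c.un j0 : ℤ) ≤ ρ := by rw [a6]; omega
        exact_mod_cast h5
      linarith
    have hz : em v ∈ box c.m c.n := em_mem v
    have hinit := Pool.Agent.H11.Tri.init c.m c.n
      (ext c.m c.n (cf (Sum.inl : c.V → c.al) ∅)) hc.m hc.n (ext_bc _)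
    have h1 := hK i D hKi (box c.m c.n) (ext c.m c.n (cf (Sum.inl : c.V → c.al) ∅)) (em v)
      hinit.1 hz (by linarith) (by linarith)
    have h2 : 2 * ((ρ : ℝ) + 1) < D / (100 * 2 ^ i) := by
      rw [lt_div_iff₀ (by positivity)]
      rw [hR] at hi1
      nlinarith
    have h3 := visit_ev hc (z := em v) (ρ := ρ) (by omega) hBρ h2
    have h4 : CX (Finset.univ : Finset c.al) ∅ ∅ (fun ω => I (alv (em v) j0 0 ω)) ≤
        C0 * (100 * 2 ^ i : ℝ) ^ (-(1 / 4) : ℝ) * (D ^ ((1 / 4) : ℝ) *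
          gv (box c.m c.n) (ext c.m c.n (cf (Sum.inl : c.V → c.al) ∅)) (em v) + 1) := by
      refine le_trans h3 ?_
      exact h1
    refine h4.trans ?_
    have h5 := gv_le (col := ext c.m c.n (cf (Sum.inl : c.V → c.al) ∅)) hinit.1.dom hz
    have hgv0 : 0 ≤ gv (box c.m c.n) (ext c.m c.n (cf (Sum.inl : c.V → c.al) ∅)) (em v) := by
      unfold gv
      have s1 := Pool.Agent.H21.SM.crad_nonneg (box c.m c.n) (em v)
      have s2 := Pool.Agent.H21.SM.sn_nonneg (box c.m c.n)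
        (ext c.m c.n (cf (Sum.inl : c.V → c.al) ∅)) (em v)
      positivity
    have hDpos : 0 < D := by linarith
    have h6 : (100 * 2 ^ i : ℝ) ^ (-(1 / 4) : ℝ) ≤ 3 * ((ρ : ℝ) / d) ^ ((1 / 4) : ℝ) := by
      have h7 : d / (81 * ρ) ≤ 100 * 2 ^ i := by
        rw [div_le_iff₀ (by positivity)]
        rw [pow_succ, hR] at hi2
        have : (0 : ℝ) < ρ * 2 ^ i := by positivity
        nlinarith
      have h8 : 0 < d / (81 * ρ) := by positivity
      calc (100 * 2 ^ i : ℝ) ^ (-(1 / 4) : ℝ) ≤ (d / (81 * ρ)) ^ (-(1 / 4) : ℝ) :=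
            Real.rpow_le_rpow_of_nonpos h8 h7 (by norm_num)
        _ = (81 * (ρ / d)) ^ ((1 / 4) : ℝ) := by
            rw [Real.rpow_neg h8.le, ← Real.inv_rpow h8.le]
            congr 1
            field_simp
        _ = 3 * ((ρ : ℝ) / d) ^ ((1 / 4) : ℝ) := by
            rw [Real.mul_rpow (by norm_num) (by positivity)]
            congr 1
            rw [show (81 : ℝ) = 3 ^ (4 : ℝ) by norm_num, ← Real.rpow_mul (by norm_num)]
            norm_num
    have hpow0 : 0 ≤ (100 * 2 ^ i : ℝ) ^ (-(1 / 4) : ℝ) := by positivity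
    calc C0 * (100 * 2 ^ i : ℝ) ^ (-(1 / 4) : ℝ) * (D ^ ((1 / 4) : ℝ) *
          gv (box c.m c.n) (ext c.m c.n (cf (Sum.inl : c.V → c.al) ∅)) (em v) + 1)
        ≤ |C0| * (100 * 2 ^ i : ℝ) ^ (-(1 / 4) : ℝ) * (D ^ ((1 / 4) : ℝ) *
          gv (box c.m c.n) (ext c.m c.n (cf (Sum.inl : c.V → c.al) ∅)) (em v) + 1) := by
          have := le_abs_self C0
          gcongr
      _ ≤ |C0| * (3 * ((ρ : ℝ) / d) ^ ((1 / 4) : ℝ)) * (1 + 1) := by gcongr
      _ = 6 * |C0| * ((ρ : ℝ) / d) ^ ((1 / 4) : ℝ) := by ring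
      _ ≤ (7 + 6 * |C0|) * ((ρ : ℝ) / d) ^ ((1 / 4) : ℝ) := by
          refine mul_le_mul_of_nonneg_right ?_ hp0
          linarith

end Pool.Agent.H89.Per
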