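import Mathlib

set_option autoImplicit false

/-! Decision trees, relevant queries and the query format of S19243 (helper89).

A decision tree `t` for `f` may query anything; only the queries of variables that are still relevant
for `f` are paid.  `exists_next` turns such a tree into a deterministic rule whose average number of
steps before `f` is determined is at most the average number of paid queries of `t`. -/

namespace Pool.Agent.H89.Per

open Classical

/-- A decision tree on the variables `V`. -/
inductive DT (V : Type) : Type
  | leaf : DT V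
  | ask : V → (Bool → DT V) → DT V

variable {V : Type}

/-- `ω` agrees with the partial assignment `ρ`. -/
def Agrees (ρ : V → Option Bool) (ω : V → Bool) : Prop := ∀ s : V, ∀ b : Bool, ρ s = some b → ω s = b

/-- `f` is determined by the partial assignment `ρ`. -/
def Det (f : (V → Bool) → Prop) (ρ : V → Option Bool) : Prop :=
  ∀ ω ω' : V → Bool, Agrees ρ ω → Agrees ρ ω' → (f ω' ↔ f ω)

/-- The variable `x` is not yet revealed, and flipping it changes `f` for some completion. -/
def Relevant (f : (V → Bool) → Prop) (ρ : V → Option Bool) (x : V) : Prop :=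
  ρ x = none ∧ ∃ ω : V → Bool, Agrees ρ ω ∧
    ¬ (f (Function.update ω x true) ↔ f (Function.update ω x false))

/-- The partial assignment at the end of the run of `t` on `ω`, from `ρ`. -/
noncomputable def final : DT V → (V → Option Bool) → (V → Bool) → (V → Option Bool)
  | DT.leaf, ρ, _ => ρ
  | DT.ask x k, ρ, ω =>
    match ρ x with
    | some b => final (k b) ρ ω
    | none => final (k (ω x)) (Function.update ρ x (some (ω x))) ω

/-- Number of paid queries of `t` on `ω`, from `ρ`. -/
noncomputable def paid (f : (V → Bool) → Prop) : DT V → (V → Option Bool) → (V → Bool) → ℕ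
  | DT.leaf, _, _ => 0
  | DT.ask x k, ρ, ω =>
    match ρ x with
    | some b => paid f (k b) ρ ω
    | none => (if Relevant f ρ x then 1 else 0) +
        paid f (k (ω x)) (Function.update ρ x (some (ω x))) ω

/-- The virtual run: relevant variables are read in `ω`, the others in `η`. -/
noncomputable def vfinal (f : (V → Bool) → Prop) (η : V → Bool) :
    DT V → (V → Option Bool) → (V → Bool) → (V → Option Bool)
  | DT.leaf, ρ, _ => ρ
  | DT.ask x k, ρ, ω =>
    match ρ x with
    | some b => vfinal f η (k b) ρ ω
    | none =>
      if Relevant f ρ x then vfinal f η (k (ω x)) (Function.update ρ x (some (ω x))) ω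
      else vfinal f η (k (η x)) (Function.update ρ x (some (η x))) ω

/-- Number of paid queries of the virtual run whose variable is not revealed in `σ`. -/
noncomputable def need (f : (V → Bool) → Prop) (η : V → Bool) :
    DT V → (V → Option Bool) → (V → Option Bool) → (V → Bool) → ℕ
  | DT.leaf, _, _, _ => 0
  | DT.ask x k, ρ, σ, ω =>
    match ρ x with
    | some b => need f η (k b) ρ σ ω
    | none =>
      if Relevant f ρ x then (if σ x = none then 1 else 0) +
        need f η (k (ω x)) (Function.update ρ x (some (ω x))) σ ω
      else need f η (k (η x)) (Function.update ρ x (some (η x))) σ ω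

/-- The first variable the virtual run needs and that is not revealed in `σ`. -/
noncomputable def sim (f : (V → Bool) → Prop) (η : V → Bool) :
    DT V → (V → Option Bool) → (V → Option Bool) → Option V
  | DT.leaf, _, _ => none
  | DT.ask x k, ρ, σ =>
    match ρ x with
    | some b => sim f η (k b) ρ σ
    | none =>
      if Relevant f ρ x then
        match σ x with
        | none => some x
        | some b => sim f η (k b) (Function.update ρ x (some b)) σ
      else sim f η (k (η x)) (Function.update ρ x (some (η x))) σ

section
variable (f : (V → Bool) → Prop) (η : V → Bool)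

theorem final_some {x : V} {k : Bool → DT V} {ρ : V → Option Bool} {ω : V → Bool} {b : Bool}
    (h : ρ x = some b) : final (DT.ask x k) ρ ω = final (k b) ρ ω := by
  simp only [final, h]

theorem final_none {x : V} {k : Bool → DT V} {ρ : V → Option Bool} {ω : V → Bool}
    (h : ρ x = none) :
    final (DT.ask x k) ρ ω = final (k (ω x)) (Function.update ρ x (some (ω x))) ω := by
  simp only [final, h]

theorem paid_some {x : V} {k : Bool → DT V} {ρ : V → Option Bool} {ω : V → Bool} {b : Bool}
    (h : ρ x = some b) : paid f (DT.ask x k) ρ ω = paid f (k b) ρ ω := by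
  simp only [paid, h]

theorem paid_none {x : V} {k : Bool → DT V} {ρ : V → Option Bool} {ω : V → Bool}
    (h : ρ x = none) :
    paid f (DT.ask x k) ρ ω = (if Relevant f ρ x then 1 else 0) +
      paid f (k (ω x)) (Function.update ρ x (some (ω x))) ω := by
  simp only [paid, h]

theorem vfinal_some {x : V} {k : Bool → DT V} {ρ : V → Option Bool} {ω : V → Bool} {b : Bool}
    (h : ρ x = some b) : vfinal f η (DT.ask x k) ρ ω = vfinal f η (k b) ρ ω := by
  simp only [vfinal, h]

theorem vfinal_rel {x : V} {k : Bool → DT V} {ρ : V → Option Bool} {ω : V → Bool}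
    (h : ρ x = none) (hr : Relevant f ρ x) :
    vfinal f η (DT.ask x k) ρ ω = vfinal f η (k (ω x)) (Function.update ρ x (some (ω x))) ω := by
  simp only [vfinal, h, if_pos hr]

theorem vfinal_irr {x : V} {k : Bool → DT V} {ρ : V → Option Bool} {ω : V → Bool}
    (h : ρ x = none) (hr : ¬ Relevant f ρ x) :
    vfinal f η (DT.ask x k) ρ ω = vfinal f η (k (η x)) (Function.update ρ x (some (η x))) ω := by
  simp only [vfinal, h, if_neg hr]

theorem need_some {x : V} {k : Bool → DT V} {ρ σ : V → Option Bool} {ω : V → Bool} {b : Bool}
    (h : ρ x = some b) : need f η (DT.ask x k) ρ σ ω = need f η (k b) ρ σ ω := by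
  simp only [need, h]

theorem need_rel {x : V} {k : Bool → DT V} {ρ σ : V → Option Bool} {ω : V → Bool}
    (h : ρ x = none) (hr : Relevant f ρ x) :
    need f η (DT.ask x k) ρ σ ω = (if σ x = none then 1 else 0) +
      need f η (k (ω x)) (Function.update ρ x (some (ω x))) σ ω := by
  simp only [need, h, if_pos hr]

theorem need_irr {x : V} {k : Bool → DT V} {ρ σ : V → Option Bool} {ω : V → Bool}
    (h : ρ x = none) (hr : ¬ Relevant f ρ x) :
    need f η (DT.ask x k) ρ σ ω = need f η (k (η x)) (Function.update ρ x (some (η x))) σ ω := by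
  simp only [need, h, if_neg hr]

theorem sim_some {x : V} {k : Bool → DT V} {ρ σ : V → Option Bool} {b : Bool}
    (h : ρ x = some b) : sim f η (DT.ask x k) ρ σ = sim f η (k b) ρ σ := by
  simp only [sim, h]

theorem sim_rel_none {x : V} {k : Bool → DT V} {ρ σ : V → Option Bool}
    (h : ρ x = none) (hr : Relevant f ρ x) (hs : σ x = none) :
    sim f η (DT.ask x k) ρ σ = some x := by
  simp only [sim, h, if_pos hr, hs]

theorem sim_rel_some {x : V} {k : Bool → DT V} {ρ σ : V → Option Bool} {b : Bool}
    (h : ρ x = none) (hr : Relevant f ρ x) (hs : σ x = some b) :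
    sim f η (DT.ask x k) ρ σ = sim f η (k b) (Function.update ρ x (some b)) σ := by
  simp only [sim, h, if_pos hr, hs]

theorem sim_irr {x : V} {k : Bool → DT V} {ρ σ : V → Option Bool}
    (h : ρ x = none) (hr : ¬ Relevant f ρ x) :
    sim f η (DT.ask x k) ρ σ = sim f η (k (η x)) (Function.update ρ x (some (η x))) σ := by
  simp only [sim, h, if_neg hr]

end

theorem option_cases (o : Option Bool) : o = none ∨ ∃ b, o = some b := by
  cases o with
  | none => exact Or.inl rfl
  | some b => exact Or.inr ⟨b, rfl⟩

/-! ### Independence of coordinates already revealed -/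

theorem upd_ne {ρ : V → Option Bool} {x y : V} {o : Bool} (h : ρ y ≠ none) :
    Function.update ρ x (some o) y ≠ none := by
  by_cases hxy : y = x
  · subst hxy; simp
  · rw [Function.update_of_ne hxy]; exact h

theorem paid_upd (f : (V → Bool) → Prop) (t : DT V) : ∀ (ρ : V → Option Bool) (ω : V → Bool) (y : V)
    (c : Bool), ρ y ≠ none → paid f t ρ (Function.update ω y c) = paid f t ρ ω := by
  induction t with
  | leaf => intro ρ ω y c _; simp [paid]
  | ask x k ih =>
    intro ρ ω y c hy
    rcases option_cases (ρ x) with h | ⟨b, h⟩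
    · have hxy : x ≠ y := fun e => hy (e ▸ h)
      rw [paid_none f h, paid_none f h, Function.update_of_ne hxy, ih _ _ _ _ _ (upd_ne hy)]
    · rw [paid_some f h, paid_some f h, ih _ _ _ _ _ hy]

theorem need_updω (f : (V → Bool) → Prop) (η : V → Bool) (t : DT V) :
    ∀ (ρ σ : V → Option Bool) (ω : V → Bool) (y : V)
    (c : Bool), ρ y ≠ none → need f η t ρ σ (Function.update ω y c) = need f η t ρ σ ω := by
  induction t with
  | leaf => intro ρ σ ω y c _; simp [need]
  | ask x k ih =>
    intro ρ σ ω y c hy
    rcases option_cases (ρ x) with h | ⟨b, h⟩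
    · have hxy : x ≠ y := fun e => hy (e ▸ h)
      by_cases hr : Relevant f ρ x
      · rw [need_rel f η h hr, need_rel f η h hr, Function.update_of_ne hxy,
          ih _ _ _ _ _ _ (upd_ne hy)]
      · rw [need_irr f η h hr, need_irr f η h hr, ih _ _ _ _ _ _ (upd_ne hy)]
    · rw [need_some f η h, need_some f η h, ih _ _ _ _ _ _ hy]

theorem need_updη (f : (V → Bool) → Prop) (t : DT V) :
    ∀ (η : V → Bool) (ρ σ : V → Option Bool) (ω : V → Bool) (y : V)
    (c : Bool), ρ y ≠ none → need f (Function.update η y c) t ρ σ ω = need f η t ρ σ ω := by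
  induction t with
  | leaf => intro η ρ σ ω y c _; simp [need]
  | ask x k ih =>
    intro η ρ σ ω y c hy
    rcases option_cases (ρ x) with h | ⟨b, h⟩
    · have hxy : x ≠ y := fun e => hy (e ▸ h)
      by_cases hr : Relevant f ρ x
      · rw [need_rel f _ h hr, need_rel f _ h hr, ih _ _ _ _ _ _ _ (upd_ne hy)]
      · rw [need_irr f _ h hr, need_irr f _ h hr, Function.update_of_ne hxy,
          ih _ _ _ _ _ _ _ (upd_ne hy)]
    · rw [need_some f _ h, need_some f _ h, ih _ _ _ _ _ _ _ hy]

theorem need_updσ (f : (V → Bool) → Prop) (η : V → Bool) (t : DT V) :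
    ∀ (ρ σ : V → Option Bool) (ω : V → Bool) (y : V)
    (o : Option Bool), ρ y ≠ none → need f η t ρ (Function.update σ y o) ω = need f η t ρ σ ω := by
  induction t with
  | leaf => intro ρ σ ω y c _; simp [need]
  | ask x k ih =>
    intro ρ σ ω y c hy
    rcases option_cases (ρ x) with h | ⟨b, h⟩
    · have hxy : x ≠ y := fun e => hy (e ▸ h)
      by_cases hr : Relevant f ρ x
      · rw [need_rel f η h hr, need_rel f η h hr, Function.update_of_ne hxy,
          ih _ _ _ _ _ _ (upd_ne hy)]
      · rw [need_irr f η h hr, need_irr f η h hr, ih _ _ _ _ _ _ (upd_ne hy)]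
    · rw [need_some f η h, need_some f η h, ih _ _ _ _ _ _ hy]

theorem need_mono (f : (V → Bool) → Prop) (η : V → Bool) (t : DT V) :
    ∀ (ρ σ : V → Option Bool) (ω : V → Bool) (y : V) (b : Bool),
      need f η t ρ (Function.update σ y (some b)) ω ≤ need f η t ρ σ ω := by
  induction t with
  | leaf => intro ρ σ ω y c; simp [need]
  | ask x k ih =>
    intro ρ σ ω y c
    rcases option_cases (ρ x) with h | ⟨b, h⟩
    · by_cases hr : Relevant f ρ x
      · rw [need_rel f η h hr, need_rel f η h hr]
        refine Nat.add_le_add ?_ (ih _ _ _ _ _ _)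
        by_cases hxy : x = y
        · subst hxy; simp
        · rw [Function.update_of_ne hxy]
      · rw [need_irr f η h hr, need_irr f η h hr]
        exact ih _ _ _ _ _ _
    · rw [need_some f η h, need_some f η h]
      exact ih _ _ _ _ _ _

/-! ### The simulation -/

theorem sim_need (f : (V → Bool) → Prop) (η : V → Bool) (t : DT V) :
    ∀ (ρ σ : V → Option Bool) (ω : V → Bool), Agrees σ ω →
      (sim f η t ρ σ = none ∧ need f η t ρ σ ω = 0) ∨
      ∃ y, sim f η t ρ σ = some y ∧ σ y = none ∧
        need f η t ρ σ ω = need f η t ρ (Function.update σ y (some (ω y))) ω + 1 := by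
  induction t with
  | leaf => intro ρ σ ω _; left; simp [sim, need]
  | ask x k ih =>
    intro ρ σ ω hσ
    rcases option_cases (ρ x) with h | ⟨b, h⟩
    · by_cases hr : Relevant f ρ x
      · rcases option_cases (σ x) with hs | ⟨b, hs⟩
        · right
          refine ⟨x, sim_rel_none f η h hr hs, hs, ?_⟩
          rw [need_rel f η h hr, need_rel f η h hr, if_pos hs, Function.update_self, if_neg (by simp),
            need_updσ f η _ _ _ _ _ _ (by simp)]
          ring
        · have hb : ω x = b := hσ x b hs
          rcases ih b (Function.update ρ x (some b)) σ ω hσ with ⟨h1, h2⟩ | ⟨y, h1, h2, h3⟩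
          · left
            rw [sim_rel_some f η h hr hs, need_rel f η h hr, hb, h1, h2, if_neg (by simp [hs])]
            exact ⟨rfl, rfl⟩
          · right
            refine ⟨y, by rw [sim_rel_some f η h hr hs, h1], h2, ?_⟩
            have hxy : x ≠ y := fun e => by rw [e] at hs; simp [h2] at hs
            rw [need_rel f η h hr, need_rel f η h hr, hb, h3, Function.update_of_ne hxy]
            ring
      · rcases ih (η x) (Function.update ρ x (some (η x))) σ ω hσ with ⟨h1, h2⟩ | ⟨y, h1, h2, h3⟩
        · left
          rw [sim_irr f η h hr, need_irr f η h hr]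
          exact ⟨h1, h2⟩
        · right
          refine ⟨y, by rw [sim_irr f η h hr, h1], h2, ?_⟩
          rw [need_irr f η h hr, need_irr f η h hr, h3]
    · rcases ih b ρ σ ω hσ with ⟨h1, h2⟩ | ⟨y, h1, h2, h3⟩
      · left
        rw [sim_some f η h, need_some f η h]
        exact ⟨h1, h2⟩
      · right
        refine ⟨y, by rw [sim_some f η h, h1], h2, ?_⟩
        rw [need_some f η h, need_some f η h, h3]

/-- If the simulation needs nothing more, the virtual run is the same for all configurations that
agree with the real state. -/
theorem sim_none_vfinal (f : (V → Bool) → Prop) (η : V → Bool) (t : DT V) :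
    ∀ (ρ σ : V → Option Bool) (ω ω' : V → Bool), Agrees σ ω → Agrees σ ω' →
      sim f η t ρ σ = none → vfinal f η t ρ ω = vfinal f η t ρ ω' := by
  induction t with
  | leaf => intro ρ σ ω ω' _ _ _; simp [vfinal]
  | ask x k ih =>
    intro ρ σ ω ω' hσ hσ' hsim
    rcases option_cases (ρ x) with h | ⟨b, h⟩
    · by_cases hr : Relevant f ρ x
      · rcases option_cases (σ x) with hs | ⟨b, hs⟩
        · rw [sim_rel_none f η h hr hs] at hsim
          simp at hsim
        · rw [sim_rel_some f η h hr hs] at hsim
          rw [vfinal_rel f η h hr, vfinal_rel f η h hr, hσ x b hs, hσ' x b hs]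
          exact ih _ _ _ _ _ hσ hσ' hsim
      · rw [sim_irr f η h hr] at hsim
        rw [vfinal_irr f η h hr, vfinal_irr f η h hr]
        exact ih _ _ _ _ _ hσ hσ' hsim
    · rw [sim_some f η h] at hsim
      rw [vfinal_some f η h, vfinal_some f η h]
      exact ih _ _ _ _ _ hσ hσ' hsim

/-! ### Correctness of the virtual run -/

/-- Overwrite `ω` by the partial assignment `ρ`. -/
def ovw (ρ : V → Option Bool) (ω : V → Bool) : V → Bool := fun s => (ρ s).getD (ω s)

theorem agrees_over (ρ : V → Option Bool) (ω : V → Bool) : Agrees ρ (ovw ρ ω) := by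
  intro s b h
  simp [ovw, h]

theorem over_of_agrees {ρ : V → Option Bool} {ω : V → Bool} (h : Agrees ρ ω) : ovw ρ ω = ω := by
  funext s
  rcases option_cases (ρ s) with h1 | ⟨b, h1⟩
  · simp [ovw, h1]
  · simp [ovw, h1, h s b h1]

theorem over_update {ρ : V → Option Bool} {ω : V → Bool} {x : V} {b : Bool} :
    ovw (Function.update ρ x (some b)) ω = Function.update (ovw ρ ω) x b := by
  funext s
  by_cases hs : s = x
  · subst hs; simp [ovw]
  · simp [ovw, Function.update_of_ne hs]

/-- The virtual run never changes the value of `f`. -/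
theorem vfinal_inv (f : (V → Bool) → Prop) (η : V → Bool) (t : DT V) :
    ∀ (ρ : V → Option Bool) (ω : V → Bool),
      (f (ovw (vfinal f η t ρ ω) ω) ↔ f (ovw ρ ω)) := by
  induction t with
  | leaf => intro ρ ω; simp [vfinal]
  | ask x k ih =>
    intro ρ ω
    rcases option_cases (ρ x) with h | ⟨b, h⟩
    · by_cases hr : Relevant f ρ x
      · rw [vfinal_rel f η h hr, ih, over_update]
        have : Function.update (ovw ρ ω) x (ω x) = ovw ρ ω := by
          have h2 : ovw ρ ω x = ω x := by simp [ovw, h]
          conv_lhs => rw [← h2]
          exact Function.update_eq_self x _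
        rw [this]
      · rw [vfinal_irr f η h hr, ih, over_update]
        have hr2 : ∀ b b' : Bool, (f (Function.update (ovw ρ ω) x b) ↔
            f (Function.update (ovw ρ ω) x b')) := by
          have h3 : (f (Function.update (ovw ρ ω) x true) ↔ f (Function.update (ovw ρ ω) x false)) := by
            by_contra hc
            exact hr ⟨h, ovw ρ ω, agrees_over ρ ω, hc⟩
          intro b b'
          cases b <;> cases b' <;> simp [h3]
        have h4 := hr2 (η x) (ovw ρ ω x)
        rwa [Function.update_eq_self] at h4
    · rw [vfinal_some f η h, ih]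

/-- The final states extend the initial one. -/
theorem vfinal_ext (f : (V → Bool) → Prop) (η : V → Bool) (t : DT V) :
    ∀ (ρ : V → Option Bool) (ω : V → Bool) (s : V) (b : Bool), ρ s = some b →
      vfinal f η t ρ ω s = some b := by
  induction t with
  | leaf => intro ρ ω s b h; simpa [vfinal] using h
  | ask x k ih =>
    intro ρ ω s b hs
    rcases option_cases (ρ x) with h | ⟨b', h⟩
    · have hsx : s ≠ x := fun e => by rw [e, h] at hs; simp at hs
      by_cases hr : Relevant f ρ x
      · rw [vfinal_rel f η h hr]
        exact ih _ _ _ _ _ (by rw [Function.update_of_ne hsx]; exact hs)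
      · rw [vfinal_irr f η h hr]
        exact ih _ _ _ _ _ (by rw [Function.update_of_ne hsx]; exact hs)
    · rw [vfinal_some f η h]
      exact ih _ _ _ _ _ hs

/-- The virtual run is the run of the tree on the virtual configuration. -/
theorem final_over (f : (V → Bool) → Prop) (η : V → Bool) (t : DT V) :
    ∀ (ρ : V → Option Bool) (ω ω' : V → Bool), Agrees (vfinal f η t ρ ω) ω' →
      final t ρ ω' = vfinal f η t ρ ω := by
  induction t with
  | leaf => intro ρ ω ω' _; simp [vfinal, final]
  | ask x k ih =>
    intro ρ ω ω' hag
    rcases option_cases (ρ x) with h | ⟨b, h⟩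
    · by_cases hr : Relevant f ρ x
      · rw [vfinal_rel f η h hr] at hag ⊢
        have hx : ω' x = ω x := hag x (ω x) (vfinal_ext f η _ _ _ _ _ (by simp))
        rw [final_none h, hx]
        exact ih _ _ _ _ hag
      · rw [vfinal_irr f η h hr] at hag ⊢
        have hx : ω' x = η x := hag x (η x) (vfinal_ext f η _ _ _ _ _ (by simp))
        rw [final_none h, hx]
        exact ih _ _ _ _ hag
    · rw [vfinal_some f η h] at hag ⊢
      rw [final_some h]
      exact ih _ _ _ _ hag

/-- The tree `t` decides `f`. -/
def Decides (t : DT V) (f : (V → Bool) → Prop) : Prop :=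
  ∀ ω : V → Bool, Det f (final t (fun _ => none) ω)

theorem agrees_none (ω : V → Bool) : Agrees (fun _ : V => (none : Option Bool)) ω := by
  intro s b h
  simp at h

theorem over_none (ω : V → Bool) : ovw (fun _ : V => (none : Option Bool)) ω = ω := by
  funext s; simp [ovw]

/-- When the simulation needs nothing more, the real state determines `f`. -/
theorem det_of_sim_none {f : (V → Bool) → Prop} {t : DT V} (ht : Decides t f) (η : V → Bool)
    {σ : V → Option Bool} (hs : sim f η t (fun _ => none) σ = none) : Det f σ := by
  intro ω ω' hω hω'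
  have h1 := sim_none_vfinal f η t (fun _ => none) σ ω ω' hω hω' hs
  have h2 := vfinal_inv f η t (fun _ => none) ω
  have h3 := vfinal_inv f η t (fun _ => none) ω'
  rw [over_none] at h2 h3
  rw [← h2, ← h3, ← h1]
  have h4 : final t (fun _ => none) (ovw (vfinal f η t (fun _ => none) ω) ω) =
      vfinal f η t (fun _ => none) ω := final_over f η t _ _ _ (agrees_over _ _)
  have h5 := ht (ovw (vfinal f η t (fun _ => none) ω) ω)
  rw [h4] at h5
  exact h5 _ _ (agrees_over _ _) (agrees_over _ _)

/-! ### The rule -/

section
variable [Nonempty V]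

/-- The next variable to query. -/
noncomputable def nextOf (f : (V → Bool) → Prop) (t : DT V) (η : V → Bool) (σ : V → Option Bool) : V :=
  (sim f η t (fun _ => none) σ).getD (Classical.arbitrary V)

/-- The state after `k` queries. -/
noncomputable def st (nx : (V → Option Bool) → V) (ω : V → Bool) (k : ℕ) : V → Option Bool :=
  ((fun ρ : V → Option Bool => Function.update ρ (nx ρ) (some (ω (nx ρ))))^[k] (fun _ => none))

theorem st_succ (nx : (V → Option Bool) → V) (ω : V → Bool) (k : ℕ) :
    st nx ω (k + 1) = Function.update (st nx ω k) (nx (st nx ω k)) (some (ω (nx (st nx ω k)))) := by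
  unfold st
  rw [Function.iterate_succ_apply']

theorem st_agrees (nx : (V → Option Bool) → V) (ω : V → Bool) (k : ℕ) : Agrees (st nx ω k) ω := by
  induction k with
  | zero => exact agrees_none ω
  | succ k ih =>
    rw [st_succ]
    intro s b h
    by_cases hs : s = nx (st nx ω k)
    · rw [hs, Function.update_self] at h
      rw [hs]
      exact Option.some.inj h
    · rw [Function.update_of_ne hs] at h
      exact ih s b h

theorem need_st (f : (V → Bool) → Prop) (t : DT V) (η ω : V → Bool) (k : ℕ) :
    need f η t (fun _ => none) (st (nextOf f t η) ω k) ω ≤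
      need f η t (fun _ => none) (fun _ => none) ω - k := by
  induction k with
  | zero => exact le_of_eq rfl
  | succ k ih =>
    rcases sim_need f η t (fun _ => none) (st (nextOf f t η) ω k) ω (st_agrees _ _ _) with
      ⟨h1, h2⟩ | ⟨y, h1, _, h3⟩
    · rw [st_succ]
      refine le_trans (need_mono f η t _ _ _ _ _) ?_
      rw [h2]
      exact Nat.zero_le _
    · have hn : nextOf f t η (st (nextOf f t η) ω k) = y := by
        have : nextOf f t η (st (nextOf f t η) ω k) =
          (sim f η t (fun _ => none) (st (nextOf f t η) ω k)).getD (Classical.arbitrary V) := rfl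
        rw [this, h1]; rfl
      rw [st_succ, hn]
      omega

/-- After as many steps as the virtual run has paid queries, `f` is determined. -/
theorem det_st {f : (V → Bool) → Prop} {t : DT V} (ht : Decides t f) (η ω : V → Bool) (k : ℕ)
    (hk : need f η t (fun _ => none) (fun _ => none) ω ≤ k) : Det f (st (nextOf f t η) ω k) := by
  refine det_of_sim_none ht η ?_
  rcases sim_need f η t (fun _ => none) (st (nextOf f t η) ω k) ω (st_agrees _ _ _) with
      ⟨h1, _⟩ | ⟨y, h1, _, h3⟩
  · exact h1
  · have := need_st f t η ω k
    omega

end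

end Pool.Agent.H89.Per
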